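import Pool.Agent.Lib_MP_6db0a9_an.Defs

/-!
# MP_6db0a9_an: approximate identities in the Schwartz space
-/

open MeasureTheory SchwartzMap Set Filter Topology
open scoped ENNReal NNReal FourierTransform LineDeriv ContDiff

namespace MP6db0a9

variable {n : ℕ}

theorem approx_fourier_dilS {t : ℝ} (ht : 0 < t) (κ : 𝓢(E n, ℂ)) (ξ : E n) :
    𝓕 (dilS t κ) ξ = 𝓕 κ (t⁻¹ • ξ) := by
  rw [fourier_coe, fourier_coe, Real.fourier_eq', Real.fourier_eq']
  have h1 : ∀ v : E n, Complex.exp (↑(-2 * Real.pi * inner ℝ v ξ) * Complex.I) • dilS t κ v =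
      (fun y : E n => (t : ℂ) ^ n •
        (Complex.exp (↑(-2 * Real.pi * inner ℝ y (t⁻¹ • ξ)) * Complex.I) • κ y)) (t • v) := by
    intro v
    simp only [dilS_apply ht.ne', inner_smul_left, inner_smul_right, smul_eq_mul]
    have h2 : (starRingEnd ℝ) t * (t⁻¹ * inner ℝ v ξ) = inner ℝ v ξ := by
      simp only [conj_trivial]
      field_simp
    rw [mul_left_comm (t⁻¹), h2]
    ring
  simp only [h1]
  rw [Measure.integral_comp_smul volume (fun y : E n => (t : ℂ) ^ n •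
        (Complex.exp (↑(-2 * Real.pi * inner ℝ y (t⁻¹ • ξ)) * Complex.I) • κ y)) t,
    integral_smul, finrank_euclideanSpace_fin, abs_of_pos (by positivity)]
  have ht' : (t : ℂ) ≠ 0 := by exact_mod_cast ht.ne'
  rw [Complex.real_smul, smul_eq_mul, ← mul_assoc]
  push_cast
  rw [inv_mul_cancel₀ (pow_ne_zero _ ht'), one_mul]

theorem approx_bound_G (g : 𝓢(E n, ℂ)) (i : ℕ) : ∃ C : ℝ, 0 ≤ C ∧ ∀ ε : ℝ, 0 < ε → ε ≤ 1 →
    ∀ x : E n, ‖iteratedFDeriv ℝ i (fun z : E n => g (ε • z) - g 0) x‖ ≤ C * ε * (1 + ‖x‖) := by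
  cases i with
  | zero =>
    refine ⟨SchwartzMap.seminorm ℝ 0 1 g, apply_nonneg _ _, fun ε h0 h1 x => ?_⟩
    rw [norm_iteratedFDeriv_zero]
    have h2 : ‖g (ε • x) - g 0‖ ≤ SchwartzMap.seminorm ℝ 0 1 g * ‖ε • x - 0‖ := by
      refine Convex.norm_image_sub_le_of_norm_fderiv_le (𝕜 := ℝ) (s := univ)
        (fun z _ => g.differentiableAt) (fun z _ => ?_) convex_univ (mem_univ _) (mem_univ _)
      rw [← norm_iteratedFDeriv_one]
      exact norm_iteratedFDeriv_le_seminorm ℝ g 1 z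
    rw [sub_zero, norm_smul, Real.norm_eq_abs, abs_of_pos h0] at h2
    refine h2.trans ?_
    rw [mul_assoc]
    refine mul_le_mul_of_nonneg_left (mul_le_mul_of_nonneg_left ?_ h0.le) (apply_nonneg _ _)
    linarith [norm_nonneg x]
  | succ i =>
    refine ⟨SchwartzMap.seminorm ℝ 0 (i + 1) g, apply_nonneg _ _, fun ε h0 h1 x => ?_⟩
    have hs : ContDiff ℝ (i + 1 : ℕ) (g : E n → ℂ) := g.smooth _
    have hs2 : ContDiff ℝ (i + 1 : ℕ) (fun z : E n => g (ε • z)) :=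
      hs.comp (contDiff_const_smul ε)
    have hfun : (fun z : E n => g (ε • z) - g 0) =
        (fun z : E n => g (ε • z)) - (fun _ : E n => g 0) := rfl
    rw [hfun, iteratedFDeriv_sub hs2 contDiff_const,
      iteratedFDeriv_const_of_ne (Nat.succ_ne_zero i), sub_zero,
      iteratedFDeriv_comp_const_smul ε hs]
    rw [norm_smul, norm_pow, Real.norm_eq_abs, abs_of_pos h0]
    have h2 := norm_iteratedFDeriv_le_seminorm ℝ g (i + 1) (ε • x)
    have h3 : ε ^ (i + 1) ≤ ε := by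
      rw [pow_succ]
      exact mul_le_of_le_one_left h0.le (pow_le_one₀ h0.le h1)
    calc ε ^ (i + 1) * ‖iteratedFDeriv ℝ (i + 1) g (ε • x)‖
        ≤ ε * SchwartzMap.seminorm ℝ 0 (i + 1) g :=
          mul_le_mul h3 h2 (norm_nonneg _) h0.le
      _ = SchwartzMap.seminorm ℝ 0 (i + 1) g * ε * 1 := by ring
      _ ≤ _ := by
        refine mul_le_mul_of_nonneg_left ?_ (mul_nonneg (apply_nonneg _ _) h0.le)
        linarith [norm_nonneg x]

theorem approx_seminorm (g v : 𝓢(E n, ℂ)) (k l : ℕ) : ∃ C : ℝ, 0 ≤ C ∧ ∀ ε : ℝ, 0 < ε → ε ≤ 1 →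
    ∀ h : 𝓢(E n, ℂ), (∀ x, h x = (g (ε • x) - g 0) * v x) →
      SchwartzMap.seminorm ℂ k l h ≤ C * ε := by
  choose C hC0 hC using approx_bound_G g
  refine ⟨∑ i ∈ Finset.range (l + 1), (l.choose i : ℝ) * C i *
    (SchwartzMap.seminorm ℝ k (l - i) v + SchwartzMap.seminorm ℝ (k + 1) (l - i) v), ?_, ?_⟩
  · refine Finset.sum_nonneg fun i _ => mul_nonneg (mul_nonneg (Nat.cast_nonneg _) (hC0 i)) ?_
    exact add_nonneg (apply_nonneg _ _) (apply_nonneg _ _)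
  intro ε h0 h1 h hh
  refine seminorm_le_bound ℂ k l h ?_ fun x => ?_
  · refine mul_nonneg (Finset.sum_nonneg fun i _ => mul_nonneg
      (mul_nonneg (Nat.cast_nonneg _) (hC0 i)) ?_) h0.le
    exact add_nonneg (apply_nonneg _ _) (apply_nonneg _ _)
  have h2 : (h : E n → ℂ) = fun x => (g (ε • x) - g 0) * v x := funext hh
  have hG : ContDiff ℝ (l : ℕ∞) (fun z : E n => g (ε • z) - g 0) :=
    ((g.smooth _).comp (contDiff_const_smul ε)).sub contDiff_const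
  have h3 := norm_iteratedFDeriv_mul_le (𝕜 := ℝ) hG (v.smooth (l : ℕ∞)) x (n := l)
    (by simp)
  rw [h2]
  refine (mul_le_mul_of_nonneg_left h3 (by positivity)).trans ?_
  rw [Finset.mul_sum, Finset.sum_mul]
  refine Finset.sum_le_sum fun i _ => ?_
  have h4 := hC i ε h0 h1 x
  have h5 := le_seminorm ℝ k (l - i) v x
  have h6 := le_seminorm ℝ (k + 1) (l - i) v x
  have h7 : ‖x‖ ^ k * (1 + ‖x‖) * ‖iteratedFDeriv ℝ (l - i) v x‖ ≤
      SchwartzMap.seminorm ℝ k (l - i) v + SchwartzMap.seminorm ℝ (k + 1) (l - i) v := by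
    have : ‖x‖ ^ k * (1 + ‖x‖) * ‖iteratedFDeriv ℝ (l - i) v x‖ =
      ‖x‖ ^ k * ‖iteratedFDeriv ℝ (l - i) v x‖ +
      ‖x‖ ^ (k + 1) * ‖iteratedFDeriv ℝ (l - i) v x‖ := by ring
    rw [this]
    exact add_le_add h5 h6
  calc ‖x‖ ^ k * ((l.choose i : ℝ) * ‖iteratedFDeriv ℝ i (fun z : E n => g (ε • z) - g 0) x‖ *
        ‖iteratedFDeriv ℝ (l - i) v x‖)
      ≤ ‖x‖ ^ k * ((l.choose i : ℝ) * (C i * ε * (1 + ‖x‖)) *
        ‖iteratedFDeriv ℝ (l - i) v x‖) := by gcongr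
    _ = (l.choose i : ℝ) * C i * ε *
        (‖x‖ ^ k * (1 + ‖x‖) * ‖iteratedFDeriv ℝ (l - i) v x‖) := by ring
    _ ≤ (l.choose i : ℝ) * C i * ε *
        (SchwartzMap.seminorm ℝ k (l - i) v + SchwartzMap.seminorm ℝ (k + 1) (l - i) v) := by
        refine mul_le_mul_of_nonneg_left h7 ?_
        exact mul_nonneg (mul_nonneg (Nat.cast_nonneg _) (hC0 i)) h0.le
    _ = _ := by ring

theorem tendsto_sconv_dil (κ w : 𝓢(E n, ℂ)) (hκ : ∫ x, κ x = 1) :
    Tendsto (fun j : ℕ => sconv (dilS (2 ^ j) κ) w) atTop (𝓝 w) := by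
  have h1 : Tendsto (fun j : ℕ => 𝓕 (sconv (dilS (2 ^ j) κ) w)) atTop (𝓝 (𝓕 w)) := by
    rw [(schwartz_withSeminorms ℂ (E n) ℂ).tendsto_nhds]
    rintro ⟨k, l⟩ δ hδ
    obtain ⟨C, hC0, hC⟩ := approx_seminorm (𝓕 κ) (𝓕 w) k l
    have h2 : Tendsto (fun j : ℕ => C * ((1 / 2 : ℝ)) ^ j) atTop (𝓝 (C * 0)) :=
      (tendsto_pow_atTop_nhds_zero_of_lt_one (by norm_num) (by norm_num)).const_mul C
    rw [mul_zero] at h2
    filter_upwards [h2.eventually (gt_mem_nhds hδ)] with j hj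
    refine lt_of_le_of_lt ?_ hj
    refine hC ((1 / 2 : ℝ) ^ j) (by positivity) (pow_le_one₀ (by norm_num) (by norm_num)) _ ?_
    intro x
    have h3 : 𝓕 κ (0 : E n) = 1 := by
      rw [fourier_coe, Real.fourier_eq']
      simpa using hκ
    have h4 : 𝓕 (sconv (dilS (2 ^ j) κ) w) x = 𝓕 κ ((1 / 2 : ℝ) ^ j • x) * 𝓕 w x := by
      rw [sconv, fourier_convolution, pairing_apply_apply, ContinuousLinearMap.mul_apply',
        approx_fourier_dilS (by positivity)]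
      congr 3
      rw [one_div, inv_pow]
    rw [sub_apply, h4, h3, sub_mul, one_mul]
  have h5 := ((FourierTransform.fourierInvCLM ℂ 𝓢(E n, ℂ)).continuous.tendsto (𝓕 w)).comp h1
  simpa [Function.comp_def] using h5

end MP6db0a9
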