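import Pool.Agent.Lib_MP_6db0a9_an.Dist
import Pool.Agent.Lib_MP_6db0a9_an.Approx

/-!
# MP_6db0a9_an: kernels in a cone and the local reproducing formula
-/

open MeasureTheory SchwartzMap Set Filter Topology
open scoped ENNReal NNReal FourierTransform LineDeriv ContDiff

namespace MP6db0a9

variable {n : ℕ}

/-! ### Convolution, reflection, dilation -/

theorem agree_sconv_apply (a b : 𝓢(E n, ℂ)) (x : E n) :
    sconv a b x = ∫ t, a t * b (x - t) := by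
  rw [sconv, convolution_apply]
  rfl

theorem agree_fourier_inj {a b : 𝓢(E n, ℂ)} (h : 𝓕 a = 𝓕 b) : a = b := by
  have := congrArg (fun w : 𝓢(E n, ℂ) => 𝓕⁻ w) h
  simpa using this

theorem agree_fourier_sconv (a b : 𝓢(E n, ℂ)) (x : E n) :
    𝓕 (sconv a b) x = 𝓕 a x * 𝓕 b x := by
  rw [sconv, fourier_convolution, pairing_apply_apply]
  rfl

theorem agree_sconv_assoc (a b c : 𝓢(E n, ℂ)) :
    sconv (sconv a b) c = sconv a (sconv b c) := by
  apply agree_fourier_inj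
  ext x
  rw [agree_fourier_sconv, agree_fourier_sconv, agree_fourier_sconv, agree_fourier_sconv, mul_assoc]

theorem agree_sconv_sum {ι : Type*} (s : Finset ι) (a : ι → 𝓢(E n, ℂ)) (c : 𝓢(E n, ℂ)) :
    sconv (∑ i ∈ s, a i) c = ∑ i ∈ s, sconv (a i) c := by
  simp only [sconv, map_sum, sum_apply]

theorem agree_reflS_sconv (a b : 𝓢(E n, ℂ)) :
    reflS (sconv a b) = sconv (reflS a) (reflS b) := by
  ext x
  rw [reflS_apply, agree_sconv_apply, agree_sconv_apply, ← integral_neg_eq_self]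
  refine integral_congr_ae (Eventually.of_forall fun t => ?_)
  simp only [reflS_apply]
  congr 2
  abel

theorem agree_reflS_reflS (a : 𝓢(E n, ℂ)) : reflS (reflS a) = a := by
  ext x
  rw [reflS_apply, reflS_apply, neg_neg]

theorem agree_reflS_dilS {t : ℝ} (ht : t ≠ 0) (a : 𝓢(E n, ℂ)) :
    reflS (dilS t a) = dilS t (reflS a) := by
  ext x
  rw [reflS_apply, dilS_apply ht, dilS_apply ht, reflS_apply, smul_neg]

theorem agree_shiftS_zero (a : 𝓢(E n, ℂ)) : shiftS 0 a = reflS a := by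
  ext x
  rw [shiftS_apply, reflS_apply, zero_sub]

/-! ### Supports -/

theorem agree_tsupport_shiftS {y z : E n} {φ : 𝓢(E n, ℂ)} (h : z ∈ tsupport (shiftS y φ)) :
    y - z ∈ tsupport φ := by
  have h1 : (shiftS y φ : E n → ℂ) = φ ∘ (fun z => y - z) := by
    ext z
    exact shiftS_apply y z φ
  rw [h1] at h
  exact tsupport_comp_subset_preimage φ (continuous_const.sub continuous_id) h

theorem agree_compact_shiftS {y : E n} {φ : 𝓢(E n, ℂ)} (h : HasCompactSupport φ) :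
    HasCompactSupport (shiftS y φ) := by
  have h1 : (shiftS y φ : E n → ℂ) = φ ∘ (Homeomorph.subLeft y) := by
    ext z
    exact shiftS_apply y z φ
  rw [h1]
  exact h.comp_homeomorph _

theorem agree_tsupport_dilS {t : ℝ} (ht : t ≠ 0) {z : E n} {φ : 𝓢(E n, ℂ)}
    (h : z ∈ tsupport (dilS t φ)) : t • z ∈ tsupport φ := by
  have h1 : (dilS t φ : E n → ℂ) = fun z => (t : ℂ) ^ n * (φ ∘ (fun z : E n => t • z)) z := by
    ext z
    exact dilS_apply ht φ z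
  rw [h1] at h
  exact tsupport_comp_subset_preimage φ (continuous_const_smul t)
    (tsupport_mul_subset_right h)

theorem agree_compact_dilS {t : ℝ} (ht : t ≠ 0) {φ : 𝓢(E n, ℂ)} (h : HasCompactSupport φ) :
    HasCompactSupport (dilS t φ) := by
  have h1 : (dilS t φ : E n → ℂ) =
      fun z => (t : ℂ) ^ n * (φ ∘ (Homeomorph.smulOfNeZero t ht)) z := by
    ext z
    exact dilS_apply ht φ z
  rw [h1]
  exact (h.comp_homeomorph _).mul_left

theorem agree_cone_smul {e : E n} {r : ℝ} {c : E n} (hc : c ∈ cone e r) {s : ℝ} (hs : 0 < s)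
    (hs1 : s ≤ 1) : s • c ∈ cone e r := by
  obtain ⟨t, ⟨ht0, ht1⟩, h, hh, rfl⟩ := hc
  exact ⟨s * t, ⟨mul_pos hs ht0, mul_le_one₀ hs1 ht0.le ht1⟩, h, hh, by rw [smul_smul]⟩

theorem agree_cone_dilS {e : E n} {r : ℝ} {φ : 𝓢(E n, ℂ)} (h : ∀ x ∈ tsupport φ, -x ∈ cone e r)
    (j : ℕ) {x : E n} (hx : x ∈ tsupport (dilS (2 ^ j) φ)) : -x ∈ cone e r := by
  have h2 : (0 : ℝ) < 2 ^ j := by positivity
  have h1 := h _ (agree_tsupport_dilS h2.ne' hx)
  have h3 := agree_cone_smul h1 (inv_pos.2 h2) (inv_le_one_of_one_le₀ (one_le_pow₀ one_le_two))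
  rwa [← smul_neg, inv_smul_smul₀ h2.ne'] at h3

theorem agree_cone_fam {e : E n} {r : ℝ} {a0 a1 : 𝓢(E n, ℂ)}
    (h0 : ∀ x ∈ tsupport a0, -x ∈ cone e r) (h1 : ∀ x ∈ tsupport a1, -x ∈ cone e r)
    (j : ℕ) {x : E n} (hx : x ∈ tsupport (fam a0 a1 j)) : -x ∈ cone e r := by
  cases j with
  | zero => exact h0 x hx
  | succ j => exact agree_cone_dilS h1 j hx

/-- Restrictions agree: kernels in the cone only see `u` on `Ω`. -/
theorem cv_eq_of_agree (Ω V : Set (E n)) (e : E n) (r : ℝ)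
    (hcone : ∀ x ∈ Ω ∩ V, ∀ c ∈ cone e r, x + c ∈ Ω) (φ : 𝓢(E n, ℂ))
    (hφ : HasCompactSupport φ ∧ ∀ x ∈ tsupport φ, -x ∈ cone e r)
    (u v : 𝓢'(E n, ℂ)) (huv : AgreeOn Ω u v) (y : E n) (hy : y ∈ Ω ∩ V) :
    cv u φ y = cv v φ y := by
  refine huv _ (agree_compact_shiftS hφ.1) fun z hz => ?_
  have h1 := hφ.2 _ (agree_tsupport_shiftS hz)
  have h2 := hcone y hy _ h1
  simpa using h2

/-! ### Derivatives -/

theorem agree_pdS_succ (k : Fin n) (m : ℕ) (φ : 𝓢(E n, ℂ)) :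
    pdS k (m + 1) φ = ∂_{(EuclideanSpace.single k 1 : E n)} (pdS k m φ) := by
  rw [pdS, Function.iterate_succ_apply']
  rfl

theorem agree_pdS_succ' (k : Fin n) (m : ℕ) (φ : 𝓢(E n, ℂ)) :
    pdS k (m + 1) φ = pdS k m (∂_{(EuclideanSpace.single k 1 : E n)} φ) := by
  rw [pdS, Function.iterate_succ_apply]
  rfl

theorem agree_pd_succ (k : Fin n) (m : ℕ) (u : 𝓢'(E n, ℂ)) :
    pd k (m + 1) u = ∂_{(EuclideanSpace.single k 1 : E n)} (pd k m u) := by
  rw [pd, Function.iterate_succ_apply']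
  rfl

theorem agree_dilS_line {t : ℝ} (ht : t ≠ 0) (v : E n) (φ : 𝓢(E n, ℂ)) :
    dilS t (∂_{v} φ) = (t : ℂ)⁻¹ • ∂_{v} (dilS t φ) := by
  ext x
  rw [dilS_apply ht, smul_apply, lineDerivOp_apply_eq_fderiv, lineDerivOp_apply_eq_fderiv]
  have h1 : HasFDerivAt (dilS t φ : E n → ℂ)
      ((t : ℂ) ^ n • (fderiv ℝ φ (t • x)).comp (t • ContinuousLinearMap.id ℝ (E n))) x := by
    have h2 : (dilS t φ : E n → ℂ) = fun z => (t : ℂ) ^ n * (φ ∘ (fun z : E n => t • z)) z := by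
      ext z
      exact dilS_apply ht φ z
    rw [h2]
    have h3 : HasFDerivAt (φ ∘ (fun z : E n => t • z))
        ((fderiv ℝ φ (t • x)).comp (t • ContinuousLinearMap.id ℝ (E n))) x :=
      HasFDerivAt.comp x (φ.hasFDerivAt (t • x)) ((hasFDerivAt_id x).const_smul t)
    exact h3.const_mul _
  rw [h1.fderiv]
  have ht' : (t : ℂ) ≠ 0 := by exact_mod_cast ht
  simp only [smul_apply, ContinuousLinearMap.comp_apply,
    ContinuousLinearMap.id_apply, map_smul, smul_eq_mul, Complex.real_smul]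
  field_simp

theorem agree_dilS_pdS {t : ℝ} (ht : t ≠ 0) (k : Fin n) (m : ℕ) (φ : 𝓢(E n, ℂ)) :
    dilS t (pdS k m φ) = ((t : ℂ) ^ m)⁻¹ • pdS k m (dilS t φ) := by
  induction m with
  | zero => simp [pdS]
  | succ m ih =>
    rw [agree_pdS_succ, agree_dilS_line ht, ih, LineDeriv.lineDerivOp_smul, agree_pdS_succ,
      smul_smul, pow_succ, mul_inv, mul_comm]

theorem agree_shiftS_line (y : E n) (v : E n) (φ : 𝓢(E n, ℂ)) :
    shiftS y (∂_{v} φ) = - ∂_{v} (shiftS y φ) := by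
  ext x
  rw [shiftS_apply, neg_apply, lineDerivOp_apply_eq_fderiv, lineDerivOp_apply_eq_fderiv]
  have h1 : HasFDerivAt (shiftS y φ : E n → ℂ)
      ((fderiv ℝ φ (y - x)).comp (-ContinuousLinearMap.id ℝ (E n))) x := by
    have h2 : (shiftS y φ : E n → ℂ) = φ ∘ (fun z => y - z) := by
      ext z
      exact shiftS_apply y z φ
    rw [h2]
    exact HasFDerivAt.comp x (φ.hasFDerivAt (y - x)) ((hasFDerivAt_id x).const_sub y)
  rw [h1.fderiv]
  simp

theorem agree_cv_pdS (u : 𝓢'(E n, ℂ)) (k : Fin n) (m : ℕ) (φ : 𝓢(E n, ℂ)) (y : E n) :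
    cv u (pdS k m φ) y = cv (pd k m u) φ y := by
  induction m generalizing φ with
  | zero => rfl
  | succ m ih =>
    rw [agree_pdS_succ', ih, agree_pd_succ, cv, cv, agree_shiftS_line,
      TemperedDistribution.lineDerivOp_apply_apply]

/-- The kernels `φ_j` applied to `u` only see the pure derivatives of `u` on `Ω`. -/
theorem cv_eq_deriv (Ω V : Set (E n)) (e : E n) (r : ℝ)
    (hcone : ∀ x ∈ Ω ∩ V, ∀ c ∈ cone e r, x + c ∈ Ω) (m : ℕ) (η : Fin n → 𝓢(E n, ℂ))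
    (hη : ∀ k, HasCompactSupport (η k) ∧ ∀ x ∈ tsupport (η k), -x ∈ cone e r)
    (u : 𝓢'(E n, ℂ)) (g : Fin n → 𝓢'(E n, ℂ)) (hg : ∀ k, AgreeOn Ω (pd k m u) (g k))
    (j : ℕ) (y : E n) (hy : y ∈ Ω ∩ V) :
    cv u (dilS (2 ^ j) (∑ k, pdS k m (η k))) y =
      ((2 : ℂ) ^ (j * m))⁻¹ * ∑ k, cv (g k) (dilS (2 ^ j) (η k)) y := by
  have h2 : (2 : ℝ) ^ j ≠ 0 := by positivity
  have h3 : (((2 : ℝ) ^ j : ℝ) : ℂ) ^ m = (2 : ℂ) ^ (j * m) := by
    push_cast
    rw [← pow_mul]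
  have h4 : cv u (dilS (2 ^ j) (∑ k, pdS k m (η k))) y =
      ∑ k, cv u (dilS (2 ^ j) (pdS k m (η k))) y := by
    simp only [cv, map_sum]
  rw [h4, Finset.mul_sum]
  refine Finset.sum_congr rfl fun k _ => ?_
  have h5 : cv u (dilS (2 ^ j) (pdS k m (η k))) y =
      ((2 : ℂ) ^ (j * m))⁻¹ * cv u (pdS k m (dilS (2 ^ j) (η k))) y := by
    rw [agree_dilS_pdS h2, h3, cv, cv, map_smul, map_smul, smul_eq_mul]
  rw [h5, agree_cv_pdS]
  congr 1
  exact cv_eq_of_agree Ω V e r hcone _ ⟨agree_compact_dilS h2 (hη k).1,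
    fun x hx => agree_cone_dilS (hη k).2 j hx⟩ _ _ (hg k) y hy

/-! ### Local reproducing formula -/

theorem agree_temperate {χ : E n → ℂ} (hχ : SmB χ) : χ.HasTemperateGrowth := by
  refine ⟨hχ.1, fun k => ?_⟩
  obtain ⟨C, hC⟩ := hχ.2 k
  exact ⟨0, C, fun x => by simpa using hC x⟩

/-- `∫ (φ * u) θ = u (reflS φ * θ)`. -/
theorem agree_pair (u : 𝓢'(E n, ℂ)) (φ θ : 𝓢(E n, ℂ)) :
    ∫ y, cv u φ y * θ y = u (sconv (reflS φ) θ) := by
  have h1 := cv_sconv u φ (reflS θ) 0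
  rw [cv, agree_shiftS_zero, agree_reflS_sconv, agree_reflS_reflS] at h1
  rw [h1, ← integral_neg_eq_self]
  refine integral_congr_ae (Eventually.of_forall fun t => ?_)
  simp only [reflS_apply, zero_sub]

theorem agree_inner (ψ W : 𝓢(E n, ℂ)) (y : E n) :
    ∫ z, ψ (z - y) * W z = sconv (reflS ψ) W y := by
  rw [agree_sconv_apply]
  rw [← integral_sub_left_eq_self _ _ y]
  refine integral_congr_ae (Eventually.of_forall fun t => ?_)
  simp only [reflS_apply]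
  congr 2
  abel

/-- Local reproducing formula. -/
theorem F_agree (Ω V : Set (E n)) (e : E n) (r : ℝ) (χ : E n → ℂ) (hχ : SmB χ)
    (hcone : ∀ x ∈ Ω ∩ V, ∀ c ∈ cone e r, x + c ∈ Ω) (hsupp : tsupport χ ⊆ V)
    (hsuppc : ∀ x ∈ tsupport χ, ∀ c ∈ cone e r, x + c ∈ V)
    (φ0 φ1 ψ0 ψ1 κ : 𝓢(E n, ℂ)) (hψ0 : ∀ x ∈ tsupport ψ0, -x ∈ cone e r)
    (hψ1 : ∀ x ∈ tsupport ψ1, -x ∈ cone e r) (hκ : ∫ x, κ x = 1)
    (hrep : ∀ J : ℕ, ∑ j ∈ Finset.range (J + 1), sconv (fam φ0 φ1 j) (fam ψ0 ψ1 j) =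
      dilS (2 ^ J) κ)
    (u F : 𝓢'(E n, ℂ))
    (hF : ∀ w : 𝓢(E n, ℂ), HasSum (fun j : ℕ => ∫ y, (Ω ∩ V).indicator (cv u (fam φ0 φ1 j)) y *
      ∫ z, fam ψ0 ψ1 j (z - y) * (χ z * w z)) (F w))
    (w : 𝓢(E n, ℂ)) (hw : tsupport w ⊆ Ω) :
    F w = u (smulLeftCLM ℂ χ w) := by
  have hχt := agree_temperate hχ
  set W : 𝓢(E n, ℂ) := smulLeftCLM ℂ χ w with hW
  have hWz : ∀ z, χ z * w z = W z := fun z => by
    rw [hW, smulLeftCLM_apply_apply hχt, smul_eq_mul]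
  have hterm : ∀ j, ∫ y, (Ω ∩ V).indicator (cv u (fam φ0 φ1 j)) y *
      ∫ z, fam ψ0 ψ1 j (z - y) * (χ z * w z) =
      u (sconv (reflS (sconv (fam φ0 φ1 j) (fam ψ0 ψ1 j))) W) := by
    intro j
    rw [agree_reflS_sconv, agree_sconv_assoc, ← agree_pair]
    refine integral_congr_ae (Eventually.of_forall fun y => ?_)
    simp only [hWz, agree_inner]
    by_cases hy : y ∈ Ω ∩ V
    · rw [indicator_of_mem hy]
    · rw [indicator_of_notMem hy, zero_mul]
      symm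
      rw [← agree_inner]
      have h0 : ∀ z, fam ψ0 ψ1 j (z - y) * W z = 0 := by
        intro z
        by_contra hne
        have h1 : fam ψ0 ψ1 j (z - y) ≠ 0 := left_ne_zero_of_mul hne
        have h2 : W z ≠ 0 := right_ne_zero_of_mul hne
        rw [← hWz] at h2
        have h3 : z ∈ tsupport χ := subset_tsupport _ (left_ne_zero_of_mul h2)
        have h4 : z ∈ tsupport w := subset_tsupport _ (right_ne_zero_of_mul h2)
        have h5 : -(z - y) ∈ cone e r :=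
          agree_cone_fam hψ0 hψ1 j (subset_tsupport _ h1)
        have h6 := hcone z ⟨hw h4, hsupp h3⟩ _ h5
        have h7 := hsuppc z h3 _ h5
        have h8 : z + -(z - y) = y := by abel
        rw [h8] at h6 h7
        exact hy ⟨h6, h7⟩
      simp only [h0, integral_zero, mul_zero]
  have hF' := hF w
  simp only [hterm] at hF'
  have ht : Tendsto (fun J : ℕ => ∑ j ∈ Finset.range (J + 1),
      u (sconv (reflS (sconv (fam φ0 φ1 j) (fam ψ0 ψ1 j))) W)) atTop (𝓝 (F w)) :=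
    (tendsto_add_atTop_iff_nat 1).2 hF'.tendsto_sum_nat
  have hs : ∀ J : ℕ, ∑ j ∈ Finset.range (J + 1),
      u (sconv (reflS (sconv (fam φ0 φ1 j) (fam ψ0 ψ1 j))) W) =
      u (sconv (dilS (2 ^ J) (reflS κ)) W) := by
    intro J
    rw [← map_sum, ← agree_sconv_sum, ← map_sum, hrep, agree_reflS_dilS (by positivity)]
  simp only [hs] at ht
  have hκ' : ∫ x, reflS κ x = 1 := by
    rw [← hκ, ← integral_neg_eq_self]
    simp only [reflS_apply, neg_neg]
  have ht2 : Tendsto (fun J : ℕ => u (sconv (dilS (2 ^ J) (reflS κ)) W)) atTop (𝓝 (u W)) :=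
    (u.continuous.tendsto W).comp (tendsto_sconv_dil (reflS κ) W hκ')
  exact tendsto_nhds_unique ht ht2

end MP6db0a9
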