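import Pool.Agent.Lib_MP_6db0a9_an.Defs

/-!
# MP_6db0a9_an: the averaging operators on `L^P`
-/

open MeasureTheory SchwartzMap Set Filter Topology
open scoped ENNReal NNReal FourierTransform LineDeriv ContDiff

namespace MP6db0a9

variable {n : ℕ}

/-- The kernel of the averaging operator. -/
noncomputable def avK (n : ℕ) (M : ℝ) (l : ℕ) (z : E n) : ℝ≥0∞ :=
  ENNReal.ofReal ((2 : ℝ) ^ (l * n) * (1 + 2 ^ l * ‖z‖) ^ (-M))

theorem avK_measurable (M : ℝ) (l : ℕ) : Measurable (avK n M l) := by
  unfold avK
  fun_prop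

theorem Av_eq (M : ℝ) (l : ℕ) (h : E n → ℝ≥0∞) (x : E n) :
    Av M l h x = ∫⁻ y, avK n M l (x - y) * h y := rfl

/-- `Av M l h` is measurable. -/
theorem av_measurable (M : ℝ) (l : ℕ) (h : E n → ℝ≥0∞) (hh : Measurable h) :
    Measurable (Av M l h) := by
  have : Measurable (Function.uncurry fun (x y : E n) => avK n M l (x - y) * h y) := by
    apply Measurable.mul
    · exact (avK_measurable M l).comp (measurable_fst.sub measurable_snd)
    · exact hh.comp measurable_snd
  exact this.lintegral_prod_right'

/-- Scaling of the integral of the kernel. -/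
theorem lintegral_avK (M : ℝ) (l : ℕ) :
    ∫⁻ z : E n, avK n M l z = ∫⁻ z : E n, ENNReal.ofReal ((1 + ‖z‖) ^ (-M)) := by
  have h2 : (2 : ℝ) ^ l ≠ 0 := by positivity
  have hmap := Measure.map_addHaar_smul (volume : Measure (E n)) h2
  have hf : Measurable fun z : E n => ENNReal.ofReal ((1 + ‖z‖) ^ (-M)) := by fun_prop
  have h1 : ∫⁻ z : E n, ENNReal.ofReal ((1 + ‖(2 : ℝ) ^ l • z‖) ^ (-M)) =
      ENNReal.ofReal |((2 : ℝ) ^ l) ^ n|⁻¹ * ∫⁻ z : E n, ENNReal.ofReal ((1 + ‖z‖) ^ (-M)) := by
    rw [← lintegral_map hf (measurable_const_smul ((2 : ℝ) ^ l)), hmap,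
      lintegral_smul_measure]
    simp [abs_inv]
  have h3 : ∀ z : E n, avK n M l z =
      ENNReal.ofReal ((2 : ℝ) ^ (l * n)) * ENNReal.ofReal ((1 + ‖(2 : ℝ) ^ l • z‖) ^ (-M)) := by
    intro z
    rw [avK, ENNReal.ofReal_mul (by positivity), norm_smul]
    simp
  simp only [h3]
  rw [lintegral_const_mul _ (by fun_prop), h1, ← mul_assoc, ← ENNReal.ofReal_mul (by positivity)]
  rw [pow_mul, abs_of_nonneg (by positivity), mul_inv_cancel₀ (by positivity)]
  simp

/-- The averages of the kernel, centered anywhere. -/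
theorem lintegral_avK_sub_left (M : ℝ) (l : ℕ) (x : E n) :
    ∫⁻ y : E n, avK n M l (x - y) = ∫⁻ z : E n, ENNReal.ofReal ((1 + ‖z‖) ^ (-M)) := by
  rw [lintegral_sub_left_eq_self (fun z => avK n M l z), lintegral_avK]

theorem lintegral_avK_sub_right (M : ℝ) (l : ℕ) (y : E n) :
    ∫⁻ x : E n, avK n M l (x - y) = ∫⁻ z : E n, ENNReal.ofReal ((1 + ‖z‖) ^ (-M)) := by
  rw [lintegral_sub_right_eq_self (fun z => avK n M l z), lintegral_avK]

theorem avK_finite {M : ℝ} (hM : (n : ℝ) < M) :
    ∫⁻ z : E n, ENNReal.ofReal ((1 + ‖z‖) ^ (-M)) < ⊤ := by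
  apply finite_integral_one_add_norm
  simpa using hM

/-- The averaging operators are uniformly bounded on `L^P`, `1 ≤ P ≤ ∞`. -/
theorem av_Lp {P : ℝ≥0∞} (hP : 1 ≤ P) {M : ℝ} (hM : (n : ℝ) < M) :
    ∃ C : ℝ≥0, ∀ (l : ℕ) (h : E n → ℝ≥0∞), Measurable h →
      eLpNorm (Av M l h) P volume ≤ C * eLpNorm h P volume := by
  set I : ℝ≥0∞ := ∫⁻ z : E n, ENNReal.ofReal ((1 + ‖z‖) ^ (-M)) with hI
  have hIfin : I < ⊤ := avK_finite hM
  refine ⟨I.toNNReal, fun l h hh => ?_⟩
  rw [ENNReal.coe_toNNReal hIfin.ne]
  rcases eq_or_ne P ⊤ with hPt | hPt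
  · subst hPt
    rw [eLpNorm_exponent_top, eLpNorm_exponent_top]
    refine essSup_le_of_ae_le (c := I * eLpNormEssSup h volume) (Eventually.of_forall fun x => ?_)
    change Av M l h x ≤ I * eLpNormEssSup h volume
    rw [Av_eq]
    calc ∫⁻ y, avK n M l (x - y) * h y ≤ ∫⁻ y, avK n M l (x - y) * eLpNormEssSup h volume := by
          apply lintegral_mono_ae
          filter_upwards [ae_le_eLpNormEssSup (f := h) (μ := volume)] with y hy
          rw [enorm_eq_self] at hy
          gcongr
      _ = I * eLpNormEssSup h volume := by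
          have hk' : Measurable fun y => avK n M l (x - y) :=
            (avK_measurable M l).comp (measurable_const.sub measurable_id)
          rw [lintegral_mul_const _ hk', lintegral_avK_sub_left]
  · have hP0 : P ≠ 0 := (zero_lt_one.trans_le hP).ne'
    set p := P.toReal with hp
    have hp1 : 1 ≤ p := by
      have := (ENNReal.toReal_le_toReal ENNReal.one_ne_top hPt).2 hP
      simpa using this
    have hp0 : 0 < p := zero_lt_one.trans_le hp1
    have key : ∫⁻ x, Av M l h x ^ p ≤ I ^ p * ∫⁻ x, h x ^ p := by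
      have pt : ∀ x, Av M l h x ^ p ≤ I ^ (p - 1) * ∫⁻ y, avK n M l (x - y) * h y ^ p := by
        intro x
        have hk : Measurable fun y => avK n M l (x - y) :=
          (avK_measurable M l).comp (measurable_const.sub measurable_id)
        rcases eq_or_lt_of_le hp1 with h1 | h1
        · rw [← h1]
          simp [Av_eq]
        · have hconj : p.HolderConjugate (p / (p - 1)) := Real.HolderConjugate.conjExponent h1
          have hc1 : 0 < p - 1 := by linarith
          have hq0 : 0 < p / (p - 1) := by positivity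
          have hH := ENNReal.lintegral_mul_le_Lp_mul_Lq (volume : Measure (E n)) hconj
            (f := fun y => avK n M l (x - y) ^ (1 / p) * h y)
            (g := fun y => avK n M l (x - y) ^ (1 / (p / (p - 1))))
            ((hk.pow_const _).mul hh).aemeasurable (hk.pow_const _).aemeasurable
          have e1 : ∀ y, ((fun y => avK n M l (x - y) ^ (1 / p) * h y) *
              (fun y => avK n M l (x - y) ^ (1 / (p / (p - 1))))) y = avK n M l (x - y) * h y := by
            intro y
            simp only [Pi.mul_apply]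
            rw [mul_right_comm, ← ENNReal.rpow_add_of_nonneg _ _ (by positivity) (by positivity)]
            have : 1 / p + 1 / (p / (p - 1)) = 1 := by field_simp; ring
            rw [this, ENNReal.rpow_one]
          have e2 : ∀ y, (avK n M l (x - y) ^ (1 / p) * h y) ^ p = avK n M l (x - y) * h y ^ p := by
            intro y
            rw [ENNReal.mul_rpow_of_nonneg _ _ hp0.le, ← ENNReal.rpow_mul]
            rw [one_div_mul_cancel hp0.ne', ENNReal.rpow_one]
          have e3 : ∀ y, (avK n M l (x - y) ^ (1 / (p / (p - 1)))) ^ (p / (p - 1)) =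
              avK n M l (x - y) := by
            intro y
            rw [← ENNReal.rpow_mul, one_div_mul_cancel hq0.ne', ENNReal.rpow_one]
          simp only [e1, e2, e3] at hH
          rw [lintegral_avK_sub_left] at hH
          rw [Av_eq]
          calc (∫⁻ y, avK n M l (x - y) * h y) ^ p
              ≤ ((∫⁻ y, avK n M l (x - y) * h y ^ p) ^ (1 / p) * I ^ (1 / (p / (p - 1)))) ^ p :=
                ENNReal.rpow_le_rpow hH hp0.le
            _ = I ^ (p - 1) * ∫⁻ y, avK n M l (x - y) * h y ^ p := by
                rw [ENNReal.mul_rpow_of_nonneg _ _ hp0.le, ← ENNReal.rpow_mul, ← ENNReal.rpow_mul,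
                  one_div_mul_cancel hp0.ne', ENNReal.rpow_one, mul_comm]
                congr 2
                field_simp
      calc ∫⁻ x, Av M l h x ^ p ≤ ∫⁻ x, I ^ (p - 1) * ∫⁻ y, avK n M l (x - y) * h y ^ p :=
            lintegral_mono pt
        _ = I ^ (p - 1) * ∫⁻ x, ∫⁻ y, avK n M l (x - y) * h y ^ p := by
            apply lintegral_const_mul
            exact av_measurable M l (fun y => h y ^ p) (hh.pow_const p)
        _ = I ^ (p - 1) * ∫⁻ y, ∫⁻ x, avK n M l (x - y) * h y ^ p := by
            rw [lintegral_lintegral_swap]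
            apply Measurable.aemeasurable
            apply Measurable.mul
            · exact (avK_measurable M l).comp (measurable_fst.sub measurable_snd)
            · exact (hh.pow_const p).comp measurable_snd
        _ = I ^ (p - 1) * ∫⁻ y, I * h y ^ p := by
            congr 1
            apply lintegral_congr
            intro y
            have hk' : Measurable fun x => avK n M l (x - y) :=
              (avK_measurable M l).comp (measurable_id.sub measurable_const)
            rw [lintegral_mul_const _ hk', lintegral_avK_sub_right]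
        _ = I ^ p * ∫⁻ y, h y ^ p := by
            rw [lintegral_const_mul _ (hh.pow_const p), ← mul_assoc]
            congr 1
            nth_rw 2 [← ENNReal.rpow_one I]
            rw [← ENNReal.rpow_add_of_nonneg _ _ (by linarith) (by norm_num)]
            congr 1
            ring
    rw [eLpNorm_eq_lintegral_rpow_enorm_toReal hP0 hPt,
      eLpNorm_eq_lintegral_rpow_enorm_toReal hP0 hPt]
    simp only [enorm_eq_self]
    calc (∫⁻ x, Av M l h x ^ p) ^ (1 / p) ≤ (I ^ p * ∫⁻ x, h x ^ p) ^ (1 / p) :=
          ENNReal.rpow_le_rpow key (by positivity)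
      _ = I * (∫⁻ x, h x ^ p) ^ (1 / p) := by
          rw [ENNReal.mul_rpow_of_nonneg _ _ (by positivity), ← ENNReal.rpow_mul,
            mul_one_div_cancel hp0.ne', ENNReal.rpow_one]

end MP6db0a9
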