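import Pool.Agent.Lib_MP_6db0a9_an.Defs

/-!
Algebra of the operators `x_k`, `∂_k` on the Schwartz space.
-/

open MeasureTheory SchwartzMap Set Filter Topology
open scoped ENNReal NNReal FourierTransform LineDeriv ContDiff

namespace MP6db0a9

variable {n : ℕ}

namespace CK

/-- coordinate derivative -/
noncomputable def dd (k : Fin n) : Module.End ℂ 𝓢(E n, ℂ) :=
  (LineDeriv.lineDerivOpCLM ℂ 𝓢(E n, ℂ) (EuclideanSpace.single k 1 : E n)).toLinearMap

/-- coordinate function -/
noncomputable def co (k : Fin n) : E n →L[ℝ] ℂ :=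
  Complex.ofRealCLM.comp (EuclideanSpace.proj k)

theorem co_apply (k : Fin n) (x : E n) : co k x = ((x k : ℝ) : ℂ) := rfl

/-- multiplication by a coordinate -/
noncomputable def xx (k : Fin n) : Module.End ℂ 𝓢(E n, ℂ) :=
  (smulLeftCLM ℂ (co k : E n → ℂ)).toLinearMap

theorem dd_def (k : Fin n) (f : 𝓢(E n, ℂ)) :
    dd k f = ∂_{(EuclideanSpace.single k 1 : E n)} f := rfl

theorem dd_apply (k : Fin n) (f : 𝓢(E n, ℂ)) (x : E n) :
    dd k f x = fderiv ℝ f x (EuclideanSpace.single k 1) := rfl

theorem xx_apply (k : Fin n) (f : 𝓢(E n, ℂ)) (x : E n) : xx k f x = ((x k : ℝ) : ℂ) * f x := by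
  have h := smulLeftCLM_apply_apply (F := ℂ) (g := (co k : E n → ℂ)) (co k).hasTemperateGrowth f x
  rw [smul_eq_mul] at h
  exact h

theorem xx_comm (k l : Fin n) : Commute (xx k) (xx l) := by
  ext f x
  simp only [Module.End.mul_apply, xx_apply]
  ring

theorem dd_comm (k l : Fin n) : Commute (dd k) (dd l) := by
  ext f x
  simp only [Module.End.mul_apply, dd_apply]
  have h1 : ∀ (k : Fin n) (y : E n), fderiv ℝ (fun z => fderiv ℝ f z (EuclideanSpace.single k 1)) y =
      (fderiv ℝ (fderiv ℝ f) y).flip (EuclideanSpace.single k 1) := by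
    intro k y
    have hd : DifferentiableAt ℝ (fderiv ℝ f) y :=
      ((f.smooth 2).fderiv_right (m := 1) le_rfl).differentiable one_ne_zero y
    rw [fderiv_clm_apply hd (differentiableAt_const _)]
    simp
  have h2 : ∀ k : Fin n, (⇑(dd k f) : E n → ℂ) =
      fun z => fderiv ℝ f z (EuclideanSpace.single k 1) := fun k => rfl
  rw [h2, h2, h1, h1]
  simp only [ContinuousLinearMap.flip_apply]
  have hs : IsSymmSndFDerivAt ℝ f x :=
    ((f.smooth 2).contDiffAt (x := x)).isSymmSndFDerivAt (by simp [minSmoothness_of_isRCLikeNormedField])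
  exact hs.eq _ _

theorem dd_xx (k l : Fin n) (f : 𝓢(E n, ℂ)) :
    dd k (xx l f) = xx l (dd k f) + (if k = l then f else 0) := by
  ext x
  have h1 : (⇑(xx l f) : E n → ℂ) = fun z => co l z * f z := by
    ext z; rw [xx_apply, co_apply]
  have h3 : (xx l (dd k f) + (if k = l then f else 0)) x =
      ((x l : ℝ) : ℂ) * fderiv ℝ f x (EuclideanSpace.single k 1) +
      (if k = l then f else 0 : 𝓢(E n, ℂ)) x := by
    rw [← dd_apply, ← xx_apply]; rfl
  rw [h3, dd_apply, h1, fderiv_fun_mul (co l).differentiableAt f.differentiableAt,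
    ContinuousLinearMap.fderiv]
  simp only [_root_.add_apply, _root_.smul_apply, smul_eq_mul, co_apply]
  by_cases h : k = l
  · subst h; simp
  · have h' : l ≠ k := fun e => h e.symm
    simp [h, h']

theorem dd_mul_xx (k l : Fin n) :
    dd k * xx l = xx l * dd k + (if k = l then (1 : Module.End ℂ 𝓢(E n, ℂ)) else 0) := by
  apply LinearMap.ext
  intro f
  rw [Module.End.mul_apply, dd_xx, LinearMap.add_apply, Module.End.mul_apply]
  split_ifs <;> rfl

/-- the integral -/
noncomputable def II : 𝓢(E n, ℂ) →ₗ[ℂ] ℂ := (integralCLM ℂ volume).toLinearMap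

theorem II_apply (f : 𝓢(E n, ℂ)) : II f = ∫ x, f x := rfl

theorem II_dd (k : Fin n) (f : 𝓢(E n, ℂ)) : II (dd k f) = 0 := by
  rw [II_apply]
  have h := integral_mul_fderiv_eq_neg_fderiv_mul_of_integrable (μ := (volume : Measure (E n)))
    (f := fun _ : E n => (1 : ℂ)) (g := f) (v := EuclideanSpace.single k 1)
    (by simp)
    (by simp only [one_mul]; exact (dd k f).integrable (μ := volume))
    (by simp only [one_mul]; exact f.integrable (μ := volume))
    (fun x _ => differentiableAt_const _) (fun x _ => f.differentiableAt)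
  simp only [one_mul, fderiv_fun_const, Pi.zero_apply, _root_.zero_apply, zero_mul,
    integral_zero, neg_zero] at h
  exact h

/-- Euler operator -/
noncomputable def theta : Module.End ℂ 𝓢(E n, ℂ) := ∑ k, dd k * xx k

theorem theta_xx (a : Fin n) : theta * xx a = xx a * theta + xx a := by
  unfold theta
  rw [Finset.sum_mul, Finset.mul_sum]
  have h : ∀ k : Fin n, dd k * xx k * xx a = xx a * (dd k * xx k) + (if k = a then xx k else 0) := by
    intro k
    rw [mul_assoc, (xx_comm k a).eq, ← mul_assoc, dd_mul_xx, add_mul, mul_assoc]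
    split_ifs <;> simp
  rw [Finset.sum_congr rfl fun k _ => h k, Finset.sum_add_distrib]
  simp

theorem theta_dd (a : Fin n) : theta * dd a = dd a * theta - dd a := by
  unfold theta
  rw [Finset.sum_mul, Finset.mul_sum]
  have h : ∀ k : Fin n, dd k * xx k * dd a = dd a * (dd k * xx k) - (if a = k then dd k else 0) := by
    intro k
    have h1 : xx k * dd a = dd a * xx k - (if a = k then (1 : Module.End ℂ 𝓢(E n, ℂ)) else 0) := by
      rw [dd_mul_xx]; abel
    rw [mul_assoc, h1, mul_sub, ← mul_assoc, (dd_comm k a).eq, mul_assoc]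
    split_ifs <;> simp
  rw [Finset.sum_congr rfl fun k _ => h k, Finset.sum_sub_distrib]
  simp

/-- products of coordinates -/
noncomputable def X (l : List (Fin n)) : Module.End ℂ 𝓢(E n, ℂ) := (l.map xx).prod

/-- products of derivatives -/
noncomputable def D (l : List (Fin n)) : Module.End ℂ 𝓢(E n, ℂ) := (l.map dd).prod

theorem X_nil : X ([] : List (Fin n)) = 1 := rfl

theorem X_cons (a : Fin n) (l : List (Fin n)) : X (a :: l) = xx a * X l := by
  unfold X; rw [List.map_cons, List.prod_cons]

theorem D_nil : D ([] : List (Fin n)) = 1 := rfl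

theorem D_cons (a : Fin n) (l : List (Fin n)) : D (a :: l) = dd a * D l := by
  unfold D; rw [List.map_cons, List.prod_cons]

theorem D_append (l l' : List (Fin n)) : D (l ++ l') = D l * D l' := by
  unfold D; rw [List.map_append, List.prod_append]

theorem D_perm {l l' : List (Fin n)} (h : l.Perm l') : D l = D l' := by
  unfold D
  refine (h.map dd).prod_eq' ?_
  rw [List.pairwise_map]
  exact List.pairwise_of_forall (fun a b => dd_comm a b)

theorem D_replicate (k : Fin n) (m : ℕ) : D (List.replicate m k) = dd k ^ m := by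
  unfold D
  rw [List.map_replicate, List.prod_replicate]

theorem theta_X (l : List (Fin n)) : theta * X l = X l * theta + l.length • X l := by
  induction l with
  | nil => simp [X_nil]
  | cons a l ih =>
    rw [X_cons, ← mul_assoc, theta_xx, add_mul, mul_assoc, ih, List.length_cons, succ_nsmul,
      mul_add, mul_smul_comm, mul_assoc, add_assoc]

theorem theta_D (l : List (Fin n)) : theta * D l = D l * theta - l.length • D l := by
  induction l with
  | nil => simp [D_nil]
  | cons a l ih =>
    rw [D_cons, ← mul_assoc, theta_dd, sub_mul, mul_assoc, ih, List.length_cons, succ_nsmul,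
      mul_sub, mul_smul_comm, mul_assoc, sub_sub]

theorem II_theta (f : 𝓢(E n, ℂ)) : II (theta f) = 0 := by
  unfold theta
  rw [LinearMap.sum_apply, map_sum]
  exact Finset.sum_eq_zero fun k _ => II_dd k _

theorem II_X_theta (l : List (Fin n)) (f : 𝓢(E n, ℂ)) :
    II (X l (theta f)) = -(l.length : ℂ) * II (X l f) := by
  have h := congrArg (fun T : Module.End ℂ 𝓢(E n, ℂ) => II (T f)) (theta_X l)
  simp only [Module.End.mul_apply, LinearMap.add_apply, map_add, II_theta] at h
  have h2 : II ((l.length • X l) f) = (l.length : ℂ) * II (X l f) := by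
    rw [LinearMap.smul_apply, map_nsmul, nsmul_eq_mul]
  rw [h2] at h
  linear_combination -h

/-- the operators `(θ+1)...(θ+R)` -/
noncomputable def TH : ℕ → Module.End ℂ 𝓢(E n, ℂ)
  | 0 => 1
  | R + 1 => (theta + ((R : ℂ) + 1) • 1) * TH R

theorem TH_zero (f : 𝓢(E n, ℂ)) : TH 0 f = f := rfl

theorem TH_succ (R : ℕ) (f : 𝓢(E n, ℂ)) :
    TH (R + 1) f = theta (TH R f) + ((R : ℂ) + 1) • TH R f := by
  show (((theta + ((R : ℂ) + 1) • 1) * TH R : Module.End ℂ 𝓢(E n, ℂ))) f = _
  rw [Module.End.mul_apply, LinearMap.add_apply, LinearMap.smul_apply, Module.End.one_apply]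

theorem II_X_TH (l : List (Fin n)) (R : ℕ) (f : 𝓢(E n, ℂ)) :
    II (X l (TH R f)) = (∏ i ∈ Finset.range R, ((i : ℂ) + 1 - l.length)) * II (X l f) := by
  induction R with
  | zero => simp [TH_zero]
  | succ R ih =>
    rw [TH_succ, map_add, map_add, II_X_theta, map_smul, map_smul, smul_eq_mul, ih,
      Finset.prod_range_succ]
    ring

theorem dd_X (k : Fin n) (l : List (Fin n)) : ∃ ls : List (List (Fin n)),
    (∀ l' ∈ ls, l'.length + 1 = l.length) ∧ dd k * X l = X l * dd k + (ls.map X).sum := by
  induction l with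
  | nil => exact ⟨[], by simp, by simp [X_nil]⟩
  | cons a l ih =>
    obtain ⟨ls, h1, h2⟩ := ih
    refine ⟨ls.map (fun l' => a :: l') ++ (if k = a then [l] else []), ?_, ?_⟩
    · intro l' hl'
      rw [List.mem_append, List.mem_map] at hl'
      rcases hl' with ⟨l'', h3, rfl⟩ | h3
      · rw [List.length_cons, List.length_cons, h1 _ h3]
      · split_ifs at h3
        · rw [List.mem_singleton] at h3
          rw [h3, List.length_cons]
        · simp at h3
    · rw [X_cons, ← mul_assoc, dd_mul_xx, add_mul, mul_assoc, h2, List.map_append, List.sum_append,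
        List.map_map]
      have h3 : (ls.map (X ∘ fun l' => a :: l')).sum = xx a * (ls.map X).sum := by
        rw [← List.sum_map_mul_left]
        have h4 : (X ∘ fun l' => a :: l') = fun l' => xx a * X l' :=
          funext fun l' => X_cons a l'
        rw [h4]
      rw [h3, mul_add, mul_assoc]
      split_ifs
      · simp [add_assoc]
      · simp

/-- vanishing of the moments of order `< N` -/
def MomX (N : ℕ) (f : 𝓢(E n, ℂ)) : Prop := ∀ l : List (Fin n), l.length < N → II (X l f) = 0

theorem momX_zero (f : 𝓢(E n, ℂ)) : MomX 0 f := fun l hl => absurd hl (Nat.not_lt_zero _)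

theorem momX_dd {N : ℕ} {f : 𝓢(E n, ℂ)} (h : MomX N f) (k : Fin n) : MomX (N + 1) (dd k f) := by
  intro l hl
  obtain ⟨ls, h1, h2⟩ := dd_X k l
  have h3 := congrArg (fun T : Module.End ℂ 𝓢(E n, ℂ) => II (T f)) h2
  simp only [Module.End.mul_apply, LinearMap.add_apply, map_add, II_dd] at h3
  have h4 : ∀ ls : List (List (Fin n)), (∀ l' ∈ ls, l'.length + 1 = l.length) →
      II ((ls.map X).sum f) = 0 := by
    intro ls
    induction ls with
    | nil => intro _; simp
    | cons l' ls ih =>
      intro h5
      rw [List.map_cons, List.sum_cons, LinearMap.add_apply, map_add,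
        ih fun l'' hl'' => h5 l'' (List.mem_cons_of_mem _ hl''),
        h l' (by have := h5 l' List.mem_cons_self; omega), add_zero]
  rw [h4 ls h1, add_zero] at h3
  exact h3.symm

theorem momX_D {f : 𝓢(E n, ℂ)} (l : List (Fin n)) : MomX l.length (D l f) := by
  induction l with
  | nil => exact momX_zero _
  | cons a l ih =>
    rw [D_cons, Module.End.mul_apply, List.length_cons]
    exact momX_dd ih a

theorem momX_mono {N N' : ℕ} (h : N' ≤ N) {f : 𝓢(E n, ℂ)} (hf : MomX N f) : MomX N' f :=
  fun l hl => hf l (hl.trans_le h)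

theorem X_apply (l : List (Fin n)) (f : 𝓢(E n, ℂ)) (x : E n) :
    X l f x = (l.map fun k => ((x k : ℝ) : ℂ)).prod * f x := by
  induction l with
  | nil => simp [X_nil]
  | cons a l ih =>
    rw [X_cons, Module.End.mul_apply, xx_apply, ih, List.map_cons, List.prod_cons, mul_assoc]

theorem mom0_of_momX {N : ℕ} {f : 𝓢(E n, ℂ)} (h : MomX N f) : Mom0 N f := by
  intro i hi T
  have hexp : ∀ w : E n, f w * T (fun _ => w) = ∑ κ : Fin i → Fin n,
      T (fun j => EuclideanSpace.single (κ j) 1) * X (List.ofFn κ) f w := by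
    intro w
    have hw : w = ∑ k, w k • (EuclideanSpace.single k (1 : ℝ) : E n) := by
      ext j
      simp [Pi.single_apply]
    have h1 : T (fun _ => w) = ∑ κ : Fin i → Fin n,
        T (fun j => w (κ j) • EuclideanSpace.single (κ j) 1) := by
      conv_lhs => rw [show (fun _ : Fin i => w) = fun _ : Fin i =>
        ∑ k, w k • (EuclideanSpace.single k (1 : ℝ) : E n) from funext fun _ => hw]
      exact T.toMultilinearMap.map_sum (fun (_ : Fin i) k => w k • EuclideanSpace.single k 1)
    rw [h1, Finset.mul_sum]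
    refine Finset.sum_congr rfl fun κ _ => ?_
    rw [T.map_smul_univ, X_apply, List.map_ofFn, List.prod_ofFn, Complex.real_smul,
      Complex.ofReal_prod]
    simp only [Function.comp]
    ring
  rw [integral_congr_ae (Filter.Eventually.of_forall hexp), integral_finsetSum]
  · refine Finset.sum_eq_zero fun κ _ => ?_
    rw [integral_const_mul, ← II_apply, h _ (by rw [List.length_ofFn]; exact hi), mul_zero]
  · intro κ _
    exact ((X (List.ofFn κ) f).integrable).const_mul _

/-! ### functions vanishing off a set -/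

/-- `f` vanishes off `K` -/
def Off (K : Set (E n)) (f : 𝓢(E n, ℂ)) : Prop := ∀ x, x ∉ K → f x = 0

theorem off_iff {K : Set (E n)} (hK : IsClosed K) (f : 𝓢(E n, ℂ)) : Off K f ↔ tsupport f ⊆ K := by
  constructor
  · intro h
    refine closure_minimal (fun x hx => ?_) hK
    by_contra hx'
    exact hx (h x hx')
  · intro h x hx
    by_contra hf
    exact hx (h (subset_tsupport _ hf))

theorem Off.xx {K : Set (E n)} {f : 𝓢(E n, ℂ)} (h : Off K f) (k : Fin n) : Off K (CK.xx k f) := by
  intro x hx
  rw [xx_apply, h x hx, mul_zero]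

theorem Off.dd {K : Set (E n)} (hK : IsClosed K) {f : 𝓢(E n, ℂ)} (h : Off K f) (k : Fin n) :
    Off K (CK.dd k f) := by
  rw [off_iff hK] at h ⊢
  exact (tsupport_lineDerivOp_subset _ f).trans h

theorem Off.add {K : Set (E n)} {f g : 𝓢(E n, ℂ)} (h : Off K f) (h' : Off K g) : Off K (f + g) := by
  intro x hx
  show f x + g x = 0
  rw [h x hx, h' x hx, add_zero]

theorem Off.smul {K : Set (E n)} {f : 𝓢(E n, ℂ)} (h : Off K f) (c : ℂ) : Off K (c • f) := by
  intro x hx
  show c • f x = 0
  rw [h x hx, smul_zero]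

theorem Off.zero {K : Set (E n)} : Off K (0 : 𝓢(E n, ℂ)) := fun _ _ => rfl

theorem Off.D {K : Set (E n)} (hK : IsClosed K) {f : 𝓢(E n, ℂ)} (h : Off K f) (l : List (Fin n)) :
    Off K (CK.D l f) := by
  induction l with
  | nil => exact h
  | cons a l ih =>
    rw [D_cons, Module.End.mul_apply]
    exact ih.dd hK a

theorem Off.theta {K : Set (E n)} (hK : IsClosed K) {f : 𝓢(E n, ℂ)} (h : Off K f) :
    Off K (CK.theta f) := by
  intro x hx
  unfold CK.theta
  rw [LinearMap.sum_apply]
  have : ∀ (s : Finset (Fin n)), (∑ k ∈ s, (CK.dd k * CK.xx k) f) x = 0 := by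
    intro s
    induction s using Finset.cons_induction with
    | empty => rfl
    | cons a s has ih =>
      rw [Finset.sum_cons]
      show ((CK.dd a * CK.xx a) f) x + (∑ k ∈ s, (CK.dd k * CK.xx k) f) x = 0
      rw [ih, add_zero, Module.End.mul_apply]
      exact (h.xx a).dd hK a x hx
  exact this _

theorem Off.TH {K : Set (E n)} (hK : IsClosed K) {f : 𝓢(E n, ℂ)} (h : Off K f) (R : ℕ) :
    Off K (CK.TH R f) := by
  induction R with
  | zero => exact h
  | succ R ih =>
    rw [TH_succ]
    exact (ih.theta hK).add (ih.smul _)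

/-- sums of derivatives of order `N` of functions vanishing off `K` -/
noncomputable def TS (K : Set (E n)) (N : ℕ) : Submodule ℂ 𝓢(E n, ℂ) :=
  Submodule.span ℂ {g | ∃ l : List (Fin n), l.length = N ∧ ∃ f, Off K f ∧ g = D l f}

theorem TS_zero {K : Set (E n)} {f : 𝓢(E n, ℂ)} (h : Off K f) : f ∈ TS K 0 :=
  Submodule.subset_span ⟨[], rfl, f, h, rfl⟩

theorem TS_succ {K : Set (E n)} {N : ℕ} {g : 𝓢(E n, ℂ)} (h : g ∈ TS K N) :
    theta g + (N : ℂ) • g ∈ TS K (N + 1) := by
  unfold TS at h
  induction h using Submodule.span_induction with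
  | mem g hg =>
    obtain ⟨l, hl, f, hf, rfl⟩ := hg
    have h1 := congrArg (fun T : Module.End ℂ 𝓢(E n, ℂ) => T f) (theta_D l)
    simp only [Module.End.mul_apply, LinearMap.sub_apply, LinearMap.smul_apply] at h1
    rw [h1, hl, ← Nat.cast_smul_eq_nsmul ℂ, sub_add_cancel]
    unfold theta
    rw [LinearMap.sum_apply, map_sum]
    refine Submodule.sum_mem _ fun k _ => ?_
    refine Submodule.subset_span ⟨l ++ [k], by simp [hl], CK.xx k f, hf.xx k, ?_⟩
    rw [D_append, Module.End.mul_apply, Module.End.mul_apply]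
    rfl
  | zero => simp
  | add x y _ _ hx hy =>
    rw [map_add, smul_add, add_add_add_comm]
    exact Submodule.add_mem _ hx hy
  | smul c x _ hx =>
    rw [map_smul, smul_comm, ← smul_add]
    exact Submodule.smul_mem _ c hx

theorem TH_theta_mem {K : Set (E n)} {f : 𝓢(E n, ℂ)} (h : Off K f) (R : ℕ) :
    TH R (theta f) ∈ TS K (R + 1) := by
  induction R with
  | zero =>
    have := TS_succ (TS_zero h)
    simpa [TH_zero] using this
  | succ R ih =>
    rw [TH_succ]
    have := TS_succ ih
    push_cast at this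
    exact this

theorem off_of_TS {K : Set (E n)} (hK : IsClosed K) {N : ℕ} {g : 𝓢(E n, ℂ)} (h : g ∈ TS K N) :
    Off K g := by
  unfold TS at h
  induction h using Submodule.span_induction with
  | mem g hg =>
    obtain ⟨l, hl, f, hf, rfl⟩ := hg
    exact hf.D hK l
  | zero => exact Off.zero
  | add x y _ _ hx hy => exact hx.add hy
  | smul c x _ hx => exact hx.smul c

theorem mom_of_TS {K : Set (E n)} {N : ℕ} {g : 𝓢(E n, ℂ)} (h : g ∈ TS K N) : MomX N g := by
  unfold TS at h
  induction h using Submodule.span_induction with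
  | mem g hg =>
    obtain ⟨l, rfl, f, hf, rfl⟩ := hg
    exact momX_D l
  | zero => intro l _; simp
  | add x y _ _ hx hy => intro l hl; rw [map_add, map_add, hx l hl, hy l hl, add_zero]
  | smul c x _ hx => intro l hl; rw [map_smul, map_smul, hx l hl, smul_zero]

theorem exists_count {l : List (Fin n)} {m : ℕ} (h : n * (m - 1) < l.length) :
    ∃ k, m ≤ l.count k := by
  by_contra hcon
  push Not at hcon
  have h1 : ∑ a : Fin n, l.count a = l.length := by
    have := Multiset.sum_count_eq_card (s := Finset.univ) (m := (l : Multiset (Fin n)))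
      (fun a _ => Finset.mem_univ a)
    simpa using this
  have h2 : ∑ a : Fin n, l.count a ≤ ∑ _a : Fin n, (m - 1) :=
    Finset.sum_le_sum fun a _ => by have := hcon a; omega
  rw [h1] at h2
  simp at h2
  omega

theorem TS_decomp {K : Set (E n)} {N m : ℕ} (hN : n * (m - 1) < N) (hm : m ≤ N) {g : 𝓢(E n, ℂ)}
    (h : g ∈ TS K N) : ∃ η : Fin n → 𝓢(E n, ℂ), (∀ k, η k ∈ TS K (N - m)) ∧
      g = ∑ k, (dd k ^ m) (η k) := by
  unfold TS at h
  induction h using Submodule.span_induction with
  | mem g hg =>
    obtain ⟨l, rfl, f, hf, rfl⟩ := hg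
    obtain ⟨k, hk⟩ := exists_count hN
    obtain ⟨l', hl'⟩ := (List.replicate_sublist_iff.2 hk).exists_perm_append
    refine ⟨fun j => if j = k then D l' f else 0, ?_, ?_⟩
    · intro j
      dsimp only
      split_ifs
      · refine Submodule.subset_span ⟨l', ?_, f, hf, rfl⟩
        have := hl'.length_eq
        rw [List.length_append, List.length_replicate] at this
        omega
      · exact Submodule.zero_mem _
    · rw [D_perm hl', D_append, D_replicate, Module.End.mul_apply, Finset.sum_eq_single k]
      · simp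
      · intro j _ hj
        simp [hj]
      · intro h; exact absurd (Finset.mem_univ k) h
  | zero => exact ⟨0, fun k => Submodule.zero_mem _, by simp⟩
  | add x y _ _ hx hy =>
    obtain ⟨η, h1, h2⟩ := hx
    obtain ⟨η', h1', h2'⟩ := hy
    refine ⟨η + η', fun k => Submodule.add_mem _ (h1 k) (h1' k), ?_⟩
    rw [h2, h2', ← Finset.sum_add_distrib]
    exact Finset.sum_congr rfl fun k _ => by rw [Pi.add_apply, map_add]
  | smul c x _ hx =>
    obtain ⟨η, h1, h2⟩ := hx
    refine ⟨c • η, fun k => Submodule.smul_mem _ c (h1 k), ?_⟩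
    rw [h2, Finset.smul_sum]
    exact Finset.sum_congr rfl fun k _ => by rw [Pi.smul_apply, map_smul]

theorem pdS_eq (k : Fin n) (m : ℕ) (f : 𝓢(E n, ℂ)) : pdS k m f = (dd k ^ m) f := by
  rw [Module.End.pow_apply]
  rfl

end CK

end MP6db0a9
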