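import Pool.Agent.Lib_MP_6db0a9_an.ConeAlg

/-!
Dilations and convolutions.
-/

open MeasureTheory SchwartzMap Set Filter Topology
open scoped ENNReal NNReal FourierTransform LineDeriv ContDiff Pointwise

namespace MP6db0a9

variable {n : ℕ}

namespace CK

theorem II_dilS {t : ℝ} (ht : 0 < t) (f : 𝓢(E n, ℂ)) : II (dilS t f) = II f := by
  rw [II_apply, II_apply]
  simp_rw [dilS_apply ht.ne']
  rw [integral_const_mul, Measure.integral_comp_smul]
  have h1 : (Module.finrank ℝ (E n)) = n := by simp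
  rw [h1, abs_of_pos (by positivity), Complex.real_smul]
  push_cast
  rw [← mul_assoc, mul_inv_cancel₀ (pow_ne_zero _ (Complex.ofReal_ne_zero.2 ht.ne')), one_mul]

theorem xx_dilS {t : ℝ} (ht : t ≠ 0) (k : Fin n) (f : 𝓢(E n, ℂ)) :
    xx k (dilS t f) = ((t : ℂ)⁻¹) • dilS t (xx k f) := by
  ext x
  have h1 : (((t : ℂ)⁻¹) • dilS t (xx k f)) x = ((t : ℂ)⁻¹) * dilS t (xx k f) x := rfl
  have h2 : (t : ℂ) ≠ 0 := Complex.ofReal_ne_zero.2 ht
  rw [h1, xx_apply, dilS_apply ht, dilS_apply ht, xx_apply, PiLp.smul_apply, smul_eq_mul,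
    Complex.ofReal_mul]
  field_simp

theorem dd_dilS {t : ℝ} (ht : t ≠ 0) (k : Fin n) (f : 𝓢(E n, ℂ)) :
    dd k (dilS t f) = (t : ℂ) • dilS t (dd k f) := by
  ext x
  have h1 : ((t : ℂ) • dilS t (dd k f)) x = (t : ℂ) * dilS t (dd k f) x := rfl
  have h2 : (⇑(dilS t f) : E n → ℂ) = fun y => (t : ℂ) ^ n * f (t • y) := by
    ext y; exact dilS_apply ht f y
  have h3 : HasFDerivAt (fun y : E n => f (t • y)) ((fderiv ℝ f (t • x)).comp
      (t • ContinuousLinearMap.id ℝ (E n))) x := by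
    have := (f.hasFDerivAt (t • x)).comp x ((t • ContinuousLinearMap.id ℝ (E n)).hasFDerivAt (x := x))
    exact this
  rw [h1, dilS_apply ht, dd_apply, h2, (h3.const_mul ((t : ℂ) ^ n)).fderiv, dd_apply]
  simp only [_root_.smul_apply, ContinuousLinearMap.comp_apply, ContinuousLinearMap.id_apply,
    map_smul, smul_eq_mul, Complex.real_smul]
  ring

theorem theta_dilS {t : ℝ} (ht : t ≠ 0) (f : 𝓢(E n, ℂ)) :
    theta (dilS t f) = dilS t (theta f) := by
  unfold theta
  rw [LinearMap.sum_apply, LinearMap.sum_apply, map_sum]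
  refine Finset.sum_congr rfl fun k _ => ?_
  have h2 : (t : ℂ) ≠ 0 := Complex.ofReal_ne_zero.2 ht
  rw [Module.End.mul_apply, Module.End.mul_apply, xx_dilS ht, map_smul, dd_dilS ht, smul_smul,
    inv_mul_cancel₀ h2, one_smul]

theorem TH_dilS {t : ℝ} (ht : t ≠ 0) (R : ℕ) (f : 𝓢(E n, ℂ)) :
    TH R (dilS t f) = dilS t (TH R f) := by
  induction R with
  | zero => rfl
  | succ R ih => rw [TH_succ, TH_succ, ih, theta_dilS ht, map_add, map_smul]

theorem X_dilS {t : ℝ} (ht : t ≠ 0) (l : List (Fin n)) (f : 𝓢(E n, ℂ)) :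
    X l (dilS t f) = ((t : ℂ)⁻¹) ^ l.length • dilS t (X l f) := by
  induction l with
  | nil => simp [X_nil]
  | cons a l ih =>
    rw [X_cons, Module.End.mul_apply, ih, map_smul, xx_dilS ht, smul_smul, Module.End.mul_apply,
      List.length_cons, pow_succ]

theorem dilS_dilS {s t : ℝ} (hs : s ≠ 0) (ht : t ≠ 0) (f : 𝓢(E n, ℂ)) :
    dilS s (dilS t f) = dilS (s * t) f := by
  ext x
  rw [dilS_apply hs, dilS_apply ht, dilS_apply (mul_ne_zero hs ht), smul_smul, mul_comm t s]
  push_cast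
  rw [mul_pow]
  ring

theorem dilS_one (f : 𝓢(E n, ℂ)) : dilS 1 f = f := by
  ext x
  rw [dilS_apply one_ne_zero]
  simp

theorem F_sconv (f g : 𝓢(E n, ℂ)) (ξ : E n) : 𝓕 (sconv f g) ξ = 𝓕 f ξ * 𝓕 g ξ := by
  unfold sconv
  rw [SchwartzMap.fourier_convolution]
  rfl

theorem F_inj {f g : 𝓢(E n, ℂ)} (h : ∀ ξ, 𝓕 f ξ = 𝓕 g ξ) : f = g := by
  apply (FourierTransform.fourierEquiv ℂ 𝓢(E n, ℂ)).injective
  ext ξ
  exact h ξ

theorem sconv_apply (f g : 𝓢(E n, ℂ)) (x : E n) : sconv f g x = ∫ y, f y * g (x - y) := by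
  unfold sconv
  rw [SchwartzMap.convolution_apply]
  rfl

theorem II_sconv (f g : 𝓢(E n, ℂ)) : II (sconv f g) = II f * II g := by
  rw [II_apply, II_apply, II_apply]
  have h := integral_convolution (L := ContinuousLinearMap.mul ℂ ℂ) (μ := (volume : Measure (E n)))
    (ν := (volume : Measure (E n))) f.integrable g.integrable
  have h2 : (fun x => sconv f g x) = fun x =>
      MeasureTheory.convolution f g (ContinuousLinearMap.mul ℂ ℂ) volume x :=
    funext fun x => SchwartzMap.convolution_apply (ContinuousLinearMap.mul ℂ ℂ) f g x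
  rw [h2]
  exact h

theorem conv_integrable (f g : 𝓢(E n, ℂ)) (x : E n) : Integrable fun y => f y * g (x - y) := by
  have h1 : (fun y => g (x - y)) = shiftS x g := by
    ext y; exact (shiftS_apply x y g).symm
  have h2 : (fun y => f y * g (x - y)) = fun y => f y * shiftS x g y := by
    ext y; rw [shiftS_apply]
  rw [h2]
  exact (SchwartzMap.pairing (ContinuousLinearMap.mul ℂ ℂ) f (shiftS x g)).integrable

theorem xx_sconv (k : Fin n) (f g : 𝓢(E n, ℂ)) :
    xx k (sconv f g) = sconv (xx k f) g + sconv f (xx k g) := by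
  ext x
  have h1 : (sconv (xx k f) g + sconv f (xx k g)) x = sconv (xx k f) g x + sconv f (xx k g) x := rfl
  rw [h1, xx_apply, sconv_apply, sconv_apply, sconv_apply, ← integral_const_mul,
    ← integral_add (conv_integrable _ _ _) (conv_integrable _ _ _)]
  congr 1
  ext y
  rw [xx_apply, xx_apply, PiLp.sub_apply]
  push_cast
  ring

theorem sconv_dilS {t : ℝ} (ht : 0 < t) (f g : 𝓢(E n, ℂ)) :
    sconv (dilS t f) (dilS t g) = dilS t (sconv f g) := by
  ext x
  rw [dilS_apply ht.ne', sconv_apply, sconv_apply]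
  simp_rw [dilS_apply ht.ne', smul_sub]
  have h1 := Measure.integral_comp_smul (μ := (volume : Measure (E n)))
    (fun y => f y * g (t • x - y)) t
  have h2 : (Module.finrank ℝ (E n)) = n := by simp
  rw [h2, abs_of_pos (by positivity), Complex.real_smul] at h1
  have h3 : ∀ y : E n, (t : ℂ) ^ n * f (t • y) * ((t : ℂ) ^ n * g (t • x - t • y)) =
      (t : ℂ) ^ n * (t : ℂ) ^ n * (f (t • y) * g (t • x - t • y)) := fun y => by ring
  simp_rw [h3]
  rw [integral_const_mul, h1]
  push_cast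
  have h4 : (t : ℂ) ^ n ≠ 0 := pow_ne_zero _ (Complex.ofReal_ne_zero.2 ht.ne')
  field_simp

theorem off_sconv {K K' : Set (E n)} {f g : 𝓢(E n, ℂ)} (hf : Off K f) (hg : Off K' g) :
    Off (K + K') (sconv f g) := by
  intro x hx
  rw [sconv_apply]
  have : ∀ y, f y * g (x - y) = 0 := by
    intro y
    by_cases hy : y ∈ K
    · have : x - y ∉ K' := fun h => hx ⟨y, hy, x - y, h, by simp⟩
      rw [hg _ this, mul_zero]
    · rw [hf _ hy, zero_mul]
  simp [this]

/-- moments of order `< N` of `c` times a normalised function -/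
def DM (N : ℕ) (c : ℂ) (f : 𝓢(E n, ℂ)) : Prop :=
  ∀ l : List (Fin n), l.length < N → II (X l f) = if l = [] then c else 0

theorem DM.add {N : ℕ} {c c' : ℂ} {f g : 𝓢(E n, ℂ)} (hf : DM N c f) (hg : DM N c' g) :
    DM N (c + c') (f + g) := by
  intro l hl
  rw [map_add, map_add, hf l hl, hg l hl]
  split_ifs <;> simp

theorem DM.smul {N : ℕ} {c : ℂ} {f : 𝓢(E n, ℂ)} (hf : DM N c f) (a : ℂ) :
    DM N (a * c) (a • f) := by
  intro l hl
  rw [map_smul, map_smul, hf l hl]
  split_ifs <;> simp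

theorem DM.dilS {N : ℕ} {c : ℂ} {f : 𝓢(E n, ℂ)} (hf : DM N c f) {t : ℝ} (ht : 0 < t) :
    DM N c (MP6db0a9.dilS t f) := by
  intro l hl
  rw [X_dilS ht.ne', map_smul, II_dilS ht, hf l hl]
  split_ifs with h
  · subst h; simp
  · simp

theorem X_sconv (l : List (Fin n)) : ∃ ps : List (List (Fin n) × List (Fin n)),
    (∀ p ∈ ps, p.1.length + p.2.length = l.length) ∧ ∀ f g : 𝓢(E n, ℂ),
      X l (sconv f g) = (ps.map fun p => sconv (X p.1 f) (X p.2 g)).sum := by
  induction l with
  | nil => exact ⟨[([], [])], by simp, fun f g => by simp [X_nil]⟩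
  | cons a l ih =>
    obtain ⟨ps, h1, h2⟩ := ih
    refine ⟨ps.map (fun p => (a :: p.1, p.2)) ++ ps.map (fun p => (p.1, a :: p.2)), ?_, ?_⟩
    · intro p hp
      rw [List.mem_append, List.mem_map, List.mem_map] at hp
      rcases hp with ⟨q, hq, rfl⟩ | ⟨q, hq, rfl⟩
      · have := h1 q hq
        simp only [List.length_cons]; omega
      · have := h1 q hq
        simp only [List.length_cons]; omega
    · intro f g
      rw [X_cons, Module.End.mul_apply, h2, map_list_sum, List.map_map, List.map_append,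
        List.sum_append, List.map_map, List.map_map, ← List.sum_map_add]
      congr 1
      apply List.map_congr_left
      intro p _
      simp only [Function.comp]
      rw [xx_sconv, X_cons, X_cons, Module.End.mul_apply, Module.End.mul_apply]

theorem DM.sconv {N : ℕ} {c c' : ℂ} {f g : 𝓢(E n, ℂ)} (hf : DM N c f) (hg : DM N c' g) :
    DM N (c * c') (MP6db0a9.sconv f g) := by
  intro l hl
  by_cases h : l = []
  · subst h
    have h1 := hf [] hl
    have h2 := hg [] hl
    rw [if_pos rfl] at h1 h2 ⊢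
    rw [X_nil, Module.End.one_apply] at h1 h2 ⊢
    rw [II_sconv, h1, h2]
  · rw [if_neg h]
    obtain ⟨ps, h1, h2⟩ := X_sconv l
    rw [h2, map_list_sum, List.map_map]
    apply List.sum_eq_zero
    intro x hx
    rw [List.mem_map] at hx
    obtain ⟨p, hp, rfl⟩ := hx
    have h3 := h1 p hp
    simp only [Function.comp]
    rw [II_sconv, hf _ (by omega), hg _ (by omega)]
    by_cases h4 : p.1 = []
    · have h5 : p.2 ≠ [] := by
        intro h5
        rw [h4, h5] at h3
        apply h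
        simpa using h3.symm
      rw [if_neg h5, mul_zero]
    · rw [if_neg h4, zero_mul]

theorem DM.momX {N : ℕ} {f : 𝓢(E n, ℂ)} (hf : DM N 0 f) : MomX N f := by
  intro l hl
  rw [hf l hl]
  simp

end CK

end MP6db0a9
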