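import Pool.Agent.Lib_MP_6db0a9_an.ConeConv

/-!
Compactly supported kernels in a cone.
-/

open MeasureTheory SchwartzMap Set Filter Topology
open scoped ENNReal NNReal FourierTransform LineDeriv ContDiff Pointwise

namespace MP6db0a9

variable {n : ℕ}

namespace CK

/-! ### the compact pieces of the cone -/

/-- pieces of the cone -/
def KK (e : E n) (ρ a b : ℝ) : Set (E n) :=
  (fun p : ℝ × E n => -(p.1 • p.2)) '' (Icc a b ×ˢ Metric.closedBall e ρ)

theorem KK_compact (e : E n) (ρ a b : ℝ) : IsCompact (KK e ρ a b) := by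
  refine (isCompact_Icc.prod (isCompact_closedBall e ρ)).image ?_
  fun_prop

theorem KK_mono {e : E n} {ρ a b a' b' : ℝ} (ha : a' ≤ a) (hb : b ≤ b') :
    KK e ρ a b ⊆ KK e ρ a' b' :=
  image_mono (prod_mono (Icc_subset_Icc ha hb) le_rfl)

theorem KK_add {e : E n} {ρ a b a' b' : ℝ} (ha : 0 < a) (ha' : 0 < a') :
    KK e ρ a b + KK e ρ a' b' ⊆ KK e ρ (a + a') (b + b') := by
  rintro _ ⟨_, ⟨⟨t, h⟩, ⟨ht, hh⟩, rfl⟩, _, ⟨⟨t', h'⟩, ⟨ht', hh'⟩, rfl⟩, rfl⟩
  simp only at ht ht' hh hh'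
  have h1 : 0 < t := ha.trans_le ht.1
  have h2 : 0 < t' := ha'.trans_le ht'.1
  refine ⟨(t + t', (t / (t + t')) • h + (t' / (t + t')) • h'), ⟨⟨add_le_add ht.1 ht'.1,
    add_le_add ht.2 ht'.2⟩, ?_⟩, ?_⟩
  · exact convex_closedBall e ρ hh hh' (by positivity) (by positivity) (by field_simp)
  · simp only [smul_add, smul_smul]
    rw [mul_div_cancel₀ _ (by positivity), mul_div_cancel₀ _ (by positivity)]
    abel

theorem KK_dil {e : E n} {ρ a b : ℝ} {x : E n} (h : (2 : ℝ) • x ∈ KK e ρ a b) :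
    x ∈ KK e ρ (a / 2) (b / 2) := by
  obtain ⟨⟨t, h⟩, ⟨ht, hh⟩, hx⟩ := h
  refine ⟨(t / 2, h), ⟨⟨by have := ht.1; simp only at this ⊢; linarith,
    by have := ht.2; simp only at this ⊢; linarith⟩, hh⟩, ?_⟩
  have : x = (1 / 2 : ℝ) • ((2 : ℝ) • x) := by rw [smul_smul]; norm_num
  rw [this, ← hx]
  simp only [smul_neg, smul_smul]
  congr 2
  ring

theorem KK_cone {e : E n} {ρ a b r : ℝ} (ha : 0 < a) (hb : b ≤ 1) (hρ : ρ < r) {x : E n}
    (h : x ∈ KK e ρ a b) : -x ∈ cone e r := by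
  obtain ⟨⟨t, h⟩, ⟨ht, hh⟩, rfl⟩ := h
  refine ⟨t, ⟨ha.trans_le ht.1, ht.2.trans hb⟩, h, ?_, by simp⟩
  rw [Metric.mem_ball]
  exact (Metric.mem_closedBall.1 hh).trans_lt hρ

theorem off_dilS {K K' : Set (E n)} {f : 𝓢(E n, ℂ)} (h : Off K f)
    (hK : ∀ x : E n, (2 : ℝ) • x ∈ K → x ∈ K') : Off K' (dilS 2 f) := by
  intro x hx
  rw [dilS_apply two_ne_zero, h _ (fun h' => hx (hK x h')), mul_zero]

theorem Off.mono {K K' : Set (E n)} {f : 𝓢(E n, ℂ)} (h : Off K f) (hK : K ⊆ K') : Off K' f :=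
  fun x hx => h x fun h' => hx (hK h')

/-! ### the explicit functions -/

/-- linear functional with value `1` at `-e` -/
noncomputable def ell (e : E n) : E n →L[ℝ] ℝ := -((‖e‖ ^ 2)⁻¹ • innerSL ℝ e)

theorem ell_neg {e : E n} (he : e ≠ 0) : ell e (-e) = 1 := by
  have : ‖e‖ ≠ 0 := norm_ne_zero_iff.2 he
  unfold ell
  simp only [_root_.neg_apply, _root_.smul_apply, innerSL_apply_apply, inner_neg_right,
    real_inner_self_eq_norm_sq, smul_eq_mul]
  field_simp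

/-- cut-off -/
noncomputable def bmp (e : E n) (ρ : ℝ) (hρ : 0 < ρ) : ContDiffBump (-e) :=
  ⟨ρ / 2, ρ, by linarith, by linarith⟩

/-- the functions `ℓ^(-n) h(ℓ) b(x/ℓ)` -/
noncomputable def FR (e : E n) (ρ : ℝ) (hρ : 0 < ρ) (h : ℝ → ℝ) (x : E n) : ℝ :=
  ((ell e x)⁻¹) ^ n * h (ell e x) * bmp e ρ hρ ((ell e x)⁻¹ • x)

/-- admissible profile functions -/
structure Prof (h : ℝ → ℝ) (a b : ℝ) : Prop where
  smooth : ContDiff ℝ ∞ h
  left : ∀ u ≤ a, h u = 0
  right : ∀ u, b ≤ u → h u = 0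

theorem FR_off {e : E n} {ρ : ℝ} {hρ : 0 < ρ} {h : ℝ → ℝ} {a b : ℝ} (hh : Prof h a b) (ha : 0 < a)
    {x : E n} (hx : x ∉ KK e ρ a b) : FR e ρ hρ h x = 0 := by
  by_contra hne
  apply hx
  unfold FR at hne
  have h1 : h (ell e x) ≠ 0 := fun h0 => hne (by rw [h0]; ring)
  have h2 : bmp e ρ hρ ((ell e x)⁻¹ • x) ≠ 0 := fun h0 => hne (by rw [h0]; ring)
  have h3 : a < ell e x := by
    by_contra h4; exact h1 (hh.left _ (not_lt.1 h4))
  have h4 : ell e x < b := by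
    by_contra h4; exact h1 (hh.right _ (not_lt.1 h4))
  have h5 : (ell e x)⁻¹ • x ∈ Metric.ball (-e) ρ := by
    have := (bmp e ρ hρ).support_eq
    have h6 : (ell e x)⁻¹ • x ∈ Function.support (bmp e ρ hρ) := h2
    rw [this] at h6
    exact h6
  have h6 : ell e x ≠ 0 := (ha.trans h3).ne'
  refine ⟨(ell e x, -((ell e x)⁻¹ • x)), ⟨⟨h3.le, h4.le⟩, ?_⟩, ?_⟩
  · rw [Metric.mem_closedBall, dist_eq_norm]
    rw [Metric.mem_ball, dist_eq_norm] at h5
    rw [show -((ell e x)⁻¹ • x) - e = -((ell e x)⁻¹ • x - -e) by abel, norm_neg]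
    exact h5.le
  · simp only [smul_neg, neg_neg, smul_smul]
    rw [mul_inv_cancel₀ h6, one_smul]

theorem FR_eventually {e : E n} {ρ : ℝ} {hρ : 0 < ρ} {h : ℝ → ℝ} {a b : ℝ} (hh : Prof h a b)
    {x : E n} (hx : ell e x < a) : ∀ᶠ y in 𝓝 x, FR e ρ hρ h y = 0 := by
  have h1 : ∀ᶠ y in 𝓝 x, ell e y < a := (ell e).continuous.continuousAt.eventually_lt
    continuousAt_const hx
  filter_upwards [h1] with y hy
  unfold FR
  rw [hh.left _ hy.le]
  ring

theorem FR_smooth {e : E n} {ρ : ℝ} {hρ : 0 < ρ} {h : ℝ → ℝ} {a b : ℝ} (hh : Prof h a b)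
    (ha : 0 < a) : ContDiff ℝ ∞ (FR e ρ hρ h) := by
  rw [contDiff_iff_contDiffAt]
  intro x
  by_cases hx : ell e x < a
  · have h1 : FR e ρ hρ h =ᶠ[𝓝 x] fun _ => 0 := FR_eventually hh hx
    exact contDiffAt_const.congr_of_eventuallyEq h1
  · have h6 : ell e x ≠ 0 := (ha.trans_le (not_lt.1 hx)).ne'
    unfold FR
    have h7 : ContDiffAt ℝ ∞ (fun y => (ell e y)⁻¹) x := (ell e).contDiff.contDiffAt.inv h6
    refine ((h7.pow n).mul (hh.smooth.contDiffAt.comp x (ell e).contDiff.contDiffAt)).mul ?_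
    exact (bmp e ρ hρ).contDiff.contDiffAt.comp x (h7.smul contDiffAt_id)

theorem FR_compact {e : E n} {ρ : ℝ} {hρ : 0 < ρ} {h : ℝ → ℝ} {a b : ℝ} (hh : Prof h a b)
    (ha : 0 < a) : HasCompactSupport (FR e ρ hρ h) :=
  HasCompactSupport.intro (KK_compact e ρ a b) fun _ hx => FR_off hh ha hx

/-- the Schwartz function -/
noncomputable def FS (e : E n) (ρ : ℝ) (hρ : 0 < ρ) {h : ℝ → ℝ} {a b : ℝ} (hh : Prof h a b)
    (ha : 0 < a) : 𝓢(E n, ℂ) :=
  HasCompactSupport.toSchwartzMap (f := fun x => ((FR e ρ hρ h x : ℝ) : ℂ))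
    ((FR_compact hh ha).comp_left Complex.ofReal_zero)
    (Complex.ofRealCLM.contDiff.comp (FR_smooth hh ha))

theorem FS_apply {e : E n} {ρ : ℝ} {hρ : 0 < ρ} {h : ℝ → ℝ} {a b : ℝ} (hh : Prof h a b)
    (ha : 0 < a) (x : E n) : FS e ρ hρ hh ha x = ((FR e ρ hρ h x : ℝ) : ℂ) := rfl

theorem theta_apply (f : 𝓢(E n, ℂ)) (x : E n) : theta f x = n * f x + fderiv ℝ f x x := by
  have h1 : theta f = ∑ k, (xx k (dd k f) + f) := by
    unfold theta
    rw [LinearMap.sum_apply]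
    refine Finset.sum_congr rfl fun k _ => ?_
    rw [Module.End.mul_apply, dd_xx, if_pos rfl]
  have h2 : theta f = ∑ k, xx k (dd k f) + (n : ℂ) • f := by
    rw [h1, Finset.sum_add_distrib]
    simp [Nat.cast_smul_eq_nsmul]
  have h3 : ∀ s : Finset (Fin n), (∑ k ∈ s, xx k (dd k f)) x =
      fderiv ℝ f x (∑ k ∈ s, x k • (EuclideanSpace.single k (1 : ℝ) : E n)) := by
    intro s
    induction s using Finset.cons_induction with
    | empty => simp
    | cons a s has ih =>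
      rw [Finset.sum_cons, Finset.sum_cons, map_add, ← ih, map_smul, Complex.real_smul, ← dd_apply,
        ← xx_apply]
      rfl
  have hw : ∑ k, x k • (EuclideanSpace.single k (1 : ℝ) : E n) = x := by
    ext j
    simp [Pi.single_apply]
  have h4 : (∑ k, xx k (dd k f) + (n : ℂ) • f) x = (∑ k, xx k (dd k f)) x + (n : ℂ) * f x := rfl
  rw [h2, h4, h3, hw]
  ring

theorem FR_euler {e : E n} {ρ : ℝ} {hρ : 0 < ρ} {h : ℝ → ℝ} {a b : ℝ} (hh : Prof h a b)
    (ha : 0 < a) (x : E n) :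
    n * FR e ρ hρ h x + fderiv ℝ (FR e ρ hρ h) x x = FR e ρ hρ (fun u => u * deriv h u) x := by
  by_cases hx : ell e x = 0
  · have h1 : FR e ρ hρ h =ᶠ[𝓝 x] fun _ => 0 := FR_eventually hh (by rw [hx]; exact ha)
    rw [h1.fderiv_eq, h1.self_of_nhds]
    unfold FR
    simp [hx]
  · have hd := ((FR_smooth (e := e) (hρ := hρ) hh ha).differentiable (by simp) x).hasFDerivAt
    -- derivative along the ray
    have hc : HasDerivAt (fun t : ℝ => (1 + t) • x) x 0 := by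
      have := ((hasDerivAt_id (0 : ℝ)).const_add 1).smul_const x
      simpa using this
    have hd' : HasFDerivAt (FR e ρ hρ h) (fderiv ℝ (FR e ρ hρ h) x) ((1 + (0 : ℝ)) • x) := by
      simpa using hd
    have h1 := hd'.comp_hasDerivAt (0 : ℝ) hc
    have hne : ∀ᶠ t : ℝ in 𝓝 0, 1 + t ≠ 0 := by
      have : ContinuousAt (fun t : ℝ => 1 + t) 0 := by fun_prop
      exact this.eventually_ne (by norm_num)
    have h2 : (FR e ρ hρ h ∘ fun t : ℝ => (1 + t) • x) =ᶠ[𝓝 0] fun t =>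
        ((((1 + t) * ell e x)⁻¹) ^ n * h ((1 + t) * ell e x)) *
          bmp e ρ hρ ((ell e x)⁻¹ • x) := by
      filter_upwards [hne] with t ht
      simp only [Function.comp, FR, map_smul, smul_eq_mul]
      congr 2
      rw [smul_smul, mul_inv]
      congr 1
      field_simp
    have h3 : HasDerivAt (fun t : ℝ => (1 + t) * ell e x) (ell e x) 0 := by
      have := ((hasDerivAt_id (0 : ℝ)).const_add 1).mul_const (ell e x)
      simpa using this
    have h4 : HasDerivAt (fun u : ℝ => (u⁻¹) ^ n * h u)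
        (n * ((ell e x)⁻¹) ^ (n - 1) * (-((ell e x) ^ 2)⁻¹) * h (ell e x) +
          ((ell e x)⁻¹) ^ n * deriv h (ell e x)) (ell e x) :=
      ((hasDerivAt_inv hx).pow n).mul
        (hh.smooth.differentiable (by simp) (ell e x)).hasDerivAt
    have h4' : HasDerivAt (fun u : ℝ => (u⁻¹) ^ n * h u)
        (n * ((ell e x)⁻¹) ^ (n - 1) * (-((ell e x) ^ 2)⁻¹) * h (ell e x) +
          ((ell e x)⁻¹) ^ n * deriv h (ell e x)) ((1 + 0) * ell e x) := by
      simpa using h4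
    have h5 := (h4'.comp (0 : ℝ) h3).mul_const (bmp e ρ hρ ((ell e x)⁻¹ • x))
    have h6 := (h5.congr_of_eventuallyEq h2).unique h1
    rw [← h6]
    unfold FR
    obtain ⟨w, hw⟩ : ∃ w, w = (ell e x)⁻¹ := ⟨_, rfl⟩
    have hwu : w * ell e x = 1 := by rw [hw, inv_mul_cancel₀ hx]
    have hw2 : ((ell e x) ^ 2)⁻¹ = w ^ 2 := by rw [hw, inv_pow]
    have key : (n : ℝ) * w ^ (n - 1) * w = n * w ^ n := by
      rcases Nat.eq_zero_or_pos n with h0 | h0
      · simp [h0]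
      · rw [mul_assoc, ← pow_succ, Nat.sub_add_cancel h0]
    rw [hw2, ← hw]
    linear_combination (-(h (ell e x)) * bmp e ρ hρ (w • x) * w * ell e x) * key +
      (-n * w ^ n * h (ell e x) * bmp e ρ hρ (w • x)) * hwu

theorem theta_FS {e : E n} {ρ : ℝ} {hρ : 0 < ρ} {h : ℝ → ℝ} {a b : ℝ} (hh : Prof h a b)
    (ha : 0 < a) (x : E n) : theta (FS e ρ hρ hh ha) x =
      ((FR e ρ hρ (fun u => u * deriv h u) x : ℝ) : ℂ) := by
  rw [theta_apply, ← FR_euler hh ha, FS_apply]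
  have h1 : HasFDerivAt (fun x => ((FR e ρ hρ h x : ℝ) : ℂ))
      (Complex.ofRealCLM.comp (fderiv ℝ (FR e ρ hρ h) x)) x :=
    Complex.ofRealCLM.hasFDerivAt.comp x
      ((FR_smooth hh ha).differentiable (by simp) x).hasFDerivAt
  have h2 : fderiv ℝ (FS e ρ hρ hh ha) x = Complex.ofRealCLM.comp (fderiv ℝ (FR e ρ hρ h) x) :=
    h1.fderiv
  rw [h2]
  simp

theorem FR_congr {e : E n} {ρ : ℝ} {hρ : 0 < ρ} {h h' : ℝ → ℝ} (hh : ∀ u, h u = h' u) (x : E n) :
    FR e ρ hρ h x = FR e ρ hρ h' x := by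
  have : h = h' := funext hh
  rw [this]

theorem dil_FR {e : E n} {ρ : ℝ} {hρ : 0 < ρ} {h : ℝ → ℝ} (x : E n) :
    2 ^ n * FR e ρ hρ h ((2 : ℝ) • x) = FR e ρ hρ (fun u => h (2 * u)) x := by
  unfold FR
  rw [map_smul, smul_eq_mul, smul_smul, mul_inv, mul_pow]
  have h1 : (2 : ℝ) ^ n * (2⁻¹) ^ n = 1 := by rw [← mul_pow]; norm_num
  have h2 : (2 : ℝ)⁻¹ * (ell e x)⁻¹ * 2 = (ell e x)⁻¹ := by ring
  rw [h2]
  linear_combination ((ell e x)⁻¹ ^ n * h (2 * ell e x) * bmp e ρ hρ ((ell e x)⁻¹ • x)) * h1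

/-! ### the profile -/

/-- the bump -/
noncomputable def sb : ContDiffBump (3 / 16 : ℝ) := ⟨1 / 32, 1 / 16, by norm_num, by norm_num⟩

theorem sb_left {u : ℝ} (hu : u ≤ 1 / 8) : sb u = 0 := by
  have h1 : u ∉ Function.support sb := by
    rw [sb.support_eq, Metric.mem_ball, Real.dist_eq, not_lt]
    show (1 / 16 : ℝ) ≤ _
    rw [abs_of_nonpos (by linarith)]
    linarith
  exact Function.notMem_support.1 h1

theorem sb_right {u : ℝ} (hu : 1 / 4 ≤ u) : sb u = 0 := by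
  have h1 : u ∉ Function.support sb := by
    rw [sb.support_eq, Metric.mem_ball, Real.dist_eq, not_lt]
    show (1 / 16 : ℝ) ≤ _
    rw [abs_of_nonneg (by linarith)]
    linarith
  exact Function.notMem_support.1 h1

/-- primitive -/
noncomputable def SB (u : ℝ) : ℝ := ∫ t in (0 : ℝ)..u, sb t

theorem SB_deriv (u : ℝ) : HasDerivAt SB (sb u) u :=
  intervalIntegral.integral_hasDerivAt_right (sb.continuous.intervalIntegrable _ _)
    (sb.continuous.stronglyMeasurableAtFilter _ _) sb.continuous.continuousAt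

theorem SB_smooth : ContDiff ℝ ∞ SB := by
  rw [contDiff_infty_iff_deriv]
  refine ⟨fun u => (SB_deriv u).differentiableAt, ?_⟩
  have : deriv SB = sb := funext fun u => (SB_deriv u).deriv
  rw [this]
  exact sb.contDiff

/-- profile of `κ` -/
noncomputable def hk (u : ℝ) : ℝ := u * sb u

/-- profile of `χ` -/
noncomputable def hc (u : ℝ) : ℝ := SB (2 * u) - SB u

theorem prof_hk : Prof hk (1 / 8) (1 / 4) where
  smooth := contDiff_id.mul sb.contDiff
  left u hu := by unfold hk; rw [sb_left hu, mul_zero]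
  right u hu := by unfold hk; rw [sb_right hu, mul_zero]

theorem prof_hc : Prof hc (1 / 16) (1 / 4) where
  smooth := (SB_smooth.comp (contDiff_const.mul contDiff_id)).sub SB_smooth
  left u hu := by
    unfold hc SB
    rw [intervalIntegral.integral_interval_sub_left (sb.continuous.intervalIntegrable _ _)
      (sb.continuous.intervalIntegrable _ _)]
    refine (intervalIntegral.integral_congr (g := fun _ => (0 : ℝ)) fun t ht => ?_).trans (by simp)
    refine sb_left ?_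
    rcases le_total u (2 * u) with h | h
    · rw [uIcc_of_le h] at ht; linarith [ht.2]
    · rw [uIcc_of_ge h] at ht; linarith [ht.2]
  right u hu := by
    unfold hc SB
    rw [intervalIntegral.integral_interval_sub_left (sb.continuous.intervalIntegrable _ _)
      (sb.continuous.intervalIntegrable _ _)]
    refine (intervalIntegral.integral_congr (g := fun _ => (0 : ℝ)) fun t ht => ?_).trans (by simp)
    refine sb_right ?_
    rw [uIcc_of_le (by linarith)] at ht; linarith [ht.1]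

theorem hc_deriv (u : ℝ) : u * deriv hc u = hk (2 * u) - hk u := by
  have h1 : HasDerivAt (fun u : ℝ => 2 * u) 2 u := by simpa using (hasDerivAt_id u).const_mul 2
  have h2 : HasDerivAt hc (sb (2 * u) * 2 - sb u) u :=
    ((SB_deriv (2 * u)).comp u h1).sub (SB_deriv u)
  rw [h2.deriv]
  unfold hk
  ring

theorem FR_pos {e : E n} (he : e ≠ 0) {ρ : ℝ} (hρ : 0 < ρ) : 0 < ∫ x, FR e ρ hρ hk x := by
  refine Continuous.integral_pos_of_hasCompactSupport_nonneg_nonzero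
    (x := (3 / 16 : ℝ) • (-e)) (FR_smooth prof_hk (by norm_num)).continuous
    (FR_compact prof_hk (by norm_num)) ?_ ?_
  · intro x
    unfold FR
    by_cases hx : ell e x ≤ 1 / 8
    · rw [prof_hk.left _ hx]; simp
    · have h1 : 0 < ell e x := by linarith [not_le.1 hx]
      have h2 : 0 ≤ hk (ell e x) := mul_nonneg h1.le sb.nonneg
      have h3 : 0 ≤ bmp e ρ hρ ((ell e x)⁻¹ • x) := (bmp e ρ hρ).nonneg
      exact mul_nonneg (mul_nonneg (by positivity) h2) h3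
  · unfold FR
    rw [map_smul, ell_neg he, smul_eq_mul, mul_one, smul_smul]
    have h1 : sb (3 / 16 : ℝ) = 1 := sb.one_of_mem_closedBall (Metric.mem_closedBall_self (by
      show (0 : ℝ) ≤ 1 / 32; norm_num))
    have h2 : bmp e ρ hρ (-e) = 1 :=
      (bmp e ρ hρ).one_of_mem_closedBall (Metric.mem_closedBall_self (by
        show (0 : ℝ) ≤ ρ / 2; linarith))
    rw [inv_mul_cancel₀ (by norm_num), one_smul, h2]
    unfold hk
    rw [h1]
    positivity

/-- basic functions: `κ₀` with integral one, and `χ₀` with `κ₀^{(2)} - κ₀ = θ χ₀` -/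
theorem exists_basic (e : E n) (he : e ≠ 0) {ρ : ℝ} (hρ : 0 < ρ) : ∃ κ χ : 𝓢(E n, ℂ),
    Off (KK e ρ (1 / 8) (1 / 4)) κ ∧ Off (KK e ρ (1 / 16) (1 / 4)) χ ∧ II κ = 1 ∧
      dilS 2 κ - κ = theta χ := by
  obtain ⟨K, hK⟩ : ∃ K : 𝓢(E n, ℂ), K = FS e ρ hρ prof_hk (by norm_num) := ⟨_, rfl⟩
  obtain ⟨C, hC⟩ : ∃ C : 𝓢(E n, ℂ), C = FS e ρ hρ prof_hc (by norm_num) := ⟨_, rfl⟩
  have hint : II K ≠ 0 := by
    rw [II_apply, hK]
    have : ∫ x, FS e ρ hρ prof_hk (by norm_num) x = ((∫ x, FR e ρ hρ hk x : ℝ) : ℂ) :=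
      integral_ofReal
    rw [this]
    exact Complex.ofReal_ne_zero.2 (FR_pos he hρ).ne'
  have hid : dilS 2 K - K = theta C := by
    ext x
    have h1 : (dilS 2 K - K) x = dilS 2 K x - K x := rfl
    rw [h1, dilS_apply two_ne_zero, hK, hC, FS_apply, FS_apply, theta_FS,
      FR_congr hc_deriv]
    have h2 := dil_FR (e := e) (hρ := hρ) (h := hk) x
    have h3 : FR e ρ hρ (fun u => hk (2 * u) - hk u) x =
        2 ^ n * FR e ρ hρ hk ((2 : ℝ) • x) - FR e ρ hρ hk x := by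
      rw [h2]
      unfold FR
      ring
    rw [h3]
    push_cast
    ring
  refine ⟨(II K)⁻¹ • K, (II K)⁻¹ • C, Off.smul ?_ _, Off.smul ?_ _, ?_, ?_⟩
  · intro x hx
    rw [hK, FS_apply, FR_off prof_hk (by norm_num) hx, Complex.ofReal_zero]
  · intro x hx
    rw [hC, FS_apply, FR_off prof_hc (by norm_num) hx, Complex.ofReal_zero]
  · rw [map_smul, smul_eq_mul, inv_mul_cancel₀ hint]
  · rw [map_smul, map_smul, ← smul_sub, hid]

end CK

open CK

/-- Compactly supported kernels in the cone `-cone e r` with a local reproducing formula. -/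
theorem exists_kernels (e : E n) (r : ℝ) (hr : 0 < r) (hre : r < ‖e‖) (m L : ℕ) :
    ∃ (φ0 φ1 ψ0 ψ1 κ : 𝓢(E n, ℂ)) (η : Fin n → 𝓢(E n, ℂ)),
      (HasCompactSupport φ0 ∧ ∀ x ∈ tsupport φ0, -x ∈ cone e r) ∧
      (HasCompactSupport φ1 ∧ ∀ x ∈ tsupport φ1, -x ∈ cone e r) ∧
      (HasCompactSupport ψ0 ∧ ∀ x ∈ tsupport ψ0, -x ∈ cone e r) ∧
      (HasCompactSupport ψ1 ∧ ∀ x ∈ tsupport ψ1, -x ∈ cone e r) ∧
      (∀ k, HasCompactSupport (η k) ∧ ∀ x ∈ tsupport (η k), -x ∈ cone e r) ∧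
      φ1 = ∑ k, pdS k m (η k) ∧ (∀ k, Mom0 L (η k)) ∧ Mom0 L ψ1 ∧ ∫ x, κ x = 1 ∧
      ∀ J : ℕ, ∑ j ∈ Finset.range (J + 1), sconv (fam φ0 φ1 j) (fam ψ0 ψ1 j) =
        dilS (2 ^ J) κ := by
  have he : e ≠ 0 := by
    rintro rfl
    rw [norm_zero] at hre
    linarith
  have hρ : 0 < r / 2 := by linarith
  obtain ⟨κ0, χ0, hκ0, hχ0, hint, hrel⟩ := exists_basic e he hρ
  obtain ⟨R, hR⟩ : ∃ R, R = n * (m - 1) + m + L := ⟨_, rfl⟩
  have hfac : ((R.factorial : ℂ)) ≠ 0 := Nat.cast_ne_zero.2 (Nat.factorial_ne_zero R)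
  obtain ⟨φ0, hφ0⟩ : ∃ φ0 : 𝓢(E n, ℂ), φ0 = ((R.factorial : ℂ))⁻¹ • TH R κ0 := ⟨_, rfl⟩
  obtain ⟨U0, hU0⟩ : ∃ U0 : 𝓢(E n, ℂ), U0 = dilS 2 φ0 := ⟨_, rfl⟩
  -- supports
  have hA : KK e (r / 2) (1 / 8) (1 / 4) ⊆ KK e (r / 2) (1 / 16) (1 / 4) :=
    KK_mono (by norm_num) le_rfl
  have hAC : KK e (r / 2) (1 / 16) (1 / 4) ⊆ KK e (r / 2) (1 / 16) (1 / 2) :=
    KK_mono le_rfl (by norm_num)
  have hclosed : ∀ a b, IsClosed (KK e (r / 2) a b) := fun a b => (KK_compact e _ a b).isClosed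
  have hAA : KK e (r / 2) (1 / 16) (1 / 4) + KK e (r / 2) (1 / 16) (1 / 4) ⊆
      KK e (r / 2) (1 / 16) (1 / 2) :=
    (KK_add (by norm_num) (by norm_num)).trans (KK_mono (by norm_num) (by norm_num))
  have oφ0' : Off (KK e (r / 2) (1 / 8) (1 / 4)) φ0 := by
    rw [hφ0]; exact (hκ0.TH (hclosed _ _) R).smul _
  have oφ0 : Off (KK e (r / 2) (1 / 16) (1 / 4)) φ0 := oφ0'.mono hA
  have oU0 : Off (KK e (r / 2) (1 / 16) (1 / 4)) U0 := by
    rw [hU0]
    exact off_dilS oφ0' fun x hx => KK_mono (by norm_num) (by norm_num) (KK_dil hx)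
  have fin : ∀ {f : 𝓢(E n, ℂ)}, Off (KK e (r / 2) (1 / 16) (1 / 2)) f →
      HasCompactSupport f ∧ ∀ x ∈ tsupport f, -x ∈ cone e r := by
    intro f hf
    have h1 := (off_iff (hclosed _ _) f).1 hf
    exact ⟨HasCompactSupport.of_support_subset_isCompact (KK_compact e _ _ _)
      ((subset_tsupport _).trans h1), fun x hx =>
      KK_cone (by norm_num) (by norm_num) (by linarith) (h1 hx)⟩
  have cv2 : ∀ {f g : 𝓢(E n, ℂ)}, Off (KK e (r / 2) (1 / 16) (1 / 4)) f →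
      Off (KK e (r / 2) (1 / 16) (1 / 4)) g → Off (KK e (r / 2) (1 / 16) (1 / 2)) (sconv f g) :=
    fun hf hg => (off_sconv hf hg).mono hAA
  -- moments
  have mφ0 : DM (R + 1) 1 φ0 := by
    intro l hl
    rw [hφ0, map_smul, map_smul, II_X_TH, smul_eq_mul]
    by_cases h : l = []
    · subst h
      rw [if_pos rfl, X_nil, Module.End.one_apply, hint, mul_one]
      have h1 : ∏ i ∈ Finset.range R, ((i : ℂ) + 1 - (([] : List (Fin n)).length : ℂ)) =
          (R.factorial : ℂ) := by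
        rw [← Finset.prod_range_add_one_eq_factorial]
        push_cast
        simp
      rw [h1, inv_mul_cancel₀ hfac]
    · rw [if_neg h]
      have h1 : 1 ≤ l.length := Nat.one_le_iff_ne_zero.2 fun h0 => h (List.length_eq_zero_iff.1 h0)
      have h2 : ∏ i ∈ Finset.range R, ((i : ℂ) + 1 - (l.length : ℂ)) = 0 := by
        refine Finset.prod_eq_zero (i := l.length - 1) (Finset.mem_range.2 (by omega)) ?_
        rw [Nat.cast_sub h1]
        push_cast
        ring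
      rw [h2, zero_mul, mul_zero]
  have mφL : DM L 1 φ0 := fun l hl => mφ0 l (by omega)
  have mUL : DM L 1 U0 := by rw [hU0]; exact mφL.dilS two_pos
  -- the kernel `φ1`
  have hφ1 : U0 - φ0 = ((R.factorial : ℂ))⁻¹ • TH R (theta χ0) := by
    rw [← hrel, map_sub, TH_dilS two_ne_zero, hU0, hφ0, map_smul, ← smul_sub]
  have hmem : U0 - φ0 ∈ TS (KK e (r / 2) (1 / 16) (1 / 4)) (R + 1) := by
    rw [hφ1]
    exact Submodule.smul_mem _ _ (TH_theta_mem hχ0 R)
  obtain ⟨η, hη1, hη2⟩ := TS_decomp (m := m) (by omega) (by omega) hmem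
  refine ⟨φ0, U0 - φ0, (3 : ℂ) • φ0 + (-2 : ℂ) • sconv φ0 φ0,
    (3 : ℂ) • (U0 + φ0) + (-2 : ℂ) • (sconv U0 U0 + sconv U0 φ0 + sconv φ0 φ0),
    (3 : ℂ) • sconv φ0 φ0 + (-2 : ℂ) • sconv φ0 (sconv φ0 φ0), η, fin (oφ0.mono hAC), ?_, ?_, ?_,
    ?_, ?_, ?_, ?_, ?_, ?_⟩
  · exact fin ((off_of_TS (hclosed _ _) hmem).mono hAC)
  · exact fin (((oφ0.mono hAC).smul _).add ((cv2 oφ0 oφ0).smul _))
  · exact fin ((((oU0.mono hAC).add (oφ0.mono hAC)).smul _).add
      ((((cv2 oU0 oU0).add (cv2 oU0 oφ0)).add (cv2 oφ0 oφ0)).smul _))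
  · intro k
    exact fin ((off_of_TS (hclosed _ _) (hη1 k)).mono hAC)
  · rw [hη2]
    exact Finset.sum_congr rfl fun k _ => (pdS_eq k m (η k)).symm
  · intro k
    exact mom0_of_momX (momX_mono (by omega) (mom_of_TS (hη1 k)))
  · apply mom0_of_momX
    apply DM.momX
    have h1 := ((mUL.add mφL).smul 3).add
      ((((mUL.sconv mUL).add (mUL.sconv mφL)).add (mφL.sconv mφL)).smul (-2))
    have h2 : (3 : ℂ) * (1 + 1) + (-2) * (1 * 1 + 1 * 1 + 1 * 1) = 0 := by norm_num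
    rw [h2] at h1
    exact h1
  · rw [← II_apply, map_add, map_smul, map_smul, II_sconv, II_sconv, II_sconv]
    have h1 : II φ0 = 1 := by
      have := mφ0 [] (by simp)
      simpa [X_nil] using this
    rw [h1]
    norm_num
  · -- telescoping
    have hbase : sconv φ0 ((3 : ℂ) • φ0 + (-2 : ℂ) • sconv φ0 φ0) =
        (3 : ℂ) • sconv φ0 φ0 + (-2 : ℂ) • sconv φ0 (sconv φ0 φ0) := by
      unfold sconv
      rw [map_add, map_smul, map_smul]
    have hstep : sconv (U0 - φ0)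
        ((3 : ℂ) • (U0 + φ0) + (-2 : ℂ) • (sconv U0 U0 + sconv U0 φ0 + sconv φ0 φ0)) =
        dilS 2 ((3 : ℂ) • sconv φ0 φ0 + (-2 : ℂ) • sconv φ0 (sconv φ0 φ0)) -
          ((3 : ℂ) • sconv φ0 φ0 + (-2 : ℂ) • sconv φ0 (sconv φ0 φ0)) := by
      rw [map_add, map_smul, map_smul, ← sconv_dilS two_pos, ← sconv_dilS two_pos,
        ← sconv_dilS two_pos, ← hU0]
      apply F_inj
      intro ξ
      have F_sub : ∀ f g : 𝓢(E n, ℂ), 𝓕 (f - g) = 𝓕 f - 𝓕 g := fun f g =>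
        map_sub (FourierTransform.fourierEquiv ℂ 𝓢(E n, ℂ)) f g
      simp only [F_sconv, FourierTransform.fourier_add, F_sub,
        FourierTransform.fourier_smul, _root_.add_apply, _root_.sub_apply, _root_.smul_apply,
        smul_eq_mul]
      ring
    intro J
    induction J with
    | zero =>
      rw [Finset.sum_range_one, pow_zero, dilS_one]
      exact hbase
    | succ J ih =>
      rw [Finset.sum_range_succ, ih]
      show _ + sconv (dilS (2 ^ J) (U0 - φ0)) (dilS (2 ^ J) _) = _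
      rw [sconv_dilS (by positivity), hstep, map_sub, dilS_dilS (by positivity) two_ne_zero,
        ← pow_succ]
      abel

end MP6db0a9
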