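import Mathlib

/-!
# MP_6db0a9_an: definitions

Besov / Triebel-Lizorkin / Morrey type spaces `𝓑, 𝓕, 𝓝` on `ℝⁿ` and on Lipschitz domains.
-/

open MeasureTheory SchwartzMap Set Filter Topology
open scoped ENNReal NNReal FourierTransform LineDeriv ContDiff

namespace MP6db0a9

/-- `ℝⁿ` with the Euclidean norm. -/
abbrev E (n : ℕ) := EuclideanSpace ℝ (Fin n)

variable {n : ℕ}

/-! ### Schwartz functions: translation, dilation, convolution -/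

/-- `(shiftS x φ) y = φ (x - y)`. -/
noncomputable def shiftS (x : E n) : 𝓢(E n, ℂ) →L[ℂ] 𝓢(E n, ℂ) :=
  (compSubConstCLM ℂ x).comp
    (compCLMOfContinuousLinearEquiv ℂ (ContinuousLinearEquiv.neg ℝ (M := E n)))

theorem shiftS_apply (x y : E n) (φ : 𝓢(E n, ℂ)) : shiftS x φ y = φ (x - y) := by
  change φ (-(y - x)) = φ (x - y)
  rw [neg_sub]

/-- `(reflS φ) y = φ (-y)`. -/
noncomputable def reflS : 𝓢(E n, ℂ) →L[ℂ] 𝓢(E n, ℂ) :=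
  compCLMOfContinuousLinearEquiv ℂ (ContinuousLinearEquiv.neg ℝ (M := E n))

theorem reflS_apply (y : E n) (φ : 𝓢(E n, ℂ)) : reflS φ y = φ (-y) := rfl

/-- `(dilS t φ) x = tⁿ φ (t x)` (for `t ≠ 0`). -/
noncomputable def dilS (t : ℝ) : 𝓢(E n, ℂ) →L[ℂ] 𝓢(E n, ℂ) :=
  if ht : t ≠ 0 then
    ((t : ℂ) ^ n) • compCLMOfContinuousLinearEquiv ℂ
      (ContinuousLinearEquiv.smulLeft (R₁ := ℝ) (M₁ := E n) (Units.mk0 t ht))
  else 0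

theorem dilS_apply {t : ℝ} (ht : t ≠ 0) (φ : 𝓢(E n, ℂ)) (x : E n) :
    dilS t φ x = (t : ℂ) ^ n * φ (t • x) := by
  simp only [dilS, dif_pos ht]
  rfl

/-- Convolution of Schwartz functions. -/
noncomputable def sconv (φ ψ : 𝓢(E n, ℂ)) : 𝓢(E n, ℂ) :=
  SchwartzMap.convolution (ContinuousLinearMap.mul ℂ ℂ) φ ψ

/-- The function `φ * u` for a tempered distribution `u` and a Schwartz function `φ`. -/
noncomputable def cv (u : 𝓢'(E n, ℂ)) (φ : 𝓢(E n, ℂ)) (x : E n) : ℂ := u (shiftS x φ)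

/-- `m`-th pure partial derivative of a Schwartz function in the variable `x_k`. -/
noncomputable def pdS (k : Fin n) (m : ℕ) (φ : 𝓢(E n, ℂ)) : 𝓢(E n, ℂ) :=
  (fun w : 𝓢(E n, ℂ) => ∂_{(EuclideanSpace.single k 1 : E n)} w)^[m] φ

/-- `m`-th pure partial derivative of a tempered distribution in the variable `x_k`. -/
noncomputable def pd (k : Fin n) (m : ℕ) (u : 𝓢'(E n, ℂ)) : 𝓢'(E n, ℂ) :=
  (fun w : 𝓢'(E n, ℂ) => ∂_{(EuclideanSpace.single k 1 : E n)} w)^[m] u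

/-! ### Littlewood-Paley families -/

/-- `λ₀` has Fourier transform `1` on `{|ξ| < a}` and `0` outside `{|ξ| < 2 a}`. With the
normalisation `∫ e^{-i x ξ}` of the Fourier transform the problem has `a = 1`, with the
normalisation `∫ e^{-2 π i x ξ}` of Mathlib this is `a = 1 / (2 π)`. -/
def IsLP (a : ℝ) (L0 : 𝓢(E n, ℂ)) : Prop :=
  0 < a ∧ (∀ ξ : E n, ‖ξ‖ < a → 𝓕 L0 ξ = 1) ∧ ∀ ξ : E n, 2 * a ≤ ‖ξ‖ → 𝓕 L0 ξ = 0

/-- `λ_j = λ₀^{(2^j)} - λ₀^{(2^{j-1})}` for `j ≥ 1`. -/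
noncomputable def lam (L0 : 𝓢(E n, ℂ)) : ℕ → 𝓢(E n, ℂ)
  | 0 => L0
  | j + 1 => dilS (2 ^ (j + 1)) L0 - dilS (2 ^ j) L0

/-! ### The sequence (quasi-)norms -/

/-- The open dyadic cube `2^{-J} (v + (0,1)ⁿ)`. -/
def cube (J : ℤ) (v : Fin n → ℤ) : Set (E n) :=
  {x | ∀ i, (2 : ℝ) ^ (-J) * v i < x i ∧ x i < (2 : ℝ) ^ (-J) * (v i + 1)}

/-- The weight `2^{n J τ}`. -/
noncomputable def wt (n : ℕ) (τ : ℝ) (J : ℤ) : ℝ≥0∞ := ENNReal.ofReal ((2 : ℝ) ^ ((n : ℝ) * J * τ))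

/-- The three families of spaces. -/
inductive Scale
  | B
  | F
  | N

/-- The sequence quasi-norms of the three families. -/
noncomputable def seqNorm (A : Scale) (p q : ℝ≥0∞) (τ : ℝ) (g : ℕ → E n → ℝ≥0∞) : ℝ≥0∞ :=
  match A with
  | .B => ⨆ (J : ℤ) (v : Fin n → ℤ), wt n τ J *
      eLpNorm (fun j : ℕ => eLpNorm (g j) p (volume.restrict (cube J v))) q
        (Measure.count.restrict {j : ℕ | J ≤ (j : ℤ)})
  | .F => ⨆ (J : ℤ) (v : Fin n → ℤ), wt n τ J *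
      eLpNorm (fun x : E n => eLpNorm (fun j : ℕ => g j x) q
        (Measure.count.restrict {j : ℕ | J ≤ (j : ℤ)})) p (volume.restrict (cube J v))
  | .N => eLpNorm (fun j : ℕ => ⨆ (J : ℤ) (v : Fin n → ℤ), wt n τ J *
      eLpNorm (g j) p (volume.restrict (cube J v))) q Measure.count

/-- The quasi-norm of `𝓐^{s τ}_{p q}(ℝⁿ)`. -/
noncomputable def anorm (A : Scale) (p q : ℝ≥0∞) (s τ : ℝ) (L0 : 𝓢(E n, ℂ)) (u : 𝓢'(E n, ℂ)) :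
    ℝ≥0∞ :=
  seqNorm A p q τ fun j x => ENNReal.ofReal ((2 : ℝ) ^ ((j : ℝ) * s)) * ‖cv u (lam L0 j) x‖ₑ

/-! ### Restrictions to open sets -/

/-- `u` and `v` have the same restriction to `Ω`. -/
def AgreeOn (Ω : Set (E n)) (u v : 𝓢'(E n, ℂ)) : Prop :=
  ∀ φ : 𝓢(E n, ℂ), HasCompactSupport φ → tsupport φ ⊆ Ω → u φ = v φ

/-- The quasi-norm of the restriction of `u` to `Ω` in `𝓐^{s τ}_{p q}(Ω)`. -/
noncomputable def domNorm (Ω : Set (E n)) (A : Scale) (p q : ℝ≥0∞) (s τ : ℝ) (L0 : 𝓢(E n, ℂ))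
    (u : 𝓢'(E n, ℂ)) : ℝ≥0∞ :=
  ⨅ (v : 𝓢'(E n, ℂ)) (_ : AgreeOn Ω u v), anorm A p q s τ L0 v

/-- The set `{x : x_n > ρ (x_1, ..., x_{n-1})}` (here `n = k + 1`). -/
def epi {k : ℕ} (ρ : E k → ℝ) : Set (E (k + 1)) :=
  {x | ρ (WithLp.toLp 2 fun i : Fin k => x i.castSucc) < x (Fin.last k)}

/-- Special Lipschitz domains. -/
def IsSpecialLipschitz {k : ℕ} (Ω : Set (E (k + 1))) : Prop :=
  ∃ (K : ℝ≥0) (ρ : E k → ℝ), LipschitzWith K ρ ∧ Ω = epi ρ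

/-- Bounded Lipschitz domains. -/
def IsBoundedLipschitz {k : ℕ} (Ω : Set (E (k + 1))) : Prop :=
  Bornology.IsBounded Ω ∧ IsOpen Ω ∧ ∀ z ∈ frontier Ω, ∃ U ∈ 𝓝 z,
    ∃ (T : E (k + 1) ≃ᵃⁱ[ℝ] E (k + 1)) (K : ℝ≥0) (ρ : E k → ℝ), LipschitzWith K ρ ∧
      Ω ∩ U = (T ⁻¹' epi ρ) ∩ U

/-! ### Auxiliary notions used in the proof -/

/-- Vanishing of all moments of order `< L`. -/
def Mom0 (L : ℕ) (b : 𝓢(E n, ℂ)) : Prop :=
  ∀ i < L, ∀ T : ContinuousMultilinearMap ℝ (fun _ : Fin i => E n) ℂ,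
    ∫ w, b w * T (fun _ => w) = 0

/-- The family `a₀, a₁, a₁^{(2)}, a₁^{(4)}, ...`. -/
noncomputable def fam (a0 a1 : 𝓢(E n, ℂ)) : ℕ → 𝓢(E n, ℂ)
  | 0 => a0
  | j + 1 => dilS (2 ^ j) a1

/-- The averaging operators `h ↦ 2^{l n} (1 + 2^l |·|)^{-M} * h`. -/
noncomputable def Av (M : ℝ) (l : ℕ) (h : E n → ℝ≥0∞) (x : E n) : ℝ≥0∞ :=
  ∫⁻ y, ENNReal.ofReal ((2 : ℝ) ^ (l * n) * (1 + 2 ^ l * ‖x - y‖) ^ (-M)) * h y

/-- Peetre's maximal function. -/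
noncomputable def pet (L0 : 𝓢(E n, ℂ)) (N : ℕ) (u : 𝓢'(E n, ℂ)) (l : ℕ) (x : E n) : ℝ≥0∞ :=
  ⨆ z : E n, ‖cv u (lam L0 l) z‖ₑ / ENNReal.ofReal ((1 + 2 ^ l * ‖x - z‖) ^ N)

/-- `2^{-|k-l| M}` as an extended nonnegative real. -/
noncomputable def dec (M : ℝ) (k l : ℕ) : ℝ≥0∞ := ENNReal.ofReal ((2 : ℝ) ^ (-(|(k : ℝ) - l| * M)))

/-- Mixing of the scales. -/
noncomputable def mix (M : ℝ) (b : ℕ → E n → ℝ≥0∞) (k : ℕ) (x : E n) : ℝ≥0∞ :=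
  ∑' l : ℕ, dec M k l * b l x

/-- Smooth functions with bounded derivatives. -/
def SmB (χ : E n → ℂ) : Prop :=
  ContDiff ℝ ∞ χ ∧ ∀ k : ℕ, ∃ C : ℝ, ∀ x, ‖iteratedFDeriv ℝ k χ x‖ ≤ C

/-- The truncated cone `{t h : 0 < t ≤ 1, |h - e| < r}`. -/
def cone (e : E n) (r : ℝ) : Set (E n) := {w | ∃ t ∈ Ioc (0 : ℝ) 1, ∃ h ∈ Metric.ball e r, w = t • h}

/-- A finite system of charts for `Ω`: on `Ω ∩ V i` the set `Ω` is stable under adding elements of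
the cone `cone (e i) (r i)`, the cut-off `χ i` is supported well inside `V i` and `∑ χ i = 1`
on `Ω`. -/
structure Charts (Ω : Set (E n)) where
  /-- number of charts -/
  m : ℕ
  /-- the open sets -/
  V : Fin m → Set (E n)
  /-- the cut-offs -/
  χ : Fin m → E n → ℂ
  /-- cone axes -/
  e : Fin m → E n
  /-- cone radii -/
  r : Fin m → ℝ
  hV : ∀ i, IsOpen (V i)
  hr : ∀ i, 0 < r i
  hre : ∀ i, r i < ‖e i‖
  hχ : ∀ i, SmB (χ i)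
  hsum : ∀ x ∈ Ω, ∑ i, χ i x = 1
  hcone : ∀ i, ∀ x ∈ Ω ∩ V i, ∀ c ∈ cone (e i) (r i), x + c ∈ Ω
  hsupp : ∀ i, tsupport (χ i) ⊆ V i
  hsuppc : ∀ i, ∀ x ∈ tsupport (χ i), ∀ c ∈ cone (e i) (r i), x + c ∈ V i

end MP6db0a9
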