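import Pool.Agent.Lib_MP_6db0a9_an.Defs

/-!
# MP_6db0a9_an, piece Dist: `cv_continuous`, `cv_growth`, `cv_sconv`
-/

open MeasureTheory SchwartzMap Set Filter Topology
open scoped ENNReal NNReal FourierTransform LineDeriv ContDiff Convolution

namespace MP6db0a9

variable {n : ℕ}

theorem dist_shiftS_eq (x : E n) (φ : 𝓢(E n, ℂ)) (y : E n) :
    shiftS x φ y = reflS φ (y - x) := by
  rw [shiftS_apply, reflS_apply, neg_sub]

theorem dist_iter_shift (x : E n) (φ : 𝓢(E n, ℂ)) (l : ℕ) (y : E n) :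
    iteratedFDeriv ℝ l (shiftS x φ) y = iteratedFDeriv ℝ l (reflS φ) (y - x) := by
  have h : (shiftS x φ : E n → ℂ) = fun y => reflS φ (y - x) := by
    funext y
    exact dist_shiftS_eq x φ y
  rw [h, iteratedFDeriv_comp_sub]

theorem dist_bound (ψ : 𝓢(E n, ℂ)) (k l : ℕ) :
    ∃ C : ℝ, 0 ≤ C ∧ ∀ ξ, (1 + ‖ξ‖) ^ k * ‖iteratedFDeriv ℝ l ψ ξ‖ ≤ C := by
  refine ⟨2 ^ k * ((Finset.Iic (k, l)).sup fun m => SchwartzMap.seminorm ℝ m.1 m.2) ψ,
    by positivity, fun ξ => ?_⟩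
  exact SchwartzMap.one_add_le_sup_seminorm_apply (𝕜 := ℝ) (m := (k, l)) le_rfl le_rfl ψ ξ

theorem dist_lip (ψ : 𝓢(E n, ℂ)) (k l : ℕ) :
    ∃ C : ℝ, 0 ≤ C ∧ ∀ w w' y : E n,
      ‖y‖ ^ k * ‖iteratedFDeriv ℝ l ψ (y - w) - iteratedFDeriv ℝ l ψ (y - w')‖ ≤
        C * (1 + ‖w‖ + ‖w'‖) ^ k * ‖w - w'‖ := by
  obtain ⟨C, hC0, hC⟩ := dist_bound ψ k (l + 1)
  refine ⟨C, hC0, fun w w' y => ?_⟩
  have hy : 0 < (1 + ‖y‖) ^ k := by positivity
  have key : ∀ ξ ∈ segment ℝ (y - w') (y - w),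
      ‖fderiv ℝ (iteratedFDeriv ℝ l ψ) ξ‖ ≤ C * (1 + ‖w‖ + ‖w'‖) ^ k / (1 + ‖y‖) ^ k := by
    intro ξ hξ
    rw [norm_fderiv_iteratedFDeriv, le_div_iff₀ hy]
    obtain ⟨a, b, ha, hb, hab, rfl⟩ := hξ
    have h1 : ‖y‖ ≤ ‖a • (y - w') + b • (y - w)‖ + (‖w‖ + ‖w'‖) := by
      have : y = (a • (y - w') + b • (y - w)) + (a • w' + b • w) := by
        simp only [smul_sub]
        have : (a + b) • y = y := by rw [hab, one_smul]
        rw [add_smul] at this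
        calc y = a • y + b • y := this.symm
          _ = _ := by abel
      calc ‖y‖ = ‖(a • (y - w') + b • (y - w)) + (a • w' + b • w)‖ := by rw [← this]
        _ ≤ ‖a • (y - w') + b • (y - w)‖ + ‖a • w' + b • w‖ := norm_add_le _ _
        _ ≤ ‖a • (y - w') + b • (y - w)‖ + (‖w‖ + ‖w'‖) := by
          gcongr
          refine (norm_add_le _ _).trans ?_
          rw [norm_smul, norm_smul, Real.norm_of_nonneg ha, Real.norm_of_nonneg hb]
          have := norm_nonneg w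
          have := norm_nonneg w'
          nlinarith
    set ξ := a • (y - w') + b • (y - w) with hξ
    have h2 : (1 + ‖y‖) ≤ (1 + ‖ξ‖) * (1 + ‖w‖ + ‖w'‖) := by
      have := norm_nonneg w
      have := norm_nonneg w'
      have := norm_nonneg ξ
      nlinarith [mul_nonneg (norm_nonneg ξ) (norm_nonneg w),
        mul_nonneg (norm_nonneg ξ) (norm_nonneg w')]
    calc ‖iteratedFDeriv ℝ (l + 1) ψ ξ‖ * (1 + ‖y‖) ^ k
        ≤ ‖iteratedFDeriv ℝ (l + 1) ψ ξ‖ * ((1 + ‖ξ‖) * (1 + ‖w‖ + ‖w'‖)) ^ k := by gcongr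
      _ = ((1 + ‖ξ‖) ^ k * ‖iteratedFDeriv ℝ (l + 1) ψ ξ‖) * (1 + ‖w‖ + ‖w'‖) ^ k := by
          rw [mul_pow]; ring
      _ ≤ C * (1 + ‖w‖ + ‖w'‖) ^ k := by
          gcongr
          exact hC ξ
  have hdiff : Differentiable ℝ (iteratedFDeriv ℝ l ψ) :=
    (ψ.smooth ⊤).differentiable_iteratedFDeriv (mod_cast ENat.natCast_lt_top l)
  have mvt := (convex_segment (y - w') (y - w)).norm_image_sub_le_of_norm_fderiv_le
    (𝕜 := ℝ) (f := iteratedFDeriv ℝ l ψ) (fun ξ _ => hdiff ξ) key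
    (left_mem_segment ℝ _ _) (right_mem_segment ℝ _ _)
  have hsub : (y - w) - (y - w') = -(w - w') := by abel
  rw [hsub, norm_neg] at mvt
  calc ‖y‖ ^ k * ‖iteratedFDeriv ℝ l ψ (y - w) - iteratedFDeriv ℝ l ψ (y - w')‖
      ≤ (1 + ‖y‖) ^ k * (C * (1 + ‖w‖ + ‖w'‖) ^ k / (1 + ‖y‖) ^ k * ‖w - w'‖) := by
        gcongr
        linarith [norm_nonneg y]
    _ = C * (1 + ‖w‖ + ‖w'‖) ^ k * ‖w - w'‖ := by
        field_simp

theorem dist_continuous_shift (φ : 𝓢(E n, ℂ)) : Continuous fun w : E n => shiftS w φ := by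
  rw [continuous_iff_continuousAt]
  intro w₀
  rw [ContinuousAt, (schwartz_withSeminorms ℝ (E n) ℂ).tendsto_nhds]
  rintro ⟨k, l⟩ ε hε
  obtain ⟨C, hC0, hC⟩ := dist_lip (reflS φ) k l
  have hlim : Tendsto (fun w : E n => C * (1 + ‖w‖ + ‖w₀‖) ^ k * ‖w - w₀‖) (𝓝 w₀) (𝓝 0) := by
    have : Continuous fun w : E n => C * (1 + ‖w‖ + ‖w₀‖) ^ k * ‖w - w₀‖ := by fun_prop
    have h := this.tendsto w₀
    simpa using h
  filter_upwards [hlim.eventually (gt_mem_nhds hε)] with w hw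
  refine lt_of_le_of_lt ?_ hw
  rw [SchwartzMap.schwartzSeminormFamily_apply]
  refine SchwartzMap.seminorm_le_bound ℝ k l _ (by positivity) fun y => ?_
  have : iteratedFDeriv ℝ l (⇑(shiftS w φ - shiftS w₀ φ)) y =
      iteratedFDeriv ℝ l (reflS φ) (y - w) - iteratedFDeriv ℝ l (reflS φ) (y - w₀) := by
    rw [← dist_iter_shift, ← dist_iter_shift]
    have h1 : (⇑(shiftS w φ - shiftS w₀ φ)) = (⇑(shiftS w φ)) - (⇑(shiftS w₀ φ)) := rfl
    rw [h1, iteratedFDeriv_sub_apply]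
    · exact ((shiftS w φ).smooth l).contDiffAt
    · exact ((shiftS w₀ φ).smooth l).contDiffAt
  rw [this]
  exact hC w w₀ y

theorem cv_continuous (u : 𝓢'(E n, ℂ)) (φ : 𝓢(E n, ℂ)) : Continuous (cv u φ) :=
  u.continuous.comp (dist_continuous_shift φ)

/-- Seminorm bound for a tempered distribution. -/
theorem dist_u_bound (u : 𝓢'(E n, ℂ)) : ∃ (s : Finset (ℕ × ℕ)) (C : ℝ), 0 ≤ C ∧
    ∀ φ : 𝓢(E n, ℂ), ‖u φ‖ ≤ C * (s.sup (schwartzSeminormFamily ℂ (E n) ℂ)) φ := by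
  have hcont : Continuous ((normSeminorm ℂ ℂ).comp (u : 𝓢(E n, ℂ) →ₗ[ℂ] ℂ)) := by
    have : Continuous fun φ : 𝓢(E n, ℂ) => ‖u φ‖ := u.continuous.norm
    exact this
  obtain ⟨s, C, -, hC⟩ := Seminorm.bound_of_continuous (schwartz_withSeminorms ℂ (E n) ℂ) _ hcont
  refine ⟨s, C, C.2, fun φ => ?_⟩
  exact hC φ

theorem dist_shift_seminorm (φ : 𝓢(E n, ℂ)) (k l : ℕ) : ∃ C : ℝ, 0 ≤ C ∧ ∀ x y : E n,
    ‖y‖ ^ k * ‖iteratedFDeriv ℝ l (shiftS x φ) y‖ ≤ C * (1 + ‖x‖) ^ k := by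
  obtain ⟨C, hC0, hC⟩ := dist_bound (reflS φ) k l
  refine ⟨C, hC0, fun x y => ?_⟩
  rw [dist_iter_shift]
  have h2 : ‖y‖ ≤ (1 + ‖y - x‖) * (1 + ‖x‖) := by
    have h1 : ‖y‖ ≤ ‖y - x‖ + ‖x‖ := by
      calc ‖y‖ = ‖(y - x) + x‖ := by rw [sub_add_cancel]
        _ ≤ _ := norm_add_le _ _
    nlinarith [mul_nonneg (norm_nonneg (y - x)) (norm_nonneg x)]
  calc ‖y‖ ^ k * ‖iteratedFDeriv ℝ l (reflS φ) (y - x)‖
      ≤ ((1 + ‖y - x‖) * (1 + ‖x‖)) ^ k * ‖iteratedFDeriv ℝ l (reflS φ) (y - x)‖ := by gcongr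
    _ = ((1 + ‖y - x‖) ^ k * ‖iteratedFDeriv ℝ l (reflS φ) (y - x)‖) * (1 + ‖x‖) ^ k := by
        rw [mul_pow]; ring
    _ ≤ C * (1 + ‖x‖) ^ k := by
        gcongr
        exact hC _

theorem cv_growth (u : 𝓢'(E n, ℂ)) : ∃ A : ℕ, ∀ φ : 𝓢(E n, ℂ), ∃ C : ℝ, 0 ≤ C ∧
    ∀ x, ‖cv u φ x‖ ≤ C * (1 + ‖x‖) ^ A := by
  obtain ⟨s, C, hC0, hC⟩ := dist_u_bound u
  refine ⟨s.sup Prod.fst, fun φ => ?_⟩
  have h : ∀ i : ℕ × ℕ, ∃ B : ℝ, 0 ≤ B ∧ ∀ x y : E n,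
      ‖y‖ ^ i.1 * ‖iteratedFDeriv ℝ i.2 (shiftS x φ) y‖ ≤ B * (1 + ‖x‖) ^ i.1 :=
    fun i => dist_shift_seminorm φ i.1 i.2
  choose B hB0 hB using h
  refine ⟨C * ∑ i ∈ s, B i, mul_nonneg hC0 (Finset.sum_nonneg fun i _ => hB0 i), fun x => ?_⟩
  have h1 : (s.sup (schwartzSeminormFamily ℂ (E n) ℂ)) (shiftS x φ) ≤
      (∑ i ∈ s, B i) * (1 + ‖x‖) ^ (s.sup Prod.fst) := by
    have hs0 : 0 ≤ (∑ i ∈ s, B i) * (1 + ‖x‖) ^ (s.sup Prod.fst) :=
      mul_nonneg (Finset.sum_nonneg fun i _ => hB0 i) (by positivity)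
    refine Seminorm.finset_sup_apply_le hs0 fun i hi => ?_
    rw [SchwartzMap.schwartzSeminormFamily_apply]
    refine SchwartzMap.seminorm_le_bound ℂ i.1 i.2 _ hs0 fun y => (hB i x y).trans ?_
    have hi1 : B i ≤ ∑ i ∈ s, B i := Finset.single_le_sum (fun i _ => hB0 i) hi
    have hi2 : (1 + ‖x‖) ^ i.1 ≤ (1 + ‖x‖) ^ (s.sup Prod.fst) :=
      pow_le_pow_right₀ (by linarith [norm_nonneg x]) (Finset.le_sup (f := Prod.fst) hi)
    exact mul_le_mul hi1 hi2 (by positivity) (Finset.sum_nonneg fun i _ => hB0 i)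
  calc ‖cv u φ x‖ ≤ C * (s.sup (schwartzSeminormFamily ℂ (E n) ℂ)) (shiftS x φ) := hC _
    _ ≤ C * ((∑ i ∈ s, B i) * (1 + ‖x‖) ^ (s.sup Prod.fst)) := by gcongr
    _ = _ := by ring

/-! ### Derivatives of shifts and convolutions -/

theorem dist_sconv_apply (φ θ : 𝓢(E n, ℂ)) (x : E n) :
    sconv φ θ x = ∫ t, φ t * θ (x - t) := by
  rw [sconv, SchwartzMap.convolution_apply]
  rfl

theorem dist_lineDeriv_sconv (v : E n) (φ θ : 𝓢(E n, ℂ)) :
    ∂_{v} (sconv φ θ) = sconv (∂_{v} φ) θ := by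
  have hinj : Function.Injective (fun f : 𝓢(E n, ℂ) => 𝓕 f) :=
    (FourierTransform.fourierEquiv ℂ 𝓢(E n, ℂ)).injective
  apply hinj
  simp only [sconv, SchwartzMap.fourier_lineDerivOp_eq, SchwartzMap.fourier_convolution]
  ext ξ
  have hg : (fun x : E n => inner ℝ x v).HasTemperateGrowth := by fun_prop
  simp only [smul_apply, smul_eq_mul, SchwartzMap.pairing_apply_apply,
    ContinuousLinearMap.mul_apply', SchwartzMap.smulLeftCLM_apply_apply hg, Complex.real_smul]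
  ring

theorem dist_iter_sconv {l : ℕ} (m : Fin l → E n) (φ θ : 𝓢(E n, ℂ)) :
    ∂^{m} (sconv φ θ) = sconv (∂^{m} φ) θ := by
  induction l generalizing φ with
  | zero => simp
  | succ l ih =>
    rw [LineDeriv.iteratedLineDerivOp_succ_right, LineDeriv.iteratedLineDerivOp_succ_right, dist_lineDeriv_sconv, ih]

theorem dist_refl_sconv (φ θ : 𝓢(E n, ℂ)) :
    reflS (sconv φ θ) = sconv (reflS φ) (reflS θ) := by
  ext y
  rw [reflS_apply, dist_sconv_apply, dist_sconv_apply]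
  rw [← integral_neg_eq_self]
  refine integral_congr_ae (Eventually.of_forall fun t => ?_)
  simp only [reflS_apply]
  congr 2
  abel

theorem dist_key {l : ℕ} (m : Fin l → E n) (φ θ : 𝓢(E n, ℂ)) (x y : E n) :
    iteratedFDeriv ℝ l (shiftS x (sconv φ θ)) y m =
      ∫ z, θ z * iteratedFDeriv ℝ l (shiftS (x - z) φ) y m := by
  rw [dist_iter_shift, ← SchwartzMap.iteratedLineDerivOp_eq_iteratedFDeriv, dist_refl_sconv,
    dist_iter_sconv, dist_sconv_apply]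
  have h : ∀ z, iteratedFDeriv ℝ l (shiftS (x - z) φ) y m =
      (∂^{m} (reflS φ) : 𝓢(E n, ℂ)) (y - (x - z)) := by
    intro z
    rw [dist_iter_shift, ← SchwartzMap.iteratedLineDerivOp_eq_iteratedFDeriv]
  simp only [h, reflS_apply]
  rw [← integral_add_right_eq_self _ (y - x)]
  refine integral_congr_ae (Eventually.of_forall fun z => ?_)
  simp only
  rw [mul_comm]
  congr 2
  · abel
  · abel

/-! ### Embedding into a Banach space -/

/-- Target of the `(k, l)` component. -/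
abbrev DistF (n l : ℕ) := ContinuousMultilinearMap ℝ (fun _ : Fin l => E n) ℂ

/-- `φ ↦ (y ↦ |y|^k D^l φ (y))`. -/
noncomputable def distT (i : ℕ × ℕ) : 𝓢(E n, ℂ) →ₗ[ℂ] BoundedContinuousFunction (E n) (DistF n i.2) where
  toFun φ := BoundedContinuousFunction.ofNormedAddCommGroup
    (fun y => (‖y‖ ^ i.1 : ℝ) • iteratedFDeriv ℝ i.2 φ y)
    (((continuous_norm.pow i.1).smul ((φ.smooth i.2).continuous_iteratedFDeriv le_rfl)))
    (SchwartzMap.seminorm ℂ i.1 i.2 φ)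
    (fun y => by
      rw [norm_smul, Real.norm_of_nonneg (by positivity)]
      exact SchwartzMap.le_seminorm ℂ i.1 i.2 φ y)
  map_add' φ ψ := by
    ext y m
    have h : iteratedFDeriv ℝ i.2 (⇑φ + ⇑ψ) y =
        iteratedFDeriv ℝ i.2 φ y + iteratedFDeriv ℝ i.2 ψ y := by
      rw [iteratedFDeriv_add_apply]
      · exact (φ.smooth i.2).contDiffAt
      · exact (ψ.smooth i.2).contDiffAt
    simp [h, smul_add]
  map_smul' c φ := by
    ext y m
    have h : iteratedFDeriv ℝ i.2 (c • ⇑φ) y = c • iteratedFDeriv ℝ i.2 φ y := by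
      rw [iteratedFDeriv_const_smul_apply]
      exact (φ.smooth i.2).contDiffAt
    simp [h]
    ring

theorem distT_apply (i : ℕ × ℕ) (φ : 𝓢(E n, ℂ)) (y : E n) :
    distT i φ y = (‖y‖ ^ i.1 : ℝ) • iteratedFDeriv ℝ i.2 φ y := rfl

theorem distT_norm_le (i : ℕ × ℕ) (φ : 𝓢(E n, ℂ)) {B : ℝ} (hB : 0 ≤ B)
    (h : ∀ y : E n, ‖y‖ ^ i.1 * ‖iteratedFDeriv ℝ i.2 φ y‖ ≤ B) : ‖distT i φ‖ ≤ B := by
  rw [BoundedContinuousFunction.norm_le hB]
  intro y
  rw [distT_apply, norm_smul, Real.norm_of_nonneg (by positivity)]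
  exact h y

theorem distT_seminorm (i : ℕ × ℕ) (φ : 𝓢(E n, ℂ)) :
    SchwartzMap.seminorm ℂ i.1 i.2 φ ≤ ‖distT i φ‖ := by
  refine SchwartzMap.seminorm_le_bound ℂ i.1 i.2 φ (by exact norm_nonneg (distT i φ)) fun y => ?_
  have := (distT i φ).norm_coe_le_norm y
  rwa [distT_apply, norm_smul, Real.norm_of_nonneg (by positivity)] at this

/-- The Banach space of all components. -/
def DistZ (n : ℕ) (s : Finset (ℕ × ℕ)) : Type :=
  (i : s) → BoundedContinuousFunction (E n) (DistF n i.1.2)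

noncomputable instance (s : Finset (ℕ × ℕ)) : NormedAddCommGroup (DistZ n s) :=
  inferInstanceAs (NormedAddCommGroup ((i : s) → BoundedContinuousFunction (E n) (DistF n i.1.2)))

noncomputable instance (s : Finset (ℕ × ℕ)) : NormedSpace ℂ (DistZ n s) :=
  inferInstanceAs (NormedSpace ℂ ((i : s) → BoundedContinuousFunction (E n) (DistF n i.1.2)))

instance (s : Finset (ℕ × ℕ)) : CompleteSpace (DistZ n s) :=
  inferInstanceAs (CompleteSpace ((i : s) → BoundedContinuousFunction (E n) (DistF n i.1.2)))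

/-- Evaluation. -/
noncomputable def distEv {s : Finset (ℕ × ℕ)} (z : DistZ n s) (i : s) (y : E n) : DistF n i.1.2 :=
  (show BoundedContinuousFunction (E n) (DistF n i.1.2) from
    (show (i : s) → BoundedContinuousFunction (E n) (DistF n i.1.2) from z) i) y

theorem distZ_norm_le {s : Finset (ℕ × ℕ)} (z : DistZ n s) {r : ℝ} (hr : 0 ≤ r)
    (h : ∀ i y, ‖distEv z i y‖ ≤ r) : ‖z‖ ≤ r := by
  refine (pi_norm_le_iff_of_nonneg (x := (show (i : s) → BoundedContinuousFunction (E n)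
    (DistF n i.1.2) from z)) hr).2 fun i => ?_
  exact (BoundedContinuousFunction.norm_le hr).2 fun y => h i y

theorem distZ_le_norm {s : Finset (ℕ × ℕ)} (z : DistZ n s) (i : s) (y : E n) :
    ‖distEv z i y‖ ≤ ‖z‖ :=
  (BoundedContinuousFunction.norm_coe_le_norm
    ((show (i : s) → BoundedContinuousFunction (E n) (DistF n i.1.2) from z) i) y).trans
    (norm_le_pi_norm (show (i : s) → BoundedContinuousFunction (E n) (DistF n i.1.2) from z) i)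

theorem distZ_ext {s : Finset (ℕ × ℕ)} (z : DistZ n s) (h : ∀ i y, distEv z i y = 0) : z = 0 := by
  have : ‖z‖ ≤ 0 := distZ_norm_le z le_rfl fun i y => by rw [h]; exact norm_zero.le
  exact norm_le_zero_iff.1 this

theorem distEv_add {s : Finset (ℕ × ℕ)} (z w : DistZ n s) (i : s) (y : E n) :
    distEv (z + w) i y = distEv z i y + distEv w i y := rfl

theorem distEv_sub {s : Finset (ℕ × ℕ)} (z w : DistZ n s) (i : s) (y : E n) :
    distEv (z - w) i y = distEv z i y - distEv w i y := rfl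

theorem distEv_smul {s : Finset (ℕ × ℕ)} (c : ℂ) (z : DistZ n s) (i : s) (y : E n) :
    distEv (c • z) i y = c • distEv z i y := rfl

/-- All components. -/
noncomputable def distTT (s : Finset (ℕ × ℕ)) : 𝓢(E n, ℂ) →ₗ[ℂ] DistZ n s where
  toFun φ := fun i => distT i.1 φ
  map_add' φ ψ := by
    funext i
    exact map_add (distT i.1) φ ψ
  map_smul' c φ := by
    funext i
    exact map_smul (distT i.1) c φ

theorem distEv_TT (s : Finset (ℕ × ℕ)) (φ : 𝓢(E n, ℂ)) (i : s) (y : E n) :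
    distEv (distTT s φ) i y = (‖y‖ ^ i.1.1 : ℝ) • iteratedFDeriv ℝ i.1.2 φ y := rfl

theorem dist_abs_extend {X Z : Type*} [AddCommGroup X] [Module ℂ X] [NormedAddCommGroup Z]
    [NormedSpace ℂ Z] (T : X →ₗ[ℂ] Z) (u : X →ₗ[ℂ] ℂ) (C : ℝ) (h : ∀ φ, ‖u φ‖ ≤ C * ‖T φ‖) :
    ∃ U : Z →L[ℂ] ℂ, ∀ φ, U (T φ) = u φ := by
  have hker : LinearMap.ker T ≤ LinearMap.ker u := by
    intro φ hφ
    rw [LinearMap.mem_ker] at hφ ⊢
    have := h φ
    rw [hφ, norm_zero, mul_zero] at this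
    exact norm_le_zero_iff.1 this
  let f0 : LinearMap.range T →ₗ[ℂ] ℂ :=
    ((LinearMap.ker T).liftQ u hker) ∘ₗ (T.quotKerEquivRange.symm.toLinearMap)
  have hf0 : ∀ φ : X, f0 ⟨T φ, LinearMap.mem_range_self _ φ⟩ = u φ := by
    intro φ
    have : T.quotKerEquivRange.symm ⟨T φ, LinearMap.mem_range_self _ φ⟩ =
        (LinearMap.ker T).mkQ φ := by
      rw [LinearEquiv.symm_apply_eq]
      rfl
    simp only [f0, LinearMap.comp_apply, LinearEquiv.coe_coe, this]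
    rfl
  let f1 : LinearMap.range T →L[ℂ] ℂ := f0.mkContinuous C (by
    rintro ⟨z, φ, rfl⟩
    rw [hf0]
    exact h φ)
  obtain ⟨U, hU, -⟩ := exists_extension_norm_eq (LinearMap.range T) f1
  refine ⟨U, fun φ => ?_⟩
  have := hU ⟨T φ, LinearMap.mem_range_self _ φ⟩
  rw [← hf0 φ]
  exact this

theorem dist_extend (u : 𝓢'(E n, ℂ)) : ∃ (s : Finset (ℕ × ℕ)) (U : DistZ n s →L[ℂ] ℂ),
    ∀ φ : 𝓢(E n, ℂ), U (distTT s φ) = u φ := by
  obtain ⟨s, C, hC0, hC⟩ := dist_u_bound u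
  have hle : ∀ φ : 𝓢(E n, ℂ), ‖u φ‖ ≤ C * ‖distTT s φ‖ := by
    intro φ
    refine (hC φ).trans ?_
    refine mul_le_mul_of_nonneg_left ?_ hC0
    refine Seminorm.finset_sup_apply_le (norm_nonneg _) fun i hi => ?_
    rw [SchwartzMap.schwartzSeminormFamily_apply]
    refine SchwartzMap.seminorm_le_bound ℂ i.1 i.2 φ (norm_nonneg _) fun y => ?_
    have h := distZ_le_norm (distTT s φ) ⟨i, hi⟩ y
    rw [distEv_TT, norm_smul, Real.norm_of_nonneg (by positivity)] at h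
    exact h
  obtain ⟨U, hU⟩ := dist_abs_extend (distTT s) (u : 𝓢(E n, ℂ) →ₗ[ℂ] ℂ) C (fun φ => hle φ)
  exact ⟨s, U, fun φ => hU φ⟩

/-! ### The vector valued integral -/

theorem dist_abs_int {Z ι : Type*} [NormedAddCommGroup Z] [NormedSpace ℂ Z] [CompleteSpace Z]
    (T : 𝓢(E n, ℂ) →ₗ[ℂ] Z) (U : Z →L[ℂ] ℂ) (φ θ : 𝓢(E n, ℂ)) (x : E n) (C B : ℝ) (k A : ℕ)
    (hlip : ∀ w w' : E n, ‖T (shiftS w φ) - T (shiftS w' φ)‖ ≤
      C * (1 + ‖w‖ + ‖w'‖) ^ k * ‖w - w'‖)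
    (hB0 : 0 ≤ B) (hB : ∀ w : E n, ‖T (shiftS w φ)‖ ≤ B * (1 + ‖w‖) ^ A)
    (L : ι → Z →L[ℂ] ℂ) (hL : ∀ j, L j (T (shiftS x (sconv φ θ))) =
      ∫ t, θ t * L j (T (shiftS (x - t) φ))) (hsep : ∀ z : Z, (∀ j, L j z = 0) → z = 0) :
    U (T (shiftS x (sconv φ θ))) = ∫ t, θ t * U (T (shiftS (x - t) φ)) := by
  have hc : Continuous fun w : E n => T (shiftS w φ) := by
    rw [continuous_iff_continuousAt]
    intro w₀
    rw [ContinuousAt, tendsto_iff_norm_sub_tendsto_zero]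
    have hlim : Tendsto (fun w : E n => C * (1 + ‖w‖ + ‖w₀‖) ^ k * ‖w - w₀‖) (𝓝 w₀) (𝓝 0) := by
      have : Continuous fun w : E n => C * (1 + ‖w‖ + ‖w₀‖) ^ k * ‖w - w₀‖ := by fun_prop
      have h := this.tendsto w₀
      simpa using h
    exact squeeze_zero (fun w => norm_nonneg _) (fun w => hlip w w₀) hlim
  have hcont : Continuous fun z : E n => θ z • T (shiftS (x - z) φ) :=
    θ.continuous.smul (hc.comp (continuous_const.sub continuous_id))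
  have hint0 : Integrable fun z : E n =>
      B * (1 + ‖x‖) ^ A * 2 ^ (A - 1) * (‖z‖ ^ 0 * ‖θ z‖ + ‖z‖ ^ A * ‖θ z‖) :=
    ((θ.integrable_pow_mul volume 0).add (θ.integrable_pow_mul volume A)).const_mul _
  have hint : Integrable fun z : E n => θ z • T (shiftS (x - z) φ) := by
    refine hint0.mono' hcont.aestronglyMeasurable (Eventually.of_forall fun z => ?_)
    rw [norm_smul]
    have h1 : ‖T (shiftS (x - z) φ)‖ ≤ B * ((1 + ‖x‖) * (1 + ‖z‖)) ^ A := by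
      refine (hB _).trans ?_
      have : 1 + ‖x - z‖ ≤ (1 + ‖x‖) * (1 + ‖z‖) := by
        nlinarith [norm_sub_le x z, mul_nonneg (norm_nonneg x) (norm_nonneg z)]
      gcongr
    have h2 : (1 + ‖z‖) ^ A ≤ 2 ^ (A - 1) * (1 ^ A + ‖z‖ ^ A) :=
      add_pow_le zero_le_one (norm_nonneg z) A
    calc ‖θ z‖ * ‖T (shiftS (x - z) φ)‖
        ≤ ‖θ z‖ * (B * ((1 + ‖x‖) * (1 + ‖z‖)) ^ A) := by gcongr
      _ = B * (1 + ‖x‖) ^ A * (1 + ‖z‖) ^ A * ‖θ z‖ := by rw [mul_pow]; ring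
      _ ≤ B * (1 + ‖x‖) ^ A * (2 ^ (A - 1) * (1 ^ A + ‖z‖ ^ A)) * ‖θ z‖ := by gcongr
      _ = _ := by ring
  have hval : ∀ L : Z →L[ℂ] ℂ, L (∫ z : E n, θ z • T (shiftS (x - z) φ)) =
      ∫ t, θ t * L (T (shiftS (x - t) φ)) := by
    intro L
    rw [← ContinuousLinearMap.integral_comp_comm L hint]
    simp only [map_smul, smul_eq_mul]
  have hz : (∫ z : E n, θ z • T (shiftS (x - z) φ)) - T (shiftS x (sconv φ θ)) = 0 := by
    refine hsep _ fun j => ?_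
    rw [map_sub, hval, hL, sub_self]
  rw [← hval U, sub_eq_zero.1 hz]

/-- Evaluation functional. -/
noncomputable def distL (s : Finset (ℕ × ℕ)) (i : s) (y : E n) (m : Fin i.1.2 → E n) :
    DistZ n s →L[ℂ] ℂ :=
  LinearMap.mkContinuous
    { toFun := fun z => distEv z i y m
      map_add' := fun z w => by rw [distEv_add]; rfl
      map_smul' := fun c z => by rw [distEv_smul]; rfl } (∏ k, ‖m k‖) (by
    intro z
    refine ((distEv z i y).le_opNorm m).trans ?_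
    rw [mul_comm]
    exact mul_le_mul_of_nonneg_left (distZ_le_norm z i y)
      (Finset.prod_nonneg fun k _ => norm_nonneg _))

theorem distL_apply (s : Finset (ℕ × ℕ)) (i : s) (y : E n) (m : Fin i.1.2 → E n)
    (z : DistZ n s) : distL s i y m z = distEv z i y m := rfl

theorem distL_T (s : Finset (ℕ × ℕ)) (i : s) (y : E n) (m : Fin i.1.2 → E n) (φ : 𝓢(E n, ℂ)) :
    distL s i y m (distTT s φ) =
      ((‖y‖ ^ i.1.1 : ℝ) : ℂ) * iteratedFDeriv ℝ i.1.2 φ y m := by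
  rw [distL_apply, distEv_TT, smul_apply, Complex.real_smul]

theorem dist_smul_sub {F : Type*} [NormedAddCommGroup F] [NormedSpace ℝ F] {c : ℝ} (hc : 0 ≤ c)
    (a b : F) : ‖c • a - c • b‖ = c * ‖a - b‖ := by
  rw [← smul_sub, norm_smul, Real.norm_of_nonneg hc]

theorem distTT_lip (s : Finset (ℕ × ℕ)) (φ : 𝓢(E n, ℂ)) : ∃ (C : ℝ) (k : ℕ), ∀ w w' : E n,
    ‖distTT s (shiftS w φ) - distTT s (shiftS w' φ)‖ ≤
      C * (1 + ‖w‖ + ‖w'‖) ^ k * ‖w - w'‖ := by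
  have h : ∀ i : ℕ × ℕ, ∃ C : ℝ, 0 ≤ C ∧ ∀ w w' y : E n,
      ‖y‖ ^ i.1 * ‖iteratedFDeriv ℝ i.2 (reflS φ) (y - w) -
        iteratedFDeriv ℝ i.2 (reflS φ) (y - w')‖ ≤ C * (1 + ‖w‖ + ‖w'‖) ^ i.1 * ‖w - w'‖ :=
    fun i => dist_lip (reflS φ) i.1 i.2
  choose C hC0 hC using h
  refine ⟨∑ i ∈ s, C i, s.sup Prod.fst, fun w w' => ?_⟩
  have hs0 : 0 ≤ (∑ i ∈ s, C i) * (1 + ‖w‖ + ‖w'‖) ^ (s.sup Prod.fst) * ‖w - w'‖ :=
    mul_nonneg (mul_nonneg (Finset.sum_nonneg fun i _ => hC0 i) (by positivity)) (norm_nonneg _)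
  refine distZ_norm_le _ hs0 fun i y => ?_
  rw [distEv_sub, distEv_TT, distEv_TT, dist_iter_shift, dist_iter_shift]
  refine (dist_smul_sub (by positivity) _ _).le.trans ((hC i.1 w w' y).trans ?_)
  have hi1 : C i.1 ≤ ∑ i ∈ s, C i := Finset.single_le_sum (fun i _ => hC0 i) i.2
  have hi2 : (1 + ‖w‖ + ‖w'‖) ^ i.1.1 ≤ (1 + ‖w‖ + ‖w'‖) ^ (s.sup Prod.fst) :=
    pow_le_pow_right₀ (by linarith [norm_nonneg w, norm_nonneg w'])
      (Finset.le_sup (f := Prod.fst) i.2)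
  refine mul_le_mul_of_nonneg_right ?_ (norm_nonneg _)
  exact mul_le_mul hi1 hi2 (by positivity) (Finset.sum_nonneg fun i _ => hC0 i)

theorem distTT_growth (s : Finset (ℕ × ℕ)) (φ : 𝓢(E n, ℂ)) : ∃ (A : ℕ) (B : ℝ), 0 ≤ B ∧
    ∀ w : E n, ‖distTT s (shiftS w φ)‖ ≤ B * (1 + ‖w‖) ^ A := by
  have h : ∀ i : ℕ × ℕ, ∃ B : ℝ, 0 ≤ B ∧ ∀ x y : E n,
      ‖y‖ ^ i.1 * ‖iteratedFDeriv ℝ i.2 (shiftS x φ) y‖ ≤ B * (1 + ‖x‖) ^ i.1 :=
    fun i => dist_shift_seminorm φ i.1 i.2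
  choose B hB0 hB using h
  refine ⟨s.sup Prod.fst, ∑ i ∈ s, B i, Finset.sum_nonneg fun i _ => hB0 i, fun w => ?_⟩
  have hs0 : 0 ≤ (∑ i ∈ s, B i) * (1 + ‖w‖) ^ (s.sup Prod.fst) :=
    mul_nonneg (Finset.sum_nonneg fun i _ => hB0 i) (by positivity)
  refine distZ_norm_le _ hs0 fun i y => ?_
  rw [distEv_TT, norm_smul, Real.norm_of_nonneg (by positivity)]
  refine (hB i.1 w y).trans ?_
  have hi1 : B i.1 ≤ ∑ i ∈ s, B i := Finset.single_le_sum (fun i _ => hB0 i) i.2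
  have hi2 : (1 + ‖w‖) ^ i.1.1 ≤ (1 + ‖w‖) ^ (s.sup Prod.fst) :=
    pow_le_pow_right₀ (by linarith [norm_nonneg w]) (Finset.le_sup (f := Prod.fst) i.2)
  exact mul_le_mul hi1 hi2 (by positivity) (Finset.sum_nonneg fun i _ => hB0 i)

theorem cv_sconv (u : 𝓢'(E n, ℂ)) (φ θ : 𝓢(E n, ℂ)) (x : E n) :
    cv u (sconv φ θ) x = ∫ z, cv u φ (x - z) * θ z := by
  obtain ⟨s, U, hU⟩ := dist_extend u
  obtain ⟨C, k, hlip⟩ := distTT_lip s φ
  obtain ⟨A, B, hB0, hB⟩ := distTT_growth s φ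
  have main := dist_abs_int
    (ι := Σ i : s, (E n) × (Fin i.1.2 → E n)) (distTT s) U φ θ x C B k A hlip hB0 hB
    (fun j => distL s j.1 j.2.1 j.2.2) (by
      rintro ⟨i, y, m⟩
      simp only [distL_T]
      rw [dist_key, ← integral_const_mul]
      refine integral_congr_ae (Eventually.of_forall fun t => ?_)
      simp only
      ring) (by
      intro z hz
      refine distZ_ext z fun i y => ?_
      ext m
      exact hz ⟨i, y, m⟩)
  simp only [hU] at main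
  rw [cv, main]
  refine integral_congr_ae (Eventually.of_forall fun z => ?_)
  simp only [cv]
  ring

end MP6db0a9
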