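import Pool.Agent.Lib_MP_6db0a9_an.Kern

/-! A tempered distribution defined by a series of kernels. -/

open MeasureTheory SchwartzMap Set Filter Topology
open scoped ENNReal NNReal FourierTransform LineDeriv ContDiff

namespace MP6db0a9

variable {n : ℕ}

lemma fdef_dil_one (φ : 𝓢(E n, ℂ)) : dilS 1 φ = φ := by
  ext x
  rw [dilS_apply one_ne_zero]
  simp

/-- derivatives of `χ w` decay, with a seminorm of `w` as constant -/
lemma fdef_deriv_bound (χ : E n → ℂ) (hχ : SmB χ) (L N : ℕ) : ∃ (s : Finset (ℕ × ℕ)) (C : ℝ),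
    0 ≤ C ∧ ∀ (w : 𝓢(E n, ℂ)) (z : E n), ‖iteratedFDeriv ℝ L (fun y => χ y * w y) z‖ ≤
      (C * s.sup (schwartzSeminormFamily ℂ (E n) ℂ) w) * (1 + ‖z‖) ^ (-(N : ℝ)) := by
  choose Cχ hCχ using hχ.2
  have hC0 : ∀ k, 0 ≤ Cχ k := fun k => (norm_nonneg _).trans (hCχ k 0)
  refine ⟨Finset.Iic (N, L), ∑ i ∈ Finset.range (L + 1), (L.choose i : ℝ) * Cχ i * 2 ^ N, ?_, ?_⟩
  · exact Finset.sum_nonneg fun i _ => by have := hC0 i; positivity
  · intro w z
    set p := (Finset.Iic (N, L)).sup (schwartzSeminormFamily ℂ (E n) ℂ) w with hp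
    have hz : 0 < 1 + ‖z‖ := by positivity
    rw [Real.rpow_neg hz.le, Real.rpow_natCast, ← div_eq_mul_inv, le_div_iff₀ (by positivity)]
    have h1 := norm_iteratedFDeriv_mul_le (𝕜 := ℝ) hχ.1 (w.smooth ⊤) z (n := L)
      (by exact_mod_cast le_top)
    calc ‖iteratedFDeriv ℝ L (fun y => χ y * w y) z‖ * (1 + ‖z‖) ^ N
        ≤ (∑ i ∈ Finset.range (L + 1), (L.choose i : ℝ) * ‖iteratedFDeriv ℝ i χ z‖ *
            ‖iteratedFDeriv ℝ (L - i) w z‖) * (1 + ‖z‖) ^ N := by gcongr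
      _ = ∑ i ∈ Finset.range (L + 1), (L.choose i : ℝ) * ‖iteratedFDeriv ℝ i χ z‖ *
            ((1 + ‖z‖) ^ N * ‖iteratedFDeriv ℝ (L - i) w z‖) := by
          rw [Finset.sum_mul]
          exact Finset.sum_congr rfl fun i _ => by ring
      _ ≤ ∑ i ∈ Finset.range (L + 1), (L.choose i : ℝ) * Cχ i * (2 ^ N * p) := by
          apply Finset.sum_le_sum
          intro i _
          have h2 := one_add_le_sup_seminorm_apply (𝕜 := ℂ) (m := (N, L)) (k := N) (n := L - i)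
            le_rfl (Nat.sub_le _ _) w z
          have h3 := hCχ i z
          have h4 := hC0 i
          have h5 : (1 + ‖z‖) ^ N * ‖iteratedFDeriv ℝ (L - i) w z‖ ≤ 2 ^ N * p := h2
          have h6 : (L.choose i : ℝ) * ‖iteratedFDeriv ℝ i χ z‖ ≤ (L.choose i : ℝ) * Cχ i := by
            gcongr
          exact mul_le_mul h6 h5 (by positivity) (by positivity)
      _ = (∑ i ∈ Finset.range (L + 1), (L.choose i : ℝ) * Cχ i * 2 ^ N) * p := by
          rw [Finset.sum_mul]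
          exact Finset.sum_congr rfl fun i _ => by ring

/-- the kernel bound for the whole family -/
lemma fdef_kernel_bound (L N : ℕ) (ψ0 ψ1 : 𝓢(E n, ℂ)) (hψ : Mom0 L ψ1) (χ : E n → ℂ)
    (hχ : SmB χ) : ∃ (s : Finset (ℕ × ℕ)) (C : ℝ), 0 ≤ C ∧ ∀ (w : 𝓢(E n, ℂ)) (j : ℕ) (y : E n),
      ‖∫ z, fam ψ0 ψ1 j (z - y) * (χ z * w z)‖ ≤
        C * (2 : ℝ) ^ (-((j : ℝ) * L)) * (1 + ‖y‖) ^ (-(N : ℝ)) *
          s.sup (schwartzSeminormFamily ℂ (E n) ℂ) w := by
  obtain ⟨s0, C0, hC0, h0⟩ := fdef_deriv_bound χ hχ 0 N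
  obtain ⟨s1, C1, hC1, h1⟩ := fdef_deriv_bound χ hχ L N
  obtain ⟨D0, hD0, k0⟩ := kern0 0 N ψ0 (fun i hi => absurd hi (Nat.not_lt_zero i))
  obtain ⟨D1, hD1, k1⟩ := kern0 L N ψ1 hψ
  refine ⟨s0 ∪ s1, D0 * C0 + D1 * C1 * 2 ^ L, by positivity, fun w j y => ?_⟩
  set p := (s0 ∪ s1).sup (schwartzSeminormFamily ℂ (E n) ℂ) w with hp
  have hp0 : 0 ≤ p := apply_nonneg _ _
  have hs0 : s0.sup (schwartzSeminormFamily ℂ (E n) ℂ) w ≤ p :=
    Seminorm.le_def.1 (Finset.sup_mono Finset.subset_union_left) w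
  have hs1 : s1.sup (schwartzSeminormFamily ℂ (E n) ℂ) w ≤ p :=
    Seminorm.le_def.1 (Finset.sup_mono Finset.subset_union_right) w
  have hsm : ContDiff ℝ ∞ (fun y => χ y * w y) := hχ.1.mul (w.smooth ⊤)
  have hpos : ∀ z : E n, 0 < 1 + ‖z‖ := fun z => by positivity
  cases j with
  | zero =>
    have h2 := k0 (fun y => χ y * w y) hsm (C0 * p) 1 1 y 0 (by positivity) one_pos le_rfl
      (fun z => by
        refine (h0 w z).trans ?_
        rw [one_mul, sub_zero]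
        have := Real.rpow_nonneg (hpos z).le (-(N : ℝ))
        gcongr)
    rw [fdef_dil_one, one_mul, sub_zero, Nat.cast_zero, neg_zero, Real.rpow_zero, mul_one] at h2
    simp only [fam, Nat.cast_zero, zero_mul, neg_zero, Real.rpow_zero, mul_one]
    have h3 : ∀ z, ψ0 (z - y) * (χ z * w z) = (χ z * w z) * ψ0 (z - y) := fun z => mul_comm _ _
    simp only [h3]
    refine h2.trans ?_
    have h4 : 0 ≤ (1 + ‖y‖) ^ (-(N : ℝ)) := Real.rpow_nonneg (hpos y).le _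
    have h5 : 0 ≤ D1 * C1 * 2 ^ L := by positivity
    nlinarith [mul_nonneg (mul_nonneg h5 h4) hp0]
  | succ j =>
    have ht : (1 : ℝ) ≤ 2 ^ j := one_le_pow₀ one_le_two
    have h2 := k1 (fun y => χ y * w y) hsm (C1 * p) 1 (2 ^ j) y 0 (by positivity) one_pos ht
      (fun z => by
        refine (h1 w z).trans ?_
        rw [one_mul, sub_zero]
        have := Real.rpow_nonneg (hpos z).le (-(N : ℝ))
        gcongr)
    rw [one_mul, sub_zero] at h2
    simp only [fam]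
    have h3 : ∀ z, dilS (2 ^ j) ψ1 (z - y) * (χ z * w z) =
      (χ z * w z) * dilS (2 ^ j) ψ1 (z - y) := fun z => mul_comm _ _
    simp only [h3]
    refine h2.trans ?_
    have h4 : 0 ≤ (1 + ‖y‖) ^ (-(N : ℝ)) := Real.rpow_nonneg (hpos y).le _
    have h6 : ((2 : ℝ) ^ j) ^ (-(L : ℝ)) = 2 ^ L * (2 : ℝ) ^ (-(((j + 1 : ℕ) : ℝ) * L)) := by
      rw [← Real.rpow_natCast 2 j, ← Real.rpow_mul two_pos.le, ← Real.rpow_natCast 2 L,
        ← Real.rpow_add two_pos]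
      congr 1
      push_cast
      ring
    rw [h6]
    have h7 : 0 ≤ (2 : ℝ) ^ (-(((j + 1 : ℕ) : ℝ) * L)) := Real.rpow_nonneg two_pos.le _
    have h8 : 0 ≤ D0 * C0 := by positivity
    calc D1 * (C1 * p) * (2 ^ L * (2 : ℝ) ^ (-(((j + 1 : ℕ) : ℝ) * L))) * (1 + ‖y‖) ^ (-(N : ℝ))
        = (D1 * C1 * 2 ^ L) * (2 : ℝ) ^ (-(((j + 1 : ℕ) : ℝ) * L)) *
            (1 + ‖y‖) ^ (-(N : ℝ)) * p := by ring
      _ ≤ _ := by gcongr; linarith

theorem exists_F (L : ℕ) (D : ℝ) (hD : D < L) (ψ0 ψ1 : 𝓢(E n, ℂ)) (hψ : Mom0 L ψ1)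
    (χ : E n → ℂ) (hχ : SmB χ) (h : ℕ → E n → ℂ) (hm : ∀ j, Measurable (h j)) (B : ℝ)
    (hB : ∀ j y, ‖h j y‖ ≤ B * (2 : ℝ) ^ ((j : ℝ) * D)) :
    ∃ F : 𝓢'(E n, ℂ), ∀ w : 𝓢(E n, ℂ),
      HasSum (fun j : ℕ => ∫ y, h j y * ∫ z, fam ψ0 ψ1 j (z - y) * (χ z * w z)) (F w) := by
  obtain ⟨s, C, hC, hker⟩ := fdef_kernel_bound L (n + 1) ψ0 ψ1 hψ χ hχ
  have hB0 : 0 ≤ B := by
    have := (norm_nonneg _).trans (hB 0 0)
    simpa using this
  set K : ℕ → E n → 𝓢(E n, ℂ) → ℂ := fun j y w => ∫ z, fam ψ0 ψ1 j (z - y) * (χ z * w z) with hK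
  set p := s.sup (schwartzSeminormFamily ℂ (E n) ℂ) with hp
  have hp0 : ∀ w, 0 ≤ p w := fun w => apply_nonneg _ _
  have hint : Integrable (fun y : E n => (1 + ‖y‖) ^ (-((n + 1 : ℕ) : ℝ))) := by
    apply integrable_one_add_norm
    simp
  set I : ℝ := ∫ y : E n, (1 + ‖y‖) ^ (-((n + 1 : ℕ) : ℝ)) with hI
  -- the integrand
  have hinK : ∀ (j : ℕ) (y : E n) (w : 𝓢(E n, ℂ)), Integrable (fun z => fam ψ0 ψ1 j (z - y) * (χ z * w z)) := by
    intro j y w
    obtain ⟨Cχ, hCχ⟩ := hχ.2 0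
    have h1 : Integrable (fun z : E n => χ z * w z) := by
      apply w.integrable.bdd_mul (c := Cχ) hχ.1.continuous.aestronglyMeasurable
      filter_upwards with z
      simpa using hCχ z
    obtain ⟨Cf, hCf⟩ := (fam ψ0 ψ1 j).decay 0 0
    apply h1.bdd_mul (c := Cf)
    · apply Continuous.aestronglyMeasurable
      have := (fam ψ0 ψ1 j).continuous
      fun_prop
    · filter_upwards with z
      simpa using hCf.2 (z - y)
  have hKadd : ∀ (j : ℕ) (y : E n) (w w' : 𝓢(E n, ℂ)), K j y (w + w') = K j y w + K j y w' := by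
    intro j y w w'
    simp only [hK]
    rw [← integral_add (hinK j y w) (hinK j y w')]
    congr 1
    ext z
    simp only [SchwartzMap.add_apply]
    ring
  have hKsmul : ∀ (j : ℕ) (y : E n) (c : ℂ) (w : 𝓢(E n, ℂ)), K j y (c • w) = c * K j y w := by
    intro j y c w
    simp only [hK]
    rw [← integral_const_mul]
    congr 1
    ext z
    simp only [SchwartzMap.smul_apply, smul_eq_mul]
    ring
  have hKcont : ∀ j w, Continuous (fun y => K j y w) := fun j w =>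
    kern_continuous (fam ψ0 ψ1 j) w χ hχ
  have hbd : ∀ w j y, ‖h j y * K j y w‖ ≤
      (B * C * p w * ((2 : ℝ) ^ (D - L)) ^ j) * (1 + ‖y‖) ^ (-((n + 1 : ℕ) : ℝ)) := by
    intro w j y
    rw [norm_mul]
    have h1 := hB j y
    have h2 := hker w j y
    have h3 : ((2 : ℝ) ^ (D - L)) ^ j = (2 : ℝ) ^ ((j : ℝ) * D) * (2 : ℝ) ^ (-((j : ℝ) * L)) := by
      rw [← Real.rpow_natCast, ← Real.rpow_mul two_pos.le, ← Real.rpow_add two_pos]
      congr 1
      ring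
    rw [h3]
    calc ‖h j y‖ * ‖K j y w‖ ≤ (B * (2 : ℝ) ^ ((j : ℝ) * D)) *
          (C * (2 : ℝ) ^ (-((j : ℝ) * L)) * (1 + ‖y‖) ^ (-((n + 1 : ℕ) : ℝ)) * p w) := by
            gcongr
      _ = _ := by ring
  have hinj : ∀ w j, Integrable (fun y => h j y * K j y w) := by
    intro w j
    apply (hint.const_mul (B * C * p w * ((2 : ℝ) ^ (D - L)) ^ j)).mono'
    · exact ((hm j).mul (hKcont j w).measurable).aestronglyMeasurable
    · filter_upwards with y
      exact hbd w j y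
  have hbI : ∀ w j, ‖∫ y, h j y * K j y w‖ ≤ B * C * I * p w * ((2 : ℝ) ^ (D - L)) ^ j := by
    intro w j
    calc ‖∫ y, h j y * K j y w‖ ≤ ∫ y, ‖h j y * K j y w‖ := norm_integral_le_integral_norm _
      _ ≤ ∫ y : E n, (B * C * p w * ((2 : ℝ) ^ (D - L)) ^ j) * (1 + ‖y‖) ^ (-((n + 1 : ℕ) : ℝ)) :=
          integral_mono (hinj w j).norm (hint.const_mul _) (fun y => hbd w j y)
      _ = _ := by rw [integral_const_mul]; ring
  have hq0 : 0 ≤ (2 : ℝ) ^ (D - L) := Real.rpow_nonneg two_pos.le _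
  have hq1 : (2 : ℝ) ^ (D - L) < 1 := Real.rpow_lt_one_of_one_lt_of_neg one_lt_two (by linarith)
  have hgeo := summable_geometric_of_lt_one hq0 hq1
  have hsum : ∀ w, Summable (fun j : ℕ => ∫ y, h j y * K j y w) := fun w =>
    Summable.of_norm_bounded (hgeo.mul_left _) (hbI w)
  have hI0 : 0 ≤ I := integral_nonneg fun y => Real.rpow_nonneg (by positivity) _
  let F : 𝓢(E n, ℂ) →L[ℂ] ℂ := mkCLMtoNormedSpace (fun w => ∑' j : ℕ, ∫ y, h j y * K j y w)
    (fun w w' => by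
      rw [← (hsum w).tsum_add (hsum w')]
      congr 1
      ext j
      rw [← integral_add (hinj w j) (hinj w' j)]
      congr 1
      ext y
      rw [hKadd]
      ring)
    (fun c w => by
      simp only [RingHom.id_apply, smul_eq_mul]
      rw [← tsum_mul_left]
      congr 1
      ext j
      rw [← integral_const_mul]
      congr 1
      ext y
      rw [hKsmul]
      ring)
    ⟨s, B * C * I * (1 - (2 : ℝ) ^ (D - L))⁻¹, by
        have : 0 ≤ (1 - (2 : ℝ) ^ (D - L))⁻¹ := inv_nonneg.2 (by linarith)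
        positivity, fun w => by
      have h1 : HasSum (fun j : ℕ => B * C * I * p w * ((2 : ℝ) ^ (D - L)) ^ j)
        (B * C * I * p w * (1 - (2 : ℝ) ^ (D - L))⁻¹) :=
        (hasSum_geometric_of_lt_one hq0 hq1).mul_left _
      have h2 := tsum_of_norm_bounded h1 (hbI w)
      refine h2.trans (le_of_eq ?_)
      ring⟩
  refine ⟨ContinuousLinearMap.toPointwiseConvergenceCLM _ _ _ _ F, fun w => ?_⟩
  exact (hsum w).hasSum

end MP6db0a9
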