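import Pool.Agent.Lib_MP_6db0a9_an.Defs

/-! Charts for Lipschitz domains. -/

open MeasureTheory SchwartzMap Set Filter Topology
open scoped ENNReal NNReal FourierTransform LineDeriv ContDiff

namespace MP6db0a9

variable {n : ℕ}

lemma geom_norm_lt {e : E n} {r : ℝ} {c : E n} (hc : c ∈ cone e r) : ‖c‖ < ‖e‖ + r := by
  obtain ⟨t, ⟨ht0, ht1⟩, h, hh, rfl⟩ := hc
  have h1 : ‖h‖ < ‖e‖ + r := by
    have h2 := mem_ball_iff_norm.1 hh
    have h3 : ‖h‖ ≤ ‖e‖ + ‖h - e‖ := by
      have := norm_add_le e (h - e)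
      simpa using this
    linarith
  rw [norm_smul, Real.norm_of_nonneg ht0.le]
  have h4 : t * ‖h‖ ≤ 1 * ‖h‖ := mul_le_mul_of_nonneg_right ht1 (norm_nonneg _)
  linarith

/-- the projection onto the first coordinates -/
noncomputable def geom_pr {k : ℕ} (x : E (k + 1)) : E k := WithLp.toLp 2 fun i : Fin k => x i.castSucc

lemma geom_pr_norm_le {k : ℕ} (x : E (k + 1)) : ‖geom_pr x‖ ≤ ‖x‖ := by
  rw [EuclideanSpace.norm_eq, EuclideanSpace.norm_eq]
  apply Real.sqrt_le_sqrt
  rw [Fin.sum_univ_castSucc]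
  simp only [geom_pr]
  have : 0 ≤ ‖x (Fin.last k)‖ ^ 2 := by positivity
  linarith

lemma geom_epi_add {k : ℕ} {K : ℝ≥0} {ρ : E k → ℝ} (hρ : LipschitzWith K ρ) {s : ℝ}
    (hs : 0 < s) {x c : E (k + 1)} (hx : x ∈ epi ρ)
    (hc : c ∈ cone (EuclideanSpace.single (Fin.last k) (s * (K + 2))) s) : x + c ∈ epi ρ := by
  obtain ⟨t, ⟨ht0, ht1⟩, h, hh, rfl⟩ := hc
  have hh1 := mem_ball_iff_norm.1 hh
  set f : E (k + 1) := EuclideanSpace.single (Fin.last k) (s * (K + 2)) with hf
  have h1 : ‖geom_pr h‖ < s := by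
    have h2 : geom_pr h = geom_pr (h - f) := by
      ext i
      simp [geom_pr, hf]
    rw [h2]
    exact (geom_pr_norm_le _).trans_lt hh1
  have h3 : s * (K + 1) < h (Fin.last k) := by
    have h4 : |(h - f) (Fin.last k)| ≤ ‖h - f‖ := by
      have := PiLp.norm_apply_le (h - f) (Fin.last k)
      simpa using this
    have h5 : (h - f) (Fin.last k) = h (Fin.last k) - s * (K + 2) := by
      simp [hf]
    rw [h5] at h4
    have h6 := (abs_le.1 h4).1
    nlinarith
  have h7 : ρ (geom_pr (x + t • h)) ≤ ρ (geom_pr x) + K * (t * ‖geom_pr h‖) := by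
    have h8 := hρ.dist_le_mul (geom_pr (x + t • h)) (geom_pr x)
    have h9 : dist (geom_pr (x + t • h)) (geom_pr x) = t * ‖geom_pr h‖ := by
      have : geom_pr (x + t • h) = geom_pr x + t • geom_pr h := by
        ext i
        simp [geom_pr]
      rw [this, dist_eq_norm, add_sub_cancel_left, norm_smul, Real.norm_of_nonneg ht0.le]
    rw [h9, Real.dist_eq] at h8
    have := (abs_le.1 h8).2
    linarith
  have hx' : ρ (geom_pr x) < x (Fin.last k) := hx
  change ρ (geom_pr (x + t • h)) < (x + t • h) (Fin.last k)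
  have h10 : (x + t • h) (Fin.last k) = x (Fin.last k) + t * h (Fin.last k) := by simp
  rw [h10]
  have hK : (0 : ℝ) ≤ K := K.2
  have h11 : (K : ℝ) * (t * ‖geom_pr h‖) ≤ t * h (Fin.last k) := by
    have h12 : (K : ℝ) * ‖geom_pr h‖ ≤ h (Fin.last k) := by nlinarith
    nlinarith
  linarith

lemma geom_norm_single {k : ℕ} {K : ℝ≥0} {s : ℝ} (hs : 0 < s) :
    ‖(EuclideanSpace.single (Fin.last k) (s * (K + 2)) : E (k + 1))‖ = s * (K + 2) := by
  rw [EuclideanSpace.norm_single, Real.norm_of_nonneg]
  have hK : (0 : ℝ) ≤ K := K.2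
  positivity

lemma geom_smb_one : SmB (fun _ : E n => (1 : ℂ)) := by
  refine ⟨contDiff_const, fun k => ⟨1, fun x => ?_⟩⟩
  rcases Nat.eq_zero_or_pos k with rfl | hk
  · simp
  · rw [iteratedFDeriv_const_of_ne (by omega)]
    simp

theorem charts_special {k : ℕ} {Ω : Set (E (k + 1))} (h : IsSpecialLipschitz Ω) :
    IsOpen Ω ∧ Nonempty (Charts Ω) := by
  obtain ⟨K, ρ, hρ, rfl⟩ := h
  constructor
  · have h1 : Continuous fun x : E (k + 1) => (WithLp.toLp 2 fun i : Fin k => x i.castSucc : E k) := by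
      fun_prop
    exact isOpen_lt (hρ.continuous.comp h1) (by fun_prop)
  · refine ⟨{ m := 1, V := fun _ => univ, χ := fun _ _ => 1
              e := fun _ => EuclideanSpace.single (Fin.last k) (1 * (K + 2)), r := fun _ => 1
              hV := fun _ => isOpen_univ, hr := fun _ => one_pos
              hre := fun _ => ?_, hχ := fun _ => geom_smb_one, hsum := fun x _ => by simp
              hcone := fun _ x hx c hc => geom_epi_add hρ one_pos hx.1 hc
              hsupp := fun _ => subset_univ _, hsuppc := fun _ _ _ _ _ => mem_univ _ }⟩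
    rw [geom_norm_single one_pos]
    have hK : (0 : ℝ) ≤ K := K.2
    linarith

lemma geom_local {k : ℕ} {Ω : Set (E (k + 1))} (h : IsBoundedLipschitz Ω) {z : E (k + 1)}
    (hz : z ∈ closure Ω) : ∃ (ε : ℝ) (e : E (k + 1)) (r : ℝ), 0 < ε ∧ 0 < r ∧ r < ‖e‖ ∧
      ‖e‖ + r ≤ ε ∧ ∀ x ∈ Ω ∩ Metric.ball z (2 * ε), ∀ c ∈ cone e r, x + c ∈ Ω := by
  obtain ⟨-, ho, hfr⟩ := h
  by_cases hzΩ : z ∈ Ω
  · obtain ⟨δ, hδ, hball⟩ := Metric.isOpen_iff.1 ho z hzΩ
    set s : ℝ := δ / 3 / 3 with hs
    have hs0 : 0 < s := by positivity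
    refine ⟨δ / 3, EuclideanSpace.single (Fin.last k) (s * ((0 : ℝ≥0) + 2)), s, by positivity, hs0,
      ?_, ?_, ?_⟩
    · rw [geom_norm_single hs0]; simp; linarith
    · rw [geom_norm_single hs0]; simp; linarith
    · intro x hx c hc
      apply hball
      have h1 := geom_norm_lt hc
      rw [geom_norm_single hs0] at h1
      have h2 := mem_ball_iff_norm.1 hx.2
      rw [mem_ball_iff_norm]
      calc ‖x + c - z‖ = ‖(x - z) + c‖ := by congr 1; abel
        _ ≤ ‖x - z‖ + ‖c‖ := norm_add_le _ _
        _ < δ := by simp at h1; linarith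
  · have hzf : z ∈ frontier Ω := by
      rw [frontier, ho.interior_eq]
      exact ⟨hz, hzΩ⟩
    obtain ⟨U, hU, T, K, ρ, hρ, hT⟩ := hfr z hzf
    obtain ⟨δ, hδ, hball⟩ := Metric.mem_nhds_iff.1 hU
    have hK : (0 : ℝ) ≤ K := K.2
    set s : ℝ := δ / 3 / (K + 3) with hs
    have hs0 : 0 < s := by positivity
    set f : E (k + 1) := EuclideanSpace.single (Fin.last k) (s * (K + 2)) with hf
    have hfn : ‖f‖ = s * (K + 2) := geom_norm_single hs0
    have hen : ‖T.linearIsometryEquiv.symm f‖ = s * (K + 2) := by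
      rw [LinearIsometryEquiv.norm_map, hfn]
    have hle : s * (K + 2) + s ≤ δ / 3 := by
      have : s * (K + 3) = δ / 3 := by
        rw [hs]; field_simp
      linarith
    refine ⟨δ / 3, T.linearIsometryEquiv.symm f, s, by positivity, hs0, ?_, ?_, ?_⟩
    · rw [hen]; nlinarith
    · rw [hen]; exact hle
    · intro x hx c hc
      have h1 := geom_norm_lt hc
      rw [hen] at h1
      have h2 := mem_ball_iff_norm.1 hx.2
      have hxU : x ∈ U := by
        apply hball
        rw [mem_ball_iff_norm]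
        linarith
      have hxcU : x + c ∈ U := by
        apply hball
        rw [mem_ball_iff_norm]
        calc ‖x + c - z‖ = ‖(x - z) + c‖ := by congr 1; abel
          _ ≤ ‖x - z‖ + ‖c‖ := norm_add_le _ _
          _ < δ := by linarith
      have hTx : T x ∈ epi ρ := by
        have : x ∈ Ω ∩ U := ⟨hx.1, hxU⟩
        rw [hT] at this
        exact this.1
      have hTc : T.linearIsometryEquiv c ∈ cone f s := by
        obtain ⟨t, ht, h, hh, rfl⟩ := hc
        refine ⟨t, ht, T.linearIsometryEquiv h, ?_, by simp⟩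
        rw [mem_ball_iff_norm] at hh ⊢
        have : T.linearIsometryEquiv h - f = T.linearIsometryEquiv
            (h - T.linearIsometryEquiv.symm f) := by
          simp
        rw [this, LinearIsometryEquiv.norm_map]
        exact hh
      have hTxc : T (x + c) = T x + T.linearIsometryEquiv c := by
        have := T.map_vadd x c
        rw [vadd_eq_add, vadd_eq_add] at this
        rw [add_comm x c, this, add_comm (T x)]
      have h3 : T (x + c) ∈ epi ρ := by
        rw [hTxc]
        exact geom_epi_add hρ hs0 hTx hTc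
      have h4 : x + c ∈ Ω ∩ U := by
        rw [hT]
        exact ⟨h3, hxcU⟩
      exact h4.1

lemma geom_smb {χ : E n → ℂ} (h1 : ContDiff ℝ ∞ χ) (h2 : HasCompactSupport χ) : SmB χ := by
  refine ⟨h1, fun k => ?_⟩
  have h3 : Continuous (iteratedFDeriv ℝ k χ) := h1.continuous_iteratedFDeriv (by exact_mod_cast le_top)
  obtain ⟨C, hC⟩ := (h2.iteratedFDeriv k).exists_bound_of_continuous h3
  exact ⟨C, hC⟩

theorem charts_bounded {k : ℕ} {Ω : Set (E (k + 1))} (h : IsBoundedLipschitz Ω) :
    Nonempty (Charts Ω) := by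
  classical
  have hcomp : IsCompact (closure Ω) := h.1.isCompact_closure
  choose! ε e r hε hr hre her hcone using fun z (hz : z ∈ closure Ω) => geom_local h hz
  obtain ⟨t, ht, hcov⟩ := hcomp.elim_nhds_subcover (fun z => Metric.ball z (ε z / 2))
    (fun z hz => Metric.ball_mem_nhds z (by have := hε z hz; positivity))
  set m := t.card with hm
  set z : Fin m → E (k + 1) := fun i => (t.equivFin.symm i).1 with hz
  have hzc : ∀ i, z i ∈ closure Ω := fun i => ht _ (t.equivFin.symm i).2
  have hbump : ∀ i, ∃ f : ContDiffBump (z i), f.rIn = ε (z i) / 2 ∧ f.rOut = ε (z i) := by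
    intro i
    have := hε _ (hzc i)
    exact ⟨⟨ε (z i) / 2, ε (z i), by positivity, by linarith⟩, rfl, rfl⟩
  choose f hfi hfo using hbump
  set g : Fin m → E (k + 1) → ℝ := fun i x => f i x * ∏ j with j < i, (1 - f j x) with hg
  have hgsm : ∀ i, ContDiff ℝ ∞ (g i) := by
    intro i
    apply (f i).contDiff.mul
    apply contDiff_prod
    intro j _
    exact contDiff_const.sub (f j).contDiff
  set χ : Fin m → E (k + 1) → ℂ := fun i x => ((g i x : ℝ) : ℂ) with hχ
  have hts : ∀ i, tsupport (χ i) ⊆ Metric.closedBall (z i) (ε (z i)) := by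
    intro i
    have h1 : tsupport (χ i) ⊆ tsupport (f i) := by
      apply closure_mono
      intro x hx
      rw [Function.mem_support] at hx ⊢
      intro h0
      apply hx
      simp [hχ, hg, h0]
    refine h1.trans ?_
    rw [(f i).tsupport_eq, hfo]
  have hVball : ∀ i, ∀ x ∈ tsupport (χ i), x ∈ Metric.ball (z i) (2 * ε (z i)) := by
    intro i x hx
    have h1 := hts i hx
    rw [Metric.mem_closedBall] at h1
    rw [Metric.mem_ball]
    have := hε _ (hzc i)
    linarith
  refine ⟨{ m := m, V := fun i => Metric.ball (z i) (2 * ε (z i)), χ := χ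
            e := fun i => e (z i), r := fun i => r (z i)
            hV := fun i => Metric.isOpen_ball, hr := fun i => hr _ (hzc i)
            hre := fun i => hre _ (hzc i), hχ := fun i => ?_, hsum := fun x hx => ?_
            hcone := fun i x hx c hc => hcone _ (hzc i) x hx c hc
            hsupp := fun i x hx => hVball i x hx, hsuppc := fun i x hx c hc => ?_ }⟩
  · apply geom_smb
    · exact Complex.ofRealCLM.contDiff.comp (hgsm i)
    · exact HasCompactSupport.of_support_subset_isCompact
        (isCompact_closedBall (z i) (ε (z i))) ((subset_tsupport _).trans (hts i))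
  · have h1 := Finset.prod_one_sub_ordered (Finset.univ : Finset (Fin m)) (fun i => f i x)
    have h2 : ∏ i, (1 - f i x) = 0 := by
      have hx' := hcov (subset_closure hx)
      simp only [mem_iUnion] at hx'
      obtain ⟨w, hw, hxw⟩ := hx'
      set i : Fin m := t.equivFin ⟨w, hw⟩ with hi
      have hzi : z i = w := by simp [hz, hi]
      apply Finset.prod_eq_zero (Finset.mem_univ i)
      rw [(f i).one_of_mem_closedBall, sub_self]
      rw [hfi, hzi]
      exact Metric.ball_subset_closedBall hxw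
    rw [h2] at h1
    have h3 : ∑ i, g i x = 1 := by
      simp only [hg]
      linarith
    simp only [hχ]
    exact_mod_cast h3
  · have h1 := hts i hx
    rw [mem_closedBall_iff_norm] at h1
    have h2 := geom_norm_lt hc
    have h3 := her _ (hzc i)
    rw [mem_ball_iff_norm]
    calc ‖x + c - z i‖ = ‖(x - z i) + c‖ := by congr 1; abel
      _ ≤ ‖x - z i‖ + ‖c‖ := norm_add_le _ _
      _ < 2 * ε (z i) := by linarith

end MP6db0a9
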