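import Pool.Agent.Lib_MP_6db0a9_an.AvLp

/-!
# MP_6db0a9_an: the Hardy-Littlewood maximal theorem
-/

open MeasureTheory SchwartzMap Set Filter Topology Metric
open scoped ENNReal NNReal FourierTransform LineDeriv ContDiff

namespace MP6db0a9

variable {n : ℕ}

/-- The maximal function over closed balls. -/
noncomputable def hlM (h : E n → ℝ≥0∞) (x : E n) : ℝ≥0∞ :=
  ⨆ r : Ioi (0 : ℝ), (volume (closedBall x (r : ℝ)))⁻¹ * ∫⁻ y in closedBall x (r : ℝ), h y

theorem hl_vol (x : E n) {r : ℝ} (hr : 0 ≤ r) :
    volume (closedBall x r) = ENNReal.ofReal (r ^ n) * volume (closedBall (0 : E n) 1) := by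
  rw [Measure.addHaar_closedBall' volume x hr]
  simp

theorem hl_vol_pos (x : E n) {r : ℝ} (hr : 0 < r) : volume (closedBall x r) ≠ 0 :=
  (measure_closedBall_pos volume x hr).ne'

theorem hl_vol_fin (x : E n) (r : ℝ) : volume (closedBall x r) ≠ ⊤ :=
  measure_closedBall_lt_top.ne

/-- Averages are bounded by the maximal function. -/
theorem hl_le (h : E n → ℝ≥0∞) (x : E n) {r : ℝ} (hr : 0 < r) :
    ∫⁻ y in closedBall x r, h y ≤ volume (closedBall x r) * hlM h x := by
  have h1 : (volume (closedBall x r))⁻¹ * ∫⁻ y in closedBall x r, h y ≤ hlM h x :=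
    le_iSup (fun r : Ioi (0 : ℝ) =>
      (volume (closedBall x (r : ℝ)))⁻¹ * ∫⁻ y in closedBall x (r : ℝ), h y) ⟨r, hr⟩
  calc ∫⁻ y in closedBall x r, h y
      = volume (closedBall x r) * ((volume (closedBall x r))⁻¹ * ∫⁻ y in closedBall x r, h y) := by
        rw [← mul_assoc, ENNReal.mul_inv_cancel (hl_vol_pos x hr) (hl_vol_fin x r), one_mul]
    _ ≤ _ := by gcongr

/-- Weak type `(1,1)`. -/
theorem hl_weak [NeZero n] (h : E n → ℝ≥0∞) {t : ℝ≥0∞} (ht : t ≠ 0) (ht' : t ≠ ⊤) :
    volume {x | t < hlM h x} ≤ 4 ^ n * (t⁻¹ * ∫⁻ y, h y) := by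
  set I := ∫⁻ y, h y with hI
  rcases eq_or_ne I ⊤ with hIt | hIt
  · rw [hIt, ENNReal.mul_top (ENNReal.inv_ne_zero.2 ht'), ENNReal.mul_top (by simp)]
    exact le_top
  have hex : ∀ x ∈ {x | t < hlM h x}, ∃ r : ℝ, 0 < r ∧
      t * volume (closedBall x r) ≤ ∫⁻ y in closedBall x r, h y := by
    intro x hx
    have hx' : t < ⨆ r : Ioi (0 : ℝ),
      (volume (closedBall x (r : ℝ)))⁻¹ * ∫⁻ y in closedBall x (r : ℝ), h y := hx
    obtain ⟨⟨r, hr⟩, hlt⟩ := lt_iSup_iff.1 hx'
    refine ⟨r, hr, ?_⟩
    calc t * volume (closedBall x r)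
        ≤ ((volume (closedBall x r))⁻¹ * ∫⁻ y in closedBall x r, h y) *
            volume (closedBall x r) := by
          gcongr
      _ = ∫⁻ y in closedBall x r, h y := by
          rw [mul_comm, ← mul_assoc, ENNReal.mul_inv_cancel (hl_vol_pos x hr) (hl_vol_fin x r),
            one_mul]
  choose! r hr0 hr using hex
  set vB := volume (closedBall (0 : E n) 1) with hvB
  have hvB0 : vB ≠ 0 := hl_vol_pos 0 one_pos
  have hvBt : vB ≠ ⊤ := hl_vol_fin 0 1
  have hbd : ∀ x ∈ {x | t < hlM h x}, r x ≤ max 1 (I / (t * vB)).toReal := by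
    intro x hx
    by_contra hlt
    push Not at hlt
    have h1 : 1 < r x := (le_max_left _ _).trans_lt hlt
    have h2 : (I / (t * vB)).toReal < r x := (le_max_right _ _).trans_lt hlt
    have h3 : t * (ENNReal.ofReal (r x ^ n) * vB) ≤ I := by
      rw [← hl_vol x (hr0 x hx).le]
      exact (hr x hx).trans (setLIntegral_le_lintegral _ _)
    have htvB : t * vB ≠ 0 := mul_ne_zero ht hvB0
    have htvB' : t * vB ≠ ⊤ := ENNReal.mul_ne_top ht' hvBt
    have h4 : ENNReal.ofReal (r x ^ n) ≤ I / (t * vB) := by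
      rw [ENNReal.le_div_iff_mul_le (Or.inl htvB) (Or.inl htvB')]
      calc ENNReal.ofReal (r x ^ n) * (t * vB) = t * (ENNReal.ofReal (r x ^ n) * vB) := by ring
        _ ≤ I := h3
    have h5 : I / (t * vB) ≠ ⊤ := ENNReal.div_ne_top hIt htvB
    have h6 : r x ^ n ≤ (I / (t * vB)).toReal := by
      rw [← ENNReal.ofReal_le_iff_le_toReal h5]
      exact h4
    have h7 : r x ≤ r x ^ n := le_self_pow₀ h1.le (NeZero.ne n)
    linarith
  obtain ⟨u, hut, hdisj, hcov⟩ := Vitali.exists_disjoint_subfamily_covering_enlargement_closedBall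
    {x | t < hlM h x} (fun x => x) r _ hbd 4 (by norm_num)
  have hucount : u.Countable := by
    apply hdisj.countable_of_nonempty_interior
    intro x hx
    rw [nonempty_iff_ne_empty]
    intro h0
    have : x ∈ interior (closedBall x (r x)) :=
      ball_subset_interior_closedBall (mem_ball_self (hr0 x (hut hx)))
    rw [h0] at this
    exact this
  have hsub : {x | t < hlM h x} ⊆ ⋃ b ∈ u, closedBall b (4 * r b) := by
    intro x hx
    obtain ⟨b, hb, hsubb⟩ := hcov x hx
    exact mem_iUnion₂.2 ⟨b, hb, hsubb (mem_closedBall_self (hr0 x hx).le)⟩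
  have hone : ∀ b ∈ u, volume (closedBall b (4 * r b)) ≤
      4 ^ n * (t⁻¹ * ∫⁻ y in closedBall b (r b), h y) := by
    intro b hb
    have hb0 := hr0 b (hut hb)
    have h1 : volume (closedBall b (4 * r b)) = 4 ^ n * volume (closedBall b (r b)) := by
      rw [hl_vol b (by positivity), hl_vol b hb0.le, mul_pow, ENNReal.ofReal_mul (by positivity),
        mul_assoc]
      congr 1
      rw [ENNReal.ofReal_pow (by norm_num)]
      norm_num
    rw [h1]
    gcongr
    calc volume (closedBall b (r b)) = t⁻¹ * (t * volume (closedBall b (r b))) := by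
          rw [← mul_assoc, ENNReal.inv_mul_cancel ht ht', one_mul]
      _ ≤ _ := by
          gcongr
          exact hr b (hut hb)
  calc volume {x | t < hlM h x} ≤ volume (⋃ b ∈ u, closedBall b (4 * r b)) := measure_mono hsub
    _ ≤ ∑' b : u, volume (closedBall (b : E n) (4 * r b)) := measure_biUnion_le _ hucount _
    _ ≤ ∑' b : u, 4 ^ n * (t⁻¹ * ∫⁻ y in closedBall (b : E n) (r b), h y) :=
        ENNReal.tsum_le_tsum fun b => hone b b.2
    _ = 4 ^ n * (t⁻¹ * ∑' b : u, ∫⁻ y in closedBall (b : E n) (r b), h y) := by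
        rw [ENNReal.tsum_mul_left, ENNReal.tsum_mul_left]
    _ = 4 ^ n * (t⁻¹ * ∫⁻ y in ⋃ b ∈ u, closedBall b (r b), h y) := by
        rw [lintegral_biUnion hucount (fun b _ => measurableSet_closedBall) hdisj]
    _ ≤ 4 ^ n * (t⁻¹ * I) := by
        gcongr
        exact setLIntegral_le_lintegral _ _

/-- Truncated weak type estimate. -/
theorem hl_weak' [NeZero n] (h : E n → ℝ≥0∞) (hh : Measurable h) {t : ℝ≥0∞} (ht : t ≠ 0)
    (ht' : t ≠ ⊤) :
    volume {x | 2 * t < hlM h x} ≤ 4 ^ n * (t⁻¹ * ∫⁻ y, {y | t < h y}.indicator h y) := by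
  have hmeas : MeasurableSet {y | t < h y} := measurableSet_lt measurable_const hh
  have hle : ∀ x, hlM h x ≤ hlM ({y | t < h y}.indicator h) x + t := by
    intro x
    refine iSup_le fun r => ?_
    have h1 : ∫⁻ y in closedBall x (r : ℝ), h y ≤
        (∫⁻ y in closedBall x (r : ℝ), {y | t < h y}.indicator h y) +
          t * volume (closedBall x (r : ℝ)) := by
      calc ∫⁻ y in closedBall x (r : ℝ), h y
          ≤ ∫⁻ y in closedBall x (r : ℝ), ({y | t < h y}.indicator h y + t) := by
            apply lintegral_mono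
            intro y
            by_cases hy : t < h y
            · simp only [indicator_of_mem (show y ∈ {y | t < h y} from hy)]
              exact le_self_add
            · simp only [indicator_of_notMem (show y ∉ {y | t < h y} from hy), zero_add]
              exact not_lt.1 hy
        _ = _ := by
            rw [lintegral_add_right _ measurable_const]
            simp
    calc (volume (closedBall x (r : ℝ)))⁻¹ * ∫⁻ y in closedBall x (r : ℝ), h y
        ≤ (volume (closedBall x (r : ℝ)))⁻¹ *
          ((∫⁻ y in closedBall x (r : ℝ), {y | t < h y}.indicator h y) +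
          t * volume (closedBall x (r : ℝ))) := by gcongr
      _ = (volume (closedBall x (r : ℝ)))⁻¹ *
          (∫⁻ y in closedBall x (r : ℝ), {y | t < h y}.indicator h y) + t := by
          rw [mul_add, mul_comm t, ← mul_assoc _ _ t,
            ENNReal.inv_mul_cancel (hl_vol_pos x r.2) (hl_vol_fin x _), one_mul]
      _ ≤ _ := by
          gcongr
          exact le_iSup (fun r : Ioi (0 : ℝ) => (volume (closedBall x (r : ℝ)))⁻¹ *
            ∫⁻ y in closedBall x (r : ℝ), {y | t < h y}.indicator h y) r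
  refine le_trans (measure_mono ?_) (hl_weak ({y | t < h y}.indicator h) ht ht')
  intro x hx
  simp only [mem_ofPred_eq] at hx ⊢
  by_contra hlt
  push Not at hlt
  have := (hle x).trans (add_le_add_left hlt t)
  rw [← two_mul] at this
  exact absurd hx (not_lt.2 this)

/-- Layer cake for one number. -/
theorem hl_layer (a : ℝ≥0∞) {s : ℝ} (hs : 0 < s) :
    ∫⁻ t in Ioi (0 : ℝ), {t : ℝ | ENNReal.ofReal t < a}.indicator
      (fun t => ENNReal.ofReal (t ^ (s - 1))) t = ENNReal.ofReal (1 / s) * a ^ s := by
  have hfin : ∀ b : ℝ, 0 ≤ b → ∫⁻ t in Ioo (0 : ℝ) b, ENNReal.ofReal (t ^ (s - 1)) =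
      ENNReal.ofReal (1 / s) * ENNReal.ofReal b ^ s := by
    intro b hb
    have hint : IntervalIntegrable (fun t : ℝ => t ^ (s - 1)) volume 0 b :=
      intervalIntegral.intervalIntegrable_rpow' (by linarith)
    rw [setLIntegral_congr Ioo_ae_eq_Ioc, ← ofReal_integral_eq_lintegral_ofReal]
    · rw [← intervalIntegral.integral_of_le hb, integral_rpow (Or.inl (by linarith))]
      rw [ENNReal.ofReal_rpow_of_nonneg hb hs.le, ← ENNReal.ofReal_mul (by positivity)]
      congr 1
      rw [sub_add_cancel, Real.zero_rpow hs.ne']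
      ring
    · exact (intervalIntegrable_iff_integrableOn_Ioc_of_le hb).1 hint
    · rw [EventuallyLE, ae_restrict_iff' measurableSet_Ioc]
      exact Eventually.of_forall fun t ht => Real.rpow_nonneg ht.1.le _
  rcases eq_or_ne a ⊤ with ha | ha
  · subst ha
    rw [ENNReal.top_rpow_of_pos hs, ENNReal.mul_top (by simpa using hs)]
    rw [eq_top_iff]
    refine le_of_forall_lt_imp_le_of_dense ?_
    intro c hc
    obtain ⟨b, hb0, hb⟩ : ∃ b : ℝ, 0 ≤ b ∧ c ≤ ENNReal.ofReal (1 / s) * ENNReal.ofReal b ^ s := by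
      refine ⟨(s * c.toReal) ^ (1 / s), by positivity, ?_⟩
      rw [ENNReal.ofReal_rpow_of_nonneg (by positivity) hs.le, ← Real.rpow_mul (by positivity),
        one_div_mul_cancel hs.ne', Real.rpow_one, ← ENNReal.ofReal_mul (by positivity)]
      rw [← mul_assoc, one_div_mul_cancel hs.ne', one_mul, ENNReal.ofReal_toReal hc.ne]
    refine hb.trans ?_
    rw [← hfin b hb0]
    calc ∫⁻ t in Ioo (0 : ℝ) b, ENNReal.ofReal (t ^ (s - 1))
        ≤ ∫⁻ t in Ioi (0 : ℝ), ENNReal.ofReal (t ^ (s - 1)) :=
          lintegral_mono_set Ioo_subset_Ioi_self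
      _ = _ := by
          apply lintegral_congr
          intro t
          rw [indicator_of_mem]
          simp
  · have h1 : ∫⁻ t in Ioi (0 : ℝ), {t : ℝ | ENNReal.ofReal t < a}.indicator
        (fun t => ENNReal.ofReal (t ^ (s - 1))) t =
        ∫⁻ t in Ioo (0 : ℝ) a.toReal, ENNReal.ofReal (t ^ (s - 1)) := by
      rw [← lintegral_indicator measurableSet_Ioi, ← lintegral_indicator measurableSet_Ioo]
      apply lintegral_congr
      intro t
      simp only [indicator, mem_Ioi, mem_ofPred_eq, mem_Ioo]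
      by_cases ht : 0 < t
      · have : ENNReal.ofReal t < a ↔ t < a.toReal := by
          rw [ENNReal.ofReal_lt_iff_lt_toReal ht.le ha]
        simp [ht, this]
      · simp [ht]
    rw [h1, hfin _ ENNReal.toReal_nonneg, ENNReal.ofReal_toReal ha]

/-- The kernel bound. -/
theorem hl_av_le {M : ℝ} (hM : (n : ℝ) < M) :
    ∃ C : ℝ≥0, 0 < C ∧ ∀ (h : E n → ℝ≥0∞), Measurable h → ∀ (l : ℕ) (x : E n),
      Av M l h x ≤ C * hlM h x := by
  set vB := volume (closedBall (0 : E n) 1) with hvB
  have hvBt : vB ≠ ⊤ := hl_vol_fin 0 1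
  have hM0 : 0 < M := lt_of_le_of_lt (Nat.cast_nonneg n) hM
  set q : ℝ := (2 : ℝ) ^ ((n : ℝ) - M) with hq
  have hq0 : 0 < q := by positivity
  have hq1 : q < 1 := Real.rpow_lt_one_of_one_lt_of_neg (by norm_num) (by linarith)
  have hsum : Summable fun i : ℕ => (2 : ℝ) ^ M * q ^ i :=
    (summable_geometric_of_lt_one hq0.le hq1).mul_left _
  set S : ℝ := ∑' i : ℕ, (2 : ℝ) ^ M * q ^ i with hS
  have hS0 : 0 ≤ S := tsum_nonneg fun i => by positivity
  refine ⟨(ENNReal.ofReal S * vB).toNNReal + 1, by positivity, fun h hh l x => ?_⟩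
  set b : ℕ → ℝ := fun i => (2 : ℝ) ^ (l * n) * (2 : ℝ) ^ ((1 - (i : ℝ)) * M) with hb
  set ρ : ℕ → ℝ := fun i => (2 : ℝ) ^ i / 2 ^ l with hρ
  have hρ0 : ∀ i, 0 < ρ i := fun i => by positivity
  have hpt : ∀ y, avK n M l (x - y) * h y ≤
      ∑' i : ℕ, ENNReal.ofReal (b i) * (closedBall x (ρ i)).indicator h y := by
    intro y
    set d : ℝ := 2 ^ l * ‖x - y‖ with hd
    have hd0 : 0 ≤ d := by positivity
    have hex : ∃ i : ℕ, d ≤ 2 ^ i := by
      obtain ⟨i, hi⟩ := pow_unbounded_of_one_lt d (one_lt_two : (1 : ℝ) < 2)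
      exact ⟨i, hi.le⟩
    classical
    set i := Nat.find hex with hi
    have hi1 : d ≤ 2 ^ i := Nat.find_spec hex
    have hi2 : (2 : ℝ) ^ ((i : ℝ) - 1) ≤ 1 + d := by
      rcases Nat.eq_zero_or_pos i with h0 | h0
      · rw [h0]
        have : (2 : ℝ) ^ (((0 : ℕ) : ℝ) - 1) ≤ 1 := by
          apply Real.rpow_le_one_of_one_le_of_nonpos <;> norm_num
        linarith
      · have h1 : ¬ d ≤ 2 ^ (i - 1) := Nat.find_min hex (by omega)
        push Not at h1
        have h2 : (2 : ℝ) ^ ((i : ℝ) - 1) = 2 ^ (i - 1) := by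
          rw [← Real.rpow_natCast, Nat.cast_sub h0]
          simp
        rw [h2]
        linarith
    have hmem : y ∈ closedBall x (ρ i) := by
      rw [mem_closedBall, dist_comm, dist_eq_norm, hρ]
      simp only
      rw [le_div_iff₀ (by positivity), mul_comm]
      exact hi1
    calc avK n M l (x - y) * h y ≤ ENNReal.ofReal (b i) * (closedBall x (ρ i)).indicator h y := by
          rw [indicator_of_mem hmem, avK]
          gcongr
          rw [hb]
          simp only
          gcongr
          rw [← hd]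
          calc (1 + d) ^ (-M) ≤ ((2 : ℝ) ^ ((i : ℝ) - 1)) ^ (-M) :=
                Real.rpow_le_rpow_of_nonpos (by positivity) hi2 (by linarith)
            _ = (2 : ℝ) ^ ((1 - (i : ℝ)) * M) := by
                rw [← Real.rpow_mul (by norm_num)]
                congr 1
                ring
      _ ≤ _ := ENNReal.le_tsum i
  calc Av M l h x ≤ ∫⁻ y, ∑' i : ℕ, ENNReal.ofReal (b i) * (closedBall x (ρ i)).indicator h y :=
        lintegral_mono hpt
    _ = ∑' i : ℕ, ∫⁻ y, ENNReal.ofReal (b i) * (closedBall x (ρ i)).indicator h y := by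
        apply lintegral_tsum
        intro i
        exact ((hh.indicator measurableSet_closedBall).const_mul _).aemeasurable
    _ = ∑' i : ℕ, ENNReal.ofReal (b i) * ∫⁻ y in closedBall x (ρ i), h y := by
        congr 1
        ext i
        rw [lintegral_const_mul _ (hh.indicator measurableSet_closedBall),
          lintegral_indicator measurableSet_closedBall]
    _ ≤ ∑' i : ℕ, ENNReal.ofReal ((2 : ℝ) ^ M * q ^ i) * (vB * hlM h x) := by
        apply ENNReal.tsum_le_tsum
        intro i
        calc ENNReal.ofReal (b i) * ∫⁻ y in closedBall x (ρ i), h y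
            ≤ ENNReal.ofReal (b i) * (volume (closedBall x (ρ i)) * hlM h x) := by
              gcongr
              exact hl_le h x (hρ0 i)
          _ = ENNReal.ofReal ((2 : ℝ) ^ M * q ^ i) * (vB * hlM h x) := by
              rw [hl_vol x (hρ0 i).le, mul_assoc (ENNReal.ofReal (ρ i ^ n)), ← mul_assoc,
                ← ENNReal.ofReal_mul (by positivity)]
              congr 2
              simp only [hb, hρ, hq]
              have h1 : (2 : ℝ) ^ ((1 - (i : ℝ)) * M) = (2 : ℝ) ^ M / ((2 : ℝ) ^ M) ^ i := by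
                rw [← Real.rpow_mul_natCast (by norm_num), ← Real.rpow_sub (by norm_num)]
                congr 1
                ring
              have h2 : (2 : ℝ) ^ ((n : ℝ) - M) = (2 : ℝ) ^ n / (2 : ℝ) ^ M := by
                rw [Real.rpow_sub (by norm_num), Real.rpow_natCast]
              rw [h1, h2, div_pow, div_pow, pow_mul, ← pow_mul 2 i n, ← pow_mul 2 n i,
                mul_comm i n]
              have h3 : (2 : ℝ) ^ M ≠ 0 := by positivity
              field_simp
    _ = ENNReal.ofReal S * (vB * hlM h x) := by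
        rw [ENNReal.tsum_mul_right, hS, ENNReal.ofReal_tsum_of_nonneg (fun i => by positivity) hsum]
    _ = (ENNReal.ofReal S * vB) * hlM h x := by rw [mul_assoc]
    _ ≤ _ := by
        gcongr
        rw [ENNReal.coe_add, ENNReal.coe_toNNReal (ENNReal.mul_ne_top ENNReal.ofReal_ne_top hvBt)]
        exact le_self_add

/-- Hardy-Littlewood maximal theorem for the averaging kernels. -/
theorem av_sup [NeZero n] {P : ℝ} (hP : 1 < P) {M : ℝ} (hM : (n : ℝ) < M) :
    ∃ C : ℝ≥0, ∀ h : E n → ℝ≥0∞, Measurable h →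
      ∫⁻ x, (⨆ l : ℕ, Av M l h x) ^ P ≤ C * ∫⁻ x, h x ^ P := by
  obtain ⟨C0, hC0, hav⟩ := hl_av_le (n := n) hM
  have hP0 : 0 < P := by linarith
  have hP1 : 0 < P - 1 := by linarith
  set c : ℝ := 2 * C0 with hc
  have hc0 : 0 < c := by positivity
  refine ⟨Real.toNNReal (P * 4 ^ n * c * (1 / (P - 1)) * c ^ (P - 1)), fun h hh => ?_⟩
  set S : E n → ℝ≥0∞ := fun x => ⨆ l : ℕ, Av M l h x with hS
  have hSm : Measurable S := Measurable.iSup fun l => av_measurable M l h hh
  have hSle : ∀ x, S x ≤ C0 * hlM h x := fun x => iSup_le fun l => hav h hh l x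
  have hweak : ∀ t : ℝ, 0 < t → volume {x | ENNReal.ofReal t < S x} ≤
      4 ^ n * ((ENNReal.ofReal (t / c))⁻¹ *
        ∫⁻ y, {y | ENNReal.ofReal (t / c) < h y}.indicator h y) := by
    intro t ht
    have htc : 0 < t / c := by positivity
    refine le_trans (measure_mono ?_) (hl_weak' h hh (t := ENNReal.ofReal (t / c))
      (by simpa using htc) ENNReal.ofReal_ne_top)
    intro x hx
    simp only [mem_ofPred_eq] at hx ⊢
    have h1 : ENNReal.ofReal t < C0 * hlM h x := hx.trans_le (hSle x)
    have h2 : ENNReal.ofReal t = C0 * (2 * ENNReal.ofReal (t / c)) := by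
      rw [← ENNReal.ofReal_coe_nnreal, ← ENNReal.ofReal_ofNat, ← ENNReal.ofReal_mul (by norm_num),
        ← ENNReal.ofReal_mul (by positivity)]
      congr 1
      rw [hc]
      field_simp
    rw [h2] at h1
    exact lt_of_mul_lt_mul_left' h1
  have hlay : ∀ x, S x ^ P = ENNReal.ofReal P * ∫⁻ t in Ioi (0 : ℝ),
      {t : ℝ | ENNReal.ofReal t < S x}.indicator (fun t => ENNReal.ofReal (t ^ (P - 1))) t := by
    intro x
    rw [hl_layer _ hP0, ← mul_assoc, ← ENNReal.ofReal_mul hP0.le, mul_one_div_cancel hP0.ne']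
    simp
  have hm1 : Measurable (Function.uncurry fun (x : E n) (t : ℝ) =>
      {t : ℝ | ENNReal.ofReal t < S x}.indicator (fun t => ENNReal.ofReal (t ^ (P - 1))) t) := by
    have : (Function.uncurry fun (x : E n) (t : ℝ) =>
      {t : ℝ | ENNReal.ofReal t < S x}.indicator (fun t => ENNReal.ofReal (t ^ (P - 1))) t) =
      {z : E n × ℝ | ENNReal.ofReal z.2 < S z.1}.indicator
        (fun z => ENNReal.ofReal (z.2 ^ (P - 1))) := by
      ext ⟨x, t⟩
      simp [indicator, Function.uncurry]
    rw [this]
    apply Measurable.indicator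
    · fun_prop
    · exact measurableSet_lt (by fun_prop) (hSm.comp measurable_fst)
  have hm2 : Measurable (Function.uncurry fun (t : ℝ) (y : E n) =>
      {t : ℝ | ENNReal.ofReal t < ENNReal.ofReal c * h y}.indicator
        (fun t => ENNReal.ofReal (t ^ (P - 1 - 1))) t * h y) := by
    have : (Function.uncurry fun (t : ℝ) (y : E n) =>
      {t : ℝ | ENNReal.ofReal t < ENNReal.ofReal c * h y}.indicator
        (fun t => ENNReal.ofReal (t ^ (P - 1 - 1))) t * h y) =
      fun z : ℝ × E n => {z : ℝ × E n | ENNReal.ofReal z.1 < ENNReal.ofReal c * h z.2}.indicator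
        (fun z => ENNReal.ofReal (z.1 ^ (P - 1 - 1))) z * h z.2 := by
      ext ⟨t, x⟩
      simp [indicator, Function.uncurry]
    rw [this]
    apply Measurable.mul
    · apply Measurable.indicator
      · fun_prop
      · exact measurableSet_lt (by fun_prop) ((hh.comp measurable_snd).const_mul _)
    · exact hh.comp measurable_snd
  have hcc : ∀ (t : ℝ), 0 < t → ∀ y, (ENNReal.ofReal (t / c) < h y ↔
      ENNReal.ofReal t < ENNReal.ofReal c * h y) := by
    intro t ht y
    have h1 : ENNReal.ofReal t = ENNReal.ofReal c * ENNReal.ofReal (t / c) := by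
      rw [← ENNReal.ofReal_mul hc0.le]
      congr 1
      field_simp
    rw [h1]
    exact (ENNReal.mul_lt_mul_iff_right (by simpa using hc0) ENNReal.ofReal_ne_top).symm
  calc ∫⁻ x, S x ^ P
      = ENNReal.ofReal P * ∫⁻ x, ∫⁻ t in Ioi (0 : ℝ),
        {t : ℝ | ENNReal.ofReal t < S x}.indicator (fun t => ENNReal.ofReal (t ^ (P - 1))) t := by
        simp only [hlay]
        apply lintegral_const_mul
        exact hm1.lintegral_prod_right'
    _ = ENNReal.ofReal P * ∫⁻ t in Ioi (0 : ℝ), ∫⁻ x,
        {t : ℝ | ENNReal.ofReal t < S x}.indicator (fun t => ENNReal.ofReal (t ^ (P - 1))) t := by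
        rw [lintegral_lintegral_swap hm1.aemeasurable]
    _ = ENNReal.ofReal P * ∫⁻ t in Ioi (0 : ℝ), ENNReal.ofReal (t ^ (P - 1)) *
        volume {x | ENNReal.ofReal t < S x} := by
        congr 1
        apply lintegral_congr
        intro t
        have hms : MeasurableSet {x | ENNReal.ofReal t < S x} :=
          measurableSet_lt measurable_const hSm
        rw [← lintegral_indicator_const hms]
        apply lintegral_congr
        intro x
        simp [indicator]
    _ ≤ ENNReal.ofReal P * ∫⁻ t in Ioi (0 : ℝ), (4 ^ n * ENNReal.ofReal c) * ∫⁻ y,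
        {t : ℝ | ENNReal.ofReal t < ENNReal.ofReal c * h y}.indicator
        (fun t => ENNReal.ofReal (t ^ (P - 1 - 1))) t * h y := by
        refine mul_le_mul_right (setLIntegral_mono' measurableSet_Ioi ?_) _
        intro t ht
        have ht0 : 0 < t := ht
        calc ENNReal.ofReal (t ^ (P - 1)) * volume {x | ENNReal.ofReal t < S x}
            ≤ ENNReal.ofReal (t ^ (P - 1)) * (4 ^ n * ((ENNReal.ofReal (t / c))⁻¹ *
              ∫⁻ y, {y | ENNReal.ofReal (t / c) < h y}.indicator h y)) := by
              gcongr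
              exact hweak t ht0
          _ = (4 ^ n * (ENNReal.ofReal (t ^ (P - 1)) * (ENNReal.ofReal (t / c))⁻¹)) *
              ∫⁻ y, {y | ENNReal.ofReal (t / c) < h y}.indicator h y := by ring
          _ = (4 ^ n * (ENNReal.ofReal c * ENNReal.ofReal (t ^ (P - 1 - 1)))) *
              ∫⁻ y, {y | ENNReal.ofReal (t / c) < h y}.indicator h y := by
              congr 2
              rw [← ENNReal.ofReal_inv_of_pos (by positivity), ← ENNReal.ofReal_mul (by positivity),
                ← ENNReal.ofReal_mul hc0.le]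
              congr 1
              rw [Real.rpow_sub_one ht0.ne' (P - 1)]
              field_simp
          _ = _ := by
              rw [← mul_assoc (4 ^ n), mul_assoc _ (ENNReal.ofReal (t ^ (P - 1 - 1))),
                ← lintegral_const_mul]
              · congr 1
                apply lintegral_congr
                intro y
                by_cases hy : ENNReal.ofReal (t / c) < h y
                · have hy' := (hcc t ht0 y).1 hy
                  rw [indicator_of_mem (show y ∈ {y | ENNReal.ofReal (t / c) < h y} from hy),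
                    indicator_of_mem (show t ∈ {t : ℝ | ENNReal.ofReal t <
                      ENNReal.ofReal c * h y} from hy')]
                · have hy' := fun h' => hy ((hcc t ht0 y).2 h')
                  rw [indicator_of_notMem (show y ∉ {y | ENNReal.ofReal (t / c) < h y} from hy),
                    indicator_of_notMem (show t ∉ {t : ℝ | ENNReal.ofReal t <
                      ENNReal.ofReal c * h y} from hy')]
                  simp
              · exact hh.indicator (measurableSet_lt measurable_const hh)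
    _ = ENNReal.ofReal P * ((4 ^ n * ENNReal.ofReal c) * ∫⁻ t in Ioi (0 : ℝ), ∫⁻ y,
        {t : ℝ | ENNReal.ofReal t < ENNReal.ofReal c * h y}.indicator
        (fun t => ENNReal.ofReal (t ^ (P - 1 - 1))) t * h y) := by
        congr 1
        apply lintegral_const_mul
        exact hm2.lintegral_prod_right'
    _ = ENNReal.ofReal P * ((4 ^ n * ENNReal.ofReal c) * ∫⁻ y, ∫⁻ t in Ioi (0 : ℝ),
        {t : ℝ | ENNReal.ofReal t < ENNReal.ofReal c * h y}.indicator
        (fun t => ENNReal.ofReal (t ^ (P - 1 - 1))) t * h y) := by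
        rw [lintegral_lintegral_swap hm2.aemeasurable]
    _ = ENNReal.ofReal P * ((4 ^ n * ENNReal.ofReal c) * ∫⁻ y, (ENNReal.ofReal (1 / (P - 1)) *
        ENNReal.ofReal c ^ (P - 1)) * h y ^ P) := by
        congr 2
        apply lintegral_congr
        intro y
        rw [lintegral_mul_const, hl_layer _ hP1, ENNReal.mul_rpow_of_nonneg _ _ hP1.le]
        · have : h y ^ P = h y ^ (P - 1) * h y := by
            nth_rw 3 [← ENNReal.rpow_one (h y)]
            rw [← ENNReal.rpow_add_of_nonneg _ _ hP1.le (by norm_num)]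
            congr 1
            ring
          rw [this]
          ring
        · apply Measurable.indicator
          · fun_prop
          · exact measurableSet_lt (by fun_prop) measurable_const
    _ = _ := by
        rw [lintegral_const_mul _ (hh.pow_const P)]
        rw [ENNReal.ofReal_rpow_of_nonneg hc0.le hP1.le]
        change _ = ENNReal.ofReal (P * 4 ^ n * c * (1 / (P - 1)) * c ^ (P - 1)) * _
        rw [ENNReal.ofReal_mul (p := P * 4 ^ n * c * (1 / (P - 1))) (by positivity),
          ENNReal.ofReal_mul (p := P * 4 ^ n * c) (by positivity),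
          ENNReal.ofReal_mul (p := P * 4 ^ n) (by positivity),
          ENNReal.ofReal_mul (p := P) (by positivity)]
        have h4 : ENNReal.ofReal (4 ^ n) = 4 ^ n := by
          rw [ENNReal.ofReal_pow (by norm_num)]
          norm_num
        rw [h4]
        ring

end MP6db0a9
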