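import Pool.Agent.Lib_MP_6db0a9_an.Defs

/-!
Kernel decay estimates by the Taylor formula.
-/

open MeasureTheory SchwartzMap Set Filter Topology
open scoped ENNReal NNReal FourierTransform LineDeriv ContDiff

namespace MP6db0a9

variable {n : ℕ}

/-- Taylor polynomial -/
noncomputable def kernTay (L : ℕ) (A : E n → ℂ) (x h : E n) : ℂ :=
  ∑ i ∈ Finset.range L, ((i.factorial : ℝ)⁻¹) • iteratedFDeriv ℝ i A x (fun _ => h)

theorem kern_taylor (L : ℕ) {A : E n → ℂ} (hA : ContDiff ℝ ∞ A) (x h : E n) {K : ℝ}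
    (hK : ∀ θ ∈ Icc (0:ℝ) 1, ‖iteratedFDeriv ℝ L A (x + θ • h)‖ ≤ K) :
    ‖A (x + h) - kernTay L A x h‖ ≤ K * ‖h‖ ^ L := by
  have hK0 : 0 ≤ K := (norm_nonneg _).trans (hK 0 ⟨le_rfl, zero_le_one⟩)
  cases L with
  | zero =>
    have h1 := hK 1 ⟨zero_le_one, le_rfl⟩
    rw [norm_iteratedFDeriv_zero, one_smul] at h1
    simpa [kernTay] using h1
  | succ m =>
    have h1 := map_add_eq_sum_add_integral_iteratedFDeriv (f := A) (x := x) (y := h) (n := m)
      (fun t _ => (hA.of_le (by exact_mod_cast le_top)).contDiffAt)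
    rw [h1, kernTay, add_sub_cancel_left, norm_smul]
    have h2 : ‖∫ t in (0:ℝ)..1, (1 - t) ^ m • iteratedFDeriv ℝ (m + 1) A (x + t • h)
        (fun _ => h)‖ ≤ K * ‖h‖ ^ (m + 1) * |1 - 0| := by
      apply intervalIntegral.norm_integral_le_of_norm_le_const
      intro t ht
      rw [uIoc_of_le zero_le_one] at ht
      rw [norm_smul]
      have h3 : ‖(1 - t) ^ m‖ ≤ 1 := by
        rw [norm_pow, Real.norm_eq_abs, abs_of_nonneg (by linarith [ht.2])]
        exact pow_le_one₀ (by linarith [ht.2]) (by linarith [ht.1])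
      have h4 : ‖iteratedFDeriv ℝ (m + 1) A (x + t • h) (fun _ => h)‖ ≤ K * ‖h‖ ^ (m + 1) := by
        refine (ContinuousMultilinearMap.le_opNorm _ _).trans ?_
        rw [Finset.prod_const, Finset.card_univ, Fintype.card_fin]
        exact mul_le_mul_of_nonneg_right (hK t ⟨ht.1.le, ht.2⟩) (by positivity)
      calc ‖(1 - t) ^ m‖ * ‖iteratedFDeriv ℝ (m + 1) A (x + t • h) (fun _ => h)‖
          ≤ 1 * (K * ‖h‖ ^ (m + 1)) := mul_le_mul h3 h4 (norm_nonneg _) zero_le_one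
        _ = _ := one_mul _
    have h5 : ‖((m.factorial : ℝ)⁻¹)‖ ≤ 1 := by
      rw [norm_inv, Real.norm_natCast]
      exact inv_le_one_of_one_le₀ (by exact_mod_cast Nat.one_le_iff_ne_zero.2 m.factorial_ne_zero)
    calc _ ≤ 1 * (K * ‖h‖ ^ (m + 1) * |1 - 0|) := mul_le_mul h5 h2 (norm_nonneg _) zero_le_one
      _ = _ := by simp

/-- comparison of the weights -/
theorem kern_weight (N : ℕ) {s : ℝ} (hs : 0 ≤ s) (x y h : E n) :
    (1 + s * ‖x + h - y‖) ^ (-(N : ℝ)) ≤ (1 + s * ‖x - y‖) ^ (-(N : ℝ)) * (1 + s * ‖h‖) ^ N := by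
  rw [Real.rpow_neg (by positivity), Real.rpow_neg (by positivity), Real.rpow_natCast,
    Real.rpow_natCast, ← div_eq_inv_mul, inv_eq_one_div, div_le_div_iff₀ (by positivity)
    (by positivity), one_mul, ← mul_pow]
  refine pow_le_pow_left₀ (by positivity) ?_ N
  have h1 : ‖x - y‖ ≤ ‖x + h - y‖ + ‖h‖ := by
    have : x - y = (x + h - y) - h := by abel
    rw [this]
    exact norm_sub_le _ _
  nlinarith [mul_le_mul_of_nonneg_left h1 hs, mul_nonneg hs (norm_nonneg (x + h - y)),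
    mul_nonneg hs (norm_nonneg h), mul_nonneg (mul_nonneg hs (norm_nonneg (x + h - y)))
    (mul_nonneg hs (norm_nonneg h))]

theorem kern_integrable (L N : ℕ) (b : 𝓢(E n, ℂ)) :
    Integrable (fun v : E n => ‖v‖ ^ L * (1 + ‖v‖) ^ N * ‖b v‖) := by
  have h1 : Integrable (fun v : E n => 2 ^ (N - 1) * (‖v‖ ^ L * ‖b v‖ + ‖v‖ ^ (L + N) * ‖b v‖)) :=
    ((b.integrable_pow_mul volume L).add (b.integrable_pow_mul volume (L + N))).const_mul _
  refine h1.mono' ?_ (Eventually.of_forall fun v => ?_)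
  · exact (((continuous_norm.pow L).mul ((continuous_const.add continuous_norm).pow N)).mul
      b.continuous.norm).aestronglyMeasurable
  · rw [Real.norm_of_nonneg (by positivity)]
    have h2 := add_pow_le (zero_le_one' ℝ) (norm_nonneg v) N
    rw [one_pow] at h2
    calc ‖v‖ ^ L * (1 + ‖v‖) ^ N * ‖b v‖
        ≤ ‖v‖ ^ L * (2 ^ (N - 1) * (1 + ‖v‖ ^ N)) * ‖b v‖ := by gcongr
      _ = _ := by ring

theorem kern_subst (b : 𝓢(E n, ℂ)) (A : E n → ℂ) {t : ℝ} (ht : 0 < t) (x : E n) :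
    ∫ z, A z * dilS t b (z - x) = ∫ v, A (x + t⁻¹ • v) * b v := by
  have h1 := integral_sub_right_eq_self (μ := (volume : Measure (E n)))
    (fun w => A (x + w) * dilS t b w) x
  have h2 : (fun z => A (x + (z - x)) * dilS t b (z - x)) = fun z => A z * dilS t b (z - x) := by
    funext z
    rw [add_sub_cancel]
  rw [h2] at h1
  rw [h1]
  have h3 := Measure.integral_comp_smul (volume : Measure (E n))
    (fun v => A (x + t⁻¹ • v) * b v) t
  rw [finrank_euclideanSpace_fin] at h3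
  have h4 : (fun w => A (x + w) * dilS t b w) =
      fun w => ((t : ℂ) ^ n) * (A (x + t⁻¹ • (t • w)) * b (t • w)) := by
    funext w
    rw [dilS_apply ht.ne', smul_smul, inv_mul_cancel₀ ht.ne', one_smul]
    ring
  rw [h4, integral_const_mul, h3, abs_of_pos (by positivity)]
  rw [Complex.real_smul, ← mul_assoc]
  push_cast
  rw [mul_inv_cancel₀ (pow_ne_zero n (by exact_mod_cast ht.ne')), one_mul]

theorem kern_poly (L : ℕ) (b : 𝓢(E n, ℂ)) (hb : Mom0 L b) (A : E n → ℂ) (c : ℝ) (x : E n) :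
    Integrable (fun v => kernTay L A x (c • v) * b v) ∧
      ∫ v, kernTay L A x (c • v) * b v = 0 := by
  have h0 : ∀ v, kernTay L A x (c • v) * b v = ∑ i ∈ Finset.range L,
      (((i.factorial : ℝ)⁻¹ * c ^ i : ℝ) : ℂ) * (b v * iteratedFDeriv ℝ i A x (fun _ => v)) := by
    intro v
    rw [kernTay, Finset.sum_mul]
    refine Finset.sum_congr rfl fun i _ => ?_
    have h1 := (iteratedFDeriv ℝ i A x).map_smul_univ (fun _ => c) (fun _ => v)
    rw [Finset.prod_const, Finset.card_univ, Fintype.card_fin] at h1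
    rw [h1, Complex.real_smul, Complex.real_smul]
    push_cast
    ring
  have hint : ∀ i, Integrable (fun v => b v * iteratedFDeriv ℝ i A x (fun _ => v)) := by
    intro i
    have h1 := (b.integrable_pow_mul (volume : Measure (E n)) i).const_mul
      ‖iteratedFDeriv ℝ i A x‖
    refine h1.mono' ?_ (Eventually.of_forall fun v => ?_)
    · have : Continuous fun v : E n => iteratedFDeriv ℝ i A x (fun _ => v) :=
        (iteratedFDeriv ℝ i A x).cont.comp (continuous_pi fun _ => continuous_id)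
      exact (b.continuous.mul this).aestronglyMeasurable
    · rw [norm_mul]
      have h2 := (iteratedFDeriv ℝ i A x).le_opNorm (fun _ => v)
      rw [Finset.prod_const, Finset.card_univ, Fintype.card_fin] at h2
      calc ‖b v‖ * ‖iteratedFDeriv ℝ i A x (fun _ => v)‖
          ≤ ‖b v‖ * (‖iteratedFDeriv ℝ i A x‖ * ‖v‖ ^ i) := by gcongr
        _ = _ := by ring
  simp_rw [h0]
  constructor
  · exact integrable_finsetSum _ fun i _ => (hint i).const_mul _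
  · rw [integral_finsetSum _ fun i _ => (hint i).const_mul _]
    refine Finset.sum_eq_zero fun i hi => ?_
    rw [integral_const_mul, hb i (Finset.mem_range.1 hi), mul_zero]

theorem kern0 (L N : ℕ) (b : 𝓢(E n, ℂ)) (hb : Mom0 L b) : ∃ C : ℝ, 0 ≤ C ∧
    ∀ (A : E n → ℂ), ContDiff ℝ ∞ A → ∀ (B s t : ℝ) (x y : E n), 0 ≤ B → 0 < s → s ≤ t →
      (∀ z, ‖iteratedFDeriv ℝ L A z‖ ≤ B * (1 + s * ‖z - y‖) ^ (-(N : ℝ))) →
      ‖∫ z, A z * dilS t b (z - x)‖ ≤
        C * B * t ^ (-(L : ℝ)) * (1 + s * ‖x - y‖) ^ (-(N : ℝ)) := by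
  refine ⟨∫ v, ‖v‖ ^ L * (1 + ‖v‖) ^ N * ‖b v‖, integral_nonneg fun v => by positivity, ?_⟩
  intro A hA B s t x y hB hs hst hbd
  have ht : 0 < t := hs.trans_le hst
  rw [kern_subst b A ht x]
  obtain ⟨hint, hzero⟩ := kern_poly L b hb A t⁻¹ x
  set W : ℝ := (1 + s * ‖x - y‖) ^ (-(N : ℝ)) with hW
  have hW0 : 0 ≤ W := by positivity
  -- the remainder
  have hrem : ∀ v, ‖A (x + t⁻¹ • v) - kernTay L A x (t⁻¹ • v)‖ ≤
      B * W * (1 + ‖v‖) ^ N * (t ^ (-(L : ℝ)) * ‖v‖ ^ L) := by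
    intro v
    have h1 := kern_taylor L hA x (t⁻¹ • v) (K := B * W * (1 + ‖v‖) ^ N) (by
      intro θ hθ
      refine (hbd _).trans ?_
      rw [mul_assoc]
      refine mul_le_mul_of_nonneg_left ?_ hB
      refine (kern_weight N hs.le x y (θ • t⁻¹ • v)).trans ?_
      refine mul_le_mul_of_nonneg_left ?_ hW0
      refine pow_le_pow_left₀ (by positivity) ?_ N
      rw [norm_smul, norm_smul, Real.norm_of_nonneg hθ.1, norm_inv, Real.norm_of_nonneg ht.le]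
      have h2 : s * (θ * (t⁻¹ * ‖v‖)) ≤ 1 * ‖v‖ := by
        have h3 : s * θ * t⁻¹ ≤ 1 := by
          rw [← div_eq_mul_inv, div_le_one ht]
          nlinarith [hθ.2, hθ.1]
        calc s * (θ * (t⁻¹ * ‖v‖)) = (s * θ * t⁻¹) * ‖v‖ := by ring
          _ ≤ 1 * ‖v‖ := mul_le_mul_of_nonneg_right h3 (norm_nonneg _)
      linarith)
    refine h1.trans (le_of_eq ?_)
    rw [norm_smul, norm_inv, Real.norm_of_nonneg ht.le, mul_pow, Real.rpow_neg ht.le,
      Real.rpow_natCast, inv_pow]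
  have hmain : Integrable (fun v => (A (x + t⁻¹ • v) - kernTay L A x (t⁻¹ • v)) * b v) := by
    have h1 := (kern_integrable L N b).const_mul (B * W * t ^ (-(L : ℝ)))
    refine h1.mono' ?_ (Eventually.of_forall fun v => ?_)
    · have h2 : Continuous fun v : E n => A (x + t⁻¹ • v) :=
        hA.continuous.comp (by fun_prop)
      have h3 : Continuous fun v : E n => kernTay L A x (t⁻¹ • v) := by
        unfold kernTay
        refine continuous_finsetSum _ fun i _ => ?_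
        have h4 : Continuous fun v : E n => iteratedFDeriv ℝ i A x (fun _ => t⁻¹ • v) :=
          (iteratedFDeriv ℝ i A x).cont.comp (continuous_pi fun _ => by fun_prop)
        exact h4.const_smul ((i.factorial : ℝ)⁻¹)
      exact ((h2.sub h3).mul b.continuous).aestronglyMeasurable
    · rw [norm_mul]
      calc ‖A (x + t⁻¹ • v) - kernTay L A x (t⁻¹ • v)‖ * ‖b v‖
          ≤ (B * W * (1 + ‖v‖) ^ N * (t ^ (-(L : ℝ)) * ‖v‖ ^ L)) * ‖b v‖ :=
            mul_le_mul_of_nonneg_right (hrem v) (norm_nonneg _)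
        _ = _ := by ring
  have hsplit : ∫ v, A (x + t⁻¹ • v) * b v =
      ∫ v, (A (x + t⁻¹ • v) - kernTay L A x (t⁻¹ • v)) * b v := by
    have h1 : (fun v => A (x + t⁻¹ • v) * b v) = fun v =>
        (A (x + t⁻¹ • v) - kernTay L A x (t⁻¹ • v)) * b v + kernTay L A x (t⁻¹ • v) * b v := by
      funext v; ring
    rw [h1, integral_add hmain hint, hzero, add_zero]
  rw [hsplit]
  have h1 := (kern_integrable L N b).const_mul (B * W * t ^ (-(L : ℝ)))
  refine (norm_integral_le_of_norm_le h1 (Eventually.of_forall fun v => ?_)).trans (le_of_eq ?_)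
  · rw [norm_mul]
    calc ‖A (x + t⁻¹ • v) - kernTay L A x (t⁻¹ • v)‖ * ‖b v‖
        ≤ (B * W * (1 + ‖v‖) ^ N * (t ^ (-(L : ℝ)) * ‖v‖ ^ L)) * ‖b v‖ :=
          mul_le_mul_of_nonneg_right (hrem v) (norm_nonneg _)
      _ = _ := by ring
  · rw [integral_const_mul]
    ring

/-! ### derivatives of the families -/

theorem kern_schwartz (m N : ℕ) (a : 𝓢(E n, ℂ)) : ∃ C : ℝ, 0 ≤ C ∧ ∀ x,
    ‖iteratedFDeriv ℝ m a x‖ ≤ C * (1 + ‖x‖) ^ (-(N : ℝ)) := by
  refine ⟨2 ^ N * ((Finset.Iic (N, m)).sup fun m => SchwartzMap.seminorm ℂ m.1 m.2) a,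
    mul_nonneg (by positivity) (apply_nonneg _ _), fun x => ?_⟩
  have h1 := SchwartzMap.one_add_le_sup_seminorm_apply (𝕜 := ℂ) (m := (N, m)) (k := N) (n := m)
    le_rfl le_rfl a x
  rw [Real.rpow_neg (by positivity), Real.rpow_natCast, ← div_eq_mul_inv,
    le_div_iff₀ (by positivity), mul_comm]
  exact h1

theorem kern_dil_deriv (m : ℕ) (a : 𝓢(E n, ℂ)) {t : ℝ} (ht : 0 < t) (x : E n) :
    ‖iteratedFDeriv ℝ m (dilS t a) x‖ ≤ t ^ (n + m) * ‖iteratedFDeriv ℝ m a (t • x)‖ := by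
  let g : E n →L[ℝ] E n := t • ContinuousLinearMap.id ℝ (E n)
  have hg : ‖g‖ ≤ t := by
    refine ContinuousLinearMap.opNorm_le_bound _ ht.le fun v => ?_
    change ‖t • v‖ ≤ _
    rw [norm_smul, Real.norm_of_nonneg ht.le]
  have h1 : (dilS t a : E n → ℂ) = ((t : ℂ) ^ n) • ((a : E n → ℂ) ∘ g) := by
    funext v
    rw [dilS_apply ht.ne']
    rfl
  have hsm : ContDiff ℝ m ((a : E n → ℂ) ∘ g) := (a.smooth m).comp g.contDiff
  rw [h1, iteratedFDeriv_const_smul_apply hsm.contDiffAt, norm_smul,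
    g.iteratedFDeriv_comp_right (a.smooth m) x le_rfl, norm_pow, Complex.norm_real,
    Real.norm_of_nonneg ht.le, pow_add, mul_assoc]
  refine mul_le_mul_of_nonneg_left ?_ (by positivity)
  refine (ContinuousMultilinearMap.norm_compContinuousLinearMap_le _ _).trans ?_
  rw [Finset.prod_const, Finset.card_univ, Fintype.card_fin, mul_comm]
  exact mul_le_mul_of_nonneg_right (pow_le_pow_left₀ (norm_nonneg _) hg m) (norm_nonneg _)

theorem kern_fam_deriv (m N : ℕ) (a0 a1 : 𝓢(E n, ℂ)) : ∃ C : ℝ, 0 ≤ C ∧ ∀ (j : ℕ) (x : E n),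
    ‖iteratedFDeriv ℝ m (fam a0 a1 j) x‖ ≤
      C * 2 ^ (j * (n + m)) * (1 + 2 ^ j / 2 * ‖x‖) ^ (-(N : ℝ)) := by
  obtain ⟨C0, hC0, h0⟩ := kern_schwartz m N a0
  obtain ⟨C1, hC1, h1⟩ := kern_schwartz m N a1
  refine ⟨C0 + C1, by positivity, fun j x => ?_⟩
  cases j with
  | zero =>
    change ‖iteratedFDeriv ℝ m a0 x‖ ≤ _
    refine (h0 x).trans ?_
    rw [zero_mul, pow_zero, mul_one]
    have h2 : (1 + ‖x‖) ^ (-(N : ℝ)) ≤ (1 + 1 / 2 * ‖x‖) ^ (-(N : ℝ)) :=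
      Real.rpow_le_rpow_of_nonpos (by positivity) (by linarith [norm_nonneg x])
        (by simp)
    exact mul_le_mul (by linarith) h2 (by positivity) (by positivity)
  | succ j =>
    change ‖iteratedFDeriv ℝ m (dilS (2 ^ j) a1) x‖ ≤ _
    refine (kern_dil_deriv m a1 (by positivity) x).trans ?_
    have h2 := h1 ((2 : ℝ) ^ j • x)
    rw [norm_smul, norm_pow, Real.norm_ofNat] at h2
    have h3 : (2 : ℝ) ^ (j + 1) / 2 = 2 ^ j := by rw [pow_succ]; ring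
    rw [h3]
    have h4 : ((2 : ℝ) ^ j) ^ (n + m) ≤ 2 ^ ((j + 1) * (n + m)) := by
      rw [← pow_mul]
      exact pow_le_pow_right₀ one_le_two (Nat.mul_le_mul_right _ (Nat.le_succ j))
    calc ((2 : ℝ) ^ j) ^ (n + m) * ‖iteratedFDeriv ℝ m a1 ((2 : ℝ) ^ j • x)‖
        ≤ 2 ^ ((j + 1) * (n + m)) * (C1 * (1 + 2 ^ j * ‖x‖) ^ (-(N : ℝ))) :=
          mul_le_mul h4 h2 (norm_nonneg _) (by positivity)
      _ = C1 * (2 ^ ((j + 1) * (n + m)) * (1 + 2 ^ j * ‖x‖) ^ (-(N : ℝ))) := by ring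
      _ ≤ (C0 + C1) * (2 ^ ((j + 1) * (n + m)) * (1 + 2 ^ j * ‖x‖) ^ (-(N : ℝ))) :=
          mul_le_mul_of_nonneg_right (by linarith) (by positivity)
      _ = _ := by ring

theorem kern_prod_deriv (L N : ℕ) (a0 a1 : 𝓢(E n, ℂ)) (χ : E n → ℂ) (hχ : SmB χ) :
    ∃ C : ℝ, 0 ≤ C ∧ ∀ (j : ℕ) (y z : E n),
      ‖iteratedFDeriv ℝ L (fun z => χ z * fam a0 a1 j (z - y)) z‖ ≤
        C * 2 ^ (j * (n + L)) * (1 + 2 ^ j / 2 * ‖z - y‖) ^ (-(N : ℝ)) := by
  choose Cχ hCχ using hχ.2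
  have hCχ0 : ∀ k, 0 ≤ Cχ k := fun k => (norm_nonneg _).trans (hCχ k 0)
  choose Ca hCa0 hCa using fun m => kern_fam_deriv m N a0 a1
  refine ⟨∑ i ∈ Finset.range (L + 1), (L.choose i : ℝ) * Cχ i * Ca (L - i),
    Finset.sum_nonneg fun i _ => mul_nonneg (mul_nonneg (by positivity) (hCχ0 i)) (hCa0 _), ?_⟩
  intro j y z
  have hsm : ContDiff ℝ L fun z : E n => (fam a0 a1 j) (z - y) :=
    ((fam a0 a1 j).smooth L).comp (contDiff_id.sub contDiff_const)
  have h1 := norm_iteratedFDeriv_mul_le (hχ.1.of_le (by exact_mod_cast le_top) : ContDiff ℝ L χ)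
    hsm z le_rfl
  refine h1.trans ?_
  rw [Finset.sum_mul, Finset.sum_mul]
  refine Finset.sum_le_sum fun i hi => ?_
  rw [iteratedFDeriv_comp_sub]
  have h2 := hCa (L - i) j (z - y)
  have h3 : (2 : ℝ) ^ (j * (n + (L - i))) ≤ 2 ^ (j * (n + L)) :=
    pow_le_pow_right₀ one_le_two (Nat.mul_le_mul_left _ (by omega))
  calc (L.choose i : ℝ) * ‖iteratedFDeriv ℝ i χ z‖ *
        ‖iteratedFDeriv ℝ (L - i) (fam a0 a1 j) (z - y)‖
      ≤ (L.choose i : ℝ) * Cχ i * (Ca (L - i) * 2 ^ (j * (n + (L - i))) *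
        (1 + 2 ^ j / 2 * ‖z - y‖) ^ (-(N : ℝ))) := by
        refine mul_le_mul ?_ h2 (norm_nonneg _) (mul_nonneg (by positivity) (hCχ0 i))
        exact mul_le_mul_of_nonneg_left (hCχ i z) (by positivity)
    _ ≤ (L.choose i : ℝ) * Cχ i * (Ca (L - i) * 2 ^ (j * (n + L)) *
        (1 + 2 ^ j / 2 * ‖z - y‖) ^ (-(N : ℝ))) := by
        refine mul_le_mul_of_nonneg_left ?_ (mul_nonneg (by positivity) (hCχ0 i))
        refine mul_le_mul_of_nonneg_right ?_ (by positivity)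
        exact mul_le_mul_of_nonneg_left h3 (hCa0 _)
    _ = _ := by ring

theorem kern_half (N j : ℕ) {r : ℝ} (hr : 0 ≤ r) :
    (1 + 2 ^ j / 2 * r) ^ (-(N : ℝ)) ≤ 2 ^ N * (1 + 2 ^ j * r) ^ (-(N : ℝ)) := by
  rw [Real.rpow_neg (by positivity), Real.rpow_neg (by positivity), Real.rpow_natCast,
    Real.rpow_natCast, ← div_eq_mul_inv, inv_eq_one_div, div_le_div_iff₀ (by positivity)
    (by positivity), one_mul, ← mul_pow]
  refine pow_le_pow_left₀ (by positivity) ?_ N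
  have : (0:ℝ) ≤ 2 ^ j * r := by positivity
  linarith

theorem kern_side (L N : ℕ) (a0 a1 b : 𝓢(E n, ℂ)) (hb : Mom0 L b) (χ : E n → ℂ) (hχ : SmB χ) :
    ∃ C : ℝ, 0 ≤ C ∧ ∀ (j k : ℕ) (x y : E n), j ≤ k + 1 →
      ‖∫ z, (χ z * fam a0 a1 j (z - y)) * dilS (2 ^ k) b (z - x)‖ ≤
        C * (2 : ℝ) ^ (-(((k : ℝ) + 1 - j) * L)) * 2 ^ (j * n) *
          (1 + 2 ^ j * ‖x - y‖) ^ (-(N : ℝ)) := by
  obtain ⟨C0, hC0, h0⟩ := kern0 L N b hb
  obtain ⟨C1, hC1, h1⟩ := kern_prod_deriv L N a0 a1 χ hχ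
  refine ⟨C0 * C1 * 2 ^ L * 2 ^ N, by positivity, fun j k x y hjk => ?_⟩
  have hsm : ContDiff ℝ ∞ fun z : E n => χ z * (fam a0 a1 j) (z - y) :=
    hχ.1.mul (((fam a0 a1 j).smooth ⊤).comp (contDiff_id.sub contDiff_const))
  have hst : (2 : ℝ) ^ j / 2 ≤ 2 ^ k := by
    rw [div_le_iff₀ two_pos, ← pow_succ]
    exact pow_le_pow_right₀ one_le_two hjk
  have h2 := h0 _ hsm (C1 * 2 ^ (j * (n + L))) (2 ^ j / 2) (2 ^ k) x y (by positivity)
    (by positivity) hst (h1 j y)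
  refine h2.trans ?_
  have h3 := kern_half N j (norm_nonneg (x - y))
  have h4 : (2 : ℝ) ^ (j * (n + L)) * ((2 : ℝ) ^ k) ^ (-(L : ℝ)) =
      2 ^ L * (2 : ℝ) ^ (-(((k : ℝ) + 1 - j) * L)) * 2 ^ (j * n) := by
    rw [← Real.rpow_natCast 2 (j * (n + L)), ← Real.rpow_natCast 2 k, ← Real.rpow_mul two_pos.le,
      ← Real.rpow_natCast 2 L, ← Real.rpow_natCast 2 (j * n), ← Real.rpow_add two_pos,
      ← Real.rpow_add two_pos, ← Real.rpow_add two_pos]
    congr 1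
    push_cast
    ring
  calc C0 * (C1 * 2 ^ (j * (n + L))) * ((2 : ℝ) ^ k) ^ (-(L : ℝ)) *
        (1 + 2 ^ j / 2 * ‖x - y‖) ^ (-(N : ℝ))
      = C0 * C1 * ((2 : ℝ) ^ (j * (n + L)) * ((2 : ℝ) ^ k) ^ (-(L : ℝ))) *
        (1 + 2 ^ j / 2 * ‖x - y‖) ^ (-(N : ℝ)) := by ring
    _ ≤ C0 * C1 * ((2 : ℝ) ^ (j * (n + L)) * ((2 : ℝ) ^ k) ^ (-(L : ℝ))) *
        (2 ^ N * (1 + 2 ^ j * ‖x - y‖) ^ (-(N : ℝ))) :=
        mul_le_mul_of_nonneg_left h3 (by positivity)
    _ = _ := by rw [h4]; ring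

theorem mom0_zero (b : 𝓢(E n, ℂ)) : Mom0 0 b := fun i hi => absurd hi (Nat.not_lt_zero i)

theorem kern_fam (L N : ℕ) (a0 a1 b0 b1 : 𝓢(E n, ℂ)) (ha : Mom0 L a1) (hb : Mom0 L b1)
    (χ : E n → ℂ) (hχ : SmB χ) : ∃ C : ℝ, 0 ≤ C ∧ ∀ (j k : ℕ) (x y : E n),
      ‖∫ z, fam a0 a1 j (z - y) * (χ z * fam b0 b1 k (z - x))‖ ≤
        C * (2 : ℝ) ^ (-(|(j : ℝ) - k| * L)) * 2 ^ (min j k * n) *
          (1 + 2 ^ (min j k) * ‖x - y‖) ^ (-(N : ℝ)) := by
  obtain ⟨C0, hC0, h0⟩ := kern_side 0 N a0 a1 b0 (mom0_zero b0) χ hχ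
  obtain ⟨C1, hC1, h1⟩ := kern_side L N a0 a1 b1 hb χ hχ
  obtain ⟨C2, hC2, h2⟩ := kern_side L N b0 b1 a1 ha χ hχ
  refine ⟨C0 + C1 + C2, by positivity, fun j k x y => ?_⟩
  rcases Nat.lt_or_ge k j with hkj | hjk
  · obtain ⟨j', rfl⟩ : ∃ j', j = j' + 1 := ⟨j - 1, by omega⟩
    have h3 := h2 k j' y x (by omega)
    have h4 : (fun z => fam a0 a1 (j' + 1) (z - y) * (χ z * fam b0 b1 k (z - x))) =
        fun z => (χ z * fam b0 b1 k (z - x)) * dilS (2 ^ j') a1 (z - y) := by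
      funext z
      change dilS (2 ^ j') a1 (z - y) * (χ z * fam b0 b1 k (z - x)) = _
      ring
    rw [h4, min_eq_right (by omega)]
    refine h3.trans ?_
    rw [norm_sub_rev y x]
    have h5 : |((j' + 1 : ℕ) : ℝ) - k| = (j' : ℝ) + 1 - k := by
      push_cast
      exact abs_of_nonneg (by
        have : (k : ℝ) ≤ j' + 1 := by exact_mod_cast hkj.le
        linarith)
    rw [h5]
    gcongr
    linarith
  · rcases Nat.eq_zero_or_pos k with rfl | hk
    · obtain rfl : j = 0 := by omega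
      have h3 := h0 0 0 x y (by omega)
      have h4 : (fun z => fam a0 a1 0 (z - y) * (χ z * fam b0 b1 0 (z - x))) =
          fun z => (χ z * fam a0 a1 0 (z - y)) * dilS (2 ^ 0) b0 (z - x) := by
        funext z
        rw [dilS_apply (by simp)]
        change a0 (z - y) * (χ z * b0 (z - x)) = χ z * a0 (z - y) * _
        simp
        ring
      rw [h4]
      refine h3.trans ?_
      simp only [Nat.cast_zero, mul_zero, neg_zero, Real.rpow_zero, mul_one, zero_mul, pow_zero,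
        min_self, sub_self, abs_zero]
      gcongr
      linarith
    · obtain ⟨k', rfl⟩ : ∃ k', k = k' + 1 := ⟨k - 1, by omega⟩
      have h3 := h1 j k' x y hjk
      have h4 : (fun z => fam a0 a1 j (z - y) * (χ z * fam b0 b1 (k' + 1) (z - x))) =
          fun z => (χ z * fam a0 a1 j (z - y)) * dilS (2 ^ k') b1 (z - x) := by
        funext z
        change fam a0 a1 j (z - y) * (χ z * dilS (2 ^ k') b1 (z - x)) = _
        ring
      rw [h4, min_eq_left hjk]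
      refine h3.trans ?_
      have h5 : |(j : ℝ) - ((k' + 1 : ℕ) : ℝ)| = (k' : ℝ) + 1 - j := by
        push_cast
        rw [abs_sub_comm]
        exact abs_of_nonneg (by
          have : (j : ℝ) ≤ k' + 1 := by exact_mod_cast hjk
          linarith)
      rw [h5]
      gcongr
      linarith

theorem kern_continuous (a b : 𝓢(E n, ℂ)) (χ : E n → ℂ) (hχ : SmB χ) :
    Continuous fun y : E n => ∫ z, a (z - y) * (χ z * b z) := by
  obtain ⟨Ca, hCa0, hCa⟩ := kern_schwartz 0 0 a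
  obtain ⟨Cχ, hCχ⟩ := hχ.2 0
  have hCχ0 : 0 ≤ Cχ := (norm_nonneg _).trans (hCχ 0)
  have hint : Integrable (fun z : E n => Ca * (Cχ * ‖b z‖)) :=
    (b.integrable.norm.const_mul _).const_mul _
  refine continuous_of_dominated (bound := fun z => Ca * (Cχ * ‖b z‖)) ?_ ?_ hint ?_
  · intro y
    have h1 : Continuous fun z : E n => a (z - y) := a.continuous.comp (by fun_prop)
    exact (h1.mul (hχ.1.continuous.mul b.continuous)).aestronglyMeasurable
  · intro y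
    refine Eventually.of_forall fun z => ?_
    rw [norm_mul, norm_mul]
    have h1 := hCa (z - y)
    have h2 := hCχ z
    rw [norm_iteratedFDeriv_zero] at h1 h2
    simp only [Nat.cast_zero, neg_zero, Real.rpow_zero, mul_one] at h1
    gcongr
  · refine Eventually.of_forall fun z => ?_
    exact (a.continuous.comp (by fun_prop)).mul continuous_const

/-- the mass of the weights -/
theorem kern_mass (m : ℕ) (x : E n) :
    ∫⁻ y, ENNReal.ofReal ((2 : ℝ) ^ (m * n) * (1 + 2 ^ m * ‖x - y‖) ^ (-((n : ℝ) + 1))) =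
      ENNReal.ofReal (∫ y : E n, (1 + ‖y‖) ^ (-((n : ℝ) + 1))) := by
  have hint : Integrable (fun y : E n => (1 + ‖y‖) ^ (-((n : ℝ) + 1))) :=
    integrable_one_add_norm (by rw [finrank_euclideanSpace_fin]; linarith)
  have hR : (2 : ℝ) ^ m ≠ 0 := by positivity
  have hf : ∀ w : E n, (2 : ℝ) ^ (m * n) * (1 + 2 ^ m * ‖w‖) ^ (-((n : ℝ) + 1)) =
      2 ^ (m * n) * (1 + ‖(2 : ℝ) ^ m • w‖) ^ (-((n : ℝ) + 1)) := by
    intro w
    rw [norm_smul, norm_pow, Real.norm_ofNat]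
  have hint2 : Integrable (fun w : E n => (2 : ℝ) ^ (m * n) *
      (1 + 2 ^ m * ‖w‖) ^ (-((n : ℝ) + 1))) := by
    simp_rw [hf]
    exact (hint.comp_smul hR).const_mul _
  have hint3 : Integrable (fun y : E n => (2 : ℝ) ^ (m * n) *
      (1 + 2 ^ m * ‖x - y‖) ^ (-((n : ℝ) + 1))) := hint2.comp_sub_left x
  rw [← ofReal_integral_eq_lintegral_ofReal hint3 (Eventually.of_forall fun y => by positivity)]
  congr 1
  rw [integral_sub_left_eq_self (fun w : E n => (2 : ℝ) ^ (m * n) *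
      (1 + 2 ^ m * ‖w‖) ^ (-((n : ℝ) + 1))) volume x]
  simp_rw [hf]
  rw [integral_const_mul, Measure.integral_comp_smul volume
    (fun w : E n => (1 + ‖w‖) ^ (-((n : ℝ) + 1))) ((2 : ℝ) ^ m), finrank_euclideanSpace_fin,
    abs_of_pos (by positivity), smul_eq_mul, ← mul_assoc, ← pow_mul,
    mul_inv_cancel₀ (by positivity), one_mul]

theorem kern_int (L N : ℕ) (a0 a1 b0 b1 : 𝓢(E n, ℂ)) (ha : Mom0 L a1) (hb : Mom0 L b1)
    (χ : E n → ℂ) (hχ : SmB χ) : ∃ C : ℝ≥0, ∀ (j k l : ℕ) (x : E n),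
      ∫⁻ y, ‖∫ z, fam a0 a1 j (z - y) * (χ z * fam b0 b1 k (z - x))‖ₑ *
        ENNReal.ofReal ((1 + 2 ^ l * ‖x - y‖) ^ N) ≤
        C * dec ((L : ℝ) - N) j k * ENNReal.ofReal ((2 : ℝ) ^ (N * |(l : ℝ) - j|)) := by
  obtain ⟨C, hC, hk⟩ := kern_fam L (N + n + 1) a0 a1 b0 b1 ha hb χ hχ
  set I : ℝ := ∫ y : E n, (1 + ‖y‖) ^ (-((n : ℝ) + 1)) with hI
  have hI0 : 0 ≤ I := integral_nonneg fun y => by positivity
  refine ⟨Real.toNNReal (C * I), fun j k l x => ?_⟩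
  set m := min j k with hm
  -- comparison of the exponents
  have hexp : (2 : ℝ) ^ l ≤ (2 : ℝ) ^ (|(l : ℝ) - j| + |(j : ℝ) - k|) * 2 ^ m := by
    rw [← Real.rpow_natCast 2 l, ← Real.rpow_natCast 2 m, ← Real.rpow_add two_pos]
    apply Real.rpow_le_rpow_of_exponent_le one_le_two
    have h1 := le_abs_self ((l : ℝ) - j)
    rcases le_total j k with h | h
    · rw [hm, min_eq_left h]
      have := abs_nonneg ((j : ℝ) - k)
      linarith
    · rw [hm, min_eq_right h]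
      have := le_abs_self ((j : ℝ) - k)
      linarith
  have hone : (1 : ℝ) ≤ (2 : ℝ) ^ (|(l : ℝ) - j| + |(j : ℝ) - k|) :=
    Real.one_le_rpow one_le_two (by positivity)
  have hpt : ∀ y : E n, ‖∫ z, fam a0 a1 j (z - y) * (χ z * fam b0 b1 k (z - x))‖ *
      (1 + 2 ^ l * ‖x - y‖) ^ N ≤
      (C * (2 : ℝ) ^ (-(|(j : ℝ) - k| * (L - N))) * (2 : ℝ) ^ (N * |(l : ℝ) - j|)) *
        ((2 : ℝ) ^ (m * n) * (1 + 2 ^ m * ‖x - y‖) ^ (-((n : ℝ) + 1))) := by
    intro y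
    set r := ‖x - y‖ with hr
    have hr0 : 0 ≤ r := norm_nonneg _
    have h1 := hk j k x y
    have h2 : (1 + 2 ^ l * r) ^ N ≤
        ((2 : ℝ) ^ (|(l : ℝ) - j| + |(j : ℝ) - k|)) ^ N * (1 + 2 ^ m * r) ^ N := by
      rw [← mul_pow]
      refine pow_le_pow_left₀ (by positivity) ?_ N
      have h3 := mul_le_mul_of_nonneg_right hexp hr0
      calc 1 + 2 ^ l * r ≤ (2 : ℝ) ^ (|(l : ℝ) - j| + |(j : ℝ) - k|) +
            (2 : ℝ) ^ (|(l : ℝ) - j| + |(j : ℝ) - k|) * 2 ^ m * r := add_le_add hone h3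
        _ = _ := by ring
    have h4 : (1 + 2 ^ m * r) ^ (-((N + n + 1 : ℕ) : ℝ)) * (1 + 2 ^ m * r) ^ N =
        (1 + 2 ^ m * r) ^ (-((n : ℝ) + 1)) := by
      rw [← Real.rpow_natCast (1 + 2 ^ m * r) N, ← Real.rpow_add (by positivity)]
      congr 1
      push_cast
      ring
    have h5 : (2 : ℝ) ^ (-(|(j : ℝ) - k| * L)) *
        ((2 : ℝ) ^ (|(l : ℝ) - j| + |(j : ℝ) - k|)) ^ N =
        (2 : ℝ) ^ (-(|(j : ℝ) - k| * (L - N))) * (2 : ℝ) ^ (N * |(l : ℝ) - j|) := by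
      rw [← Real.rpow_natCast _ N, ← Real.rpow_mul two_pos.le, ← Real.rpow_add two_pos,
        ← Real.rpow_add two_pos]
      congr 1
      ring
    calc ‖∫ z, fam a0 a1 j (z - y) * (χ z * fam b0 b1 k (z - x))‖ * (1 + 2 ^ l * r) ^ N
        ≤ (C * (2 : ℝ) ^ (-(|(j : ℝ) - k| * L)) * 2 ^ (m * n) *
          (1 + 2 ^ m * r) ^ (-((N + n + 1 : ℕ) : ℝ))) *
          (((2 : ℝ) ^ (|(l : ℝ) - j| + |(j : ℝ) - k|)) ^ N * (1 + 2 ^ m * r) ^ N) :=
          mul_le_mul h1 h2 (by positivity) (by positivity)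
      _ = C * ((2 : ℝ) ^ (-(|(j : ℝ) - k| * L)) *
          ((2 : ℝ) ^ (|(l : ℝ) - j| + |(j : ℝ) - k|)) ^ N) * (2 ^ (m * n) *
          ((1 + 2 ^ m * r) ^ (-((N + n + 1 : ℕ) : ℝ)) * (1 + 2 ^ m * r) ^ N)) := by ring
      _ = _ := by rw [h4, h5]; ring
  have hfin : ∀ y : E n, ‖∫ z, fam a0 a1 j (z - y) * (χ z * fam b0 b1 k (z - x))‖ₑ *
      ENNReal.ofReal ((1 + 2 ^ l * ‖x - y‖) ^ N) ≤
      ENNReal.ofReal (C * (2 : ℝ) ^ (-(|(j : ℝ) - k| * (L - N))) *
        (2 : ℝ) ^ (N * |(l : ℝ) - j|)) *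
        ENNReal.ofReal ((2 : ℝ) ^ (m * n) * (1 + 2 ^ m * ‖x - y‖) ^ (-((n : ℝ) + 1))) := by
    intro y
    rw [← ofReal_norm, ← ENNReal.ofReal_mul (norm_nonneg _),
      ← ENNReal.ofReal_mul (by positivity)]
    exact ENNReal.ofReal_le_ofReal (hpt y)
  refine (lintegral_mono hfin).trans ?_
  rw [lintegral_const_mul' _ _ ENNReal.ofReal_ne_top, kern_mass m x, ← hI, dec]
  rw [← ENNReal.ofReal_mul (by positivity)]
  have h6 : ((Real.toNNReal (C * I) : ℝ≥0) : ℝ≥0∞) = ENNReal.ofReal (C * I) := rfl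
  rw [h6, ← ENNReal.ofReal_mul (by positivity), ← ENNReal.ofReal_mul (by positivity)]
  apply ENNReal.ofReal_le_ofReal
  apply le_of_eq
  ring

end MP6db0a9
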