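import Pool.Agent.Lib_MP_6db0a9_an.Defs

/-! Littlewood Paley families: telescoping sums, dual family, vanishing moments. -/

open MeasureTheory SchwartzMap Set Filter Topology
open scoped ENNReal NNReal FourierTransform LineDeriv ContDiff

namespace MP6db0a9

variable {n : ℕ}

lemma lp_dil_one (φ : 𝓢(E n, ℂ)) : dilS 1 φ = φ := by
  ext x
  rw [dilS_apply one_ne_zero]
  simp

lemma lp_dil_dil {s t : ℝ} (hs : s ≠ 0) (ht : t ≠ 0) (φ : 𝓢(E n, ℂ)) :
    dilS s (dilS t φ) = dilS (s * t) φ := by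
  ext x
  rw [dilS_apply hs, dilS_apply ht, dilS_apply (mul_ne_zero hs ht), smul_smul, mul_comm t s]
  push_cast
  ring

theorem lam_sum (L0 : 𝓢(E n, ℂ)) (J : ℕ) :
    ∑ l ∈ Finset.range (J + 1), lam L0 l = dilS (2 ^ J) L0 := by
  induction J with
  | zero =>
    rw [Finset.sum_range_one]
    simp only [lam, pow_zero]
    exact (lp_dil_one L0).symm
  | succ J ih =>
    rw [Finset.sum_range_succ, ih]
    simp only [lam]
    abel

lemma lp_fourier_apply (φ : 𝓢(E n, ℂ)) (ξ : E n) :
    𝓕 φ ξ = ∫ v : E n, Complex.exp (((-2 * Real.pi * inner ℝ v ξ : ℝ) : ℂ) * Complex.I) • φ v := by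
  rw [SchwartzMap.fourier_coe, Real.fourier_eq']

lemma lp_fourier_dil {t : ℝ} (ht : 0 < t) (φ : 𝓢(E n, ℂ)) (ξ : E n) :
    𝓕 (dilS t φ) ξ = 𝓕 φ (t⁻¹ • ξ) := by
  rw [lp_fourier_apply, lp_fourier_apply]
  set F : E n → ℂ := fun y =>
    Complex.exp (((-2 * Real.pi * inner ℝ y (t⁻¹ • ξ) : ℝ) : ℂ) * Complex.I) • φ y with hF
  have h1 : ∀ v : E n,
      Complex.exp (((-2 * Real.pi * inner ℝ v ξ : ℝ) : ℂ) * Complex.I) • (dilS t φ) v =
        (t : ℂ) ^ n * F (t • v) := by
    intro v
    rw [dilS_apply ht.ne', hF]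
    simp only [smul_eq_mul, inner_smul_left, inner_smul_right]
    have : (starRingEnd ℝ) t * (t⁻¹ * inner ℝ v ξ) = inner ℝ v ξ := by
      rw [RCLike.conj_to_real]
      field_simp
    rw [mul_left_comm t⁻¹ _ _, this]
    ring
  simp only [h1]
  rw [integral_const_mul, Measure.integral_comp_smul volume F t]
  simp only [finrank_euclideanSpace, Fintype.card_fin]
  rw [abs_of_pos (by positivity : (0 : ℝ) < (t ^ n)⁻¹), Complex.real_smul, ← mul_assoc]
  push_cast
  rw [mul_inv_cancel₀, one_mul]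
  exact pow_ne_zero _ (by exact_mod_cast ht.ne')

lemma lp_mom0 {b : 𝓢(E n, ℂ)} {ε : ℝ} (hε : 0 < ε) (hb : ∀ ξ : E n, ‖ξ‖ < ε → 𝓕 b ξ = 0)
    (L : ℕ) : Mom0 L b := by
  intro i _ T
  have hint : ∀ (m : ℕ), Integrable (fun v : E n => ‖v‖ ^ m * ‖b v‖) := fun m =>
    b.integrable_pow_mul volume m
  have h1 := Real.iteratedFDeriv_fourier (V := E n) (f := (b : E n → ℂ)) (N := ⊤) (n := i)
    (fun m _ => hint m) b.continuous.aestronglyMeasurable le_top
  have h2 : iteratedFDeriv ℝ i (𝓕 (b : E n → ℂ)) 0 = 0 := by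
    have h3 : 𝓕 (b : E n → ℂ) =ᶠ[𝓝 0] fun _ => 0 := by
      filter_upwards [Metric.ball_mem_nhds (0 : E n) hε] with ξ hξ
      rw [mem_ball_zero_iff] at hξ
      rw [← SchwartzMap.fourier_coe]
      exact hb ξ hξ
    rw [(h3.iteratedFDeriv ℝ i).self_of_nhds]
    have : iteratedFDeriv ℝ i (fun _ : E n => (0 : ℂ)) = 0 := iteratedFDeriv_fun_zero
    rw [this]
    rfl
  rw [h1] at h2
  -- the moments
  have h4 : ∀ s : Fin i → Fin n, ∫ v : E n, (∏ j, v (s j)) • b v = 0 := by
    intro s
    have hI : Integrable (fun v : E n => VectorFourier.fourierPowSMulRight (innerSL ℝ) (b : E n → ℂ) v i) := by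
      exact VectorFourier.integrable_fourierPowSMulRight (innerSL ℝ) (hint i)
        b.continuous.aestronglyMeasurable
    have h5 : (𝓕 (fun v : E n => VectorFourier.fourierPowSMulRight (innerSL ℝ) (b : E n → ℂ) v i)) 0
        = ∫ v : E n, VectorFourier.fourierPowSMulRight (innerSL ℝ) (b : E n → ℂ) v i := by
      rw [Real.fourier_eq']
      simp
    rw [h5] at h2
    have h6 := congrArg (fun M => M (fun j => EuclideanSpace.single (s j) (1 : ℝ))) h2
    simp only [ContinuousMultilinearMap.zero_apply] at h6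
    rw [ContinuousMultilinearMap.integral_apply hI] at h6
    simp only [VectorFourier.fourierPowSMulRight_apply] at h6
    rw [integral_smul] at h6
    have h7 : (-(2 * (Real.pi : ℂ) * Complex.I)) ^ i ≠ 0 := by
      apply pow_ne_zero
      simp [Real.pi_ne_zero]
    have h8 := (smul_eq_zero.1 h6).resolve_left h7
    rw [← h8]
    congr 1
    ext v
    congr 1
    apply Finset.prod_congr rfl
    intro j _
    rw [innerSL_apply_apply, EuclideanSpace.inner_single_right]
    simp
  -- expansion of `T`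
  have hexp : ∀ w : E n, T (fun _ => w) =
      ∑ s : Fin i → Fin n, (∏ j, w (s j)) • T (fun j => EuclideanSpace.single (s j) (1 : ℝ)) := by
    intro w
    have hw : w = ∑ k : Fin n, w k • (EuclideanSpace.single k (1 : ℝ) : E n) := by
      ext l
      simp [Finset.sum_apply, Pi.single_apply]
    have h9 : T (fun _ => w) = T (fun _ => ∑ k : Fin n, w k • (EuclideanSpace.single k (1 : ℝ) : E n)) :=
      congrArg T (by funext _; exact hw)
    rw [h9, ContinuousMultilinearMap.map_sum]
    apply Finset.sum_congr rfl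
    intro s _
    exact ContinuousMultilinearMap.map_smul_univ T (fun j => w (s j))
      (fun j => EuclideanSpace.single (s j) (1 : ℝ))
  simp only [hexp, Finset.mul_sum]
  rw [integral_finsetSum]
  · apply Finset.sum_eq_zero
    intro s _
    have h10 : ∀ w : E n, b w * ((∏ j, w (s j)) • T (fun j => EuclideanSpace.single (s j) (1 : ℝ))) =
        ((∏ j, w (s j)) • b w) * T (fun j => EuclideanSpace.single (s j) (1 : ℝ)) := by
      intro w
      simp only [Complex.real_smul]
      ring
    simp only [h10]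
    rw [integral_mul_const, h4 s, zero_mul]
  · intro s _
    have h10 : ∀ w : E n, b w * ((∏ j, w (s j)) • T (fun j => EuclideanSpace.single (s j) (1 : ℝ))) =
        ((∏ j, w (s j)) • b w) * T (fun j => EuclideanSpace.single (s j) (1 : ℝ)) := by
      intro w
      simp only [Complex.real_smul]
      ring
    simp only [h10]
    apply Integrable.mul_const
    apply (hint i).mono
    · apply Continuous.aestronglyMeasurable
      have := b.continuous
      fun_prop
    · filter_upwards with w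
      rw [norm_smul, norm_mul, norm_pow, norm_norm, norm_norm, norm_prod]
      gcongr
      calc ∏ j, ‖w (s j)‖ ≤ ∏ _j : Fin i, ‖w‖ :=
            Finset.prod_le_prod (fun _ _ => norm_nonneg _) (fun j _ => PiLp.norm_apply_le w (s j))
        _ = ‖w‖ ^ i := by simp

lemma lp_fourier_sconv (φ ψ : 𝓢(E n, ℂ)) (ξ : E n) : 𝓕 (sconv φ ψ) ξ = 𝓕 φ ξ * 𝓕 ψ ξ := by
  rw [sconv, SchwartzMap.fourier_convolution]
  rfl

lemma lp_ext_fourier {φ ψ : 𝓢(E n, ℂ)} (h : ∀ ξ, 𝓕 φ ξ = 𝓕 ψ ξ) : φ = ψ := by
  have h1 : 𝓕 φ = 𝓕 ψ := by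
    ext ξ
    exact h ξ
  have h2 := congrArg (fun u : 𝓢(E n, ℂ) => 𝓕⁻ u) h1
  simpa using h2

lemma lp_fourier_sub (φ ψ : 𝓢(E n, ℂ)) (ξ : E n) : 𝓕 (φ - ψ) ξ = 𝓕 φ ξ - 𝓕 ψ ξ := by
  have : 𝓕 (φ - ψ) = 𝓕 φ - 𝓕 ψ := map_sub (FourierTransform.fourierCLM ℂ 𝓢(E n, ℂ)) φ ψ
  rw [this]
  rfl

theorem lp_facts {a : ℝ} {L0 : 𝓢(E n, ℂ)} (h : IsLP a L0) :
    ∫ x, L0 x = 1 ∧ ∃ L1 Λ0 Λ1 : 𝓢(E n, ℂ), (∀ L, Mom0 L L1 ∧ Mom0 L Λ1) ∧
      (∀ l, lam L0 l = fam L0 L1 l) ∧ ∀ l, sconv (lam L0 l) (fam Λ0 Λ1 l) = lam L0 l := by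
  obtain ⟨ha, hone, hzero⟩ := h
  constructor
  · have h1 := hone 0 (by simpa using ha)
    rw [lp_fourier_apply] at h1
    simpa using h1
  · refine ⟨dilS 2 L0 - L0, dilS 2 L0, dilS 4 L0 - dilS (1 / 2) L0, fun L => ⟨?_, ?_⟩, ?_, ?_⟩
    · apply lp_mom0 ha
      intro ξ hξ
      rw [lp_fourier_sub, lp_fourier_dil two_pos, hone _ hξ, hone, sub_self]
      rw [norm_smul, Real.norm_of_nonneg (by norm_num)]
      have := norm_nonneg ξ
      linarith
    · apply lp_mom0 (half_pos ha)
      intro ξ hξ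
      rw [lp_fourier_sub, lp_fourier_dil (by norm_num), lp_fourier_dil (by norm_num), hone, hone,
        sub_self]
      · rw [norm_smul, Real.norm_of_nonneg (by norm_num)]
        have := norm_nonneg ξ
        norm_num
        linarith
      · rw [norm_smul, Real.norm_of_nonneg (by norm_num)]
        have := norm_nonneg ξ
        linarith
    · intro l
      cases l with
      | zero => rfl
      | succ j =>
        simp only [lam, fam]
        rw [map_sub, lp_dil_dil (by positivity) two_ne_zero, pow_succ]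
    · intro l
      apply lp_ext_fourier
      intro ξ
      rw [lp_fourier_sconv]
      cases l with
      | zero =>
        simp only [lam, fam]
        rw [lp_fourier_dil two_pos]
        rcases lt_or_ge ‖ξ‖ (2 * a) with h1 | h1
        · rw [hone ((2 : ℝ)⁻¹ • ξ), mul_one]
          rw [norm_smul, Real.norm_of_nonneg (by norm_num)]
          linarith
        · rw [hzero _ h1, zero_mul]
      | succ j =>
        simp only [lam, fam]
        have hj : (0 : ℝ) < 2 ^ j := by positivity
        have hj1 : (0 : ℝ) < 2 ^ (j + 1) := by positivity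
        rw [lp_fourier_dil hj, lp_fourier_sub, lp_fourier_sub, lp_fourier_dil hj1,
          lp_fourier_dil hj, lp_fourier_dil (by norm_num : (0 : ℝ) < 4),
          lp_fourier_dil (by norm_num : (0 : ℝ) < 1 / 2)]
        set η : E n := ((2 : ℝ) ^ j)⁻¹ • ξ with hη
        have h2 : ((2 : ℝ) ^ (j + 1))⁻¹ • ξ = (2 : ℝ)⁻¹ • η := by
          rw [hη, smul_smul]
          congr 1
          rw [pow_succ]
          field_simp
        rw [h2]
        rcases lt_or_ge ‖η‖ a with h3 | h3
        · rw [hone η h3, hone ((2 : ℝ)⁻¹ • η), sub_self, zero_mul]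
          rw [norm_smul, Real.norm_of_nonneg (by norm_num)]
          have := norm_nonneg η
          linarith
        · rcases lt_or_ge ‖η‖ (4 * a) with h4 | h4
          · rw [hone ((4 : ℝ)⁻¹ • η), hzero ((1 / 2 : ℝ)⁻¹ • η), sub_zero, mul_one]
            · rw [norm_smul, Real.norm_of_nonneg (by norm_num)]
              norm_num
              linarith
            · rw [norm_smul, Real.norm_of_nonneg (by norm_num)]
              linarith
          · rw [hzero ((2 : ℝ)⁻¹ • η), hzero η, sub_self, zero_mul]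
            · linarith
            · rw [norm_smul, Real.norm_of_nonneg (by norm_num)]
              linarith

end MP6db0a9
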