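import Pool.Agent.Lib_MP_6db0a9_an.Dist
import Pool.Agent.Lib_MP_6db0a9_an.Approx
import Pool.Agent.Lib_MP_6db0a9_an.LP
import Pool.Agent.Lib_MP_6db0a9_an.Kern
import Pool.Agent.Lib_MP_6db0a9_an.Agree

/-!
# MP_6db0a9_an: pointwise bound of `φ_j * u` by the maximal functions
-/

open MeasureTheory SchwartzMap Set Filter Topology
open scoped ENNReal NNReal FourierTransform LineDeriv ContDiff

namespace MP6db0a9

variable {n : ℕ}

theorem pb_mom_refl {L : ℕ} {b : 𝓢(E n, ℂ)} (hb : Mom0 L b) : Mom0 L (reflS b) := by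
  intro i hi T
  rw [← integral_neg_eq_self]
  have h1 : ∀ w : E n, reflS b (-w) * T (fun _ => -w) = (-1) ^ i * (b w * T (fun _ => w)) := by
    intro w
    have h2 := T.toMultilinearMap.map_smul_univ (fun _ => (-1 : ℝ)) (fun _ => w)
    simp only [neg_smul, one_smul, Finset.prod_const, Finset.card_univ, Fintype.card_fin] at h2
    have h3 : T (fun _ => -w) = (-1 : ℝ) ^ i • T (fun _ => w) := h2
    rw [reflS_apply, neg_neg, h3, Complex.real_smul]
    push_cast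
    ring
  simp only [h1]
  rw [integral_const_mul, hb i hi T, mul_zero]

theorem pb_fam_refl (a0 a1 : 𝓢(E n, ℂ)) (j : ℕ) :
    fam (reflS a0) (reflS a1) j = reflS (fam a0 a1 j) := by
  cases j with
  | zero => rfl
  | succ j => exact (agree_reflS_dilS (by positivity) _).symm

theorem pb_SmB_one : SmB (fun _ : E n => (1 : ℂ)) := by
  refine ⟨contDiff_const, fun k => ?_⟩
  cases k with
  | zero => exact ⟨1, fun x => by simp⟩
  | succ k =>
    refine ⟨0, fun x => ?_⟩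
    rw [iteratedFDeriv_const_of_ne (Nat.succ_ne_zero k)]
    simp

theorem pb_le_pet (L0 : 𝓢(E n, ℂ)) (N : ℕ) (u : 𝓢'(E n, ℂ)) (l : ℕ) (y z : E n) :
    ‖cv u (lam L0 l) z‖ₑ ≤ pet L0 N u l y * ENNReal.ofReal ((1 + 2 ^ l * ‖y - z‖) ^ N) := by
  have h1 : 0 < (1 + 2 ^ l * ‖y - z‖) ^ N := by positivity
  have h2 : ‖cv u (lam L0 l) z‖ₑ / ENNReal.ofReal ((1 + 2 ^ l * ‖y - z‖) ^ N) ≤
      pet L0 N u l y :=
    le_iSup (fun z : E n => ‖cv u (lam L0 l) z‖ₑ /
      ENNReal.ofReal ((1 + 2 ^ l * ‖y - z‖) ^ N)) z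
  rwa [ENNReal.div_le_iff (ENNReal.ofReal_pos.2 h1).ne' ENNReal.ofReal_ne_top] at h2

theorem pointwise_bound {a : ℝ} {L0 : 𝓢(E n, ℂ)} (h : IsLP a L0) (N : ℕ) (M : ℝ) :
    ∃ L : ℕ, ∀ η0 η1 : 𝓢(E n, ℂ), Mom0 L η1 → ∃ C : ℝ≥0, ∀ (u : 𝓢'(E n, ℂ)) (j : ℕ) (y : E n),
      ‖cv u (fam η0 η1 j) y‖ₑ ≤ C * mix M (fun l => pet L0 N u l) j y := by
  obtain ⟨hint, L1, Λ0, Λ1, hmom, hlam, hrep⟩ := lp_facts h
  refine ⟨⌈2 * (N : ℝ) + M⌉₊, fun η0 η1 hη1 => ?_⟩
  set L : ℕ := ⌈2 * (N : ℝ) + M⌉₊ with hL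
  have hLM : 2 * (N : ℝ) + M ≤ L := Nat.le_ceil _
  obtain ⟨C, hC⟩ := kern_int L N (reflS η0) (reflS η1) Λ0 Λ1 (pb_mom_refl hη1) (hmom L).2
    (fun _ => 1) pb_SmB_one
  refine ⟨C, fun u j y => ?_⟩
  set η : 𝓢(E n, ℂ) := fam η0 η1 j with hη
  -- the terms
  have hterm : ∀ l : ℕ, ‖cv u (sconv (lam L0 l) η) y‖ₑ ≤ C * (dec M j l * pet L0 N u l y) := by
    intro l
    have e1 : sconv (lam L0 l) η = sconv (lam L0 l) (sconv (fam Λ0 Λ1 l) η) := by
      rw [← agree_sconv_assoc, hrep]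
    rw [e1, cv_sconv]
    refine (enorm_integral_le_lintegral_enorm _).trans ?_
    have e2 : ∀ z : E n, sconv (fam Λ0 Λ1 l) η z =
        ∫ t, fam (reflS η0) (reflS η1) j (t - z) * ((fun _ : E n => (1 : ℂ)) t *
          fam Λ0 Λ1 l (t - 0)) := by
      intro z
      rw [agree_sconv_apply]
      refine integral_congr_ae (Eventually.of_forall fun t => ?_)
      simp only [pb_fam_refl, reflS_apply, one_mul, sub_zero, neg_sub, mul_comm]
      rfl
    have e3 : ∀ z : E n, ‖cv u (lam L0 l) (y - z) * sconv (fam Λ0 Λ1 l) η z‖ₑ ≤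
        pet L0 N u l y * (‖∫ t, fam (reflS η0) (reflS η1) j (t - z) *
          ((fun _ : E n => (1 : ℂ)) t * fam Λ0 Λ1 l (t - 0))‖ₑ *
          ENNReal.ofReal ((1 + 2 ^ l * ‖(0 : E n) - z‖) ^ N)) := by
      intro z
      rw [enorm_mul, e2]
      have e4 := pb_le_pet L0 N u l y (y - z)
      rw [sub_sub_cancel] at e4
      rw [zero_sub, norm_neg]
      calc _ ≤ pet L0 N u l y * ENNReal.ofReal ((1 + 2 ^ l * ‖z‖) ^ N) * _ :=
            mul_le_mul_left e4 _
        _ = _ := by ring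
    refine (lintegral_mono e3).trans ?_
    have e5 := hC j l l 0
    have e6 : Continuous fun z : E n => ∫ t, fam (reflS η0) (reflS η1) j (t - z) *
          ((fun _ : E n => (1 : ℂ)) t * fam Λ0 Λ1 l (t - 0)) := by
      have : (fun z : E n => ∫ t, fam (reflS η0) (reflS η1) j (t - z) *
          ((fun _ : E n => (1 : ℂ)) t * fam Λ0 Λ1 l (t - 0))) = sconv (fam Λ0 Λ1 l) η :=
        funext fun z => (e2 z).symm
      rw [this]
      exact (sconv (fam Λ0 Λ1 l) η).continuous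
    rw [lintegral_const_mul]
    · refine (mul_le_mul_right e5 _).trans ?_
      have e7 : dec ((L : ℝ) - N) j l * ENNReal.ofReal ((2 : ℝ) ^ (N * |(l : ℝ) - j|)) ≤
          dec M j l := by
        rw [dec, dec, ← ENNReal.ofReal_mul (by positivity), ← Real.rpow_add two_pos]
        refine ENNReal.ofReal_le_ofReal (Real.rpow_le_rpow_of_exponent_le one_le_two ?_)
        rw [abs_sub_comm (l : ℝ) j]
        have := mul_le_mul_of_nonneg_left hLM (abs_nonneg ((j : ℝ) - l))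
        linarith
      calc _ = C * pet L0 N u l y *
            (dec ((L : ℝ) - N) j l * ENNReal.ofReal ((2 : ℝ) ^ (N * |(l : ℝ) - j|))) := by ring
        _ ≤ C * pet L0 N u l y * dec M j l := mul_le_mul_right e7 _
        _ = _ := by ring
    · exact (e6.enorm.measurable).mul (by fun_prop)
  -- the limit
  have hcont : Continuous fun φ : 𝓢(E n, ℂ) => cv u φ y :=
    u.continuous.comp (shiftS y).continuous
  have hlim : Tendsto (fun J : ℕ => ‖cv u (sconv (dilS (2 ^ J) L0) η) y‖ₑ) atTop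
      (𝓝 ‖cv u η y‖ₑ) :=
    (((hcont.tendsto η).comp (tendsto_sconv_dil L0 η hint))).enorm
  refine le_of_tendsto' hlim fun J => ?_
  have f1 : cv u (sconv (dilS (2 ^ J) L0) η) y =
      ∑ l ∈ Finset.range (J + 1), cv u (sconv (lam L0 l) η) y := by
    rw [← lam_sum, agree_sconv_sum]
    simp only [cv, map_sum]
  rw [f1]
  calc ‖∑ l ∈ Finset.range (J + 1), cv u (sconv (lam L0 l) η) y‖ₑ
      ≤ ∑ l ∈ Finset.range (J + 1), ‖cv u (sconv (lam L0 l) η) y‖ₑ := enorm_sum_le _ _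
    _ ≤ ∑ l ∈ Finset.range (J + 1), C * (dec M j l * pet L0 N u l y) :=
        Finset.sum_le_sum fun l _ => hterm l
    _ ≤ ∑' l, C * (dec M j l * pet L0 N u l y) := ENNReal.sum_le_tsum _
    _ = _ := by rw [ENNReal.tsum_mul_left, mix]

end MP6db0a9
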