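import Pool.Agent.Lib_MP_6db0a9_an.Defs

/-!
# MP_6db0a9_an: quasi-triangle inequality and mixing of scales for the sequence quasi-norms
-/

open MeasureTheory SchwartzMap Set Filter Topology
open scoped ENNReal NNReal FourierTransform LineDeriv ContDiff

namespace MP6db0a9

variable {n : ℕ}

/-- Monotonicity. -/
theorem seqNorm_mono (A : Scale) {p q : ℝ≥0∞} {τ : ℝ} {b c : ℕ → E n → ℝ≥0∞}
    (h : ∀ l x, b l x ≤ c l x) : seqNorm A p q τ b ≤ seqNorm A p q τ c := by
  cases A with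
  | B =>
    refine iSup_mono fun J => iSup_mono fun v => mul_le_mul_right ?_ _
    refine eLpNorm_mono_enorm fun j => ?_
    exact eLpNorm_mono_enorm fun x => h j x
  | F =>
    refine iSup_mono fun J => iSup_mono fun v => mul_le_mul_right ?_ _
    refine eLpNorm_mono_enorm fun x => ?_
    exact eLpNorm_mono_enorm fun j => h j x
  | N =>
    refine eLpNorm_mono_enorm fun j => ?_
    refine iSup_mono fun J => iSup_mono fun v => mul_le_mul_right ?_ _
    exact eLpNorm_mono_enorm fun x => h j x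

section general

variable {α : Type*} [MeasurableSpace α] {μ : Measure α}

theorem eLpNorm_const_mul_le (p : ℝ≥0∞) (c : ℝ≥0) (f : α → ℝ≥0∞) :
    eLpNorm (fun x => c * f x) p μ ≤ c * eLpNorm f p μ := by
  by_cases hp : p = 0
  · simp [hp]
  by_cases hp' : p = ⊤
  · subst hp'
    simp only [eLpNorm_exponent_top, eLpNormEssSup, enorm_eq_self]
    rw [ENNReal.essSup_const_mul]
  · rw [eLpNorm_eq_lintegral_rpow_enorm_toReal hp hp', eLpNorm_eq_lintegral_rpow_enorm_toReal hp hp']
    have hpos : 0 < p.toReal := ENNReal.toReal_pos hp hp'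
    simp only [enorm_eq_self]
    have : ∀ x, ((c : ℝ≥0∞) * f x) ^ p.toReal = (c : ℝ≥0∞) ^ p.toReal * f x ^ p.toReal :=
      fun x => ENNReal.mul_rpow_of_nonneg _ _ hpos.le
    simp only [this]
    rw [lintegral_const_mul' _ _ (by finiteness), ENNReal.mul_rpow_of_nonneg _ _ (by positivity),
      ← ENNReal.rpow_mul]
    rw [mul_one_div_cancel hpos.ne', ENNReal.rpow_one]

theorem tsum_rpow_le {ι : Type*} {r : ℝ} (h0 : 0 < r) (h1 : r ≤ 1) (f : ι → ℝ≥0∞) :
    (∑' i, f i) ^ r ≤ ∑' i, f i ^ r := by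
  have hfin : ∀ s : Finset ι, (∑ i ∈ s, f i) ^ r ≤ ∑ i ∈ s, f i ^ r := by
    classical
    intro s
    induction s using Finset.induction_on with
    | empty => simp [ENNReal.zero_rpow_of_pos h0]
    | insert a s ha ih =>
      rw [Finset.sum_insert ha, Finset.sum_insert ha]
      exact (ENNReal.rpow_add_le_add_rpow _ _ h0.le h1).trans (by gcongr)
  rw [ENNReal.tsum_eq_iSup_sum (f := f)]
  rw [show (⨆ s : Finset ι, ∑ i ∈ s, f i) ^ r = ⨆ s : Finset ι, (∑ i ∈ s, f i) ^ r from
    (ENNReal.orderIsoRpow r h0).map_iSup _]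
  exact iSup_le fun s => (hfin s).trans (ENNReal.sum_le_tsum s)

/-- Countable Minkowski inequality. -/
theorem eLpNorm_tsum_le' {ι : Type*} [Countable ι] {P : ℝ≥0∞} (hP : 1 ≤ P)
    (f : ι → α → ℝ≥0∞) (hf : ∀ i, AEMeasurable (f i) μ) :
    eLpNorm (fun x => ∑' i, f i x) P μ ≤ ∑' i, eLpNorm (f i) P μ := by
  by_cases hp' : P = ⊤
  · subst hp'
    simp only [eLpNorm_exponent_top, eLpNormEssSup, enorm_eq_self]
    refine essSup_le_of_ae_le _ ?_
    have : ∀ᵐ x ∂μ, ∀ i, f i x ≤ essSup (f i) μ := ae_all_iff.2 fun i => ae_le_essSup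
    filter_upwards [this] with x hx
    exact ENNReal.tsum_le_tsum hx
  · have hp0 : P ≠ 0 := (zero_lt_one.trans_le hP).ne'
    have hpos : 0 < P.toReal := ENNReal.toReal_pos hp0 hp'
    rw [eLpNorm_eq_lintegral_rpow_enorm_toReal hp0 hp']
    simp only [enorm_eq_self]
    have hfin : ∀ s : Finset ι, (∫⁻ x, (∑ i ∈ s, f i x) ^ P.toReal ∂μ) ^ (1 / P.toReal) ≤
        ∑' i, eLpNorm (f i) P μ := by
      intro s
      have h1 := eLpNorm_sum_le (μ := μ) (s := s) (f := f) (p := P)
        (fun i _ => (hf i).aestronglyMeasurable) hP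
      refine le_trans (le_of_eq ?_) (h1.trans (ENNReal.sum_le_tsum s))
      rw [eLpNorm_eq_lintegral_rpow_enorm_toReal hp0 hp']
      simp only [enorm_eq_self, Finset.sum_apply]
    have hsup : ∫⁻ x, (∑' i, f i x) ^ P.toReal ∂μ =
        ⨆ s : Finset ι, ∫⁻ x, (∑ i ∈ s, f i x) ^ P.toReal ∂μ := by
      rw [← lintegral_iSup_directed]
      · refine lintegral_congr fun x => ?_
        rw [ENNReal.tsum_eq_iSup_sum]
        exact (ENNReal.orderIsoRpow P.toReal hpos).map_iSup _
      · intro s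
        exact (Finset.aemeasurable_fun_sum s fun i _ => hf i).pow_const _
      · refine Monotone.directed_le ?_
        intro s t hst x
        exact ENNReal.rpow_le_rpow (Finset.sum_le_sum_of_subset hst) hpos.le
    rw [hsup, show (⨆ s : Finset ι, ∫⁻ x, (∑ i ∈ s, f i x) ^ P.toReal ∂μ) ^ (1 / P.toReal) =
      ⨆ s : Finset ι, (∫⁻ x, (∑ i ∈ s, f i x) ^ P.toReal ∂μ) ^ (1 / P.toReal) from
      (ENNReal.orderIsoRpow (1 / P.toReal) (by positivity)).map_iSup _]
    exact iSup_le hfin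

/-- Countable `r`-subadditivity. -/
theorem eLpNorm_rpow_le {ι : Type*} [Countable ι] {p : ℝ≥0∞} {r : ℝ} (hr : 0 < r)
    (hrp : ENNReal.ofReal r ≤ p) (h : α → ℝ≥0∞) (f : ι → α → ℝ≥0∞)
    (hf : ∀ i, AEMeasurable (f i) μ) (hh : ∀ x, h x ^ r ≤ ∑' i, f i x ^ r) :
    eLpNorm h p μ ^ r ≤ ∑' i, eLpNorm (f i) p μ ^ r := by
  have hr0 : ENNReal.ofReal r ≠ 0 := by simpa using hr
  have hP : (p / ENNReal.ofReal r) * ENNReal.ofReal r = p :=
    ENNReal.div_mul_cancel hr0 ENNReal.ofReal_ne_top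
  have key : ∀ g : α → ℝ≥0∞, eLpNorm g p μ ^ r =
      eLpNorm (fun x => g x ^ r) (p / ENNReal.ofReal r) μ := by
    intro g
    have := eLpNorm_enorm_rpow (μ := μ) (p := p / ENNReal.ofReal r) g hr
    rw [hP] at this
    rw [← this]
    rfl
  simp only [key]
  refine (eLpNorm_mono_enorm (g := fun x => ∑' i, f i x ^ r) (fun x => hh x)).trans ?_
  refine eLpNorm_tsum_le' ?_ (fun i x => f i x ^ r) fun i => (hf i).pow_const _
  rw [ENNReal.le_div_iff_mul_le (Or.inl hr0) (Or.inl ENNReal.ofReal_ne_top), one_mul]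
  exact hrp

end general

/-- Homogeneity. -/
theorem seqNorm_const_mul (A : Scale) {p q : ℝ≥0∞} {τ : ℝ} (c : ℝ≥0) (b : ℕ → E n → ℝ≥0∞) :
    seqNorm A p q τ (fun l x => c * b l x) ≤ c * seqNorm A p q τ b := by
  cases A with
  | B =>
    refine iSup_le fun J => iSup_le fun v => ?_
    have h1 : eLpNorm (fun j : ℕ => eLpNorm (fun x => c * b j x) p (volume.restrict (cube J v))) q
        (Measure.count.restrict {j : ℕ | J ≤ (j : ℤ)}) ≤ c * eLpNorm (fun j : ℕ =>
          eLpNorm (b j) p (volume.restrict (cube J v))) q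
          (Measure.count.restrict {j : ℕ | J ≤ (j : ℤ)}) :=
      (eLpNorm_mono_enorm fun j => eLpNorm_const_mul_le p c (b j)).trans
        (eLpNorm_const_mul_le q c _)
    refine (mul_le_mul_right h1 _).trans ?_
    rw [mul_left_comm]
    refine mul_le_mul_right ?_ _
    exact le_iSup₂ (f := fun J v => wt n τ J * eLpNorm (fun j : ℕ =>
          eLpNorm (b j) p (volume.restrict (cube J v))) q
          (Measure.count.restrict {j : ℕ | J ≤ (j : ℤ)})) J v
  | F =>
    refine iSup_le fun J => iSup_le fun v => ?_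
    have h1 : eLpNorm (fun x : E n => eLpNorm (fun j : ℕ => c * b j x) q
        (Measure.count.restrict {j : ℕ | J ≤ (j : ℤ)})) p (volume.restrict (cube J v)) ≤
        c * eLpNorm (fun x : E n => eLpNorm (fun j : ℕ => b j x) q
        (Measure.count.restrict {j : ℕ | J ≤ (j : ℤ)})) p (volume.restrict (cube J v)) :=
      (eLpNorm_mono_enorm fun x => eLpNorm_const_mul_le q c _).trans
        (eLpNorm_const_mul_le p c _)
    refine (mul_le_mul_right h1 _).trans ?_
    rw [mul_left_comm]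
    refine mul_le_mul_right ?_ _
    exact le_iSup₂ (f := fun J v => wt n τ J * eLpNorm (fun x : E n => eLpNorm (fun j : ℕ => b j x) q
        (Measure.count.restrict {j : ℕ | J ≤ (j : ℤ)})) p (volume.restrict (cube J v))) J v
  | N =>
    refine le_trans ?_ (eLpNorm_const_mul_le q c _)
    refine eLpNorm_mono_enorm fun j => ?_
    simp only [enorm_eq_self]
    refine iSup_le fun J => iSup_le fun v => ?_
    refine (mul_le_mul_right (eLpNorm_const_mul_le p c (b j)) _).trans ?_
    rw [mul_left_comm]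
    refine mul_le_mul_right ?_ _
    exact le_iSup₂ (f := fun J v => wt n τ J * eLpNorm (b j) p (volume.restrict (cube J v))) J v

theorem measurable_eLpNorm_seq (q : ℝ≥0∞) (S : Set ℕ) (b : ℕ → E n → ℝ≥0∞)
    (hb : ∀ l, Measurable (b l)) :
    Measurable fun x : E n => eLpNorm (fun j : ℕ => b j x) q (Measure.count.restrict S) := by
  by_cases hq : q = 0
  · simp only [hq, eLpNorm_exponent_zero]
    exact measurable_const
  by_cases hq' : q = ⊤
  · subst hq'
    have : (fun x : E n => eLpNorm (fun j : ℕ => b j x) ⊤ (Measure.count.restrict S)) =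
        fun x => ⨆ j : ℕ, S.indicator (fun j => b j x) j := by
      funext x
      rw [← eLpNorm_indicator_eq_eLpNorm_restrict (MeasurableSet.of_discrete), eLpNorm_exponent_top,
        eLpNormEssSup_count]
      rfl
    rw [this]
    refine Measurable.iSup fun j => ?_
    by_cases hj : j ∈ S
    · simp only [indicator_of_mem hj]; exact hb j
    · simp only [indicator_of_notMem hj]; exact measurable_const
  · have : (fun x : E n => eLpNorm (fun j : ℕ => b j x) q (Measure.count.restrict S)) =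
        fun x => (∑' j : ℕ, S.indicator (fun j => b j x ^ q.toReal) j) ^ (1 / q.toReal) := by
      funext x
      rw [eLpNorm_eq_lintegral_rpow_enorm_toReal hq hq', ← lintegral_indicator
        (MeasurableSet.of_discrete), lintegral_count]
      rfl
    rw [this]
    refine Measurable.pow_const ?_ _
    refine Measurable.tsum fun j => ?_
    by_cases hj : j ∈ S
    · simp only [indicator_of_mem hj]; exact (hb j).pow_const _
    · simp only [indicator_of_notMem hj]; exact measurable_const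

/-- Countable `r`-subadditivity of the sequence quasi-norms. -/
theorem seqNorm_rpow_le (A : Scale) {ι : Type*} [Countable ι] {p q : ℝ≥0∞} {τ r : ℝ} (hr : 0 < r)
    (hrp : ENNReal.ofReal r ≤ p) (hrq : ENNReal.ofReal r ≤ q) (h : ℕ → E n → ℝ≥0∞)
    (f : ι → ℕ → E n → ℝ≥0∞) (hf : ∀ i l, Measurable (f i l))
    (hh : ∀ j x, h j x ^ r ≤ ∑' i, f i j x ^ r) :
    seqNorm A p q τ h ^ r ≤ ∑' i, seqNorm A p q τ (f i) ^ r := by
  have hpow : ∀ {κ : Type} (g : κ → ℝ≥0∞), (⨆ k, g k) ^ r = ⨆ k, g k ^ r := fun g =>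
    (ENNReal.orderIsoRpow r hr).map_iSup g
  have hmulr : ∀ a b : ℝ≥0∞, (a * b) ^ r = a ^ r * b ^ r := fun a b =>
    ENNReal.mul_rpow_of_nonneg _ _ hr.le
  cases A with
  | B =>
    simp only [seqNorm]
    rw [hpow]
    refine iSup_le fun J => ?_
    rw [hpow]
    refine iSup_le fun v => ?_
    have h1 := eLpNorm_rpow_le (μ := Measure.count.restrict {j : ℕ | J ≤ (j : ℤ)}) hr hrq
      (fun j : ℕ => eLpNorm (h j) p (volume.restrict (cube J v)))
      (fun i j => eLpNorm (f i j) p (volume.restrict (cube J v)))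
      (fun i => (measurable_of_countable _).aemeasurable)
      (fun j => eLpNorm_rpow_le hr hrp (h j) (fun i => f i j) (fun i => (hf i j).aemeasurable)
        (hh j))
    rw [hmulr]
    refine (mul_le_mul_right h1 _).trans ?_
    rw [← ENNReal.tsum_mul_left]
    refine ENNReal.tsum_le_tsum fun i => ?_
    rw [← hmulr]
    refine ENNReal.rpow_le_rpow ?_ hr.le
    exact le_iSup₂ (f := fun J v => wt n τ J * eLpNorm (fun j : ℕ =>
          eLpNorm (f i j) p (volume.restrict (cube J v))) q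
          (Measure.count.restrict {j : ℕ | J ≤ (j : ℤ)})) J v
  | F =>
    simp only [seqNorm]
    rw [hpow]
    refine iSup_le fun J => ?_
    rw [hpow]
    refine iSup_le fun v => ?_
    have h1 := eLpNorm_rpow_le (μ := volume.restrict (cube J v)) hr hrp
      (fun x : E n => eLpNorm (fun j : ℕ => h j x) q (Measure.count.restrict {j : ℕ | J ≤ (j : ℤ)}))
      (fun i x => eLpNorm (fun j : ℕ => f i j x) q (Measure.count.restrict {j : ℕ | J ≤ (j : ℤ)}))
      (fun i => (measurable_eLpNorm_seq _ _ _ (hf i)).aemeasurable)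
      (fun x => eLpNorm_rpow_le hr hrq (fun j => h j x) (fun i j => f i j x)
        (fun i => (measurable_of_countable _).aemeasurable) (fun j => hh j x))
    rw [hmulr]
    refine (mul_le_mul_right h1 _).trans ?_
    rw [← ENNReal.tsum_mul_left]
    refine ENNReal.tsum_le_tsum fun i => ?_
    rw [← hmulr]
    refine ENNReal.rpow_le_rpow ?_ hr.le
    exact le_iSup₂ (f := fun J v => wt n τ J * eLpNorm (fun x : E n =>
      eLpNorm (fun j : ℕ => f i j x) q
        (Measure.count.restrict {j : ℕ | J ≤ (j : ℤ)})) p (volume.restrict (cube J v))) J v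
  | N =>
    simp only [seqNorm]
    refine eLpNorm_rpow_le hr hrq _ _ (fun i => (measurable_of_countable _).aemeasurable) ?_
    intro j
    rw [hpow]
    refine iSup_le fun J => ?_
    rw [hpow]
    refine iSup_le fun v => ?_
    rw [hmulr]
    refine (mul_le_mul_right (eLpNorm_rpow_le hr hrp (h j) (fun i => f i j)
      (fun i => (hf i j).aemeasurable) (hh j)) _).trans ?_
    rw [← ENNReal.tsum_mul_left]
    refine ENNReal.tsum_le_tsum fun i => ?_
    rw [← hmulr]
    refine ENNReal.rpow_le_rpow ?_ hr.le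
    exact le_iSup₂ (f := fun J v => wt n τ J * eLpNorm (f i j) p (volume.restrict (cube J v))) J v

/-- A common exponent. -/
theorem exists_exponent {p q : ℝ≥0∞} (hp : 0 < p) (hq : 0 < q) :
    ∃ r : ℝ, 0 < r ∧ r ≤ 1 ∧ ENNReal.ofReal r ≤ p ∧ ENNReal.ofReal r ≤ q := by
  have hne : min 1 (min p q) ≠ ⊤ := (min_le_left _ _).trans_lt (by simp) |>.ne
  have hpos : 0 < min 1 (min p q) := lt_min (by simp) (lt_min hp hq)
  refine ⟨(min 1 (min p q)).toReal, ENNReal.toReal_pos hpos.ne' hne, ?_, ?_, ?_⟩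
  · have := ENNReal.toReal_mono (by simp) (min_le_left (1 : ℝ≥0∞) (min p q))
    simpa using this
  · rw [ENNReal.ofReal_toReal hne]
    exact (min_le_right _ _).trans (min_le_left _ _)
  · rw [ENNReal.ofReal_toReal hne]
    exact (min_le_right _ _).trans (min_le_right _ _)

/-- Quasi-triangle inequality for finite sums. -/
theorem seqNorm_sum_le (A : Scale) {p q : ℝ≥0∞} {τ : ℝ} (hp : 0 < p) (hq : 0 < q) (N : ℕ) :
    ∃ C : ℝ≥0, ∀ b : Fin N → ℕ → E n → ℝ≥0∞, (∀ i l, Measurable (b i l)) →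
      seqNorm A p q τ (fun j x => ∑ i, b i j x) ≤ C * ∑ i, seqNorm A p q τ (b i) := by
  obtain ⟨r, hr, hr1, hrp, hrq⟩ := exists_exponent hp hq
  refine ⟨(N : ℝ≥0) ^ (1 / r), fun b hb => ?_⟩
  have h1 := seqNorm_rpow_le A (τ := τ) hr hrp hrq (fun j x => ∑ i, b i j x) b hb (by
    intro j x
    have := tsum_rpow_le hr hr1 (fun i => b i j x)
    rwa [tsum_fintype] at this)
  have h2 : ∑' i, seqNorm A p q τ (b i) ^ r ≤
      (N : ℝ≥0∞) * (∑ i, seqNorm A p q τ (b i)) ^ r := by
    rw [tsum_fintype]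
    calc ∑ i, seqNorm A p q τ (b i) ^ r ≤ ∑ _i : Fin N, (∑ i, seqNorm A p q τ (b i)) ^ r := by
          refine Finset.sum_le_sum fun i _ => ?_
          refine ENNReal.rpow_le_rpow ?_ hr.le
          exact Finset.single_le_sum (f := fun i => seqNorm A p q τ (b i)) (fun _ _ => zero_le)
            (Finset.mem_univ i)
      _ = (N : ℝ≥0∞) * (∑ i, seqNorm A p q τ (b i)) ^ r := by
          simp
  have h3 := ENNReal.rpow_le_rpow (h1.trans h2) (z := 1 / r) (by positivity)
  rw [← ENNReal.rpow_mul, mul_one_div_cancel hr.ne', ENNReal.rpow_one,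
    ENNReal.mul_rpow_of_nonneg _ _ (by positivity), ← ENNReal.rpow_mul,
    mul_one_div_cancel hr.ne', ENNReal.rpow_one] at h3
  refine h3.trans (le_of_eq ?_)
  congr 1
  rw [ENNReal.coe_rpow_of_nonneg _ (by positivity)]
  simp

/-- Shift of the scales. -/
noncomputable def sh (i : ℤ) (b : ℕ → E n → ℝ≥0∞) (k : ℕ) (x : E n) : ℝ≥0∞ :=
  if 0 ≤ (k : ℤ) + i then b ((k : ℤ) + i).toNat x else 0

theorem sh_measurable (i : ℤ) (b : ℕ → E n → ℝ≥0∞) (hb : ∀ l, Measurable (b l)) (k : ℕ) :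
    Measurable (sh i b k) := by
  unfold sh
  by_cases h : 0 ≤ (k : ℤ) + i
  · simp only [h, if_true]; exact hb _
  · simp only [h, if_false]; exact measurable_const

theorem idx_le {q : ℝ≥0∞} {S T : Set ℕ} (f a : ℕ → ℝ≥0∞) (i : ℤ)
    (h1 : ∀ k ∈ S, 0 ≤ (k : ℤ) + i → ((k : ℤ) + i).toNat ∈ T ∧ f k ≤ a ((k : ℤ) + i).toNat)
    (h0 : ∀ k ∈ S, (k : ℤ) + i < 0 → f k = 0) :
    eLpNorm f q (Measure.count.restrict S) ≤ eLpNorm a q (Measure.count.restrict T) := by
  set φ : ℕ → ℕ := fun k => ((k : ℤ) + i).toNat with hφ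
  set S' : Set ℕ := {k | k ∈ S ∧ 0 ≤ (k : ℤ) + i} with hS'
  have e1 : eLpNorm f q (Measure.count.restrict S) ≤
      eLpNorm (a ∘ φ) q (Measure.count.restrict S') := by
    rw [← eLpNorm_indicator_eq_eLpNorm_restrict (MeasurableSet.of_discrete (s := S)),
      ← eLpNorm_indicator_eq_eLpNorm_restrict (MeasurableSet.of_discrete (s := S'))]
    refine eLpNorm_mono_enorm fun k => ?_
    simp only [enorm_eq_self]
    by_cases hk : k ∈ S
    · rw [indicator_of_mem hk]
      by_cases hk' : 0 ≤ (k : ℤ) + i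
      · rw [indicator_of_mem (show k ∈ S' from ⟨hk, hk'⟩)]
        exact (h1 k hk hk').2
      · rw [h0 k hk (by omega)]
        exact zero_le
    · rw [indicator_of_notMem hk]
      exact zero_le
  refine e1.trans ?_
  rw [← eLpNorm_map_measure (measurable_of_countable a).aestronglyMeasurable
    (measurable_of_countable φ).aemeasurable]
  refine eLpNorm_mono_measure _ ?_
  refine Measure.le_iff.2 fun U hU => ?_
  rw [Measure.map_apply (measurable_of_countable φ) hU, Measure.restrict_apply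
    (MeasurableSet.of_discrete), Measure.restrict_apply hU, Measure.count_apply
    (MeasurableSet.of_discrete), Measure.count_apply (MeasurableSet.of_discrete)]
  refine ENat.toENNReal_le.2 ?_
  refine Set.encard_le_encard_of_injOn (f := φ) ?_ ?_
  · rintro k ⟨hk, hk1, hk2⟩
    exact ⟨hk, (h1 k hk1 hk2).1⟩
  · rintro k ⟨_, _, hk2⟩ l ⟨_, _, hl2⟩ hkl
    simp only [hφ] at hkl
    omega

theorem cube_sub (J : ℤ) (m : ℕ) (v : Fin n → ℤ) :
    cube J v ⊆ cube (J - m) (fun i => v i / 2 ^ m) := by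
  intro x hx i
  obtain ⟨h1, h2⟩ := hx i
  have hp : (0 : ℝ) < (2 : ℝ) ^ (-J) := by positivity
  have e : (2 : ℝ) ^ (-(J - (m : ℤ))) = (2 : ℝ) ^ (-J) * 2 ^ m := by
    rw [neg_sub, sub_eq_add_neg, zpow_add₀ (by norm_num), zpow_natCast]
    ring
  have hm : (0 : ℤ) < 2 ^ m := by positivity
  have h3 : (2 : ℤ) ^ m * (v i / 2 ^ m) ≤ v i := Int.mul_ediv_self_le hm.ne'
  have h4 : v i + 1 ≤ (2 : ℤ) ^ m * (v i / 2 ^ m + 1) := by
    have := Int.lt_mul_ediv_self_add hm (x := v i)
    linarith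
  have h3' : (2 : ℝ) ^ m * ((v i / 2 ^ m : ℤ) : ℝ) ≤ v i := by exact_mod_cast h3
  have h4' : (v i : ℝ) + 1 ≤ (2 : ℝ) ^ m * (((v i / 2 ^ m : ℤ) : ℝ) + 1) := by exact_mod_cast h4
  constructor
  · rw [e]
    calc (2 : ℝ) ^ (-J) * 2 ^ m * ((v i / 2 ^ m : ℤ) : ℝ) =
          (2 : ℝ) ^ (-J) * (2 ^ m * ((v i / 2 ^ m : ℤ) : ℝ)) := by ring
      _ ≤ (2 : ℝ) ^ (-J) * v i := by gcongr
      _ < x i := h1
  · rw [e]
    calc x i < (2 : ℝ) ^ (-J) * (v i + 1) := h2
      _ ≤ (2 : ℝ) ^ (-J) * (2 ^ m * (((v i / 2 ^ m : ℤ) : ℝ) + 1)) := by gcongr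
      _ = (2 : ℝ) ^ (-J) * 2 ^ m * (((v i / 2 ^ m : ℤ) : ℝ) + 1) := by ring

theorem wt_shift (τ : ℝ) (J : ℤ) (m : ℕ) :
    wt n τ J = ENNReal.ofReal ((2 : ℝ) ^ ((n : ℝ) * m * τ)) * wt n τ (J - m) := by
  rw [wt, wt, ← ENNReal.ofReal_mul (by positivity), ← Real.rpow_add (by norm_num)]
  congr 2
  push_cast
  ring

/-- Shifts of the scales are bounded. -/
theorem seqNorm_sh (A : Scale) {p q : ℝ≥0∞} {τ : ℝ} (hτ : 0 ≤ τ) (b : ℕ → E n → ℝ≥0∞) (i : ℤ) :
    seqNorm A p q τ (sh i b) ≤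
      ENNReal.ofReal ((2 : ℝ) ^ ((n : ℝ) * |(i : ℝ)| * τ)) * seqNorm A p q τ b := by
  set m : ℕ := (-i).toNat with hm
  have hmi : (m : ℝ) ≤ |(i : ℝ)| := by
    have : (m : ℤ) ≤ |i| := by
      rcases le_total 0 i with h | h
      · rw [abs_of_nonneg h]; omega
      · rw [abs_of_nonpos h]; omega
    exact_mod_cast this
  have hfac : ENNReal.ofReal ((2 : ℝ) ^ ((n : ℝ) * m * τ)) ≤
      ENNReal.ofReal ((2 : ℝ) ^ ((n : ℝ) * |(i : ℝ)| * τ)) := by
    refine ENNReal.ofReal_le_ofReal (Real.rpow_le_rpow_of_exponent_le (by norm_num) ?_)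
    gcongr
  have hzero : ∀ k : ℕ, (k : ℤ) + i < 0 → sh i b k = 0 := by
    intro k hk
    funext x
    simp only [sh, not_le.2 hk, if_false, Pi.zero_apply]
  have hval : ∀ k : ℕ, 0 ≤ (k : ℤ) + i → sh i b k = b ((k : ℤ) + i).toNat := by
    intro k hk
    funext x
    simp only [sh, hk, if_true]
  cases A with
  | B =>
    refine iSup_le fun J => iSup_le fun v => ?_
    rw [wt_shift τ J m, mul_assoc]
    refine mul_le_mul' hfac ?_
    refine le_trans (mul_le_mul_right ?_ _) (le_iSup₂ (f := fun J v => wt n τ J *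
      eLpNorm (fun j : ℕ => eLpNorm (b j) p (volume.restrict (cube J v))) q
          (Measure.count.restrict {j : ℕ | J ≤ (j : ℤ)})) (J - m) (fun i => v i / 2 ^ m))
    refine idx_le _ _ i ?_ ?_
    · intro k hk hki
      refine ⟨?_, ?_⟩
      · have : J ≤ (k : ℤ) := hk
        change J - m ≤ (((k : ℤ) + i).toNat : ℤ)
        omega
      · rw [hval k hki]
        exact eLpNorm_mono_measure _ (Measure.restrict_mono (cube_sub J m v) le_rfl)
    · intro k _ hki
      rw [hzero k hki, eLpNorm_zero]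
  | F =>
    refine iSup_le fun J => iSup_le fun v => ?_
    rw [wt_shift τ J m, mul_assoc]
    refine mul_le_mul' hfac ?_
    refine le_trans (mul_le_mul_right ?_ _) (le_iSup₂ (f := fun J v => wt n τ J *
      eLpNorm (fun x : E n => eLpNorm (fun j : ℕ => b j x) q
        (Measure.count.restrict {j : ℕ | J ≤ (j : ℤ)})) p (volume.restrict (cube J v)))
        (J - m) (fun i => v i / 2 ^ m))
    refine le_trans (eLpNorm_mono_enorm fun x => ?_)
      (eLpNorm_mono_measure _ (Measure.restrict_mono (cube_sub J m v) le_rfl))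
    simp only [enorm_eq_self]
    refine idx_le _ _ i ?_ ?_
    · intro k hk hki
      refine ⟨?_, ?_⟩
      · have : J ≤ (k : ℤ) := hk
        change J - m ≤ (((k : ℤ) + i).toNat : ℤ)
        omega
      · rw [hval k hki]
    · intro k _ hki
      rw [hzero k hki]; rfl
  | N =>
    have h1 : (1 : ℝ≥0∞) ≤ ENNReal.ofReal ((2 : ℝ) ^ ((n : ℝ) * |(i : ℝ)| * τ)) := by
      rw [← ENNReal.ofReal_one]
      exact ENNReal.ofReal_le_ofReal (Real.one_le_rpow (by norm_num) (by positivity))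
    refine le_trans ?_ (le_mul_of_one_le_left zero_le h1)
    simp only [seqNorm]
    rw [← Measure.restrict_univ (μ := (Measure.count : Measure ℕ))]
    refine idx_le _ _ i ?_ ?_
    · intro k _ hki
      refine ⟨mem_univ _, ?_⟩
      rw [hval k hki]
    · intro k _ hki
      rw [hzero k hki]
      simp

/-- Mixing of scales is bounded for the sequence quasi-norms. -/
theorem seqNorm_mix (A : Scale) {p q : ℝ≥0∞} {τ M : ℝ} (hp : 0 < p) (hq : 0 < q) (hτ : 0 ≤ τ)
    (hM : n * τ < M) (hM0 : 0 < M) :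
    ∃ C : ℝ≥0, ∀ b : ℕ → E n → ℝ≥0∞, (∀ l, Measurable (b l)) →
      seqNorm A p q τ (mix M b) ≤ C * seqNorm A p q τ b := by
  obtain ⟨r, hr, hr1, hrp, hrq⟩ := exists_exponent hp hq
  set ρ : ℝ := (2 : ℝ) ^ (-((M - n * τ) * r)) with hρ
  have hρ0 : 0 < ρ := by positivity
  have hρ1 : ρ < 1 := by
    refine Real.rpow_lt_one_of_one_lt_of_neg (by norm_num) ?_
    have : 0 < (M - n * τ) * r := mul_pos (by linarith) hr
    linarith
  have hsum : Summable fun i : ℤ => ρ ^ i.natAbs := by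
    refine Summable.of_nat_of_neg ?_ ?_
    · simpa using summable_geometric_of_lt_one hρ0.le hρ1
    · simpa using summable_geometric_of_lt_one hρ0.le hρ1
  set K : ℝ≥0∞ := ∑' i : ℤ, ENNReal.ofReal (ρ ^ i.natAbs) with hK
  have hKtop : K ≠ ⊤ := by
    rw [hK, ← ENNReal.ofReal_tsum_of_nonneg (fun i => by positivity) hsum]
    exact ENNReal.ofReal_ne_top
  refine ⟨(K ^ (1 / r)).toNNReal, fun b hb => ?_⟩
  rw [ENNReal.coe_toNNReal (ENNReal.rpow_ne_top_of_nonneg (by positivity) hKtop)]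
  set w : ℤ → ℝ≥0 := fun i => Real.toNNReal ((2 : ℝ) ^ (-(|(i : ℝ)| * M))) with hw
  have hmix : ∀ k x, mix M b k x ≤ ∑' i : ℤ, (w i : ℝ≥0∞) * sh i b k x := by
    intro k x
    have hinj : Function.Injective fun l : ℕ => (l : ℤ) - k := by
      intro l l' h
      simpa using h
    refine le_trans (le_of_eq ?_) (ENNReal.tsum_comp_le_tsum_of_injective hinj
      fun i : ℤ => (w i : ℝ≥0∞) * sh i b k x)
    rw [mix]
    refine tsum_congr fun l => ?_
    have e1 : sh ((l : ℤ) - k) b k x = b l x := by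
      have : (k : ℤ) + ((l : ℤ) - k) = l := by ring
      simp only [sh, this]
      simp
    have e2 : dec M k l = (w ((l : ℤ) - k) : ℝ≥0∞) := by
      rw [dec, hw]
      change _ = ENNReal.ofReal _
      congr 4
      push_cast
      rw [abs_sub_comm]
    rw [e1, e2]
  have h1 := seqNorm_rpow_le A (τ := τ) hr hrp hrq (mix M b)
    (fun i l x => (w i : ℝ≥0∞) * sh i b l x)
    (fun i l => (sh_measurable i b hb l).const_mul _)
    (fun k x => (ENNReal.rpow_le_rpow (hmix k x) hr.le).trans (tsum_rpow_le hr hr1 _))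
  have h2 : ∀ i : ℤ, seqNorm A p q τ (fun l x => (w i : ℝ≥0∞) * sh i b l x) ^ r ≤
      ENNReal.ofReal (ρ ^ i.natAbs) * seqNorm A p q τ b ^ r := by
    intro i
    have h3 := (seqNorm_const_mul A (p := p) (q := q) (τ := τ) (w i) (sh i b)).trans
      (mul_le_mul_right (seqNorm_sh A hτ b i) _)
    refine (ENNReal.rpow_le_rpow h3 hr.le).trans (le_of_eq ?_)
    rw [← mul_assoc, ENNReal.mul_rpow_of_nonneg _ _ hr.le]
    congr 1
    have e3 : (w i : ℝ≥0∞) = ENNReal.ofReal ((2 : ℝ) ^ (-(|(i : ℝ)| * M))) := rfl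
    rw [e3, ← ENNReal.ofReal_mul (by positivity), ← Real.rpow_add (by norm_num),
      ENNReal.ofReal_rpow_of_pos (by positivity), ← Real.rpow_mul (by norm_num)]
    congr 1
    rw [hρ, ← Real.rpow_natCast, ← Real.rpow_mul (by norm_num)]
    congr 1
    rw [Nat.cast_natAbs, Int.cast_abs]
    ring
  have h4 : seqNorm A p q τ (mix M b) ^ r ≤ K * seqNorm A p q τ b ^ r := by
    refine h1.trans ((ENNReal.tsum_le_tsum h2).trans (le_of_eq ?_))
    rw [ENNReal.tsum_mul_right]
  have h5 := ENNReal.rpow_le_rpow h4 (z := 1 / r) (by positivity)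
  rwa [← ENNReal.rpow_mul, mul_one_div_cancel hr.ne', ENNReal.rpow_one,
    ENNReal.mul_rpow_of_nonneg _ _ (by positivity), ← ENNReal.rpow_mul,
    mul_one_div_cancel hr.ne', ENNReal.rpow_one] at h5

end MP6db0a9
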