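import Pool.Agent.Lib_MP_6db0a9_an.HL
import Pool.Agent.Lib_MP_6db0a9_an.AvLp

/-!
# MP_6db0a9_an, piece VV: the vector valued inequality for the averaging operators
-/

open MeasureTheory SchwartzMap Set Filter Topology
open scoped ENNReal NNReal FourierTransform LineDeriv ContDiff

namespace MP6db0a9

namespace VV

variable {n : ℕ}

/-- the kernel -/
noncomputable def K (M : ℝ) (l : ℕ) (x y : E n) : ℝ≥0∞ :=
  ENNReal.ofReal ((2 : ℝ) ^ (l * n) * (1 + 2 ^ l * ‖x - y‖) ^ (-M))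

theorem Av_eq (M : ℝ) (l : ℕ) (h : E n → ℝ≥0∞) (x : E n) :
    Av M l h x = ∫⁻ y, K M l x y * h y := rfl

theorem K_symm (M : ℝ) (l : ℕ) (x y : E n) : K M l x y = K M l y x := by
  unfold K
  rw [norm_sub_rev]

theorem K_cont (M : ℝ) (l : ℕ) : Continuous (fun p : E n × E n => K M l p.1 p.2) := by
  unfold K
  refine ENNReal.continuous_ofReal.comp (Continuous.mul continuous_const ?_)
  refine Continuous.rpow_const (by fun_prop) (fun p => Or.inl ?_)
  have : 0 ≤ (2 : ℝ) ^ l * ‖p.1 - p.2‖ := by positivity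
  linarith

theorem K_meas (M : ℝ) (l : ℕ) : Measurable (fun p : E n × E n => K M l p.1 p.2) :=
  (K_cont M l).measurable

theorem K_meas_right (M : ℝ) (l : ℕ) (x : E n) : Measurable (fun y : E n => K M l x y) := by
  have h1 : Continuous (fun y : E n => (x, y)) := by fun_prop
  exact ((K_cont M l).comp h1).measurable

theorem av_mono (M : ℝ) (l : ℕ) {f g : E n → ℝ≥0∞} (h : ∀ y, f y ≤ g y) (x : E n) :
    Av M l f x ≤ Av M l g x :=
  lintegral_mono fun y => mul_le_mul_right (h y) _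

theorem av_symm (M : ℝ) (l : ℕ) {f g : E n → ℝ≥0∞} (hf : Measurable f) (hg : Measurable g) :
    ∫⁻ x, Av M l f x * g x = ∫⁻ y, f y * Av M l g y := by
  have h1 : ∀ x, Av M l f x * g x = ∫⁻ y, K M l x y * f y * g x := by
    intro x
    rw [Av_eq]
    exact (lintegral_mul_const (g x) ((K_meas_right M l x).mul hf)).symm
  have h2 : ∀ y, f y * Av M l g y = ∫⁻ x, K M l x y * f y * g x := by
    intro y
    rw [Av_eq]
    refine (lintegral_const_mul (f y) ((K_meas_right M l y).mul hg)).symm.trans ?_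
    refine lintegral_congr fun x => ?_
    rw [K_symm M l x y]
    simp only [Pi.mul_apply]
    ring
  simp only [h1, h2]
  refine lintegral_lintegral_swap ?_
  refine Measurable.aemeasurable ?_
  exact ((K_meas M l).mul (hf.comp measurable_snd)).mul (hg.comp measurable_fst)

theorem av_iSup (M : ℝ) (l : ℕ) {f : ℕ → E n → ℝ≥0∞} (hf : ∀ N, Measurable (f N))
    (hmono : Monotone f) (x : E n) :
    Av M l (fun y => ⨆ N, f N y) x = ⨆ N, Av M l (f N) x := by
  simp only [Av_eq, ENNReal.mul_iSup]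
  refine lintegral_iSup (fun N => (K_meas_right M l x).mul (hf N)) ?_
  intro a b hab y
  exact mul_le_mul_right (hmono hab y) _

theorem av_jensen (M : ℝ) (l : ℕ) {Q : ℝ} (hQ : 1 < Q) {f : E n → ℝ≥0∞} (hf : Measurable f)
    (x : E n) :
    Av M l f x ^ Q ≤ Av M l (fun _ => 1) x ^ (Q - 1) * Av M l (fun y => f y ^ Q) x := by
  have hQ0 : 0 < Q := by linarith
  have hc : Q.HolderConjugate (Q / (Q - 1)) := Real.HolderConjugate.conjExponent hQ
  have hc' := hc.symm
  have h1 := ENNReal.lintegral_mul_le_Lp_mul_Lq (volume : Measure (E n)) hc'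
    (f := fun y => K M l x y ^ (1 / (Q / (Q - 1))))
    (g := fun y => K M l x y ^ (1 / Q) * f y)
    ((K_meas_right M l x).pow_const _).aemeasurable
    (((K_meas_right M l x).pow_const _).mul hf).aemeasurable
  have hQ'0 : 0 < Q / (Q - 1) := div_pos hQ0 (by linarith)
  have h2 : Av M l f x = ∫⁻ y, ((fun y => K M l x y ^ (1 / (Q / (Q - 1)))) *
      (fun y => K M l x y ^ (1 / Q) * f y)) y := by
    rw [Av_eq]
    refine lintegral_congr fun y => ?_
    simp only [Pi.mul_apply]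
    rw [← mul_assoc, ← ENNReal.rpow_add_of_nonneg _ _ (by positivity) (by positivity)]
    have : 1 / (Q / (Q - 1)) + 1 / Q = 1 := by
      have := hc'.inv_add_inv_eq_one
      rw [one_div, one_div]
      exact this
    rw [this, ENNReal.rpow_one]
  have h3 : ∀ y, (K M l x y ^ (1 / (Q / (Q - 1)))) ^ (Q / (Q - 1)) = K M l x y * 1 := by
    intro y
    rw [← ENNReal.rpow_mul, one_div, inv_mul_cancel₀ hQ'0.ne', ENNReal.rpow_one, mul_one]
  have h4 : ∀ y, (K M l x y ^ (1 / Q) * f y) ^ Q = K M l x y * f y ^ Q := by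
    intro y
    rw [ENNReal.mul_rpow_of_nonneg _ _ hQ0.le, ← ENNReal.rpow_mul, one_div,
      inv_mul_cancel₀ hQ0.ne', ENNReal.rpow_one]
  simp only [h3, h4] at h1
  rw [← h2, ← Av_eq, ← Av_eq M l (fun y => f y ^ Q)] at h1
  calc Av M l f x ^ Q ≤ (Av M l (fun _ => 1) x ^ (1 / (Q / (Q - 1))) *
        Av M l (fun y => f y ^ Q) x ^ (1 / Q)) ^ Q := ENNReal.rpow_le_rpow h1 hQ0.le
    _ = Av M l (fun _ => 1) x ^ (Q - 1) * Av M l (fun y => f y ^ Q) x := by
        rw [ENNReal.mul_rpow_of_nonneg _ _ hQ0.le, ← ENNReal.rpow_mul, ← ENNReal.rpow_mul]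
        have e1 : 1 / (Q / (Q - 1)) * Q = Q - 1 := by
          have : Q - 1 ≠ 0 := by linarith
          field_simp
        have e2 : 1 / Q * Q = 1 := by field_simp
        rw [e1, e2, ENNReal.rpow_one]

/-- absorbing -/
theorem absorb {X A : ℝ≥0∞} {s s' : ℝ} (hs : s.HolderConjugate s') (hX : X ≠ ⊤)
    (h : X ≤ A * X ^ (1 / s')) : X ≤ A ^ s := by
  have hs0 : 0 < s := hs.pos
  have hs'0 : 0 < s' := hs.symm.pos
  rcases eq_or_ne X 0 with h0 | h0
  · rw [h0]; exact zero_le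
  have h1 : X = X ^ (1 / s) * X ^ (1 / s') := by
    rw [← ENNReal.rpow_add_of_nonneg _ _ (by positivity) (by positivity)]
    have : 1 / s + 1 / s' = 1 := by
      rw [one_div, one_div]
      exact hs.inv_add_inv_eq_one
    rw [this, ENNReal.rpow_one]
  have h2 : X ^ (1 / s) ≤ A := by
    rw [h1] at h
    have h3 : (X ^ (1 / s)) * X ^ (1 / s') ≤ A * X ^ (1 / s') := by
      rw [← h1] at h ⊢
      exact h
    exact (ENNReal.mul_le_mul_iff_left (by
      simp only [ne_eq, ENNReal.rpow_eq_zero_iff, h0, false_and, false_or, hX, not_false_iff])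
      (ENNReal.rpow_ne_top_of_nonneg (by positivity) hX)).1 h3
  calc X = (X ^ (1 / s)) ^ s := by
        rw [← ENNReal.rpow_mul, one_div, inv_mul_cancel₀ hs0.ne', ENNReal.rpow_one]
    _ ≤ A ^ s := ENNReal.rpow_le_rpow h2 hs0.le

/-- the `l^Q` sum -/
noncomputable def W (Q : ℝ) (b : ℕ → E n → ℝ≥0∞) (x : E n) : ℝ≥0∞ := ∑' l, b l x ^ Q

theorem W_meas (Q : ℝ) {b : ℕ → E n → ℝ≥0∞} (hb : ∀ l, Measurable (b l)) :
    Measurable (W Q b) := by
  unfold W
  exact Measurable.tsum fun l => (hb l).pow_const Q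

/-- bounded, boundedly supported, finitely many -/
def Nice (b : ℕ → E n → ℝ≥0∞) : Prop :=
  (∀ l, Measurable (b l)) ∧ ∃ N : ℕ, ∀ l x, b l x ≤ if l ≤ N ∧ ‖x‖ ≤ N then (N : ℝ≥0∞) else 0

/-- truncation -/
noncomputable def tr (N : ℕ) (b : ℕ → E n → ℝ≥0∞) (l : ℕ) (x : E n) : ℝ≥0∞ :=
  if l ≤ N ∧ ‖x‖ ≤ N then min (b l x) N else 0

theorem tr_meas (N : ℕ) {b : ℕ → E n → ℝ≥0∞} (hb : ∀ l, Measurable (b l)) (l : ℕ) :
    Measurable (tr N b l) := by
  unfold tr
  refine Measurable.ite ?_ ((hb l).min measurable_const) measurable_const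
  by_cases h : l ≤ N
  · simp only [h, true_and]
    exact measurableSet_le measurable_norm measurable_const
  · simp [h]

theorem tr_nice (N : ℕ) {b : ℕ → E n → ℝ≥0∞} (hb : ∀ l, Measurable (b l)) :
    Nice (tr N b) := by
  refine ⟨tr_meas N hb, N, fun l x => ?_⟩
  unfold tr
  split_ifs
  · exact min_le_right _ _
  · exact le_rfl

theorem tr_mono (b : ℕ → E n → ℝ≥0∞) {N N' : ℕ} (h : N ≤ N') (l : ℕ) (x : E n) :
    tr N b l x ≤ tr N' b l x := by
  unfold tr
  by_cases h1 : l ≤ N ∧ ‖x‖ ≤ N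
  · have h2 : l ≤ N' ∧ ‖x‖ ≤ N' := ⟨h1.1.trans h, h1.2.trans (by exact_mod_cast h)⟩
    rw [if_pos h1, if_pos h2]
    exact min_le_min le_rfl (by exact_mod_cast h)
  · rw [if_neg h1]; exact zero_le

theorem tr_iSup (b : ℕ → E n → ℝ≥0∞) (l : ℕ) (x : E n) : ⨆ N, tr N b l x = b l x := by
  apply le_antisymm
  · refine iSup_le fun N => ?_
    unfold tr
    split_ifs
    · exact min_le_left _ _
    · exact zero_le
  · obtain ⟨N0, hN0⟩ : ∃ N0 : ℕ, l ≤ N0 ∧ ‖x‖ ≤ N0 :=
      ⟨max l ⌈‖x‖⌉₊, le_max_left _ _, (Nat.le_ceil _).trans (by exact_mod_cast le_max_right _ _)⟩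
    have h1 : ∀ N : ℕ, min (b l x) N ≤ ⨆ N, tr N b l x := by
      intro N
      have h2 : l ≤ max N N0 ∧ ‖x‖ ≤ (max N N0 : ℕ) :=
        ⟨hN0.1.trans (le_max_right _ _), hN0.2.trans (by exact_mod_cast le_max_right _ _)⟩
      calc min (b l x) N ≤ tr (max N N0) b l x := by
            unfold tr
            rw [if_pos h2]
            exact min_le_min le_rfl (by exact_mod_cast le_max_left _ _)
        _ ≤ _ := le_iSup (fun N => tr N b l x) _
    refine le_of_forall_lt fun c hc => ?_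
    obtain ⟨m, hm⟩ := ENNReal.exists_nat_gt (ne_top_of_lt hc)
    exact lt_of_lt_of_le (lt_min hc hm) (h1 m)

theorem W_iSup {Q : ℝ} (hQ : 0 < Q) {c : ℕ → ℕ → E n → ℝ≥0∞} {b : ℕ → E n → ℝ≥0∞}
    (hmono : ∀ l x, Monotone fun N => c N l x) (hsup : ∀ l x, ⨆ N, c N l x = b l x) (x : E n) :
    ⨆ N, W Q (c N) x = W Q b x := by
  unfold W
  have h1 : ∀ l, b l x ^ Q = ⨆ N, c N l x ^ Q := by
    intro l
    rw [← hsup l x]
    exact (ENNReal.orderIsoRpow Q hQ).map_iSup (fun N => c N l x)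
  simp only [h1]
  have h2 := lintegral_iSup (μ := (Measure.count : Measure ℕ))
    (f := fun N l => c N l x ^ Q) (fun N => measurable_of_countable _) ?_
  · simp only [lintegral_count] at h2
    exact h2.symm
  · intro a b hab l
    exact ENNReal.rpow_le_rpow (hmono l x hab) hQ.le

theorem pow_iSup {a : ℕ → ℝ≥0∞} {r : ℝ} (hr : 0 < r) : (⨆ N, a N) ^ r = ⨆ N, a N ^ r :=
  (ENNReal.orderIsoRpow r hr).map_iSup a

/-- the two sides -/
noncomputable def Rhs (P Q : ℝ) (b : ℕ → E n → ℝ≥0∞) : ℝ≥0∞ := ∫⁻ x, W Q b x ^ (P / Q)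

/-- averages of a sequence -/
noncomputable def AA (M : ℝ) (b : ℕ → E n → ℝ≥0∞) (l : ℕ) (x : E n) : ℝ≥0∞ := Av M l (b l) x

theorem AA_meas (M : ℝ) {b : ℕ → E n → ℝ≥0∞} (hb : ∀ l, Measurable (b l)) (l : ℕ) :
    Measurable (AA M b l) := av_measurable M l (b l) (hb l)

theorem Rhs_iSup {P Q : ℝ} (hP : 0 < P) (hQ : 0 < Q) {c : ℕ → ℕ → E n → ℝ≥0∞}
    {b : ℕ → E n → ℝ≥0∞} (hm : ∀ N l, Measurable (c N l))
    (hmono : ∀ l x, Monotone fun N => c N l x) (hsup : ∀ l x, ⨆ N, c N l x = b l x) :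
    ⨆ N, Rhs P Q (c N) = Rhs P Q b := by
  unfold Rhs
  have h1 : ∀ x, W Q b x ^ (P / Q) = ⨆ N, W Q (c N) x ^ (P / Q) := by
    intro x
    rw [← W_iSup hQ hmono hsup x]
    exact pow_iSup (div_pos hP hQ)
  simp only [h1]
  symm
  refine lintegral_iSup (fun N => (W_meas Q (hm N)).pow_const _) ?_
  intro a b' hab x
  refine ENNReal.rpow_le_rpow ?_ (div_pos hP hQ).le
  unfold W
  exact ENNReal.tsum_le_tsum fun l => ENNReal.rpow_le_rpow (hmono l x hab) hQ.le

theorem of_nice {P Q M : ℝ} (hP : 0 < P) (hQ : 0 < Q) {C : ℝ≥0∞}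
    (h : ∀ b : ℕ → E n → ℝ≥0∞, Nice b → Rhs P Q (AA M b) ≤ C * Rhs P Q b)
    (b : ℕ → E n → ℝ≥0∞) (hb : ∀ l, Measurable (b l)) :
    Rhs P Q (AA M b) ≤ C * Rhs P Q b := by
  have h1 := Rhs_iSup (c := fun N => AA M (tr N b)) (b := AA M b) hP hQ
    (fun N l => AA_meas M (tr_meas N hb) l) ?_ ?_
  · rw [← h1]
    refine iSup_le fun N => (h _ (tr_nice N hb)).trans ?_
    refine mul_le_mul_right ?_ _
    unfold Rhs
    refine lintegral_mono fun x => ?_
    refine ENNReal.rpow_le_rpow ?_ (div_pos hP hQ).le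
    unfold W
    refine ENNReal.tsum_le_tsum fun l => ENNReal.rpow_le_rpow ?_ hQ.le
    rw [← tr_iSup b l x]
    exact le_iSup (fun N => tr N b l x) N
  · intro l x N N' hN
    exact av_mono M l (fun y => tr_mono b hN l y) x
  · intro l x
    have h2 := av_iSup M l (f := fun N => tr N b l) (fun N => tr_meas N hb l) ?_ x
    · simp only [tr_iSup] at h2
      exact h2.symm
    · intro N N' hN y
      exact tr_mono b hN l y

theorem nice_fin {b : ℕ → E n → ℝ≥0∞} (hb : Nice b) {r : ℝ} (hr : 0 < r) (l : ℕ) :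
    ∫⁻ x, b l x ^ r ≠ ⊤ := by
  obtain ⟨_, N, hN⟩ := hb
  have h1 : ∫⁻ x, b l x ^ r ≤ ∫⁻ x, (Metric.closedBall (0 : E n) N).indicator
      (fun _ => (N : ℝ≥0∞) ^ r) x := by
    refine lintegral_mono fun x => ?_
    refine (ENNReal.rpow_le_rpow (hN l x) hr.le).trans ?_
    by_cases hx : ‖x‖ ≤ N
    · rw [indicator_of_mem (by simpa using hx)]
      refine ENNReal.rpow_le_rpow ?_ hr.le
      split_ifs
      · exact le_rfl
      · exact zero_le
    · rw [if_neg (fun h => hx h.2), ENNReal.zero_rpow_of_pos hr]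
      exact zero_le
  refine ne_top_of_le_ne_top ?_ h1
  rw [lintegral_indicator_const Metric.isClosed_closedBall.measurableSet]
  exact ENNReal.mul_ne_top (ENNReal.rpow_ne_top_of_nonneg hr.le (ENNReal.natCast_ne_top N))
    (measure_closedBall_lt_top).ne

theorem nice_zero {b : ℕ → E n → ℝ≥0∞} (hb : Nice b) : ∃ N : ℕ, ∀ l, N ≤ l → b l = 0 := by
  obtain ⟨_, N, hN⟩ := hb
  refine ⟨N + 1, fun l hl => ?_⟩
  funext x
  have := hN l x
  rw [if_neg (by omega)] at this
  exact le_antisymm this zero_le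

theorem Av_zero (M : ℝ) (l : ℕ) (x : E n) : Av M l (0 : E n → ℝ≥0∞) x = 0 := by
  rw [Av_eq]
  simp

/-- real form of `av_Lp` -/
theorem av_Lp_real {P : ℝ} (hP : 1 ≤ P) {M : ℝ} (hM : (n : ℝ) < M) :
    ∃ C : ℝ≥0, ∀ (l : ℕ) (h : E n → ℝ≥0∞), Measurable h →
      ∫⁻ x, Av M l h x ^ P ≤ C * ∫⁻ x, h x ^ P := by
  have hP0 : 0 < P := by linarith
  have h1P : (1 : ℝ≥0∞) ≤ ENNReal.ofReal P := by
    rw [← ENNReal.ofReal_one]
    exact ENNReal.ofReal_le_ofReal hP
  obtain ⟨C, hC⟩ := av_Lp (n := n) h1P hM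
  refine ⟨C ^ P, fun l h hh => ?_⟩
  have h1 := hC l h hh
  have hne : ENNReal.ofReal P ≠ 0 := by
    rw [Ne, ENNReal.ofReal_eq_zero, not_le]; exact hP0
  rw [eLpNorm_eq_lintegral_rpow_enorm_toReal hne ENNReal.ofReal_ne_top,
    eLpNorm_eq_lintegral_rpow_enorm_toReal hne ENNReal.ofReal_ne_top,
    ENNReal.toReal_ofReal hP0.le] at h1
  simp only [enorm_eq_self] at h1
  have h2 := ENNReal.rpow_le_rpow h1 hP0.le
  rw [ENNReal.mul_rpow_of_nonneg _ _ hP0.le, ← ENNReal.rpow_mul, ← ENNReal.rpow_mul, one_div,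
    inv_mul_cancel₀ hP0.ne', ENNReal.rpow_one, ENNReal.rpow_one] at h2
  rwa [ENNReal.coe_rpow_of_nonneg _ hP0.le]

/-- powers of finite sums are integrable -/
theorem sum_pow_fin {s t : ℝ} (hs : 0 < s) (ht : 0 < t) {g : ℕ → E n → ℝ≥0∞}
    (hg : ∀ l, Measurable (g l)) {N : ℕ} (hN : ∀ l, N ≤ l → g l = 0)
    (hfin : ∀ l, ∫⁻ x, g l x ^ (s * t) ≠ ⊤) : ∫⁻ x, W s g x ^ t ≠ ⊤ := by
  have h1 : ∀ x, W s g x ^ t ≤ (N : ℝ≥0∞) ^ t * ∑ l ∈ Finset.range N, g l x ^ (s * t) := by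
    intro x
    have h2 : W s g x = ∑ l ∈ Finset.range N, g l x ^ s := by
      unfold W
      refine tsum_eq_sum fun l hl => ?_
      rw [Finset.mem_range, not_lt] at hl
      rw [hN l hl]
      simp [hs]
    have h3 : W s g x ≤ N * (∑ l ∈ Finset.range N, g l x ^ (s * t)) ^ (1 / t) := by
      rw [h2]
      have := Finset.sum_le_card_nsmul (Finset.range N) (fun l => g l x ^ s)
        ((∑ l ∈ Finset.range N, g l x ^ (s * t)) ^ (1 / t)) ?_
      · rwa [Finset.card_range, nsmul_eq_mul] at this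
      · intro l hl
        have h4 : g l x ^ s = (g l x ^ (s * t)) ^ (1 / t) := by
          rw [← ENNReal.rpow_mul]
          congr 1
          field_simp
        simp only [h4]
        refine ENNReal.rpow_le_rpow ?_ (by positivity)
        exact Finset.single_le_sum (f := fun l => g l x ^ (s * t)) (fun _ _ => zero_le) hl
    calc W s g x ^ t ≤ (N * (∑ l ∈ Finset.range N, g l x ^ (s * t)) ^ (1 / t)) ^ t :=
          ENNReal.rpow_le_rpow h3 ht.le
      _ = _ := by
          rw [ENNReal.mul_rpow_of_nonneg _ _ ht.le, ← ENNReal.rpow_mul, one_div,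
            inv_mul_cancel₀ ht.ne', ENNReal.rpow_one]
  refine ne_top_of_le_ne_top ?_ (lintegral_mono h1)
  rw [lintegral_const_mul _ (Finset.measurable_fun_sum _ fun l _ => (hg l).pow_const _)]
  refine ENNReal.mul_ne_top (ENNReal.rpow_ne_top_of_nonneg ht.le (ENNReal.natCast_ne_top N)) ?_
  rw [lintegral_finsetSum _ fun l _ => (hg l).pow_const _]
  exact (ENNReal.sum_lt_top.2 fun l _ => (hfin l).lt_top).ne

/-- the case `Q < P` -/
theorem case_lt [NeZero n] {P Q : ℝ} (hQ : 1 < Q) (hQP : Q < P) {M : ℝ} (hM : (n : ℝ) < M) :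
    ∃ C : ℝ≥0, ∀ b : ℕ → E n → ℝ≥0∞, (∀ l, Measurable (b l)) →
      Rhs P Q (AA M b) ≤ C * Rhs P Q b := by
  have hQ0 : 0 < Q := by linarith
  have hP0 : 0 < P := by linarith
  set s := P / Q with hs
  have hs1 : 1 < s := by rw [hs, lt_div_iff₀ hQ0]; linarith
  have hs0 : 0 < s := by linarith
  have hc : s.HolderConjugate (s / (s - 1)) := Real.HolderConjugate.conjExponent hs1
  set s' := s / (s - 1) with hs'
  have hs'1 : 1 < s' := hc.symm.lt
  obtain ⟨C0, hC0⟩ := av_Lp (n := n) (P := ⊤) le_top hM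
  obtain ⟨C1, hC1⟩ := av_Lp_real (n := n) hs1.le hM
  obtain ⟨C2, hC2⟩ := av_sup (n := n) hs'1 hM
  refine ⟨(C0 ^ (Q - 1)) ^ s * (C2 ^ (1 / s')) ^ s, fun b hb => ?_⟩
  refine of_nice hP0 hQ0 ?_ b hb
  intro b hb
  -- Jensen
  set g : ℕ → E n → ℝ≥0∞ := fun l x => Av M l (fun y => b l y ^ Q) x with hg
  have hgm : ∀ l, Measurable (g l) := fun l => av_measurable M l _ ((hb.1 l).pow_const Q)
  set G : E n → ℝ≥0∞ := W 1 g with hG
  have hGm : Measurable G := W_meas 1 hgm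
  have hae : ∀ᵐ x : E n, ∀ l : ℕ, Av M l (fun _ => 1) x ≤ C0 := by
    rw [ae_all_iff]
    intro l
    have h1 := hC0 l (fun _ => 1) measurable_const
    rw [eLpNorm_exponent_top, eLpNorm_exponent_top] at h1
    have h2 : eLpNormEssSup (fun _ : E n => (1 : ℝ≥0∞)) volume ≤ 1 := by
      refine eLpNormEssSup_le_of_ae_enorm_bound ?_
      exact Filter.Eventually.of_forall fun x => by simp
    have h3 := enorm_ae_le_eLpNormEssSup (Av M l (fun _ : E n => (1 : ℝ≥0∞))) volume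
    filter_upwards [h3] with x hx
    rw [enorm_eq_self] at hx
    calc _ ≤ _ := hx
      _ ≤ _ := h1
      _ ≤ C0 * 1 := mul_le_mul_right h2 _
      _ = C0 := mul_one _
  have hstep1 : Rhs P Q (AA M b) ≤ ((C0 : ℝ≥0∞) ^ (Q - 1)) ^ s * ∫⁻ x, G x ^ s := by
    unfold Rhs
    rw [← lintegral_const_mul _ (hGm.pow_const s)]
    refine lintegral_mono_ae ?_
    filter_upwards [hae] with x hx
    rw [← ENNReal.mul_rpow_of_nonneg _ _ hs0.le]
    refine ENNReal.rpow_le_rpow ?_ hs0.le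
    rw [hG]
    unfold W
    rw [← ENNReal.tsum_mul_left]
    refine ENNReal.tsum_le_tsum fun l => ?_
    rw [ENNReal.rpow_one]
    refine (av_jensen M l hQ (hb.1 l) x).trans ?_
    exact mul_le_mul_left (ENNReal.rpow_le_rpow (hx l) (by linarith)) _
  -- finiteness
  obtain ⟨N, hN⟩ := nice_zero hb
  have hgN : ∀ l, N ≤ l → g l = 0 := by
    intro l hl
    funext x
    have h1 : (fun y => b l y ^ Q) = (0 : E n → ℝ≥0∞) := by
      funext y
      rw [hN l hl]
      simp [hQ0]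
    simp only [hg, h1, Av_zero, Pi.zero_apply]
  have hGfin : ∫⁻ x, G x ^ s ≠ ⊤ := by
    refine sum_pow_fin one_pos hs0 hgm hgN fun l => ?_
    rw [one_mul]
    refine ne_top_of_le_ne_top ?_ (hC1 l _ ((hb.1 l).pow_const Q))
    refine ENNReal.mul_ne_top ENNReal.coe_ne_top ?_
    have : ∀ x, (b l x ^ Q) ^ s = b l x ^ (Q * s) := fun x => (ENNReal.rpow_mul _ _ _).symm
    simp only [this]
    exact nice_fin hb (by positivity) l
  -- duality
  set h : E n → ℝ≥0∞ := fun x => G x ^ (s - 1) with hh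
  have hhm : Measurable h := hGm.pow_const _
  set Mx : E n → ℝ≥0∞ := fun x => ⨆ l : ℕ, Av M l h x with hMx
  have hMxm : Measurable Mx := Measurable.iSup fun l => av_measurable M l h hhm
  have hstep2 : ∫⁻ x, G x ^ s ≤
      ((∫⁻ x, W Q b x ^ s) ^ (1 / s) * C2 ^ (1 / s')) * (∫⁻ x, G x ^ s) ^ (1 / s') := by
    have e1 : ∀ x, G x ^ s = ∑' l, g l x * h x := by
      intro x
      rw [ENNReal.tsum_mul_right]
      have : ∑' l, g l x = G x := by
        rw [hG]; unfold W; simp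
      rw [this, hh]
      have h1 : G x * G x ^ (s - 1) = G x ^ (1 : ℝ) * G x ^ (s - 1) := by rw [ENNReal.rpow_one]
      simp only
      rw [h1, ← ENNReal.rpow_add_of_nonneg _ _ zero_le_one (by linarith)]
      congr 1
      ring
    have e2 : ∫⁻ x, G x ^ s = ∑' l, ∫⁻ x, g l x * h x := by
      simp only [e1]
      exact lintegral_tsum fun l => ((hgm l).mul hhm).aemeasurable
    have e3 : ∑' l, ∫⁻ x, g l x * h x = ∑' l, ∫⁻ y, b l y ^ Q * Av M l h y := by
      congr 1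
      funext l
      exact av_symm M l ((hb.1 l).pow_const Q) hhm
    have e4 : ∑' l, ∫⁻ y, b l y ^ Q * Av M l h y ≤ ∫⁻ y, W Q b y * Mx y := by
      rw [← lintegral_tsum (f := fun l y => b l y ^ Q * Av M l h y) fun l =>
        (((hb.1 l).pow_const Q).mul (av_measurable M l h hhm)).aemeasurable]
      refine lintegral_mono fun y => ?_
      unfold W
      rw [← ENNReal.tsum_mul_right]
      refine ENNReal.tsum_le_tsum fun l => mul_le_mul_right ?_ _
      exact le_iSup (fun l : ℕ => Av M l h y) l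
    have e5 := ENNReal.lintegral_mul_le_Lp_mul_Lq (volume : Measure (E n)) hc
      (W_meas Q hb.1).aemeasurable hMxm.aemeasurable
    have e6 : (∫⁻ x, Mx x ^ s') ^ (1 / s') ≤
        C2 ^ (1 / s') * (∫⁻ x, G x ^ s) ^ (1 / s') := by
      rw [← ENNReal.mul_rpow_of_nonneg _ _ (by positivity)]
      refine ENNReal.rpow_le_rpow ((hC2 h hhm).trans_eq ?_) (by positivity)
      congr 1
      refine lintegral_congr fun x => ?_
      rw [hh]
      simp only
      rw [← ENNReal.rpow_mul]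
      congr 1
      rw [hs']
      have : s - 1 ≠ 0 := by linarith
      field_simp
    calc ∫⁻ x, G x ^ s = _ := e2
      _ = _ := e3
      _ ≤ _ := e4
      _ ≤ _ := e5
      _ ≤ (∫⁻ x, W Q b x ^ s) ^ (1 / s) * (C2 ^ (1 / s') * (∫⁻ x, G x ^ s) ^ (1 / s')) :=
          mul_le_mul_right e6 _
      _ = _ := by rw [mul_assoc]
  have hstep3 := absorb hc hGfin hstep2
  rw [ENNReal.mul_rpow_of_nonneg _ _ hs0.le, ← ENNReal.rpow_mul (∫⁻ x, W Q b x ^ s), one_div s,
    inv_mul_cancel₀ hs0.ne', ENNReal.rpow_one] at hstep3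
  refine hstep1.trans ((mul_le_mul_right hstep3 _).trans_eq ?_)
  have c1 : (((C0 ^ (Q - 1)) ^ s * (C2 ^ (1 / s')) ^ s : ℝ≥0) : ℝ≥0∞) =
      ((C0 : ℝ≥0∞) ^ (Q - 1)) ^ s * ((C2 : ℝ≥0∞) ^ (1 / s')) ^ s := by
    rw [ENNReal.coe_mul, ENNReal.coe_rpow_of_nonneg _ hs0.le, ENNReal.coe_rpow_of_nonneg _ hs0.le,
      ENNReal.coe_rpow_of_nonneg _ (by linarith), ENNReal.coe_rpow_of_nonneg _ (by positivity)]
  rw [c1]
  unfold Rhs
  ring

/-- the case `Q = P` -/
theorem case_eq {P : ℝ} (hP : 1 < P) {M : ℝ} (hM : (n : ℝ) < M) :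
    ∃ C : ℝ≥0, ∀ b : ℕ → E n → ℝ≥0∞, (∀ l, Measurable (b l)) →
      Rhs P P (AA M b) ≤ C * Rhs P P b := by
  have hP0 : 0 < P := by linarith
  obtain ⟨C, hC⟩ := av_Lp_real (n := n) hP.le hM
  refine ⟨C, fun b hb => ?_⟩
  have h1 : ∀ c : ℕ → E n → ℝ≥0∞, (∀ l, Measurable (c l)) →
      Rhs P P c = ∑' l, ∫⁻ x, c l x ^ P := by
    intro c hc
    unfold Rhs W
    rw [div_self hP0.ne']
    simp only [ENNReal.rpow_one]
    exact lintegral_tsum fun l => ((hc l).pow_const P).aemeasurable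
  rw [h1 _ (AA_meas M hb), h1 b hb, ← ENNReal.tsum_mul_left]
  exact ENNReal.tsum_le_tsum fun l => hC l (b l) (hb l)

/-- Hoelder for sums -/
theorem tsum_holder {Q Q' : ℝ} (hc : Q.HolderConjugate Q') (f g : ℕ → ℝ≥0∞) :
    ∑' l, f l * g l ≤ (∑' l, f l ^ Q) ^ (1 / Q) * (∑' l, g l ^ Q') ^ (1 / Q') := by
  have := ENNReal.lintegral_mul_le_Lp_mul_Lq (Measure.count : Measure ℕ) hc
    (f := f) (g := g) (measurable_of_countable _).aemeasurable
    (measurable_of_countable _).aemeasurable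
  simpa [lintegral_count] using this

/-- the case `P < Q` -/
theorem case_gt [NeZero n] {P Q : ℝ} (hP : 1 < P) (hPQ : P < Q) {M : ℝ} (hM : (n : ℝ) < M) :
    ∃ C : ℝ≥0, ∀ b : ℕ → E n → ℝ≥0∞, (∀ l, Measurable (b l)) →
      Rhs P Q (AA M b) ≤ C * Rhs P Q b := by
  have hP0 : 0 < P := by linarith
  have hQ0 : 0 < Q := by linarith
  have hQ1 : 1 < Q := by linarith
  have hcP : P.HolderConjugate (P / (P - 1)) := Real.HolderConjugate.conjExponent hP
  have hcQ : Q.HolderConjugate (Q / (Q - 1)) := Real.HolderConjugate.conjExponent hQ1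
  set P' := P / (P - 1) with hP'
  set Q' := Q / (Q - 1) with hQ'
  have hP1' : P - 1 ≠ 0 := by linarith
  have hQ1' : Q - 1 ≠ 0 := by linarith
  have hP'0 : 0 < P' := hcP.symm.pos
  have hQ'0 : 0 < Q' := hcQ.symm.pos
  have hQ'1 : 1 < Q' := hcQ.symm.lt
  have hQP' : Q' < P' := by
    rw [hP', hQ', div_lt_div_iff₀ (by linarith) (by linarith)]
    nlinarith
  obtain ⟨C, hC⟩ := case_lt (n := n) hQ'1 hQP' hM
  obtain ⟨C1, hC1⟩ := av_Lp_real (n := n) hP.le hM
  refine ⟨(C ^ (1 / P')) ^ P, fun b hb => ?_⟩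
  refine of_nice hP0 hQ0 ?_ b hb
  intro b hb
  have ham : ∀ l, Measurable (AA M b l) := AA_meas M hb.1
  have hWm : Measurable (W Q (AA M b)) := W_meas Q ham
  obtain ⟨N, hN⟩ := nice_zero hb
  have haN : ∀ l, N ≤ l → AA M b l = 0 := by
    intro l hl
    funext x
    simp only [AA, hN l hl, Av_zero, Pi.zero_apply]
  have hXfin : Rhs P Q (AA M b) ≠ ⊤ := by
    refine sum_pow_fin hQ0 (div_pos hP0 hQ0) ham haN fun l => ?_
    have : Q * (P / Q) = P := by field_simp
    rw [this]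
    exact ne_top_of_le_ne_top (ENNReal.mul_ne_top ENNReal.coe_ne_top (nice_fin hb hP0 l))
      (hC1 l _ (hb.1 l))
  have hWfin : ∀ᵐ x : E n, W Q (AA M b) x ≠ ⊤ := by
    have h1 : Measurable fun x : E n => W Q (AA M b) x ^ (P / Q) := hWm.pow_const _
    filter_upwards [ae_lt_top h1 hXfin] with x hx hcon
    rw [hcon, ENNReal.top_rpow_of_pos (div_pos hP0 hQ0)] at hx
    exact lt_irrefl _ hx
  set c : ℕ → E n → ℝ≥0∞ := fun l x => AA M b l x ^ (Q - 1) *
    W Q (AA M b) x ^ ((P - Q) / Q) with hcdef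
  have hcm : ∀ l, Measurable (c l) := fun l => ((ham l).pow_const _).mul (hWm.pow_const _)
  -- the pairing
  have e1 : ∀ᵐ x : E n, ∑' l, AA M b l x * c l x = W Q (AA M b) x ^ (P / Q) := by
    filter_upwards [hWfin] with x hx
    have h1 : ∀ l, AA M b l x * c l x = AA M b l x ^ Q * W Q (AA M b) x ^ ((P - Q) / Q) := by
      intro l
      rw [hcdef]
      simp only
      rw [← mul_assoc]
      congr 1
      have h2 : AA M b l x * AA M b l x ^ (Q - 1) =
          AA M b l x ^ (1 : ℝ) * AA M b l x ^ (Q - 1) := by rw [ENNReal.rpow_one]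
      rw [h2, ← ENNReal.rpow_add_of_nonneg _ _ zero_le_one (by linarith)]
      congr 1
      ring
    simp only [h1]
    rw [ENNReal.tsum_mul_right]
    change W Q (AA M b) x * _ = _
    rcases eq_or_ne (W Q (AA M b) x) 0 with h0 | h0
    · rw [h0, zero_mul, ENNReal.zero_rpow_of_pos (div_pos hP0 hQ0)]
    · have h2 : W Q (AA M b) x * W Q (AA M b) x ^ ((P - Q) / Q) =
          W Q (AA M b) x ^ (1 : ℝ) * W Q (AA M b) x ^ ((P - Q) / Q) := by
        rw [ENNReal.rpow_one]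
      rw [h2, ← ENNReal.rpow_add _ _ h0 hx]
      congr 1
      field_simp
      ring
  have e2 : ∀ᵐ x : E n, W Q' c x ^ (P' / Q') = W Q (AA M b) x ^ (P / Q) := by
    filter_upwards [hWfin] with x hx
    have h1 : ∀ l, c l x ^ Q' = AA M b l x ^ Q * (W Q (AA M b) x ^ ((P - Q) / Q)) ^ Q' := by
      intro l
      rw [hcdef]
      simp only
      rw [ENNReal.mul_rpow_of_nonneg _ _ hQ'0.le, ← ENNReal.rpow_mul]
      congr 2
      rw [hQ']
      field_simp
    have h2 : W Q' c x = W Q (AA M b) x * (W Q (AA M b) x ^ ((P - Q) / Q)) ^ Q' := by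
      unfold W
      simp only [h1]
      rw [ENNReal.tsum_mul_right]
      rfl
    rw [h2]
    rcases eq_or_ne (W Q (AA M b) x) 0 with h0 | h0
    · rw [h0, zero_mul, ENNReal.zero_rpow_of_pos (div_pos hP0 hQ0),
        ENNReal.zero_rpow_of_pos (div_pos hP'0 hQ'0)]
    · have h3 : W Q (AA M b) x * (W Q (AA M b) x ^ ((P - Q) / Q)) ^ Q' =
          W Q (AA M b) x ^ (1 : ℝ) * W Q (AA M b) x ^ ((P - Q) / Q * Q') := by
        rw [ENNReal.rpow_one, ENNReal.rpow_mul]
      rw [h3, ← ENNReal.rpow_add _ _ h0 hx, ← ENNReal.rpow_mul]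
      congr 1
      rw [hP', hQ']
      field_simp
      ring
  have e3 : Rhs P Q (AA M b) = ∑' l, ∫⁻ x, AA M b l x * c l x := by
    unfold Rhs
    rw [← lintegral_tsum (f := fun l x => AA M b l x * c l x)
      fun l => ((ham l).mul (hcm l)).aemeasurable]
    exact lintegral_congr_ae (e1.mono fun x hx => hx.symm)
  have e4 : ∑' l, ∫⁻ x, AA M b l x * c l x = ∑' l, ∫⁻ y, b l y * AA M c l y := by
    congr 1
    funext l
    exact av_symm M l (hb.1 l) (hcm l)
  have e5 : ∑' l, ∫⁻ y, b l y * AA M c l y ≤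
      ∫⁻ y, W Q b y ^ (1 / Q) * W Q' (AA M c) y ^ (1 / Q') := by
    rw [← lintegral_tsum (f := fun l y => b l y * AA M c l y) fun l =>
      ((hb.1 l).mul (AA_meas M hcm l)).aemeasurable]
    exact lintegral_mono fun y => tsum_holder hcQ (fun l => b l y) (fun l => AA M c l y)
  have e6 := ENNReal.lintegral_mul_le_Lp_mul_Lq (volume : Measure (E n)) hcP
    (f := fun y => W Q b y ^ (1 / Q)) (g := fun y => W Q' (AA M c) y ^ (1 / Q'))
    ((W_meas Q hb.1).pow_const _).aemeasurable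
    ((W_meas Q' (AA_meas M hcm)).pow_const _).aemeasurable
  have e7 : ∀ y : E n, (W Q b y ^ (1 / Q)) ^ P = W Q b y ^ (P / Q) := by
    intro y
    rw [← ENNReal.rpow_mul]
    congr 1
    ring
  have e8 : ∀ y : E n, (W Q' (AA M c) y ^ (1 / Q')) ^ P' = W Q' (AA M c) y ^ (P' / Q') := by
    intro y
    rw [← ENNReal.rpow_mul]
    congr 1
    ring
  simp only [e7, e8] at e6
  have e9 : (∫⁻ y, W Q' (AA M c) y ^ (P' / Q')) ^ (1 / P') ≤
      C ^ (1 / P') * Rhs P Q (AA M b) ^ (1 / P') := by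
    rw [← ENNReal.mul_rpow_of_nonneg _ _ (by positivity)]
    refine ENNReal.rpow_le_rpow ((hC c hcm).trans_eq ?_) (by positivity)
    congr 1
    exact lintegral_congr_ae e2
  have e10 : Rhs P Q (AA M b) ≤
      (Rhs P Q b ^ (1 / P) * C ^ (1 / P')) * Rhs P Q (AA M b) ^ (1 / P') := by
    calc Rhs P Q (AA M b) = _ := e3
      _ = _ := e4
      _ ≤ _ := e5
      _ ≤ _ := e6
      _ ≤ Rhs P Q b ^ (1 / P) * (C ^ (1 / P') * Rhs P Q (AA M b) ^ (1 / P')) :=
          mul_le_mul_right e9 _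
      _ = _ := by rw [mul_assoc]
  have e11 := absorb hcP hXfin e10
  rw [ENNReal.mul_rpow_of_nonneg _ _ hP0.le, ← ENNReal.rpow_mul (Rhs P Q b), one_div P,
    inv_mul_cancel₀ hP0.ne', ENNReal.rpow_one] at e11
  refine e11.trans_eq ?_
  rw [mul_comm, ENNReal.coe_rpow_of_nonneg _ hP0.le,
    ENNReal.coe_rpow_of_nonneg _ (by positivity)]

/-- real exponents -/
theorem vv_real [NeZero n] {P Q : ℝ} (hP : 1 < P) (hQ : 1 < Q) {M : ℝ} (hM : (n : ℝ) < M) :
    ∃ C : ℝ≥0, ∀ b : ℕ → E n → ℝ≥0∞, (∀ l, Measurable (b l)) →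
      Rhs P Q (AA M b) ≤ C * Rhs P Q b := by
  rcases lt_trichotomy P Q with h | h | h
  · exact case_gt hP h hM
  · subst h; exact case_eq hP hM
  · exact case_lt hQ h hM

/-- full sequences -/
theorem vv_univ [NeZero n] {P Q : ℝ≥0∞} (hP : 1 < P) (hP' : P ≠ ⊤) (hQ : 1 < Q) {M : ℝ}
    (hM : (n : ℝ) < M) :
    ∃ C : ℝ≥0, ∀ b : ℕ → E n → ℝ≥0∞, (∀ l, Measurable (b l)) →
      eLpNorm (fun x => eLpNorm (fun l => Av M l (b l) x) Q Measure.count) P volume ≤
      C * eLpNorm (fun x => eLpNorm (fun l => b l x) Q Measure.count) P volume := by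
  have hP1 : 1 < P.toReal := by
    rw [← ENNReal.toReal_one]
    exact (ENNReal.toReal_lt_toReal ENNReal.one_ne_top hP').2 hP
  have hP0 : 0 < P.toReal := by linarith
  have hPne : P ≠ 0 := (zero_lt_one.trans hP).ne'
  -- it suffices to bound the `P`-th powers
  have key : ∀ (C : ℝ≥0) (F G : E n → ℝ≥0∞),
      ∫⁻ x, F x ^ P.toReal ≤ C * ∫⁻ x, G x ^ P.toReal →
      eLpNorm F P volume ≤ ((C ^ (1 / P.toReal) : ℝ≥0) : ℝ≥0∞) * eLpNorm G P volume := by
    intro C F G h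
    rw [eLpNorm_eq_lintegral_rpow_enorm_toReal hPne hP',
      eLpNorm_eq_lintegral_rpow_enorm_toReal hPne hP']
    simp only [enorm_eq_self]
    rw [ENNReal.coe_rpow_of_nonneg _ (by positivity),
      ← ENNReal.mul_rpow_of_nonneg _ _ (by positivity)]
    exact ENNReal.rpow_le_rpow h (by positivity)
  rcases eq_or_ne Q ⊤ with hQt | hQt
  · subst hQt
    obtain ⟨C, hC⟩ := av_sup (n := n) hP1 hM
    refine ⟨C ^ (1 / P.toReal), fun b hb => key C _ _ ?_⟩
    simp only [eLpNorm_exponent_top, eLpNormEssSup_count, enorm_eq_self]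
    have hm : Measurable fun x : E n => ⨆ l, b l x := Measurable.iSup hb
    refine le_trans ?_ (hC _ hm)
    refine lintegral_mono fun x => ENNReal.rpow_le_rpow ?_ hP0.le
    refine iSup_mono fun l => av_mono M l (fun y => ?_) x
    exact le_iSup (fun l => b l y) l
  · have hQ1 : 1 < Q.toReal := by
      rw [← ENNReal.toReal_one]
      exact (ENNReal.toReal_lt_toReal ENNReal.one_ne_top hQt).2 hQ
    have hQne : Q ≠ 0 := (zero_lt_one.trans hQ).ne'
    obtain ⟨C, hC⟩ := vv_real (n := n) hP1 hQ1 hM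
    refine ⟨C ^ (1 / P.toReal), fun b hb => key C _ _ ?_⟩
    have h1 := hC b hb
    unfold Rhs W AA at h1
    simp only [eLpNorm_eq_lintegral_rpow_enorm_toReal hQne hQt, enorm_eq_self, lintegral_count,
      ← ENNReal.rpow_mul]
    have h2 : 1 / Q.toReal * P.toReal = P.toReal / Q.toReal := by ring
    rw [h2]
    exact h1

end VV

variable {n : ℕ}

/-- Vector valued inequality for the averaging operators (Fefferman and Stein). -/
theorem av_vv [NeZero n] {P Q : ℝ≥0∞} (hP : 1 < P) (hP' : P ≠ ⊤) (hQ : 1 < Q) {M : ℝ}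
    (hM : (n : ℝ) < M) :
    ∃ C : ℝ≥0, ∀ b : ℕ → E n → ℝ≥0∞, (∀ l, Measurable (b l)) → ∀ S : Set ℕ,
      eLpNorm (fun x => eLpNorm (fun l => Av M l (b l) x) Q (Measure.count.restrict S)) P volume ≤
      C * eLpNorm (fun x => eLpNorm (fun l => b l x) Q (Measure.count.restrict S)) P volume := by
  obtain ⟨C, hC⟩ := VV.vv_univ (n := n) hP hP' hQ hM
  refine ⟨C, fun b hb S => ?_⟩
  classical
  have hS : MeasurableSet S := MeasurableSet.of_discrete
  have h1 := hC (fun l => if l ∈ S then b l else 0) (fun l => by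
    split_ifs
    · exact hb l
    · exact measurable_zero)
  have e1 : ∀ x : E n, (fun l => Av M l ((fun l => if l ∈ S then b l else 0) l) x) =
      S.indicator (fun l => Av M l (b l) x) := by
    intro x
    funext l
    by_cases h : l ∈ S
    · simp [h]
    · simp [h, VV.Av_zero]
  have e2 : ∀ x : E n, (fun l => (fun l => if l ∈ S then b l else 0) l x) =
      S.indicator (fun l => b l x) := by
    intro x
    funext l
    by_cases h : l ∈ S
    · simp [h]
    · simp [h]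
  simp only [e1, e2, eLpNorm_indicator_eq_eLpNorm_restrict hS] at h1
  exact h1

end MP6db0a9
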