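import Pool.Agent.Lib_MP_6db0a9_an.AvLp
import Pool.Agent.Lib_MP_6db0a9_an.VV

/-!
# MP_6db0a9_an: boundedness of the averaging operators for the sequence quasi-norms
-/

open MeasureTheory SchwartzMap Set Filter Topology
open scoped ENNReal NNReal FourierTransform LineDeriv ContDiff

namespace MP6db0a9

variable {n : ℕ}

/-! ### General facts on `eLpNorm` of extended nonnegative functions -/

/-- Minkowski's inequality for countable sums. -/
theorem mor_tsum {α ι : Type*} [MeasurableSpace α] [Countable ι] {μ : Measure α} {P : ℝ≥0∞}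
    (hP : 1 ≤ P) {F : ι → α → ℝ≥0∞} (hF : ∀ i, AEMeasurable (F i) μ) :
    eLpNorm (fun x => ∑' i, F i x) P μ ≤ ∑' i, eLpNorm (F i) P μ := by
  have hP0 : P ≠ 0 := (zero_lt_one.trans_le hP).ne'
  by_cases hPt : P = ⊤
  · subst hPt
    simp only [eLpNorm_exponent_top, eLpNormEssSup, enorm_eq_self]
    refine essSup_le_of_ae_le _ ?_
    have : ∀ᵐ x ∂μ, ∀ i, F i x ≤ essSup (fun x => F i x) μ :=
      ae_all_iff.2 fun i => ENNReal.ae_le_essSup _
    filter_upwards [this] with x hx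
    exact ENNReal.tsum_le_tsum hx
  have hPr : 0 < P.toReal := ENNReal.toReal_pos hP0 hPt
  rw [eLpNorm_eq_lintegral_rpow_enorm_toReal hP0 hPt]
  simp only [enorm_eq_self]
  have h1 : ∀ x, (∑' i, F i x) ^ P.toReal =
      ⨆ s : Finset ι, (∑ i ∈ s, F i x) ^ P.toReal := by
    intro x
    rw [ENNReal.tsum_eq_iSup_sum]
    exact (ENNReal.orderIsoRpow _ hPr).map_iSup _
  simp only [h1]
  rw [lintegral_iSup_directed]
  · rw [one_div, ENNReal.rpow_inv_le_iff hPr]
    refine iSup_le fun s => ?_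
    rw [← ENNReal.rpow_inv_le_iff hPr]
    have h2 := eLpNorm_sum_le (μ := μ) (p := P) (f := F) (s := s)
      (fun i _ => (hF i).aestronglyMeasurable) hP
    rw [eLpNorm_eq_lintegral_rpow_enorm_toReal hP0 hPt] at h2
    simp only [enorm_eq_self, Finset.sum_apply, one_div] at h2
    exact h2.trans (ENNReal.sum_le_tsum s)
  · intro s
    exact (Finset.aemeasurable_fun_sum s fun i _ => hF i).pow_const _
  · intro s t
    classical
    refine ⟨s ∪ t, fun x => ?_, fun x => ?_⟩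
    · exact ENNReal.rpow_le_rpow (Finset.sum_le_sum_of_subset Finset.subset_union_left) hPr.le
    · exact ENNReal.rpow_le_rpow (Finset.sum_le_sum_of_subset Finset.subset_union_right) hPr.le

/-- Monotonicity (a.e.). -/
theorem mor_mono {α : Type*} [MeasurableSpace α] {μ : Measure α} {P : ℝ≥0∞}
    {f g : α → ℝ≥0∞} (h : ∀ᵐ x ∂μ, f x ≤ g x) : eLpNorm f P μ ≤ eLpNorm g P μ :=
  eLpNorm_mono_enorm_ae (by simpa only [enorm_eq_self] using h)

/-- `‖h ^ r‖_P = ‖h‖_{P r} ^ r`. -/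
theorem mor_rpow {α : Type*} [MeasurableSpace α] {μ : Measure α} {P : ℝ≥0∞} {r : ℝ} (hr : 0 < r)
    (h : α → ℝ≥0∞) :
    eLpNorm (fun x => h x ^ r) P μ = eLpNorm h (P * ENNReal.ofReal r) μ ^ r := by
  have := eLpNorm_enorm_rpow (μ := μ) (p := P) (q := r) h hr
  simpa only [enorm_eq_self] using this

/-- Homogeneity. -/
theorem mor_const_mul {α : Type*} [MeasurableSpace α] {μ : Measure α} {P : ℝ≥0∞} (c : ℝ≥0)
    (f : α → ℝ≥0∞) : eLpNorm (fun x => c * f x) P μ ≤ c * eLpNorm f P μ := by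
  have := eLpNorm_le_nnreal_smul_eLpNorm_of_ae_le_mul' (μ := μ) (f := fun x => c * f x) (g := f)
    (c := c) (Eventually.of_forall fun x => by simp) P
  simpa only [ENNReal.smul_def, smul_eq_mul] using this

/-! ### Dyadic cubes -/

theorem mor_cube_open (J : ℤ) (v : Fin n → ℤ) : IsOpen (cube J v) := by
  have : cube J v = ⋂ i, {x : E n | (2 : ℝ) ^ (-J) * v i < x i ∧ x i < (2 : ℝ) ^ (-J) * (v i + 1)} := by
    ext x; simp [cube]
  rw [this]
  refine isOpen_iInter_of_finite fun i => ?_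
  have hc : Continuous fun x : E n => x i := by fun_prop
  exact (isOpen_lt continuous_const hc).inter (isOpen_lt hc continuous_const)

theorem mor_cube_meas (J : ℤ) (v : Fin n → ℤ) : MeasurableSet (cube J v) :=
  (mor_cube_open J v).measurableSet

theorem mor_cube_disj (J : ℤ) : Pairwise (Function.onFun Disjoint (cube (n := n) J)) := by
  intro v w hvw
  rw [Function.onFun, Set.disjoint_left]
  intro x hv hw
  apply hvw
  funext i
  have h2 : (0 : ℝ) < 2 ^ (-J) := by positivity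
  obtain ⟨h3, h4⟩ := hv i
  obtain ⟨h5, h6⟩ := hw i
  have h7 : (v i : ℝ) < w i + 1 := lt_of_mul_lt_mul_left (h3.trans h6) h2.le
  have h8 : (w i : ℝ) < v i + 1 := lt_of_mul_lt_mul_left (h5.trans h4) h2.le
  have h9 : v i < w i + 1 := by exact_mod_cast h7
  have h10 : w i < v i + 1 := by exact_mod_cast h8
  omega

theorem mor_hyper (i : Fin n) (c : ℝ) : volume {x : E n | x i = c} = 0 := by
  have h := (PiLp.volume_preserving_ofLp (Fin n)).measure_preimage
    (s := {f : Fin n → ℝ | f i = c})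
    (measurableSet_eq_fun (measurable_pi_apply i) measurable_const).nullMeasurableSet
  have h2 : (volume : Measure (Fin n → ℝ)) {f : Fin n → ℝ | f i = c} = 0 :=
    Measure.pi_hyperplane (fun _ => (volume : Measure ℝ)) i c
  rw [h2] at h
  exact h

theorem mor_cube_cover (J : ℤ) : ∀ᵐ x : E n ∂volume, x ∈ ⋃ v, cube (n := n) J v := by
  have h1 : ∀ᵐ x : E n ∂volume, ∀ i : Fin n, ∀ m : ℤ, x i ≠ (2 : ℝ) ^ (-J) * m := by
    rw [ae_all_iff]
    intro i
    rw [ae_all_iff]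
    intro m
    have := mor_hyper i ((2 : ℝ) ^ (-J) * m)
    rw [ae_iff]
    simpa using this
  filter_upwards [h1] with x hx
  rw [mem_iUnion]
  have h2 : (0 : ℝ) < 2 ^ (-J) := by positivity
  refine ⟨fun i => ⌊x i / 2 ^ (-J)⌋, fun i => ⟨?_, ?_⟩⟩
  · have h3 := Int.floor_le (x i / 2 ^ (-J))
    rw [le_div_iff₀ h2] at h3
    refine lt_of_le_of_ne ?_ (hx i _).symm
    linarith
  · have h3 := Int.lt_floor_add_one (x i / 2 ^ (-J))
    rw [div_lt_iff₀ h2] at h3
    linarith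

theorem mor_cube_vol (J : ℤ) (v : Fin n → ℤ) :
    volume (cube J v) = ENNReal.ofReal ((2 : ℝ) ^ (-J)) ^ n := by
  have h := (PiLp.volume_preserving_ofLp (Fin n)).measure_preimage
    (s := Set.pi univ fun i => Ioo ((2 : ℝ) ^ (-J) * v i) ((2 : ℝ) ^ (-J) * (v i + 1)))
    (MeasurableSet.univ_pi fun i => measurableSet_Ioo).nullMeasurableSet
  have h2 : (WithLp.ofLp ⁻¹' (Set.pi univ fun i => Ioo ((2 : ℝ) ^ (-J) * v i)
      ((2 : ℝ) ^ (-J) * (v i + 1))) : Set (E n)) = cube J v := by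
    ext x
    simp [cube]
  rw [h2, Real.volume_pi_Ioo] at h
  rw [h]
  have h3 : ∀ i : Fin n, (2 : ℝ) ^ (-J) * (v i + 1) - (2 : ℝ) ^ (-J) * v i = 2 ^ (-J) := by
    intro i; ring
  simp only [h3, Finset.prod_const, Finset.card_univ, Fintype.card_fin]

/-- Splitting an integral over the cubes of level `J`. -/
theorem mor_split (J : ℤ) (v : Fin n → ℤ) (f : E n → ℝ≥0∞) :
    ∫⁻ y, f y = ∑' w : Fin n → ℤ, ∫⁻ y in cube J (v + w), f y := by
  have h1 : ∫⁻ y, f y = ∑' w : Fin n → ℤ, ∫⁻ y in cube J w, f y := by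
    rw [← lintegral_iUnion (mor_cube_meas J) (mor_cube_disj J), ← setLIntegral_univ]
    refine (setLIntegral_congr ?_).symm
    exact eventuallyEq_univ.2 (mor_cube_cover J)
  rw [h1]
  exact ((Equiv.addLeft v).tsum_eq fun w => ∫⁻ y in cube J w, f y).symm

/-- Norm comparison. -/
theorem mor_norm_le (x : E n) {c : ℝ} (h : ∀ i, |x i| ≤ c) : ‖x‖ ≤ n * c := by
  have h1 : ‖x‖ ≤ ∑ i, ‖x i‖ := by
    calc ‖x‖ = ‖∑ i, EuclideanSpace.single i (x i)‖ := by
          congr 1
          ext i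
          simp [Finset.sum_apply, Pi.single_apply]
      _ ≤ ∑ i, ‖(EuclideanSpace.single i (x i) : E n)‖ := norm_sum_le _ _
      _ = ∑ i, ‖x i‖ := by simp
  refine h1.trans ?_
  calc ∑ i, ‖x i‖ ≤ ∑ _i : Fin n, c := Finset.sum_le_sum fun i _ => h i
    _ = n * c := by simp

theorem mor_coord_le (x : E n) (i : Fin n) : |x i| ≤ ‖x‖ := by
  exact PiLp.norm_apply_le x i

theorem mor_sum {M : ℝ} (hM : (n : ℝ) < M) : ∃ C : ℝ≥0, ∀ k : ℕ,
    ∑' w : Fin n → ℤ, ENNReal.ofReal ((2 : ℝ) ^ (-(k : ℤ))) ^ n *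
      ENNReal.ofReal ((1 + (2 : ℝ) ^ (-(k : ℤ)) * ‖w‖) ^ (-M)) ≤ C := by
  have hM0 : 0 ≤ M := (Nat.cast_nonneg n).trans hM.le
  have hfin : (∫⁻ x : E n, ENNReal.ofReal ((1 + ‖x‖) ^ (-M))) < ⊤ :=
    finite_integral_one_add_norm (by simpa using hM)
  refine ⟨(ENNReal.ofReal (((n : ℝ) + 1) ^ M) *
    ∫⁻ x : E n, ENNReal.ofReal ((1 + ‖x‖) ^ (-M))).toNNReal, fun k => ?_⟩
  rw [ENNReal.coe_toNNReal (ENNReal.mul_ne_top ENNReal.ofReal_ne_top hfin.ne),
    ← lintegral_const_mul' _ _ ENNReal.ofReal_ne_top, mor_split (k : ℤ) 0]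
  refine ENNReal.tsum_le_tsum fun w => ?_
  rw [zero_add, ← mor_cube_vol (k : ℤ) w, mul_comm, ← setLIntegral_const]
  refine setLIntegral_mono' (mor_cube_meas _ _) fun x hx => ?_
  rw [← ENNReal.ofReal_mul (by positivity)]
  refine ENNReal.ofReal_le_ofReal ?_
  set s : ℝ := (2 : ℝ) ^ (-(k : ℤ)) with hs
  have hs0 : 0 < s := by positivity
  have hs1 : s ≤ 1 := by
    rw [hs, zpow_neg, zpow_natCast]
    exact inv_le_one_of_one_le₀ (one_le_pow₀ (by norm_num))
  have h1 : ∀ i, |x i| ≤ 1 + s * ‖w‖ := by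
    intro i
    obtain ⟨h3, h4⟩ := hx i
    rw [← hs] at h3 h4
    have h5 : |(w i : ℝ)| ≤ ‖w‖ := by
      have := norm_le_pi_norm w i
      rwa [Int.norm_eq_abs] at this
    have h6 : s * |(w i : ℝ)| ≤ s * ‖w‖ := mul_le_mul_of_nonneg_left h5 hs0.le
    have h7 : s * (w i : ℝ) ≤ s * |(w i : ℝ)| := mul_le_mul_of_nonneg_left (le_abs_self _) hs0.le
    have h8 : s * (-|(w i : ℝ)|) ≤ s * (w i : ℝ) := mul_le_mul_of_nonneg_left (neg_abs_le _) hs0.le
    rw [abs_le]
    constructor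
    · nlinarith
    · nlinarith
  have h2 := mor_norm_le x h1
  have hb0 : 0 < 1 + s * ‖w‖ := by positivity
  have h3 : (1 + ‖x‖) ≤ (n + 1) * (1 + s * ‖w‖) := by
    have : (1 : ℝ) ≤ 1 + s * ‖w‖ := by
      have : 0 ≤ s * ‖w‖ := by positivity
      linarith
    nlinarith
  have h4 : ((n + 1) * (1 + s * ‖w‖)) ^ (-M) ≤ (1 + ‖x‖) ^ (-M) :=
    Real.rpow_le_rpow_of_nonpos (by positivity) h3 (by linarith)
  rw [Real.mul_rpow (by positivity) hb0.le] at h4
  calc (1 + s * ‖w‖) ^ (-M) = ((n : ℝ) + 1) ^ M * (((n : ℝ) + 1) ^ (-M) * (1 + s * ‖w‖) ^ (-M)) := by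
        rw [← mul_assoc, ← Real.rpow_add (by positivity)]
        simp
    _ ≤ ((n : ℝ) + 1) ^ M * (1 + ‖x‖) ^ (-M) := by gcongr

/-- Distance of points in two cubes of the same level. -/
theorem mor_ker {J : ℤ} {l : ℕ} {s : ℝ} (hs0 : 0 ≤ s) (hs1 : s ≤ 1)
    (hs : s * (2 : ℝ) ^ J ≤ 2 ^ l) {v w : Fin n → ℤ} {x y : E n} (hx : x ∈ cube J v)
    (hy : y ∈ cube J (v + w)) : (1 + s * ‖w‖) / 2 ≤ 1 + 2 ^ l * ‖x - y‖ := by
  have h2J : (0 : ℝ) < 2 ^ J := by positivity
  have h1 : ‖w‖ ≤ 1 + (2 : ℝ) ^ J * ‖x - y‖ := by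
    rw [pi_norm_le_iff_of_nonneg (by positivity)]
    intro i
    rw [Int.norm_eq_abs]
    have h3 : |(x - y) i| ≤ ‖x - y‖ := mor_coord_le (x - y) i
    obtain ⟨ha, hb⟩ := hx i
    obtain ⟨hc, hd⟩ := hy i
    have h4 : (2 : ℝ) ^ (-J) * 2 ^ J = 1 := by
      rw [← zpow_add₀ (by norm_num)]; simp
    have ha' : (v i : ℝ) < x i * 2 ^ J := by
      have := mul_lt_mul_of_pos_right ha h2J
      calc (v i : ℝ) = 2 ^ (-J) * v i * 2 ^ J := by
            rw [mul_right_comm, h4, one_mul]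
        _ < _ := this
    have hb' : x i * 2 ^ J < v i + 1 := by
      have := mul_lt_mul_of_pos_right hb h2J
      calc x i * 2 ^ J < 2 ^ (-J) * (v i + 1) * 2 ^ J := this
        _ = v i + 1 := by rw [mul_right_comm, h4, one_mul]
    have hc' : ((v + w) i : ℝ) < y i * 2 ^ J := by
      have := mul_lt_mul_of_pos_right hc h2J
      calc ((v + w) i : ℝ) = 2 ^ (-J) * (v + w) i * 2 ^ J := by
            rw [mul_right_comm, h4, one_mul]
        _ < _ := this
    have hd' : y i * 2 ^ J < (v + w) i + 1 := by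
      have := mul_lt_mul_of_pos_right hd h2J
      calc y i * 2 ^ J < 2 ^ (-J) * ((v + w) i + 1) * 2 ^ J := this
        _ = (v + w) i + 1 := by rw [mul_right_comm, h4, one_mul]
    have h5 : (((v + w) i : ℤ) : ℝ) = v i + w i := by simp
    rw [h5] at hc' hd'
    have h6 : 2 ^ J * |(x - y) i| ≤ (2 : ℝ) ^ J * ‖x - y‖ := mul_le_mul_of_nonneg_left h3 h2J.le
    have h7 : (x - y) i = x i - y i := rfl
    rw [h7] at h6
    have h8 : x i - y i ≤ |x i - y i| := le_abs_self _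
    have h9 : -|x i - y i| ≤ x i - y i := neg_abs_le _
    rw [abs_le]
    constructor <;> nlinarith
  have h2 : s * ‖w‖ ≤ s * (1 + (2 : ℝ) ^ J * ‖x - y‖) := mul_le_mul_of_nonneg_left h1 hs0
  have h3 : s * 2 ^ J * ‖x - y‖ ≤ 2 ^ l * ‖x - y‖ := mul_le_mul_of_nonneg_right hs (norm_nonneg _)
  have h4 : 0 ≤ 2 ^ l * ‖x - y‖ := by positivity
  nlinarith

/-! ### Localisation -/

/-- The weights of the localisation. -/
noncomputable def mc (n : ℕ) (M : ℝ) (w : Fin n → ℤ) : ℝ≥0 :=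
  Real.toNNReal (((1 + ‖w‖) / 2) ^ (-(M / 2)))

theorem mor_mc_sum {M : ℝ} (hM : (n : ℝ) < M / 2) :
    ∃ S : ℝ≥0, ∑' w : Fin n → ℤ, (mc n M w : ℝ≥0∞) ≤ S := by
  obtain ⟨C, hC⟩ := mor_sum (n := n) hM
  refine ⟨Real.toNNReal ((2 : ℝ) ^ (M / 2)) * C, ?_⟩
  rw [ENNReal.coe_mul]
  refine le_trans ?_ (mul_le_mul_right (hC 0) _)
  rw [← ENNReal.tsum_mul_left]
  refine ENNReal.tsum_le_tsum fun w => ?_
  simp only [Nat.cast_zero, neg_zero, zpow_zero, ENNReal.ofReal_one, one_pow, one_mul]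
  change ENNReal.ofReal _ ≤ ENNReal.ofReal _ * _
  rw [← ENNReal.ofReal_mul (by positivity)]
  refine ENNReal.ofReal_le_ofReal (le_of_eq ?_)
  rw [Real.div_rpow (by positivity) (by norm_num), div_eq_mul_inv, ← Real.rpow_neg (by norm_num),
    neg_neg, mul_comm]

theorem mor_local {M : ℝ} (hM : 0 ≤ M) {J : ℤ} {l : ℕ} (hJ : J ≤ l) (h : E n → ℝ≥0∞)
    {v : Fin n → ℤ} {x : E n} (hx : x ∈ cube J v) :
    Av M l h x ≤ ∑' w : Fin n → ℤ, (mc n M w : ℝ≥0∞) *
      Av (M / 2) l ((cube J (v + w)).indicator h) x := by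
  rw [Av, mor_split J v]
  refine ENNReal.tsum_le_tsum fun w => ?_
  have h1 : Av (M / 2) l ((cube J (v + w)).indicator h) x = ∫⁻ y in cube J (v + w),
      ENNReal.ofReal ((2 : ℝ) ^ (l * n) * (1 + 2 ^ l * ‖x - y‖) ^ (-(M / 2))) * h y := by
    rw [Av, ← lintegral_indicator (mor_cube_meas _ _)]
    refine lintegral_congr fun y => ?_
    by_cases hy : y ∈ cube J (v + w)
    · simp [hy]
    · simp [hy]
  rw [h1, ← lintegral_const_mul' _ _ ENNReal.coe_ne_top]
  refine setLIntegral_mono' (mor_cube_meas _ _) fun y hy => ?_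
  rw [← mul_assoc]
  refine mul_le_mul_left ?_ _
  change _ ≤ ENNReal.ofReal _ * _
  rw [← ENNReal.ofReal_mul (by positivity)]
  refine ENNReal.ofReal_le_ofReal ?_
  have h2 : (1 + 1 * ‖w‖) / 2 ≤ 1 + 2 ^ l * ‖x - y‖ := by
    refine mor_ker zero_le_one le_rfl ?_ hx hy
    rw [one_mul, ← zpow_natCast]
    exact zpow_le_zpow_right₀ (by norm_num) hJ
  rw [one_mul] at h2
  have h3 : (1 + 2 ^ l * ‖x - y‖) ^ (-(M / 2)) ≤ ((1 + ‖w‖) / 2) ^ (-(M / 2)) :=
    Real.rpow_le_rpow_of_nonpos (by positivity) h2 (by linarith)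
  have h4 : (0 : ℝ) < 1 + 2 ^ l * ‖x - y‖ := by positivity
  have h5 : (1 + 2 ^ l * ‖x - y‖) ^ (-M) =
      (1 + 2 ^ l * ‖x - y‖) ^ (-(M / 2)) * (1 + 2 ^ l * ‖x - y‖) ^ (-(M / 2)) := by
    rw [← Real.rpow_add h4]
    congr 1
    ring
  rw [h5]
  calc (2 : ℝ) ^ (l * n) * ((1 + 2 ^ l * ‖x - y‖) ^ (-(M / 2)) *
        (1 + 2 ^ l * ‖x - y‖) ^ (-(M / 2)))
      ≤ (2 : ℝ) ^ (l * n) * (((1 + ‖w‖) / 2) ^ (-(M / 2)) *
        (1 + 2 ^ l * ‖x - y‖) ^ (-(M / 2))) := by gcongr
    _ = _ := by ring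

/-- Localised `L^P` bound for coarse cubes. -/
theorem mor_B1 {P : ℝ≥0∞} (hP : 1 ≤ P) {M : ℝ} (hM : (n : ℝ) < M / 2) :
    ∃ C : ℝ≥0, ∀ (J : ℤ) (l : ℕ), J ≤ l → ∀ (h : E n → ℝ≥0∞), Measurable h → ∀ v : Fin n → ℤ,
      eLpNorm (Av M l h) P (volume.restrict (cube J v)) ≤
        ∑' w : Fin n → ℤ, (mc n M w : ℝ≥0∞) *
          (C * eLpNorm h P (volume.restrict (cube J (v + w)))) := by
  obtain ⟨C, hC⟩ := av_Lp (n := n) hP hM
  have hM0 : 0 ≤ M := by
    have := Nat.cast_nonneg (α := ℝ) n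
    linarith
  refine ⟨C, fun J l hJ h hh v => ?_⟩
  have hm : ∀ w : Fin n → ℤ, Measurable (Av (M / 2) l ((cube J (v + w)).indicator h)) :=
    fun w => av_measurable _ _ _ (hh.indicator (mor_cube_meas _ _))
  calc eLpNorm (Av M l h) P (volume.restrict (cube J v))
      ≤ eLpNorm (fun x => ∑' w : Fin n → ℤ, (mc n M w : ℝ≥0∞) *
          Av (M / 2) l ((cube J (v + w)).indicator h) x) P (volume.restrict (cube J v)) :=
        mor_mono ((ae_restrict_iff' (mor_cube_meas _ _)).2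
          (Eventually.of_forall fun x hx => mor_local hM0 hJ h hx))
    _ ≤ ∑' w : Fin n → ℤ, eLpNorm (fun x => (mc n M w : ℝ≥0∞) *
          Av (M / 2) l ((cube J (v + w)).indicator h) x) P (volume.restrict (cube J v)) :=
        mor_tsum hP fun w => ((hm w).const_mul _).aemeasurable
    _ ≤ _ := by
        refine ENNReal.tsum_le_tsum fun w => ?_
        refine (mor_const_mul _ _).trans (mul_le_mul_right ?_ _)
        refine (eLpNorm_restrict_le _ _ _ _).trans ?_
        refine (hC l _ (hh.indicator (mor_cube_meas _ _))).trans (le_of_eq ?_)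
        rw [eLpNorm_indicator_eq_eLpNorm_restrict (mor_cube_meas _ _)]

/-- Final algebra. -/
theorem mor_final {ι : Type*} {r : ℝ} (hr : 0 < r) {W N X : ℝ≥0∞} (hW0 : W ≠ 0) (hWt : W ≠ ⊤)
    {S C : ℝ≥0} {c : ι → ℝ≥0∞} {Y : ι → ℝ≥0∞} (hc : ∑' w, c w ≤ S) (hY : ∀ w, W * Y w ≤ N)
    (hX : X ≤ ∑' w, c w * (C * Y w ^ r)) :
    W * X ^ (1 / r) ≤ ((S * C) ^ (1 / r) : ℝ≥0) * N := by
  have hr' : 0 ≤ 1 / r := by positivity
  have hY' : ∀ w, Y w ≤ W⁻¹ * N := by
    intro w
    calc Y w = W⁻¹ * (W * Y w) := by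
          rw [← mul_assoc, ENNReal.inv_mul_cancel hW0 hWt, one_mul]
      _ ≤ W⁻¹ * N := mul_le_mul_right (hY w) _
  have h1 : X ≤ S * C * (W⁻¹ * N) ^ r := by
    calc X ≤ ∑' w, c w * (C * Y w ^ r) := hX
      _ ≤ ∑' w, c w * (C * (W⁻¹ * N) ^ r) := by
          refine ENNReal.tsum_le_tsum fun w => ?_
          gcongr
          exact hY' w
      _ = (∑' w, c w) * (C * (W⁻¹ * N) ^ r) := ENNReal.tsum_mul_right
      _ ≤ S * (C * (W⁻¹ * N) ^ r) := by gcongr
      _ = _ := by rw [mul_assoc]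
  calc W * X ^ (1 / r) ≤ W * (S * C * (W⁻¹ * N) ^ r) ^ (1 / r) := by gcongr
    _ = W * ((S * C : ℝ≥0∞) ^ (1 / r) * (W⁻¹ * N)) := by
        rw [ENNReal.mul_rpow_of_nonneg _ _ hr', ← ENNReal.rpow_mul, mul_one_div_cancel hr.ne',
          ENNReal.rpow_one]
    _ = (W * W⁻¹) * ((S * C : ℝ≥0∞) ^ (1 / r) * N) := by ring
    _ = (S * C : ℝ≥0∞) ^ (1 / r) * N := by rw [ENNReal.mul_inv_cancel hW0 hWt, one_mul]
    _ = _ := by
        rw [← ENNReal.coe_mul, ← ENNReal.coe_rpow_of_nonneg _ hr']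

theorem mor_wt_ne_zero (τ : ℝ) (J : ℤ) : wt n τ J ≠ 0 := by
  rw [wt, Ne, ENNReal.ofReal_eq_zero, not_le]
  positivity

theorem mor_wt_ne_top (τ : ℝ) (J : ℤ) : wt n τ J ≠ ⊤ := ENNReal.ofReal_ne_top

/-! ### The three scales -/

theorem mor_exp_one {r : ℝ} (hr : 0 < r) (p : ℝ≥0∞) :
    p * ENNReal.ofReal (1 / r) * ENNReal.ofReal r = p := by
  rw [mul_assoc, ← ENNReal.ofReal_mul (by positivity), one_div_mul_cancel hr.ne', ENNReal.ofReal_one,
    mul_one]

theorem mor_exp_lt {r : ℝ} (hr : 0 < r) {p : ℝ≥0∞} (h : ENNReal.ofReal r < p) :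
    1 < p * ENNReal.ofReal (1 / r) := by
  have h1 : (1 : ℝ≥0∞) = ENNReal.ofReal r * ENNReal.ofReal (1 / r) := by
    rw [← ENNReal.ofReal_mul hr.le, mul_one_div_cancel hr.ne', ENNReal.ofReal_one]
  rw [h1]
  have h2 : ENNReal.ofReal (1 / r) ≠ 0 := by
    rw [Ne, ENNReal.ofReal_eq_zero, not_le]
    positivity
  exact (ENNReal.mul_lt_mul_iff_left h2 ENNReal.ofReal_ne_top).2 h

theorem mor_meas_inner {G : ℕ → E n → ℝ≥0∞} (hG : ∀ j, Measurable (G j)) (Q : ℝ≥0∞)
    (S : Set ℕ) :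
    Measurable (fun x => eLpNorm (fun j => G j x) Q (Measure.count.restrict S)) := by
  by_cases hQ0 : Q = 0
  · subst hQ0
    simp
  by_cases hQt : Q = ⊤
  · subst hQt
    have h1 : ∀ x, eLpNorm (fun j => G j x) ⊤ (Measure.count.restrict S) = ⨆ j ∈ S, G j x := by
      intro x
      rw [eLpNorm_exponent_top]
      simp only [eLpNormEssSup, enorm_eq_self]
      refine le_antisymm ?_ ?_
      · refine essSup_le_of_ae_le _ ?_
        refine (ae_restrict_iff' MeasurableSet.of_discrete).2 (Eventually.of_forall fun j hj => ?_)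
        exact le_iSup₂ (f := fun j (_ : j ∈ S) => G j x) j hj
      · refine iSup₂_le fun j hj => ?_
        have h2 : ∀ᵐ i ∂(Measure.count.restrict S : Measure ℕ),
            G i x ≤ essSup (fun j => G j x) (Measure.count.restrict S) := ENNReal.ae_le_essSup _
        by_contra hcon
        have h3 : (Measure.count.restrict S : Measure ℕ) {j} = 0 := by
          refine measure_mono_null ?_ (ae_iff.1 h2)
          intro i hi
          rw [mem_singleton_iff] at hi
          subst hi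
          exact hcon
        rw [Measure.restrict_apply MeasurableSet.of_discrete,
          inter_eq_left.2 (singleton_subset_iff.2 hj)] at h3
        simp at h3
    simp only [h1]
    exact Measurable.iSup fun j => Measurable.iSup fun _ => hG j
  · have h1 : ∀ x, eLpNorm (fun j => G j x) Q (Measure.count.restrict S) =
        (∑' j, S.indicator (fun j => G j x ^ Q.toReal) j) ^ (1 / Q.toReal) := by
      intro x
      rw [eLpNorm_eq_lintegral_rpow_enorm_toReal hQ0 hQt]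
      simp only [enorm_eq_self]
      rw [← lintegral_indicator MeasurableSet.of_discrete, lintegral_count]
    simp only [h1]
    refine Measurable.pow_const ?_ _
    refine Measurable.tsum fun j => ?_
    by_cases hj : j ∈ S
    · simp only [Set.indicator_of_mem hj]
      exact (hG j).pow_const _
    · simp only [Set.indicator_of_notMem hj]
      exact measurable_const

theorem mor_meas_B {α : Type*} [MeasurableSpace α] (f : ℕ → α) : Measurable f :=
  measurable_from_top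

/-- Scale `B`. -/
theorem mor_scaleB {p q : ℝ≥0∞} {τ r M : ℝ} (hr : 0 < r)
    (hrp : ENNReal.ofReal r < p) (hrq : ENNReal.ofReal r < q) (hM : (n : ℝ) < M / 2) :
    ∃ C : ℝ≥0, ∀ b : ℕ → E n → ℝ≥0∞, (∀ l, Measurable (b l)) →
      seqNorm .B p q τ (fun l x => (Av M l (fun y => b l y ^ r) x) ^ (1 / r)) ≤
        C * seqNorm .B p q τ b := by
  obtain ⟨S, hS⟩ := mor_mc_sum (n := n) hM
  obtain ⟨C, hC⟩ := mor_B1 (n := n) (mor_exp_lt hr hrp).le hM
  refine ⟨(S * C) ^ (1 / r), fun b hb => ?_⟩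
  have hr' : 0 < 1 / r := by positivity
  have hbr : ∀ l, Measurable fun y => b l y ^ r := fun l => (hb l).pow_const r
  set N := seqNorm .B p q τ b with hN
  change (⨆ (J : ℤ) (v : Fin n → ℤ), wt n τ J *
      eLpNorm (fun j : ℕ => eLpNorm (fun x => (Av M j (fun y => b j y ^ r) x) ^ (1 / r)) p
        (volume.restrict (cube J v))) q (Measure.count.restrict {j : ℕ | J ≤ (j : ℤ)})) ≤ _
  refine iSup₂_le fun J v => ?_
  have hNw : ∀ w : Fin n → ℤ, wt n τ J * eLpNorm (fun j : ℕ => eLpNorm (b j) p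
      (volume.restrict (cube J (v + w)))) q (Measure.count.restrict {j : ℕ | J ≤ (j : ℤ)}) ≤ N :=
    fun w => le_iSup₂ (f := fun (J : ℤ) (v : Fin n → ℤ) => wt n τ J *
      eLpNorm (fun j : ℕ => eLpNorm (b j) p (volume.restrict (cube J v))) q
        (Measure.count.restrict {j : ℕ | J ≤ (j : ℤ)})) J (v + w)
  simp only [mor_rpow hr']
  refine mor_final hr (mor_wt_ne_zero τ J) (mor_wt_ne_top τ J) hS hNw ?_
  calc eLpNorm (fun j : ℕ => eLpNorm (Av M j (fun y => b j y ^ r)) (p * ENNReal.ofReal (1 / r))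
        (volume.restrict (cube J v))) (q * ENNReal.ofReal (1 / r))
        (Measure.count.restrict {j : ℕ | J ≤ (j : ℤ)})
      ≤ eLpNorm (fun j : ℕ => ∑' w : Fin n → ℤ, (mc n M w : ℝ≥0∞) *
          (C * eLpNorm (fun y => b j y ^ r) (p * ENNReal.ofReal (1 / r))
            (volume.restrict (cube J (v + w))))) (q * ENNReal.ofReal (1 / r))
        (Measure.count.restrict {j : ℕ | J ≤ (j : ℤ)}) := by
        refine mor_mono ((ae_restrict_iff' MeasurableSet.of_discrete).2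
          (Eventually.of_forall fun j hj => ?_))
        exact hC J j hj _ (hbr j) v
    _ ≤ ∑' w : Fin n → ℤ, eLpNorm (fun j : ℕ => (mc n M w : ℝ≥0∞) *
          (C * eLpNorm (fun y => b j y ^ r) (p * ENNReal.ofReal (1 / r))
            (volume.restrict (cube J (v + w))))) (q * ENNReal.ofReal (1 / r))
        (Measure.count.restrict {j : ℕ | J ≤ (j : ℤ)}) :=
        mor_tsum (mor_exp_lt hr hrq).le fun w => (mor_meas_B _).aemeasurable
    _ ≤ _ := by
        refine ENNReal.tsum_le_tsum fun w => ?_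
        refine (mor_const_mul _ _).trans (mul_le_mul_right ?_ _)
        refine (mor_const_mul _ _).trans (mul_le_mul_right ?_ _)
        simp only [mor_rpow hr, mor_exp_one hr]
        exact le_rfl

/-- Scale `F`. -/
theorem mor_scaleF [NeZero n] {p q : ℝ≥0∞} {τ r M : ℝ} (hr : 0 < r) (hp : p ≠ ⊤)
    (hrp : ENNReal.ofReal r < p) (hrq : ENNReal.ofReal r < q) (hM : (n : ℝ) < M / 2) :
    ∃ C : ℝ≥0, ∀ b : ℕ → E n → ℝ≥0∞, (∀ l, Measurable (b l)) →
      seqNorm .F p q τ (fun l x => (Av M l (fun y => b l y ^ r) x) ^ (1 / r)) ≤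
        C * seqNorm .F p q τ b := by
  obtain ⟨S, hS⟩ := mor_mc_sum (n := n) hM
  obtain ⟨C, hC⟩ := av_vv (n := n) (mor_exp_lt hr hrp)
    (ENNReal.mul_ne_top hp ENNReal.ofReal_ne_top) (mor_exp_lt hr hrq) hM
  have hM0 : 0 ≤ M := by
    have := Nat.cast_nonneg (α := ℝ) n
    linarith
  refine ⟨(S * C) ^ (1 / r), fun b hb => ?_⟩
  have hr' : 0 < 1 / r := by positivity
  have hbr : ∀ l, Measurable fun y => b l y ^ r := fun l => (hb l).pow_const r
  set N := seqNorm .F p q τ b with hN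
  change (⨆ (J : ℤ) (v : Fin n → ℤ), wt n τ J *
      eLpNorm (fun x : E n => eLpNorm (fun j : ℕ => (Av M j (fun y => b j y ^ r) x) ^ (1 / r)) q
        (Measure.count.restrict {j : ℕ | J ≤ (j : ℤ)})) p (volume.restrict (cube J v))) ≤ _
  refine iSup₂_le fun J v => ?_
  have hNw : ∀ w : Fin n → ℤ, wt n τ J * eLpNorm (fun x : E n => eLpNorm (fun j : ℕ => b j x) q
        (Measure.count.restrict {j : ℕ | J ≤ (j : ℤ)})) p (volume.restrict (cube J (v + w))) ≤ N :=
    fun w => le_iSup₂ (f := fun (J : ℤ) (v : Fin n → ℤ) => wt n τ J *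
      eLpNorm (fun x : E n => eLpNorm (fun j : ℕ => b j x) q
        (Measure.count.restrict {j : ℕ | J ≤ (j : ℤ)})) p (volume.restrict (cube J v))) J (v + w)
  simp only [mor_rpow hr']
  refine mor_final hr (mor_wt_ne_zero τ J) (mor_wt_ne_top τ J) hS hNw ?_
  set ν : Measure ℕ := Measure.count.restrict {j : ℕ | J ≤ (j : ℤ)} with hν
  set P := p * ENNReal.ofReal (1 / r) with hP
  set Q := q * ENNReal.ofReal (1 / r) with hQ
  have hP1 : 1 ≤ P := (mor_exp_lt hr hrp).le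
  have hQ1 : 1 ≤ Q := (mor_exp_lt hr hrq).le
  have hind : ∀ (w : Fin n → ℤ) (j : ℕ), Measurable
      ((cube J (v + w)).indicator fun y => b j y ^ r) :=
    fun w j => (hbr j).indicator (mor_cube_meas _ _)
  have hm : ∀ (w : Fin n → ℤ) (j : ℕ), Measurable
      (Av (M / 2) j ((cube J (v + w)).indicator fun y => b j y ^ r)) :=
    fun w j => av_measurable _ _ _ (hind w j)
  calc eLpNorm (fun x : E n => eLpNorm (fun j : ℕ => Av M j (fun y => b j y ^ r) x) Q ν) P
        (volume.restrict (cube J v))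
      ≤ eLpNorm (fun x : E n => ∑' w : Fin n → ℤ, (mc n M w : ℝ≥0∞) *
          eLpNorm (fun j : ℕ => Av (M / 2) j ((cube J (v + w)).indicator fun y => b j y ^ r) x)
            Q ν) P (volume.restrict (cube J v)) := by
        refine mor_mono ((ae_restrict_iff' (mor_cube_meas _ _)).2
          (Eventually.of_forall fun x hx => ?_))
        calc eLpNorm (fun j : ℕ => Av M j (fun y => b j y ^ r) x) Q ν
            ≤ eLpNorm (fun j : ℕ => ∑' w : Fin n → ℤ, (mc n M w : ℝ≥0∞) *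
              Av (M / 2) j ((cube J (v + w)).indicator fun y => b j y ^ r) x) Q ν := by
              refine mor_mono ((ae_restrict_iff' MeasurableSet.of_discrete).2
                (Eventually.of_forall fun j hj => ?_))
              exact mor_local hM0 hj _ hx
          _ ≤ ∑' w : Fin n → ℤ, eLpNorm (fun j : ℕ => (mc n M w : ℝ≥0∞) *
              Av (M / 2) j ((cube J (v + w)).indicator fun y => b j y ^ r) x) Q ν :=
              mor_tsum hQ1 fun w => (mor_meas_B _).aemeasurable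
          _ ≤ _ := ENNReal.tsum_le_tsum fun w => mor_const_mul _ _
    _ ≤ ∑' w : Fin n → ℤ, eLpNorm (fun x : E n => (mc n M w : ℝ≥0∞) *
          eLpNorm (fun j : ℕ => Av (M / 2) j ((cube J (v + w)).indicator fun y => b j y ^ r) x)
            Q ν) P (volume.restrict (cube J v)) :=
        mor_tsum hP1 fun w => ((mor_meas_inner (hm w) Q _).const_mul _).aemeasurable
    _ ≤ _ := by
        refine ENNReal.tsum_le_tsum fun w => ?_
        refine (mor_const_mul _ _).trans (mul_le_mul_right ?_ _)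
        refine (eLpNorm_restrict_le _ _ _ _).trans ?_
        refine (hC _ (hind w) _).trans (mul_le_mul_right ?_ _)
        have h1 : (fun x => eLpNorm (fun l : ℕ => (cube J (v + w)).indicator
            (fun y => b l y ^ r) x) Q (Measure.count.restrict {j : ℕ | J ≤ (j : ℤ)})) =
            (cube J (v + w)).indicator (fun x => eLpNorm (fun l : ℕ => b l x ^ r) Q
              (Measure.count.restrict {j : ℕ | J ≤ (j : ℤ)})) := by
          funext x
          by_cases hx : x ∈ cube J (v + w)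
          · simp only [Set.indicator_of_mem hx]
          · simp only [Set.indicator_of_notMem hx]
            exact eLpNorm_zero'
        rw [h1, eLpNorm_indicator_eq_eLpNorm_restrict (mor_cube_meas _ _)]
        simp only [mor_rpow hr, hP, hQ, mor_exp_one hr]
        exact le_rfl

/-- `L^P` bound for fine cubes. -/
theorem mor_N1 {P : ℝ≥0∞} (hP : 1 ≤ P) {M : ℝ} (hM : (n : ℝ) < M) :
    ∃ C : ℝ≥0, ∀ (J : ℤ) (l : ℕ), (l : ℤ) ≤ J → ∀ (h : E n → ℝ≥0∞), Measurable h →
      ∀ Y : ℝ≥0∞, (∀ w : Fin n → ℤ, eLpNorm h P (volume.restrict (cube J w)) ≤ Y) →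
      ∀ v : Fin n → ℤ, eLpNorm (Av M l h) P (volume.restrict (cube J v)) ≤ C * Y := by
  obtain ⟨C, hC⟩ := mor_sum (n := n) hM
  have hM0 : 0 ≤ M := by
    have := Nat.cast_nonneg (α := ℝ) n
    linarith
  have hP0 : P ≠ 0 := (zero_lt_one.trans_le hP).ne'
  refine ⟨Real.toNNReal ((2 : ℝ) ^ M) * C, fun J l hJ h hh Y hY v => ?_⟩
  obtain ⟨k, hk⟩ := Int.le.dest hJ
  set V : ℝ≥0∞ := ENNReal.ofReal ((2 : ℝ) ^ (-J)) ^ n with hV
  have hV0 : V ≠ 0 := by
    rw [hV]
    refine pow_ne_zero _ ?_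
    rw [Ne, ENNReal.ofReal_eq_zero, not_le]
    positivity
  have hVt : V ≠ ⊤ := ENNReal.pow_ne_top ENNReal.ofReal_ne_top
  have hvol : ∀ w : Fin n → ℤ, volume (cube J w) = V := fun w => mor_cube_vol J w
  set s : ℝ := (2 : ℝ) ^ (-(k : ℤ)) with hs
  have hs0 : 0 < s := by positivity
  have hs1 : s ≤ 1 := by
    rw [hs, zpow_neg, zpow_natCast]
    exact inv_le_one_of_one_le₀ (one_le_pow₀ (by norm_num))
  have hsl : s * (2 : ℝ) ^ J = 2 ^ l := by
    rw [hs, ← zpow_add₀ (by norm_num), ← hk, ← zpow_natCast]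
    congr 1
    ring
  -- integral of `h` over a cube
  have h1 : ∀ w : Fin n → ℤ, ∫⁻ y in cube J w, h y ≤ Y * V ^ (1 - 1 / P.toReal) := by
    intro w
    have h2 := eLpNorm_le_eLpNorm_mul_rpow_measure_univ (μ := volume.restrict (cube J w)) (f := h)
      hP hh.aestronglyMeasurable
    rw [eLpNorm_one_eq_lintegral_enorm] at h2
    simp only [enorm_eq_self, Measure.restrict_apply_univ, hvol, ENNReal.toReal_one, div_one] at h2
    exact h2.trans (mul_le_mul_left (hY w) _)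
  -- pointwise bound
  have h2 : ∀ x ∈ cube J v, Av M l h x ≤
      (Real.toNNReal ((2 : ℝ) ^ M) * C : ℝ≥0) * V⁻¹ * (Y * V ^ (1 - 1 / P.toReal)) := by
    intro x hx
    calc Av M l h x = ∑' w : Fin n → ℤ, ∫⁻ y in cube J (v + w),
          ENNReal.ofReal ((2 : ℝ) ^ (l * n) * (1 + 2 ^ l * ‖x - y‖) ^ (-M)) * h y := by
          rw [Av, mor_split J v]
      _ ≤ ∑' w : Fin n → ℤ, ENNReal.ofReal ((2 : ℝ) ^ (l * n) * ((1 + s * ‖w‖) / 2) ^ (-M)) *
          ∫⁻ y in cube J (v + w), h y := by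
          refine ENNReal.tsum_le_tsum fun w => ?_
          rw [← lintegral_const_mul' _ _ ENNReal.ofReal_ne_top]
          refine setLIntegral_mono' (mor_cube_meas _ _) fun y hy => ?_
          refine mul_le_mul_left (ENNReal.ofReal_le_ofReal ?_) _
          have h3 := mor_ker hs0.le hs1 hsl.le hx hy
          have h4 : (1 + 2 ^ l * ‖x - y‖) ^ (-M) ≤ ((1 + s * ‖w‖) / 2) ^ (-M) :=
            Real.rpow_le_rpow_of_nonpos (by positivity) h3 (by linarith)
          gcongr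
      _ ≤ ∑' w : Fin n → ℤ, ENNReal.ofReal ((2 : ℝ) ^ (l * n) * ((1 + s * ‖w‖) / 2) ^ (-M)) *
          (Y * V ^ (1 - 1 / P.toReal)) := by
          refine ENNReal.tsum_le_tsum fun w => ?_
          gcongr
          exact h1 _
      _ = (∑' w : Fin n → ℤ, ENNReal.ofReal ((2 : ℝ) ^ (l * n) * ((1 + s * ‖w‖) / 2) ^ (-M))) *
          (Y * V ^ (1 - 1 / P.toReal)) := ENNReal.tsum_mul_right
      _ ≤ _ := by
          refine mul_le_mul_left ?_ _
          have h5 : ∀ w : Fin n → ℤ, ENNReal.ofReal ((2 : ℝ) ^ (l * n) *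
              ((1 + s * ‖w‖) / 2) ^ (-M)) = ENNReal.ofReal ((2 : ℝ) ^ M) * V⁻¹ *
              (ENNReal.ofReal s ^ n * ENNReal.ofReal ((1 + s * ‖w‖) ^ (-M))) := by
            intro w
            have h6 : V⁻¹ = ENNReal.ofReal ((2 : ℝ) ^ J) ^ n := by
              rw [hV, ENNReal.inv_pow]
              congr 1
              rw [← ENNReal.ofReal_inv_of_pos (by positivity), zpow_neg, inv_inv]
            rw [h6, ← ENNReal.ofReal_pow (by positivity), ← ENNReal.ofReal_pow (by positivity),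
              ← ENNReal.ofReal_mul (by positivity), ← ENNReal.ofReal_mul (by positivity),
              ← ENNReal.ofReal_mul (by positivity)]
            congr 1
            rw [Real.div_rpow (by positivity) (by norm_num), div_eq_mul_inv,
              ← Real.rpow_neg (by norm_num), neg_neg, pow_mul, ← hsl, mul_pow]
            ring
          simp only [h5]
          rw [ENNReal.tsum_mul_left, ENNReal.coe_mul]
          calc ENNReal.ofReal ((2 : ℝ) ^ M) * V⁻¹ * ∑' w : Fin n → ℤ,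
                ENNReal.ofReal s ^ n * ENNReal.ofReal ((1 + s * ‖w‖) ^ (-M))
              ≤ ENNReal.ofReal ((2 : ℝ) ^ M) * V⁻¹ * C := by
                gcongr
                exact hC k
            _ = _ := by
                change ENNReal.ofReal ((2 : ℝ) ^ M) * V⁻¹ * C = ENNReal.ofReal ((2 : ℝ) ^ M) * C * V⁻¹
                ring
  refine (mor_mono ((ae_restrict_iff' (mor_cube_meas _ _)).2
    (Eventually.of_forall h2))).trans ?_
  have hμ : (volume.restrict (cube J v) : Measure (E n)) ≠ 0 := by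
    intro h0
    have := congrArg (fun μ : Measure (E n) => μ univ) h0
    simp only [Measure.restrict_apply_univ, hvol] at this
    exact hV0 this
  rw [eLpNorm_const _ hP0 hμ, Measure.restrict_apply_univ, hvol, enorm_eq_self]
  refine le_of_eq ?_
  calc (Real.toNNReal ((2 : ℝ) ^ M) * C : ℝ≥0) * V⁻¹ * (Y * V ^ (1 - 1 / P.toReal)) *
        V ^ (1 / P.toReal)
      = (Real.toNNReal ((2 : ℝ) ^ M) * C : ℝ≥0) * Y *
          (V⁻¹ * (V ^ (1 - 1 / P.toReal) * V ^ (1 / P.toReal))) := by ring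
    _ = _ := by
        rw [← ENNReal.rpow_add _ _ hV0 hVt, sub_add_cancel, ENNReal.rpow_one,
          ENNReal.inv_mul_cancel hV0 hVt, mul_one]

/-- Scale `N`. -/
theorem mor_scaleN {p q : ℝ≥0∞} {τ r M : ℝ} (hr : 0 < r)
    (hrp : ENNReal.ofReal r < p) (hM : (n : ℝ) < M / 2) :
    ∃ C : ℝ≥0, ∀ b : ℕ → E n → ℝ≥0∞, (∀ l, Measurable (b l)) →
      seqNorm .N p q τ (fun l x => (Av M l (fun y => b l y ^ r) x) ^ (1 / r)) ≤
        C * seqNorm .N p q τ b := by
  obtain ⟨S, hS⟩ := mor_mc_sum (n := n) hM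
  obtain ⟨C, hC⟩ := mor_B1 (n := n) (mor_exp_lt hr hrp).le hM
  have hM' : (n : ℝ) < M := by
    have := Nat.cast_nonneg (α := ℝ) n
    linarith
  obtain ⟨C', hC'⟩ := mor_N1 (n := n) (mor_exp_lt hr hrp).le hM'
  refine ⟨max ((S * C) ^ (1 / r)) ((1 * C') ^ (1 / r)), fun b hb => ?_⟩
  have hr' : 0 < 1 / r := by positivity
  have hbr : ∀ l, Measurable fun y => b l y ^ r := fun l => (hb l).pow_const r
  change eLpNorm (fun j : ℕ => ⨆ (J : ℤ) (v : Fin n → ℤ), wt n τ J *
      eLpNorm (fun x => (Av M j (fun y => b j y ^ r) x) ^ (1 / r)) p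
        (volume.restrict (cube J v))) q Measure.count ≤
      _ * eLpNorm (fun j : ℕ => ⨆ (J : ℤ) (v : Fin n → ℤ), wt n τ J *
      eLpNorm (b j) p (volume.restrict (cube J v))) q Measure.count
  refine le_trans (mor_mono (Eventually.of_forall fun j => ?_)) (mor_const_mul _ _)
  set N := ⨆ (J : ℤ) (v : Fin n → ℤ), wt n τ J *
      eLpNorm (b j) p (volume.restrict (cube J v)) with hN
  refine iSup₂_le fun J v => ?_
  have hNw : ∀ w : Fin n → ℤ, wt n τ J * eLpNorm (b j) p (volume.restrict (cube J w)) ≤ N :=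
    fun w => le_iSup₂ (f := fun (J : ℤ) (v : Fin n → ℤ) => wt n τ J *
      eLpNorm (b j) p (volume.restrict (cube J v))) J w
  rw [mor_rpow hr']
  rcases le_total J (j : ℤ) with hJ | hJ
  · refine (mor_final hr (mor_wt_ne_zero τ J) (mor_wt_ne_top τ J) hS
      (fun w => hNw (v + w)) ?_).trans (mul_le_mul_left (ENNReal.coe_le_coe.2 (le_max_left _ _)) _)
    refine (hC J j hJ _ (hbr j) v).trans (le_of_eq ?_)
    simp only [mor_rpow hr, mor_exp_one hr]
  · have h1 : ∑' _w : Unit, (1 : ℝ≥0∞) ≤ ((1 : ℝ≥0) : ℝ≥0∞) := by simp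
    refine (mor_final (ι := Unit) (c := fun _ => 1) (Y := fun _ => (wt n τ J)⁻¹ * N) hr
      (mor_wt_ne_zero τ J) (mor_wt_ne_top τ J) h1
      (fun w => ?_) ?_).trans (mul_le_mul_left (ENNReal.coe_le_coe.2 (le_max_right _ _)) _)
    · rw [← mul_assoc, ENNReal.mul_inv_cancel (mor_wt_ne_zero τ J) (mor_wt_ne_top τ J), one_mul]
    · simp only [one_mul, tsum_fintype, Finset.univ_unique, Finset.sum_const, Finset.card_singleton,
        one_smul]
      refine hC' J j hJ _ (hbr j) _ (fun w => ?_) v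
      rw [mor_rpow hr, mor_exp_one hr]
      refine ENNReal.rpow_le_rpow ?_ hr.le
      calc eLpNorm (b j) p (volume.restrict (cube J w))
          = (wt n τ J)⁻¹ * (wt n τ J * eLpNorm (b j) p (volume.restrict (cube J w))) := by
            rw [← mul_assoc, ENNReal.inv_mul_cancel (mor_wt_ne_zero τ J) (mor_wt_ne_top τ J),
              one_mul]
        _ ≤ _ := mul_le_mul_right (hNw w) _

/-- The averaging operators are bounded for the sequence quasi-norms. -/
theorem seqNorm_av [NeZero n] (A : Scale) {p q : ℝ≥0∞} {τ r M : ℝ} (hτ : 0 ≤ τ) (hr : 0 < r)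
    (hrp : ENNReal.ofReal r < p) (hrq : ENNReal.ofReal r < q) (hAp : A = Scale.F → p ≠ ⊤)
    (hM : 2 * (n : ℝ) + 2 < M) :
    ∃ C : ℝ≥0, ∀ b : ℕ → E n → ℝ≥0∞, (∀ l, Measurable (b l)) →
      seqNorm A p q τ (fun l x => (Av M l (fun y => b l y ^ r) x) ^ (1 / r)) ≤
        C * seqNorm A p q τ b := by
  have _ := hτ
  have hM' : (n : ℝ) < M / 2 := by linarith
  cases A with
  | B => exact mor_scaleB hr hrp hrq hM'
  | F => exact mor_scaleF hr (hAp rfl) hrp hrq hM'
  | N => exact mor_scaleN hr hrp hM'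

end MP6db0a9
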