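import Pool.Agent.Lib_MP_6db0a9_an.Dist
import Pool.Agent.Lib_MP_6db0a9_an.LP

/-!
# Peetre's maximal inequality
-/

open MeasureTheory SchwartzMap Set Filter Topology
open scoped ENNReal NNReal FourierTransform LineDeriv ContDiff

namespace MP6db0a9

variable {n : ℕ}

theorem pee_div (A : ℝ≥0∞) {p : ℝ} (hp : 0 < p) :
    A / ENNReal.ofReal p = A * ENNReal.ofReal p⁻¹ := by
  rw [div_eq_mul_inv, ENNReal.ofReal_inv_of_pos hp]

theorem pee_triangle (l : ℕ) (x y z : E n) :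
    1 + 2 ^ l * ‖x - z‖ ≤ (1 + 2 ^ l * ‖x - y‖) * (1 + 2 ^ l * ‖y - z‖) := by
  have h1 : ‖x - z‖ ≤ ‖x - y‖ + ‖y - z‖ := norm_sub_le_norm_sub_add_norm_sub x y z
  have h2 : (0 : ℝ) < 2 ^ l := by positivity
  have h3 : 0 ≤ ‖x - y‖ := norm_nonneg _
  have h4 : 0 ≤ ‖y - z‖ := norm_nonneg _
  have h5 : 0 ≤ (2 ^ l * ‖x - y‖) * (2 ^ l * ‖y - z‖) := by positivity
  nlinarith [mul_le_mul_of_nonneg_left h1 h2.le]

theorem pet_shift (L0 : 𝓢(E n, ℂ)) (N : ℕ) (u : 𝓢'(E n, ℂ)) (l : ℕ) (x y : E n) :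
    pet L0 N u l y ≤ ENNReal.ofReal ((1 + 2 ^ l * ‖x - y‖) ^ N) * pet L0 N u l x := by
  simp only [pet]
  refine iSup_le fun z => ?_
  have hP : 0 < (1 + 2 ^ l * ‖y - z‖) ^ N := by positivity
  have hR : 0 < (1 + 2 ^ l * ‖x - z‖) ^ N := by positivity
  have hQ : 0 < (1 + 2 ^ l * ‖x - y‖) ^ N := by positivity
  refine le_trans ?_ (mul_le_mul_right (le_iSup (fun z : E n =>
    ‖cv u (lam L0 l) z‖ₑ / ENNReal.ofReal ((1 + 2 ^ l * ‖x - z‖) ^ N)) z) _)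
  rw [pee_div _ hP, pee_div _ hR, mul_left_comm, ← ENNReal.ofReal_mul hQ.le]
  refine mul_le_mul_right (ENNReal.ofReal_le_ofReal ?_) _
  rw [← div_eq_mul_inv, inv_eq_one_div, div_le_div_iff₀ hP hR, one_mul, ← mul_pow]
  exact pow_le_pow_left₀ (by positivity) (pee_triangle l x y z) N

theorem pet_measurable (L0 : 𝓢(E n, ℂ)) (N : ℕ) (u : 𝓢'(E n, ℂ)) (l : ℕ) :
    Measurable (pet L0 N u l) := by
  refine LowerSemicontinuous.measurable ?_
  have : pet L0 N u l = fun x => ⨆ z : E n,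
      ‖cv u (lam L0 l) z‖ₑ * ENNReal.ofReal ((1 + 2 ^ l * ‖x - z‖) ^ N)⁻¹ := by
    funext x
    simp only [pet]
    refine iSup_congr fun z => ?_
    rw [pee_div _ (by positivity)]
  rw [this]
  refine lowerSemicontinuous_iSup fun z => Continuous.lowerSemicontinuous ?_
  refine (ENNReal.continuous_const_mul (enorm_ne_top)).comp ?_
  refine ENNReal.continuous_ofReal.comp ?_
  refine Continuous.inv₀ (by fun_prop) fun x => by positivity

/-- Schwartz decay -/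
theorem pee_decay (f : 𝓢(E n, ℂ)) (K : ℕ) :
    ∃ C : ℝ, 0 ≤ C ∧ ∀ x, ‖f x‖ ≤ C * ((1 + ‖x‖) ^ K)⁻¹ := by
  refine ⟨2 ^ K * (Finset.Iic (K, 0)).sup (fun m => SchwartzMap.seminorm ℝ m.1 m.2) f,
    by positivity, fun x => ?_⟩
  have h := SchwartzMap.one_add_le_sup_seminorm_apply (𝕜 := ℝ) (m := (K, 0)) (k := K) (n := 0)
    le_rfl le_rfl f x
  rw [norm_iteratedFDeriv_zero] at h
  rw [← div_eq_mul_inv, le_div_iff₀ (by positivity), mul_comm]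
  exact h

/-- uniform decay of the dilated family -/
theorem pee_fam_decay (f g : 𝓢(E n, ℂ)) (K : ℕ) :
    ∃ C : ℝ, 0 ≤ C ∧ ∀ (l : ℕ) (w : E n), ‖fam f g l w‖ ≤
      C * (2 ^ (l * n) * ((1 + 2 ^ l * ‖w‖) ^ K)⁻¹) := by
  obtain ⟨C1, hC1, h1⟩ := pee_decay f K
  obtain ⟨C2, hC2, h2⟩ := pee_decay g K
  refine ⟨max C1 (C2 * 2 ^ K), le_max_of_le_left hC1, fun l w => ?_⟩
  cases l with
  | zero =>
    simp only [fam, zero_mul, pow_zero, one_mul]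
    exact (h1 w).trans (mul_le_mul_of_nonneg_right (le_max_left _ _) (by positivity))
  | succ l =>
    simp only [fam]
    rw [dilS_apply (by positivity), norm_mul, norm_pow]
    have e1 : ‖((2 ^ l : ℝ) : ℂ)‖ = 2 ^ l := by
      rw [Complex.norm_real, Real.norm_of_nonneg (by positivity)]
    rw [e1, ← pow_mul]
    have e2 := h2 ((2 ^ l : ℝ) • w)
    rw [norm_smul, Real.norm_of_nonneg (by positivity : (0 : ℝ) ≤ 2 ^ l)] at e2
    have e3 : ((1 + 2 ^ l * ‖w‖) ^ K)⁻¹ ≤ 2 ^ K * ((1 + 2 ^ (l + 1) * ‖w‖) ^ K)⁻¹ := by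
      rw [← div_eq_mul_inv, inv_eq_one_div, div_le_div_iff₀ (by positivity) (by positivity),
        one_mul, ← mul_pow]
      refine pow_le_pow_left₀ (by positivity) ?_ K
      rw [pow_succ]
      nlinarith [norm_nonneg w]
    have e4 : (2 : ℝ) ^ (l * n) ≤ 2 ^ ((l + 1) * n) :=
      pow_le_pow_right₀ (by norm_num) (Nat.mul_le_mul_right _ (Nat.le_succ l))
    calc 2 ^ (l * n) * ‖g ((2 ^ l : ℝ) • w)‖
        ≤ 2 ^ ((l + 1) * n) * (C2 * (2 ^ K * ((1 + 2 ^ (l + 1) * ‖w‖) ^ K)⁻¹)) := by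
          refine mul_le_mul e4 (e2.trans (mul_le_mul_of_nonneg_left e3 hC2)) (norm_nonneg _)
            (by positivity)
      _ = (C2 * 2 ^ K) * (2 ^ ((l + 1) * n) * ((1 + 2 ^ (l + 1) * ‖w‖) ^ K)⁻¹) := by ring
      _ ≤ _ := mul_le_mul_of_nonneg_right (le_max_right _ _) (by positivity)

/-- `|a| <= C (2^{ln} (1 + 2^l |.|)^{-K}) * |a|` for `a = cv u (lam L0 l)` -/
theorem pee_conv {a : ℝ} {L0 : 𝓢(E n, ℂ)} (h : IsLP a L0) (K : ℕ) :
    ∃ C : ℝ≥0, ∀ (u : 𝓢'(E n, ℂ)) (l : ℕ) (z : E n),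
      ‖cv u (lam L0 l) z‖ₑ ≤ C * ∫⁻ y, ENNReal.ofReal (2 ^ (l * n) *
        ((1 + 2 ^ l * ‖z - y‖) ^ K)⁻¹) * ‖cv u (lam L0 l) y‖ₑ := by
  obtain ⟨_, L1, Λ0, Λ1, _, _, hΛ⟩ := lp_facts h
  obtain ⟨C, hC, hd⟩ := pee_fam_decay Λ0 Λ1 K
  refine ⟨C.toNNReal, fun u l z => ?_⟩
  have e0 : cv u (lam L0 l) z = ∫ w, cv u (lam L0 l) (z - w) * fam Λ0 Λ1 l w := by
    conv_lhs => rw [← hΛ l]
    exact cv_sconv u _ _ z
  have hmeas : Measurable fun y : E n => ENNReal.ofReal (2 ^ (l * n) *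
      ((1 + 2 ^ l * ‖z - y‖) ^ K)⁻¹) * ‖cv u (lam L0 l) y‖ₑ := by
    have := (cv_continuous u (lam L0 l)).measurable
    fun_prop
  calc ‖cv u (lam L0 l) z‖ₑ = ‖∫ w, cv u (lam L0 l) (z - w) * fam Λ0 Λ1 l w‖ₑ := by rw [← e0]
    _ ≤ ∫⁻ w, ‖cv u (lam L0 l) (z - w) * fam Λ0 Λ1 l w‖ₑ := enorm_integral_le_lintegral_enorm _
    _ ≤ ∫⁻ w, (C.toNNReal : ℝ≥0∞) * (ENNReal.ofReal (2 ^ (l * n) *
        ((1 + 2 ^ l * ‖z - (z - w)‖) ^ K)⁻¹) * ‖cv u (lam L0 l) (z - w)‖ₑ) := by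
        refine lintegral_mono fun w => ?_
        rw [enorm_mul, mul_comm, ← mul_assoc]
        refine mul_le_mul_left ?_ _
        rw [sub_sub_cancel]
        rw [← ofReal_norm, ENNReal.ofNNReal_toNNReal, ← ENNReal.ofReal_mul hC]
        exact ENNReal.ofReal_le_ofReal (hd l w)
    _ = ∫⁻ y, (C.toNNReal : ℝ≥0∞) * (ENNReal.ofReal (2 ^ (l * n) *
        ((1 + 2 ^ l * ‖z - y‖) ^ K)⁻¹) * ‖cv u (lam L0 l) y‖ₑ) :=
        lintegral_sub_left_eq_self (fun y => (C.toNNReal : ℝ≥0∞) * (ENNReal.ofReal (2 ^ (l * n) *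
        ((1 + 2 ^ l * ‖z - y‖) ^ K)⁻¹) * ‖cv u (lam L0 l) y‖ₑ)) z
    _ = _ := lintegral_const_mul _ hmeas

theorem pee_le_pet (L0 : 𝓢(E n, ℂ)) (K : ℕ) (u : 𝓢'(E n, ℂ)) (l : ℕ) (x y : E n) :
    ‖cv u (lam L0 l) y‖ₑ ≤ ENNReal.ofReal ((1 + 2 ^ l * ‖x - y‖) ^ K) * pet L0 K u l x := by
  have h1 : ‖cv u (lam L0 l) y‖ₑ / ENNReal.ofReal ((1 + 2 ^ l * ‖x - y‖) ^ K) ≤
      pet L0 K u l x := le_iSup (fun z : E n =>
    ‖cv u (lam L0 l) z‖ₑ / ENNReal.ofReal ((1 + 2 ^ l * ‖x - z‖) ^ K)) y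
  have hp : 0 < (1 + 2 ^ l * ‖x - y‖) ^ K := by positivity
  rw [ENNReal.div_le_iff (by simpa using hp) ENNReal.ofReal_ne_top] at h1
  rwa [mul_comm] at h1

/-- The core inequality. -/
theorem pee_core {a : ℝ} {L0 : 𝓢(E n, ℂ)} (h : IsLP a L0) (K : ℕ) {r : ℝ} (hr : 0 < r)
    (hr1 : r ≤ 1) : ∃ C : ℝ≥0, ∀ (u : 𝓢'(E n, ℂ)) (l : ℕ) (x : E n),
      pet L0 K u l x ≤ C * (pet L0 K u l x ^ (1 - r) *
        Av (K * r) l (fun y => ‖cv u (lam L0 l) y‖ₑ ^ r) x) := by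
  obtain ⟨C, hC⟩ := pee_conv h K
  refine ⟨C, fun u l x => ?_⟩
  conv_lhs => rw [pet]
  refine iSup_le fun z => ?_
  have hP : 0 < (1 + 2 ^ l * ‖x - z‖) ^ K := by positivity
  rw [pee_div _ hP]
  have hmeas : Measurable fun y : E n => ‖cv u (lam L0 l) y‖ₑ :=
    (cv_continuous u (lam L0 l)).measurable.enorm
  calc ‖cv u (lam L0 l) z‖ₑ * ENNReal.ofReal ((1 + 2 ^ l * ‖x - z‖) ^ K)⁻¹
      ≤ (C * ∫⁻ y, ENNReal.ofReal (2 ^ (l * n) *
        ((1 + 2 ^ l * ‖z - y‖) ^ K)⁻¹) * ‖cv u (lam L0 l) y‖ₑ) *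
          ENNReal.ofReal ((1 + 2 ^ l * ‖x - z‖) ^ K)⁻¹ := mul_le_mul_left (hC u l z) _
    _ = C * ∫⁻ y, (ENNReal.ofReal (2 ^ (l * n) *
        ((1 + 2 ^ l * ‖z - y‖) ^ K)⁻¹) * ‖cv u (lam L0 l) y‖ₑ) *
          ENNReal.ofReal ((1 + 2 ^ l * ‖x - z‖) ^ K)⁻¹ := by
        rw [mul_assoc, ← lintegral_mul_const]
        fun_prop
    _ ≤ C * ∫⁻ y, pet L0 K u l x ^ (1 - r) * (ENNReal.ofReal ((2 : ℝ) ^ (l * n) *
          (1 + 2 ^ l * ‖x - y‖) ^ (-(K * r))) * ‖cv u (lam L0 l) y‖ₑ ^ r) := by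
        refine mul_le_mul_right (lintegral_mono fun y => ?_) _
        have ht : (0 : ℝ) < 1 + 2 ^ l * ‖x - y‖ := by positivity
        have e1 : ‖cv u (lam L0 l) y‖ₑ ≤ ‖cv u (lam L0 l) y‖ₑ ^ r *
            (ENNReal.ofReal ((1 + 2 ^ l * ‖x - y‖) ^ ((K : ℝ) * (1 - r))) *
              pet L0 K u l x ^ (1 - r)) := by
          calc ‖cv u (lam L0 l) y‖ₑ = ‖cv u (lam L0 l) y‖ₑ ^ (r + (1 - r)) := by
                rw [add_sub_cancel, ENNReal.rpow_one]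
            _ = ‖cv u (lam L0 l) y‖ₑ ^ r * ‖cv u (lam L0 l) y‖ₑ ^ (1 - r) :=
                ENNReal.rpow_add_of_nonneg _ _ hr.le (sub_nonneg.2 hr1)
            _ ≤ ‖cv u (lam L0 l) y‖ₑ ^ r * (ENNReal.ofReal ((1 + 2 ^ l * ‖x - y‖) ^ K) *
                  pet L0 K u l x) ^ (1 - r) := by
                refine mul_le_mul_right (ENNReal.rpow_le_rpow (pee_le_pet L0 K u l x y)
                  (sub_nonneg.2 hr1)) _
            _ = _ := by
                rw [ENNReal.mul_rpow_of_nonneg _ _ (sub_nonneg.2 hr1),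
                  ENNReal.ofReal_rpow_of_nonneg (by positivity) (sub_nonneg.2 hr1),
                  ← Real.rpow_natCast, ← Real.rpow_mul ht.le]
        have e2 : (2 : ℝ) ^ (l * n) * ((1 + 2 ^ l * ‖z - y‖) ^ K)⁻¹ *
            ((1 + 2 ^ l * ‖x - z‖) ^ K)⁻¹ ≤ 2 ^ (l * n) * ((1 + 2 ^ l * ‖x - y‖) ^ K)⁻¹ := by
          rw [mul_assoc]
          refine mul_le_mul_of_nonneg_left ?_ (by positivity)
          rw [← mul_inv, ← mul_pow]
          refine inv_anti₀ (by positivity) (pow_le_pow_left₀ (by positivity) ?_ K)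
          exact (pee_triangle l x z y).trans (le_of_eq (mul_comm _ _))
        have e3 : (2 : ℝ) ^ (l * n) * ((1 + 2 ^ l * ‖x - y‖) ^ K)⁻¹ *
            (1 + 2 ^ l * ‖x - y‖) ^ ((K : ℝ) * (1 - r)) =
            (2 : ℝ) ^ (l * n) * (1 + 2 ^ l * ‖x - y‖) ^ (-(K * r)) := by
          rw [mul_assoc]
          congr 1
          rw [← Real.rpow_natCast, ← Real.rpow_neg ht.le, ← Real.rpow_add ht]
          congr 1
          ring
        calc (ENNReal.ofReal (2 ^ (l * n) *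
            ((1 + 2 ^ l * ‖z - y‖) ^ K)⁻¹) * ‖cv u (lam L0 l) y‖ₑ) *
              ENNReal.ofReal ((1 + 2 ^ l * ‖x - z‖) ^ K)⁻¹
            = ENNReal.ofReal ((2 : ℝ) ^ (l * n) * ((1 + 2 ^ l * ‖z - y‖) ^ K)⁻¹ *
              ((1 + 2 ^ l * ‖x - z‖) ^ K)⁻¹) * ‖cv u (lam L0 l) y‖ₑ := by
              rw [mul_right_comm, ← ENNReal.ofReal_mul (by positivity)]
          _ ≤ ENNReal.ofReal (2 ^ (l * n) * ((1 + 2 ^ l * ‖x - y‖) ^ K)⁻¹) *
              (‖cv u (lam L0 l) y‖ₑ ^ r *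
            (ENNReal.ofReal ((1 + 2 ^ l * ‖x - y‖) ^ ((K : ℝ) * (1 - r))) *
              pet L0 K u l x ^ (1 - r))) :=
              mul_le_mul' (ENNReal.ofReal_le_ofReal e2) e1
          _ = pet L0 K u l x ^ (1 - r) * ((ENNReal.ofReal (2 ^ (l * n) *
                ((1 + 2 ^ l * ‖x - y‖) ^ K)⁻¹) *
                ENNReal.ofReal ((1 + 2 ^ l * ‖x - y‖) ^ ((K : ℝ) * (1 - r)))) *
                ‖cv u (lam L0 l) y‖ₑ ^ r) := by ring
          _ = _ := by rw [← ENNReal.ofReal_mul (by positivity), e3]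
    _ = _ := by
        rw [lintegral_const_mul]
        · rfl
        · fun_prop

theorem pee_Av_shift (N : ℕ) {r : ℝ} (hr : 0 < r) (l : ℕ) (g : E n → ℝ≥0∞) (hg : Measurable g)
    (x z : E n) : Av (N * r) l g z ≤
      ENNReal.ofReal ((1 + 2 ^ l * ‖x - z‖) ^ ((N : ℝ) * r)) * Av (N * r) l g x := by
  simp only [Av]
  rw [← lintegral_const_mul _ (by fun_prop)]
  refine lintegral_mono fun y => ?_
  rw [← mul_assoc, ← ENNReal.ofReal_mul (by positivity)]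
  refine mul_le_mul_left (ENNReal.ofReal_le_ofReal ?_) _
  rw [mul_left_comm]
  refine mul_le_mul_of_nonneg_left ?_ (by positivity)
  have hN : 0 ≤ (N : ℝ) * r := by positivity
  rw [Real.rpow_neg (by positivity), Real.rpow_neg (by positivity), ← div_eq_mul_inv,
    inv_eq_one_div, div_le_div_iff₀ (by positivity) (by positivity), one_mul,
    ← Real.mul_rpow (by positivity) (by positivity)]
  exact Real.rpow_le_rpow (by positivity) (pee_triangle l x z y) hN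

theorem pee_Av_mono {M M' : ℝ} (hM : M ≤ M') (l : ℕ) (g : E n → ℝ≥0∞) (x : E n) :
    Av M' l g x ≤ Av M l g x := by
  simp only [Av]
  refine lintegral_mono fun y => mul_le_mul_left (ENNReal.ofReal_le_ofReal ?_) _
  refine mul_le_mul_of_nonneg_left ?_ (by positivity)
  refine Real.rpow_le_rpow_of_exponent_le ?_ (neg_le_neg hM)
  have : 0 ≤ 2 ^ l * ‖x - y‖ := by positivity
  linarith

/-- from `P <= C P^{1-r} R` to `P^r <= C R` when `P < oo` -/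
theorem pee_solve {P R : ℝ≥0∞} {C : ℝ≥0} {r : ℝ} (hr : 0 < r) (hP : P ≠ ⊤)
    (h : P ≤ C * (P ^ (1 - r) * R)) : P ^ r ≤ C * R := by
  by_cases h0 : P = 0
  · rw [h0, ENNReal.zero_rpow_of_pos hr]
    exact zero_le
  have h1 : P ^ r = P * P ^ (-(1 - r)) := by
    conv_rhs => rw [← ENNReal.rpow_one P, ← ENNReal.rpow_mul, one_mul,
      ← ENNReal.rpow_add _ _ h0 hP]
    congr 1
    ring
  rw [h1]
  calc P * P ^ (-(1 - r)) ≤ C * (P ^ (1 - r) * R) * P ^ (-(1 - r)) := mul_le_mul_left h _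
    _ = C * R * (P ^ (1 - r) * P ^ (-(1 - r))) := by ring
    _ = C * R := by
        rw [← ENNReal.rpow_add _ _ h0 hP, add_neg_cancel, ENNReal.rpow_zero, mul_one]

theorem pee_finite {a : ℝ} {L0 : 𝓢(E n, ℂ)} (h : IsLP a L0) (N : ℕ) {r : ℝ} (hr : 0 < r)
    (hr1 : r ≤ 1) (u : 𝓢'(E n, ℂ)) (l : ℕ) (x : E n)
    (hR : Av (N * r) l (fun y => ‖cv u (lam L0 l) y‖ₑ ^ r) x ≠ ⊤) : pet L0 N u l x ≠ ⊤ := by
  obtain ⟨A, hA⟩ := cv_growth u
  obtain ⟨C0, hC0, hA⟩ := hA (lam L0 l)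
  set K := max N A with hK
  obtain ⟨CK, hCK⟩ := pee_core h K hr hr1
  have hmeas : Measurable fun y : E n => ‖cv u (lam L0 l) y‖ₑ :=
    (cv_continuous u (lam L0 l)).measurable.enorm
  have hfin : ∀ z, pet L0 K u l z ≠ ⊤ := by
    intro z
    refine ne_top_of_le_ne_top (b := ENNReal.ofReal (C0 * (1 + ‖z‖) ^ K))
      ENNReal.ofReal_ne_top ?_
    simp only [pet]
    refine iSup_le fun w => ?_
    rw [ENNReal.div_le_iff (by simpa using (by positivity : 0 < (1 + 2 ^ l * ‖z - w‖) ^ K))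
      ENNReal.ofReal_ne_top, ← ENNReal.ofReal_mul (by positivity), ← ofReal_norm]
    refine ENNReal.ofReal_le_ofReal ((hA w).trans ?_)
    rw [mul_assoc]
    refine mul_le_mul_of_nonneg_left ?_ hC0
    have h1 : (1 + ‖w‖) ^ A ≤ (1 + ‖w‖) ^ K :=
      pow_le_pow_right₀ (by linarith [norm_nonneg w]) (le_max_right _ _)
    refine h1.trans ?_
    rw [← mul_pow]
    refine pow_le_pow_left₀ (by positivity) ?_ K
    have h2 : ‖w‖ ≤ ‖z‖ + ‖z - w‖ := by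
      have := norm_sub_norm_le w z
      rw [norm_sub_rev] at this
      linarith
    have h3 : (1 : ℝ) ≤ 2 ^ l := one_le_pow₀ (by norm_num)
    have h4 : ‖z - w‖ ≤ 2 ^ l * ‖z - w‖ := le_mul_of_one_le_left (norm_nonneg _) h3
    have h5 : 0 ≤ ‖z‖ * (2 ^ l * ‖z - w‖) := by positivity
    nlinarith
  set R := Av (N * r) l (fun y => ‖cv u (lam L0 l) y‖ₑ ^ r) x with hRdef
  have key : ∀ z, ‖cv u (lam L0 l) z‖ₑ ^ r ≤
      CK * (ENNReal.ofReal ((1 + 2 ^ l * ‖x - z‖) ^ ((N : ℝ) * r)) * R) := by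
    intro z
    have h1 : ‖cv u (lam L0 l) z‖ₑ ≤ pet L0 K u l z := by
      have := pee_le_pet L0 K u l z z
      simpa using this
    have h2 := pee_solve hr (hfin z) (hCK u l z)
    calc ‖cv u (lam L0 l) z‖ₑ ^ r ≤ pet L0 K u l z ^ r := ENNReal.rpow_le_rpow h1 hr.le
      _ ≤ CK * Av (K * r) l (fun y => ‖cv u (lam L0 l) y‖ₑ ^ r) z := h2
      _ ≤ CK * Av (N * r) l (fun y => ‖cv u (lam L0 l) y‖ₑ ^ r) z := by
          refine mul_le_mul_right (pee_Av_mono ?_ _ _ _) _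
          refine mul_le_mul_of_nonneg_right ?_ hr.le
          exact_mod_cast le_max_left N A
      _ ≤ _ := mul_le_mul_right (pee_Av_shift N hr l _ (by fun_prop) x z) _
  refine ne_top_of_le_ne_top (b := ((CK : ℝ≥0∞) * R) ^ (1 / r)) ?_ ?_
  · exact ENNReal.rpow_ne_top_of_nonneg (by positivity)
      (ENNReal.mul_ne_top ENNReal.coe_ne_top hR)
  simp only [pet]
  refine iSup_le fun z => ?_
  have hp : 0 < (1 + 2 ^ l * ‖x - z‖) ^ N := by positivity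
  rw [ENNReal.div_le_iff (by simpa using hp) ENNReal.ofReal_ne_top]
  have h3 := ENNReal.rpow_le_rpow (key z) (by positivity : 0 ≤ 1 / r)
  rw [← ENNReal.rpow_mul, mul_one_div_cancel hr.ne', ENNReal.rpow_one] at h3
  refine h3.trans (le_of_eq ?_)
  rw [mul_left_comm, ENNReal.mul_rpow_of_nonneg _ _ (by positivity), mul_comm]
  congr 1
  rw [ENNReal.ofReal_rpow_of_nonneg (by positivity) (by positivity), ← Real.rpow_mul
    (by positivity), mul_assoc, mul_one_div_cancel hr.ne', mul_one, Real.rpow_natCast]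

theorem peetre {a : ℝ} {L0 : 𝓢(E n, ℂ)} (h : IsLP a L0) (N : ℕ) {r : ℝ} (hr : 0 < r)
    (hr1 : r ≤ 1) : ∃ C : ℝ≥0, ∀ (u : 𝓢'(E n, ℂ)) (l : ℕ) (x : E n),
      pet L0 N u l x ≤ C * (Av (N * r) l (fun y => ‖cv u (lam L0 l) y‖ₑ ^ r) x) ^ (1 / r) := by
  obtain ⟨C, hC⟩ := pee_core h N hr hr1
  refine ⟨(C + 1) ^ (1 / r), fun u l x => ?_⟩
  by_cases hR : Av (N * r) l (fun y => ‖cv u (lam L0 l) y‖ₑ ^ r) x = ⊤
  · rw [hR, ENNReal.top_rpow_of_pos (by positivity), ENNReal.mul_top]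
    · exact le_top
    · rw [ENNReal.coe_ne_zero]
      exact (NNReal.rpow_pos (by positivity)).ne'
  have hfin := pee_finite h N hr hr1 u l x hR
  have h1 := pee_solve hr hfin (hC u l x)
  have h2 := ENNReal.rpow_le_rpow h1 (by positivity : 0 ≤ 1 / r)
  rw [← ENNReal.rpow_mul, mul_one_div_cancel hr.ne', ENNReal.rpow_one,
    ENNReal.mul_rpow_of_nonneg _ _ (by positivity)] at h2
  refine h2.trans (mul_le_mul_left ?_ _)
  rw [← ENNReal.coe_rpow_of_nonneg _ (by positivity : 0 ≤ 1 / r)]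
  exact_mod_cast NNReal.rpow_le_rpow (le_self_add) (by positivity)

end MP6db0a9
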