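import Pool.Agent.Lib_MP_6db0a9_an.AvLp

/-!
# MP_6db0a9_an: pointwise bound of the averages by the sequence quasi-norm
-/

open MeasureTheory SchwartzMap Set Filter Topology
open scoped ENNReal NNReal FourierTransform LineDeriv ContDiff

namespace MP6db0a9

variable {n : ℕ}

theorem sup_measurableSet_cube (J : ℤ) (v : Fin n → ℤ) : MeasurableSet (cube J v) := by
  have : cube J v = ⋂ i, ({x : E n | (2 : ℝ) ^ (-J) * v i < x i} ∩
      {x : E n | x i < (2 : ℝ) ^ (-J) * (v i + 1)}) := by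
    ext x
    simp [cube]
  rw [this]
  refine MeasurableSet.iInter fun i => MeasurableSet.inter ?_ ?_
  · exact measurableSet_lt measurable_const (by fun_prop)
  · exact measurableSet_lt (by fun_prop) measurable_const

theorem sup_volume_cube (v : Fin n → ℤ) : volume (cube 0 v : Set (E n)) = 1 := by
  have h1 : (cube 0 v : Set (E n)) = (WithLp.ofLp : E n → (Fin n → ℝ)) ⁻¹'
      (pi univ fun i => Ioo ((v i : ℝ)) (v i + 1)) := by
    ext x
    simp [cube]
  rw [h1, (PiLp.volume_preserving_ofLp (Fin n)).measure_preimage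
    (MeasurableSet.univ_pi fun i => measurableSet_Ioo).nullMeasurableSet, Real.volume_pi_Ioo]
  simp

theorem sup_cube_disjoint : Pairwise (Function.onFun Disjoint fun v : Fin n → ℤ =>
    (cube 0 v : Set (E n))) := by
  intro v w hvw
  rw [Function.onFun, Set.disjoint_left]
  intro x hx hy
  apply hvw
  funext i
  have h1 := hx i
  have h2 := hy i
  simp only [neg_zero, zpow_zero, one_mul] at h1 h2
  have h3 : (v i : ℝ) < w i + 1 := by linarith
  have h4 : (w i : ℝ) < v i + 1 := by linarith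
  have h5 : v i < w i + 1 := by exact_mod_cast h3
  have h6 : w i < v i + 1 := by exact_mod_cast h4
  omega

theorem sup_cube_cover : ∀ᵐ x : E n, x ∈ ⋃ v : Fin n → ℤ, cube 0 v := by
  have h1 : ∀ i : Fin n, ∀ m : ℤ, ∀ᵐ y : Fin n → ℝ, y i ≠ m := fun i m =>
    Measure.ae_eval_ne (μ := fun _ : Fin n => (volume : Measure ℝ)) i (m : ℝ)
  have h2 : ∀ᵐ y : Fin n → ℝ, ∀ i : Fin n, ∀ m : ℤ, y i ≠ m :=
    ae_all_iff.2 fun i => ae_all_iff.2 fun m => h1 i m
  have h3 : ∀ᵐ x : E n, ∀ i : Fin n, ∀ m : ℤ, x i ≠ m :=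
    (PiLp.volume_preserving_ofLp (Fin n)).quasiMeasurePreserving.ae h2
  filter_upwards [h3] with x hx
  rw [mem_iUnion]
  refine ⟨fun i => ⌊x i⌋, fun i => ?_⟩
  simp only [neg_zero, zpow_zero, one_mul]
  exact ⟨lt_of_le_of_ne (Int.floor_le _) (hx i _).symm, Int.lt_floor_add_one _⟩

/-- One term of an `ℓ^q` norm. -/
theorem sup_le_eLpNorm {q : ℝ≥0∞} (hq : 0 < q) {S : Set ℕ} {l : ℕ} (hl : l ∈ S) (a : ℕ → ℝ≥0∞) :
    a l ≤ eLpNorm a q (Measure.count.restrict S) := by
  have hatom : (Measure.count.restrict S) {l} = 1 := by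
    rw [Measure.restrict_apply (measurableSet_singleton l),
      inter_eq_self_of_subset_left (singleton_subset_iff.2 hl)]
    simp
  rcases eq_or_ne q ⊤ with hqt | hqt
  · subst hqt
    rw [eLpNorm_exponent_top]
    have h := ae_le_eLpNormEssSup (f := a) (μ := Measure.count.restrict S)
    by_contra hlt
    have : (Measure.count.restrict S) {l} = 0 := by
      refine measure_mono_null ?_ h
      intro y hy
      rw [mem_singleton_iff] at hy
      subst hy
      exact hlt
    rw [hatom] at this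
    exact one_ne_zero this
  · have hq0 : 0 < q.toReal := ENNReal.toReal_pos hq.ne' hqt
    rw [eLpNorm_eq_lintegral_rpow_enorm_toReal hq.ne' hqt]
    simp only [enorm_eq_self]
    have h1 : a l ^ q.toReal ≤ ∫⁻ x, a x ^ q.toReal ∂(Measure.count.restrict S) := by
      calc a l ^ q.toReal = ∫⁻ x in {l}, a x ^ q.toReal ∂(Measure.count.restrict S) := by
            rw [lintegral_singleton, hatom, mul_one]
        _ ≤ _ := setLIntegral_le_lintegral _ _
    calc a l = (a l ^ q.toReal) ^ (1 / q.toReal) := by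
          rw [← ENNReal.rpow_mul, mul_one_div_cancel hq0.ne', ENNReal.rpow_one]
      _ ≤ _ := ENNReal.rpow_le_rpow h1 (by positivity)

theorem sup_wt_zero (τ : ℝ) : wt n τ 0 = 1 := by
  simp [wt]

/-- Local norms are bounded by the sequence quasi-norm. -/
theorem sup_local_le (A : Scale) {p q : ℝ≥0∞} {τ : ℝ} (hq : 0 < q) (b : ℕ → E n → ℝ≥0∞) (l : ℕ)
    (v : Fin n → ℤ) :
    eLpNorm (b l) p (volume.restrict (cube 0 v)) ≤ seqNorm A p q τ b := by
  have hl : l ∈ {j : ℕ | (0 : ℤ) ≤ (j : ℤ)} := by simp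
  cases A with
  | B =>
    change _ ≤ ⨆ (J : ℤ) (v : Fin n → ℤ), wt n τ J *
      eLpNorm (fun j : ℕ => eLpNorm (b j) p (volume.restrict (cube J v))) q
        (Measure.count.restrict {j : ℕ | J ≤ (j : ℤ)})
    refine le_iSup₂_of_le 0 v ?_
    rw [sup_wt_zero, one_mul]
    exact sup_le_eLpNorm hq hl fun j => eLpNorm (b j) p (volume.restrict (cube 0 v))
  | F =>
    change _ ≤ ⨆ (J : ℤ) (v : Fin n → ℤ), wt n τ J *
      eLpNorm (fun x : E n => eLpNorm (fun j : ℕ => b j x) q
        (Measure.count.restrict {j : ℕ | J ≤ (j : ℤ)})) p (volume.restrict (cube J v))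
    refine le_iSup₂_of_le 0 v ?_
    rw [sup_wt_zero, one_mul]
    refine eLpNorm_mono_enorm fun x => ?_
    rw [enorm_eq_self, enorm_eq_self]
    exact sup_le_eLpNorm hq hl fun j => b j x
  | N =>
    change _ ≤ eLpNorm (fun j : ℕ => ⨆ (J : ℤ) (v : Fin n → ℤ), wt n τ J *
      eLpNorm (b j) p (volume.restrict (cube J v))) q Measure.count
    have h1 := sup_le_eLpNorm hq (mem_univ l) fun j : ℕ => ⨆ (J : ℤ) (v : Fin n → ℤ), wt n τ J *
      eLpNorm (b j) p (volume.restrict (cube J v))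
    rw [Measure.restrict_univ] at h1
    refine le_trans ?_ h1
    refine le_iSup₂_of_le 0 v ?_
    rw [sup_wt_zero, one_mul]

theorem sup_lintegral_le {p : ℝ≥0∞} {r : ℝ} (hr : 0 < r) (hrp : ENNReal.ofReal r ≤ p)
    (g : E n → ℝ≥0∞) (hg : Measurable g) (v : Fin n → ℤ) :
    ∫⁻ y in cube 0 v, g y ^ r ≤ eLpNorm g p (volume.restrict (cube 0 v)) ^ r := by
  set μ := (volume : Measure (E n)).restrict (cube 0 v) with hμ
  have : IsProbabilityMeasure μ := ⟨by rw [hμ, Measure.restrict_apply_univ, sup_volume_cube]⟩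
  rcases eq_or_ne p ⊤ with hpt | hpt
  · subst hpt
    rw [eLpNorm_exponent_top]
    calc ∫⁻ y, g y ^ r ∂μ ≤ ∫⁻ _, eLpNormEssSup g μ ^ r ∂μ := by
          apply lintegral_mono_ae
          filter_upwards [ae_le_eLpNormEssSup (f := g) (μ := μ)] with y hy
          rw [enorm_eq_self] at hy
          exact ENNReal.rpow_le_rpow hy hr.le
      _ = _ := by simp
  · have hp0 : p ≠ 0 := by
      intro h0
      rw [h0] at hrp
      simp at hrp
      linarith
    have hp1 : r ≤ p.toReal := by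
      rwa [ENNReal.ofReal_le_iff_le_toReal hpt] at hrp
    have hpr : 0 < p.toReal := hr.trans_le hp1
    rw [eLpNorm_eq_lintegral_rpow_enorm_toReal hp0 hpt]
    simp only [enorm_eq_self]
    rcases eq_or_lt_of_le hp1 with h1 | h1
    · rw [← h1, ← ENNReal.rpow_mul, one_div_mul_cancel hr.ne', ENNReal.rpow_one]
    · have hs : 1 < p.toReal / r := by rwa [one_lt_div hr]
      have hconj := Real.HolderConjugate.conjExponent hs
      have hH := ENNReal.lintegral_mul_le_Lp_mul_Lq μ hconj (f := fun y => g y ^ r)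
        (g := fun _ => 1) (hg.pow_const r).aemeasurable aemeasurable_const
      simp only [Pi.mul_apply, mul_one, ENNReal.one_rpow, lintegral_const, measure_univ] at hH
      refine hH.trans (le_of_eq ?_)
      rw [← ENNReal.rpow_mul]
      congr 1
      · apply lintegral_congr
        intro y
        rw [← ENNReal.rpow_mul]
        congr 1
        field_simp
      · field_simp

/-- Pointwise bound of the averages by the sequence quasi-norm. -/
theorem av_le_seqNorm (A : Scale) {p q : ℝ≥0∞} {τ r M : ℝ} (hr : 0 < r) (hq : 0 < q)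
    (hrp : ENNReal.ofReal r ≤ p) (hM : (n : ℝ) < M) :
    ∃ C : ℝ≥0, ∀ b : ℕ → E n → ℝ≥0∞, (∀ l, Measurable (b l)) → ∀ (l : ℕ) (x : E n),
      (Av M l (fun y => b l y ^ r) x) ^ (1 / r) ≤
        C * ENNReal.ofReal ((2 : ℝ) ^ ((l : ℝ) * (n / r))) * seqNorm A p q τ b := by
  have hM0 : 0 ≤ M := (Nat.cast_nonneg n).trans hM.le
  set I : ℝ≥0∞ := ∫⁻ z : E n, ENNReal.ofReal ((1 + ‖z‖) ^ (-M)) with hI
  have hIfin : I < ⊤ := avK_finite hM
  set D : ℝ := (1 + √n) ^ M with hD
  have hD0 : 0 ≤ D := by positivity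
  set C1 : ℝ≥0∞ := ENNReal.ofReal D * I with hC1
  have hC1t : C1 ≠ ⊤ := ENNReal.mul_ne_top ENNReal.ofReal_ne_top hIfin.ne
  refine ⟨(C1 ^ (1 / r)).toNNReal, fun b hb l x => ?_⟩
  rw [ENNReal.coe_toNNReal (ENNReal.rpow_ne_top_of_nonneg (by positivity) hC1t)]
  set B := seqNorm A p q τ b with hB
  have hbr : Measurable fun y => b l y ^ r := (hb l).pow_const r
  have hloc : ∀ v : Fin n → ℤ, ∫⁻ y in cube 0 v, b l y ^ r ≤ B ^ r := fun v =>
    (sup_lintegral_le hr hrp (b l) (hb l) v).trans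
      (ENNReal.rpow_le_rpow (sup_local_le A hq b l v) hr.le)
  -- the kernel on one cube
  have hdiam : ∀ (v : Fin n → ℤ) (y z : E n), y ∈ cube 0 v → z ∈ cube 0 v → ‖y - z‖ ≤ √n := by
    intro v y z hy hz
    rw [EuclideanSpace.norm_eq]
    apply Real.sqrt_le_sqrt
    calc ∑ i, ‖(y - z) i‖ ^ 2 ≤ ∑ i : Fin n, (1 : ℝ) := by
          apply Finset.sum_le_sum
          intro i _
          have h1 := hy i
          have h2 := hz i
          simp only [neg_zero, zpow_zero, one_mul] at h1 h2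
          rw [PiLp.sub_apply, Real.norm_eq_abs, sq_abs]
          nlinarith [abs_nonneg (y i - z i), sq_nonneg (y i - z i)]
      _ = n := by simp
  have hker : ∀ (v : Fin n → ℤ) (y z : E n), y ∈ cube 0 v → z ∈ cube 0 v →
      avK n M l (x - y) ≤ ENNReal.ofReal ((2 : ℝ) ^ (l * n)) * (ENNReal.ofReal D *
        ENNReal.ofReal ((1 + ‖x - z‖) ^ (-M))) := by
    intro v y z hy hz
    rw [avK, ENNReal.ofReal_mul (by positivity), ← ENNReal.ofReal_mul hD0]
    gcongr
    have h1 : 1 + ‖x - z‖ ≤ (1 + √n) * (1 + 2 ^ l * ‖x - y‖) := by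
      have h2 : ‖x - z‖ ≤ ‖x - y‖ + ‖y - z‖ := by
        have : x - z = (x - y) + (y - z) := by abel
        rw [this]
        exact norm_add_le _ _
      have h3 := hdiam v y z hy hz
      have h4 : (1 : ℝ) ≤ 2 ^ l := one_le_pow₀ (by norm_num)
      have h5 : ‖x - y‖ ≤ 2 ^ l * ‖x - y‖ := by
        nlinarith [norm_nonneg (x - y)]
      nlinarith [Real.sqrt_nonneg (n : ℝ), norm_nonneg (x - y),
        mul_nonneg (Real.sqrt_nonneg (n : ℝ)) (mul_nonneg (by positivity : (0:ℝ) ≤ 2 ^ l) (norm_nonneg (x - y)))]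
    calc (1 + 2 ^ l * ‖x - y‖) ^ (-M)
        = D * ((1 + √n) * (1 + 2 ^ l * ‖x - y‖)) ^ (-M) := by
          rw [hD, Real.mul_rpow (by positivity) (by positivity), ← mul_assoc,
            ← Real.rpow_add (by positivity)]
          simp
      _ ≤ D * (1 + ‖x - z‖) ^ (-M) := by
          gcongr ?_ * ?_
          exact Real.rpow_le_rpow_of_nonpos (by positivity) h1 (by linarith)
  have hcube : ∀ v : Fin n → ℤ, ∫⁻ y in cube 0 v, avK n M l (x - y) * b l y ^ r ≤
      ENNReal.ofReal ((2 : ℝ) ^ (l * n)) * (ENNReal.ofReal D * B ^ r) *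
        ∫⁻ z in cube 0 v, ENNReal.ofReal ((1 + ‖x - z‖) ^ (-M)) := by
    intro v
    have hzm : Measurable fun z : E n => ENNReal.ofReal ((1 + ‖x - z‖) ^ (-M)) := by fun_prop
    have h1 : ∀ z ∈ (cube 0 v : Set (E n)), ∫⁻ y in cube 0 v, avK n M l (x - y) * b l y ^ r ≤
        ENNReal.ofReal ((2 : ℝ) ^ (l * n)) * (ENNReal.ofReal D * B ^ r) *
          ENNReal.ofReal ((1 + ‖x - z‖) ^ (-M)) := by
      intro z hz
      calc ∫⁻ y in cube 0 v, avK n M l (x - y) * b l y ^ r
          ≤ ∫⁻ y in cube 0 v, ENNReal.ofReal ((2 : ℝ) ^ (l * n)) * (ENNReal.ofReal D *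
              ENNReal.ofReal ((1 + ‖x - z‖) ^ (-M))) * b l y ^ r := by
            apply setLIntegral_mono' (sup_measurableSet_cube 0 v)
            intro y hy
            gcongr
            exact hker v y z hy hz
        _ = ENNReal.ofReal ((2 : ℝ) ^ (l * n)) * (ENNReal.ofReal D *
              ENNReal.ofReal ((1 + ‖x - z‖) ^ (-M))) * ∫⁻ y in cube 0 v, b l y ^ r := by
            rw [lintegral_const_mul _ hbr]
        _ ≤ ENNReal.ofReal ((2 : ℝ) ^ (l * n)) * (ENNReal.ofReal D *
              ENNReal.ofReal ((1 + ‖x - z‖) ^ (-M))) * B ^ r := by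
            gcongr
            exact hloc v
        _ = _ := by ring
    calc ∫⁻ y in cube 0 v, avK n M l (x - y) * b l y ^ r
        = ∫⁻ _ in (cube 0 v : Set (E n)), ∫⁻ y in cube 0 v, avK n M l (x - y) * b l y ^ r := by
          rw [lintegral_const, Measure.restrict_apply_univ, sup_volume_cube, mul_one]
      _ ≤ ∫⁻ z in (cube 0 v : Set (E n)), ENNReal.ofReal ((2 : ℝ) ^ (l * n)) *
            (ENNReal.ofReal D * B ^ r) * ENNReal.ofReal ((1 + ‖x - z‖) ^ (-M)) :=
          setLIntegral_mono' (sup_measurableSet_cube 0 v) h1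
      _ = _ := by rw [lintegral_const_mul _ hzm]
  have hsplit : ∀ f : E n → ℝ≥0∞, ∫⁻ y, f y = ∑' v : Fin n → ℤ, ∫⁻ y in cube 0 v, f y := by
    intro f
    rw [← lintegral_iUnion (fun v => sup_measurableSet_cube 0 v) sup_cube_disjoint]
    rw [← setLIntegral_univ f]
    apply setLIntegral_congr
    rw [ae_eq_comm, ae_eq_univ]
    exact sup_cube_cover
  have hmain : Av M l (fun y => b l y ^ r) x ≤
      C1 * ENNReal.ofReal ((2 : ℝ) ^ (l * n)) * B ^ r := by
    calc Av M l (fun y => b l y ^ r) x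
        = ∑' v : Fin n → ℤ, ∫⁻ y in cube 0 v, avK n M l (x - y) * b l y ^ r := by
          rw [Av_eq, hsplit]
      _ ≤ ∑' v : Fin n → ℤ, ENNReal.ofReal ((2 : ℝ) ^ (l * n)) * (ENNReal.ofReal D * B ^ r) *
            ∫⁻ z in cube 0 v, ENNReal.ofReal ((1 + ‖x - z‖) ^ (-M)) :=
          ENNReal.tsum_le_tsum hcube
      _ = ENNReal.ofReal ((2 : ℝ) ^ (l * n)) * (ENNReal.ofReal D * B ^ r) * I := by
          rw [ENNReal.tsum_mul_left, ← hsplit,
            lintegral_sub_left_eq_self (fun z : E n => ENNReal.ofReal ((1 + ‖z‖) ^ (-M)))]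
      _ = _ := by
          rw [hC1]
          ring
  calc (Av M l (fun y => b l y ^ r) x) ^ (1 / r)
      ≤ (C1 * ENNReal.ofReal ((2 : ℝ) ^ (l * n)) * B ^ r) ^ (1 / r) :=
        ENNReal.rpow_le_rpow hmain (by positivity)
    _ = _ := by
        rw [ENNReal.mul_rpow_of_nonneg _ _ (by positivity),
          ENNReal.mul_rpow_of_nonneg _ _ (by positivity), ← ENNReal.rpow_mul B,
          mul_one_div_cancel hr.ne', ENNReal.rpow_one,
          ENNReal.ofReal_rpow_of_nonneg (by positivity) (by positivity)]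
        congr 3
        rw [← Real.rpow_natCast, ← Real.rpow_mul (by norm_num)]
        congr 1
        push_cast
        ring

end MP6db0a9
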