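import Pool.Agent.Lib_MP_6db0a9_an.AvLp
import Pool.Agent.Lib_MP_6db0a9_an.Mix
import Pool.Agent.Lib_MP_6db0a9_an.Morrey
import Pool.Agent.Lib_MP_6db0a9_an.Sup
import Pool.Agent.Lib_MP_6db0a9_an.Peetre

/-!
# The sequence space estimates for Peetre's maximal functions
-/

open MeasureTheory SchwartzMap Set Filter Topology
open scoped ENNReal NNReal FourierTransform LineDeriv ContDiff

namespace MP6db0a9

variable {n : ℕ}

theorem sm_exponent {p q : ℝ≥0∞} (hp : 0 < p) (hq : 0 < q) : ∃ r : ℝ, 0 < r ∧ r ≤ 1 ∧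
    ENNReal.ofReal r < p ∧ ENNReal.ofReal r < q := by
  have h : 0 < min (min p q) 1 := lt_min (lt_min hp hq) one_pos
  obtain ⟨c, hc0, hc⟩ := exists_between h
  have hctop : c ≠ ⊤ := (hc.trans_le (min_le_right _ _)).ne_top
  refine ⟨c.toReal, ENNReal.toReal_pos hc0.ne' hctop, ?_, ?_, ?_⟩
  · have := ENNReal.toReal_mono ENNReal.one_ne_top (hc.trans_le (min_le_right _ _)).le
    simpa using this
  · rw [ENNReal.ofReal_toReal hctop]
    exact hc.trans_le ((min_le_left _ _).trans (min_le_left _ _))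
  · rw [ENNReal.ofReal_toReal hctop]
    exact hc.trans_le ((min_le_left _ _).trans (min_le_right _ _))

/-- `pet_l <= C 2^{-ls} (Av (b_l^r))^{1/r}` with `b_l = 2^{ls} |cv u lam_l|` -/
theorem sm_pet {a : ℝ} {L0 : 𝓢(E n, ℂ)} (h : IsLP a L0) (N : ℕ) {r : ℝ} (hr : 0 < r)
    (hr1 : r ≤ 1) : ∃ C : ℝ≥0, ∀ (s : ℝ) (u : 𝓢'(E n, ℂ)) (l : ℕ) (x : E n),
      pet L0 N u l x ≤ C * (ENNReal.ofReal ((2 : ℝ) ^ (-((l : ℝ) * s))) *
        (Av (N * r) l (fun y => (ENNReal.ofReal ((2 : ℝ) ^ ((l : ℝ) * s)) *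
          ‖cv u (lam L0 l) y‖ₑ) ^ r) x) ^ (1 / r)) := by
  obtain ⟨C, hC⟩ := peetre h N hr hr1
  refine ⟨C, fun s u l x => (hC u l x).trans (mul_le_mul_right (le_of_eq ?_) _)⟩
  have hmeas : Measurable fun y : E n => ‖cv u (lam L0 l) y‖ₑ :=
    (cv_continuous u (lam L0 l)).measurable.enorm
  have e1 : Av (N * r) l (fun y => (ENNReal.ofReal ((2 : ℝ) ^ ((l : ℝ) * s)) *
      ‖cv u (lam L0 l) y‖ₑ) ^ r) x = ENNReal.ofReal ((2 : ℝ) ^ ((l : ℝ) * s)) ^ r *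
      Av (N * r) l (fun y => ‖cv u (lam L0 l) y‖ₑ ^ r) x := by
    simp only [Av]
    rw [← lintegral_const_mul _ (by fun_prop)]
    refine lintegral_congr fun y => ?_
    rw [ENNReal.mul_rpow_of_nonneg _ _ hr.le]
    ring
  rw [e1, ENNReal.mul_rpow_of_nonneg _ _ (by positivity), ← ENNReal.rpow_mul,
    mul_one_div_cancel hr.ne', ENNReal.rpow_one, ← mul_assoc,
    ← ENNReal.ofReal_mul (by positivity), ← Real.rpow_add (by norm_num), neg_add_cancel,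
    Real.rpow_zero, ENNReal.ofReal_one, one_mul]

theorem sm_dec (M s : ℝ) (k l : ℕ) :
    ENNReal.ofReal ((2 : ℝ) ^ ((k : ℝ) * s)) * (dec M k l *
      ENNReal.ofReal ((2 : ℝ) ^ (-((l : ℝ) * s)))) ≤ dec (M - |s|) k l := by
  simp only [dec]
  rw [← ENNReal.ofReal_mul (by positivity), ← ENNReal.ofReal_mul (by positivity),
    ← Real.rpow_add (by norm_num), ← Real.rpow_add (by norm_num)]
  refine ENNReal.ofReal_le_ofReal (Real.rpow_le_rpow_of_exponent_le (by norm_num) ?_)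
  have h1 : ((k : ℝ) - l) * s ≤ |(k : ℝ) - l| * |s| := by
    rw [← abs_mul]
    exact le_abs_self _
  nlinarith

theorem seq_main [NeZero n] (A : Scale) {p q : ℝ≥0∞} {τ : ℝ} (hp : 0 < p) (hq : 0 < q)
    (hτ : 0 ≤ τ) (hAp : A = Scale.F → p ≠ ⊤) {a : ℝ} {L0 : 𝓢(E n, ℂ)} (h : IsLP a L0) :
    ∃ N : ℕ, (∀ s : ℝ, ∃ M0 : ℝ, ∀ M : ℝ, M0 ≤ M → ∃ C : ℝ≥0, ∀ u : 𝓢'(E n, ℂ),
        seqNorm A p q τ (fun k x => ENNReal.ofReal ((2 : ℝ) ^ ((k : ℝ) * s)) *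
          mix M (fun l => pet L0 N u l) k x) ≤ C * anorm A p q s τ L0 u) ∧
      ∀ s : ℝ, ∃ (C : ℝ≥0) (D : ℝ), ∀ (u : 𝓢'(E n, ℂ)) (l : ℕ) (x : E n),
        pet L0 N u l x ≤ C * ENNReal.ofReal ((2 : ℝ) ^ ((l : ℝ) * D)) * anorm A p q s τ L0 u := by
  obtain ⟨r, hr, hr1, hrp, hrq⟩ := sm_exponent hp hq
  obtain ⟨N, hN⟩ := exists_nat_gt ((2 * (n : ℝ) + 2) / r)
  have hNr : 2 * (n : ℝ) + 2 < N * r := (div_lt_iff₀ hr).1 hN
  have hNr' : (n : ℝ) < N * r := by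
    have : (0 : ℝ) ≤ n := Nat.cast_nonneg n
    linarith
  obtain ⟨C1, hC1⟩ := sm_pet h N hr hr1
  obtain ⟨C3, hC3⟩ := seqNorm_av (n := n) A hτ hr hrp hrq hAp hNr
  obtain ⟨C4, hC4⟩ := av_le_seqNorm (n := n) A (τ := τ) hr hq hrp.le hNr'
  have hbm : ∀ (s : ℝ) (u : 𝓢'(E n, ℂ)) (l : ℕ), Measurable fun y : E n =>
      ENNReal.ofReal ((2 : ℝ) ^ ((l : ℝ) * s)) * ‖cv u (lam L0 l) y‖ₑ := fun s u l =>
    (cv_continuous u (lam L0 l)).measurable.enorm.const_mul _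
  refine ⟨N, fun s => ⟨|s| + n * τ + 1, fun M hM => ?_⟩, fun s => ?_⟩
  · have hnτ : 0 ≤ (n : ℝ) * τ := by positivity
    obtain ⟨C2, hC2⟩ := seqNorm_mix (n := n) A (τ := τ) (M := M - |s|) hp hq hτ (by linarith)
      (by linarith)
    refine ⟨C1 * (C2 * C3), fun u => ?_⟩
    set b : ℕ → E n → ℝ≥0∞ := fun l y =>
      ENNReal.ofReal ((2 : ℝ) ^ ((l : ℝ) * s)) * ‖cv u (lam L0 l) y‖ₑ with hb
    set T : ℕ → E n → ℝ≥0∞ := fun l x => (Av (N * r) l (fun y => b l y ^ r) x) ^ (1 / r) with hT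
    have hTm : ∀ l, Measurable (T l) := fun l =>
      (av_measurable _ _ _ ((hbm s u l).pow_const r)).pow_const _
    have hpt : ∀ (k : ℕ) (x : E n), ENNReal.ofReal ((2 : ℝ) ^ ((k : ℝ) * s)) *
        mix M (fun l => pet L0 N u l) k x ≤ C1 * mix (M - |s|) T k x := by
      intro k x
      simp only [mix]
      rw [← ENNReal.tsum_mul_left, ← ENNReal.tsum_mul_left]
      refine ENNReal.tsum_le_tsum fun l => ?_
      calc ENNReal.ofReal ((2 : ℝ) ^ ((k : ℝ) * s)) * (dec M k l * pet L0 N u l x)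
          ≤ ENNReal.ofReal ((2 : ℝ) ^ ((k : ℝ) * s)) * (dec M k l *
            (C1 * (ENNReal.ofReal ((2 : ℝ) ^ (-((l : ℝ) * s))) * T l x))) :=
            mul_le_mul_right (mul_le_mul_right (hC1 s u l x) _) _
        _ = C1 * ((ENNReal.ofReal ((2 : ℝ) ^ ((k : ℝ) * s)) * (dec M k l *
            ENNReal.ofReal ((2 : ℝ) ^ (-((l : ℝ) * s))))) * T l x) := by ring
        _ ≤ C1 * (dec (M - |s|) k l * T l x) :=
            mul_le_mul_right (mul_le_mul_left (sm_dec M s k l) _) _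
    calc seqNorm A p q τ (fun k x => ENNReal.ofReal ((2 : ℝ) ^ ((k : ℝ) * s)) *
          mix M (fun l => pet L0 N u l) k x)
        ≤ seqNorm A p q τ (fun k x => C1 * mix (M - |s|) T k x) := seqNorm_mono A hpt
      _ ≤ C1 * seqNorm A p q τ (mix (M - |s|) T) := seqNorm_const_mul A C1 _
      _ ≤ C1 * (C2 * seqNorm A p q τ T) := mul_le_mul_right (hC2 T hTm) _
      _ ≤ C1 * (C2 * (C3 * seqNorm A p q τ b)) :=
          mul_le_mul_right (mul_le_mul_right (hC3 b fun l => hbm s u l) _) _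
      _ = _ := by
          rw [anorm, ← mul_assoc, ← mul_assoc]
          push_cast
          ring
  · refine ⟨C1 * C4, -s + n / r, fun u l x => ?_⟩
    refine (hC1 s u l x).trans ?_
    have h1 := hC4 (fun l y => ENNReal.ofReal ((2 : ℝ) ^ ((l : ℝ) * s)) *
      ‖cv u (lam L0 l) y‖ₑ) (fun l => hbm s u l) l x
    calc (C1 : ℝ≥0∞) * (ENNReal.ofReal ((2 : ℝ) ^ (-((l : ℝ) * s))) *
        (Av (N * r) l (fun y => (ENNReal.ofReal ((2 : ℝ) ^ ((l : ℝ) * s)) *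
          ‖cv u (lam L0 l) y‖ₑ) ^ r) x) ^ (1 / r))
        ≤ C1 * (ENNReal.ofReal ((2 : ℝ) ^ (-((l : ℝ) * s))) *
          (C4 * ENNReal.ofReal ((2 : ℝ) ^ ((l : ℝ) * (n / r))) * anorm A p q s τ L0 u)) :=
          mul_le_mul_right (mul_le_mul_right h1 _) _
      _ = C1 * C4 * (ENNReal.ofReal ((2 : ℝ) ^ (-((l : ℝ) * s))) *
          ENNReal.ofReal ((2 : ℝ) ^ ((l : ℝ) * (n / r)))) * anorm A p q s τ L0 u := by ring
      _ = _ := by
          rw [← ENNReal.ofReal_mul (by positivity), ← Real.rpow_add (by norm_num)]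
          push_cast
          congr 4
          ring

end MP6db0a9
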