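import Pool.Agent.Lib_MP_6db0a9_an.Util
import Pool.Agent.Lib_MP_6db0a9_an.Geom
import Pool.Agent.Lib_MP_6db0a9_an.PB
import Pool.Agent.Lib_MP_6db0a9_an.SeqMain
import Pool.Agent.Lib_MP_6db0a9_an.FDef
import Pool.Agent.Lib_MP_6db0a9_an.Agree
import Pool.Agent.Lib_MP_6db0a9_an.ConeKer

/-! Final assembly (helper95). -/

open MeasureTheory SchwartzMap Set Filter Topology
open scoped ENNReal NNReal FourierTransform LineDeriv ContDiff

namespace MP6db0a9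

variable {n : ℕ}

/-- Sum of the Peetre functions of a finite family. -/
noncomputable def petS (L0 : 𝓢(E n, ℂ)) (N : ℕ) {K : ℕ} (W : Fin K → 𝓢'(E n, ℂ)) (l : ℕ)
    (x : E n) : ℝ≥0∞ :=
  ∑ i, pet L0 N (W i) l x

theorem mix_mono {M : ℝ} {b c : ℕ → E n → ℝ≥0∞} (k : ℕ) (x : E n) (h : ∀ l, b l x ≤ c l x) :
    mix M b k x ≤ mix M c k x :=
  ENNReal.tsum_le_tsum fun l => by gcongr; exact h l

theorem mix_mono' {M : ℝ} {b c : ℕ → E n → ℝ≥0∞} (k : ℕ) (x : E n) (h : ∀ l, b l x ≤ c l x) :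
    mix M b k x ≤ mix M c k x := mix_mono k x h

theorem mix_petS (L0 : 𝓢(E n, ℂ)) (N : ℕ) {K : ℕ} (W : Fin K → 𝓢'(E n, ℂ)) (M : ℝ) (k : ℕ)
    (x : E n) : mix M (petS L0 N W) k x = ∑ i, mix M (fun l => pet L0 N (W i) l) k x := by
  simp only [mix, petS, Finset.mul_sum]
  exact Summable.tsum_finsetSum fun i _ => ENNReal.summable

theorem petS_measurable (L0 : 𝓢(E n, ℂ)) (N : ℕ) {K : ℕ} (W : Fin K → 𝓢'(E n, ℂ)) (l : ℕ) :
    Measurable (petS L0 N W l) := by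
  unfold petS
  exact Finset.measurable_sum _ fun i _ => pet_measurable L0 N (W i) l

theorem petS_shift (L0 : 𝓢(E n, ℂ)) (N : ℕ) {K : ℕ} (W : Fin K → 𝓢'(E n, ℂ)) (l : ℕ)
    (x y : E n) :
    petS L0 N W l y ≤ ENNReal.ofReal ((1 + 2 ^ l * ‖x - y‖) ^ N) * petS L0 N W l x := by
  rw [petS, petS, Finset.mul_sum]
  exact Finset.sum_le_sum fun i _ => pet_shift L0 N (W i) l x y

theorem mix_measurable {M : ℝ} {b : ℕ → E n → ℝ≥0∞} (hb : ∀ l, Measurable (b l)) (k : ℕ) :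
    Measurable (mix M b k) := by
  unfold mix
  exact Measurable.tsum fun l => (hb l).const_mul _

theorem enorm_two_pow_inv (a : ℕ) : ‖((2 : ℂ) ^ a)⁻¹‖ₑ = ENNReal.ofReal ((2 : ℝ) ^ (-(a : ℝ))) := by
  rw [← ofReal_norm, norm_inv, norm_pow, Complex.norm_ofNat, Real.rpow_neg (by norm_num),
    Real.rpow_natCast]

/-- Bound of the localised pieces. -/
theorem H_bound [NeZero n] (Ω V : Set (E n)) (e : E n) (r : ℝ)
    (hcone : ∀ x ∈ Ω ∩ V, ∀ c ∈ cone e r, x + c ∈ Ω) (m : ℕ) (φ0 φ1 : 𝓢(E n, ℂ))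
    (hφ0 : HasCompactSupport φ0 ∧ ∀ x ∈ tsupport φ0, -x ∈ cone e r) (η : Fin n → 𝓢(E n, ℂ))
    (hη : ∀ k, HasCompactSupport (η k) ∧ ∀ x ∈ tsupport (η k), -x ∈ cone e r)
    (hφ1 : φ1 = ∑ k, pdS k m (η k)) (L0 : 𝓢(E n, ℂ)) (N : ℕ) (M : ℝ) (C : ℝ≥0)
    (hC : ∀ (k : Fin n) (u : 𝓢'(E n, ℂ)) (j : ℕ) (y : E n),
      ‖cv u (fam φ0 (η k) j) y‖ₑ ≤ C * mix M (fun l => pet L0 N u l) j y)
    (u v0 : 𝓢'(E n, ℂ)) (g : Fin n → 𝓢'(E n, ℂ)) (huv : AgreeOn Ω u v0)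
    (hg : ∀ k, AgreeOn Ω (pd k m u) (g k)) (j : ℕ) (y : E n) :
    ‖(Ω ∩ V).indicator (cv u (fam φ0 φ1 j)) y‖ₑ ≤
      (C * 2 ^ m) * (ENNReal.ofReal ((2 : ℝ) ^ (-((j : ℝ) * m))) *
        mix M (petS L0 N (Fin.cons v0 g : Fin (n + 1) → 𝓢'(E n, ℂ))) j y) := by
  by_cases hy : y ∈ Ω ∩ V
  · rw [indicator_of_mem hy, mix_petS, Fin.sum_univ_succ]
    simp only [Fin.cons_zero, Fin.cons_succ]
    cases j with
    | zero =>
      have h1 : cv u (fam φ0 φ1 0) y = cv v0 (fam φ0 (η 0) 0) y :=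
        cv_eq_of_agree Ω V e r hcone φ0 hφ0 u v0 huv y hy
      rw [h1]
      refine (hC 0 v0 0 y).trans ?_
      have h2 : ENNReal.ofReal ((2 : ℝ) ^ (-(((0 : ℕ) : ℝ) * m))) = 1 := by simp
      rw [h2, one_mul]
      calc (C : ℝ≥0∞) * mix M (fun l => pet L0 N v0 l) 0 y
          = (C * 1) * mix M (fun l => pet L0 N v0 l) 0 y := by rw [mul_one]
        _ ≤ _ := by
            gcongr
            · exact_mod_cast Nat.one_le_two_pow
            · exact le_self_add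
    | succ j =>
      have h1 : cv u (fam φ0 φ1 (j + 1)) y =
          ((2 : ℂ) ^ (j * m))⁻¹ * ∑ k, cv (g k) (fam φ0 (η k) (j + 1)) y := by
        change cv u (dilS (2 ^ j) φ1) y = _
        rw [hφ1]
        exact cv_eq_deriv Ω V e r hcone m η hη u g hg j y hy
      rw [h1, enorm_mul, enorm_two_pow_inv]
      have h2 : ENNReal.ofReal ((2 : ℝ) ^ (-((j * m : ℕ) : ℝ))) =
          2 ^ m * ENNReal.ofReal ((2 : ℝ) ^ (-(((j + 1 : ℕ) : ℝ) * m))) := by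
        rw [show (2 : ℝ≥0∞) ^ m = ENNReal.ofReal ((2 : ℝ) ^ (m : ℝ)) by
          rw [Real.rpow_natCast, ENNReal.ofReal_pow (by norm_num)]; norm_num,
          ← ENNReal.ofReal_mul (by positivity), ← Real.rpow_add (by norm_num)]
        congr 2
        push_cast
        ring
      rw [h2]
      have h3 : ‖∑ k, cv (g k) (fam φ0 (η k) (j + 1)) y‖ₑ ≤
          C * ∑ k, mix M (fun l => pet L0 N (g k) l) (j + 1) y := by
        refine (enorm_sum_le _ _).trans ?_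
        rw [Finset.mul_sum]
        exact Finset.sum_le_sum fun k _ => hC k (g k) (j + 1) y
      calc 2 ^ m * ENNReal.ofReal ((2 : ℝ) ^ (-(((j + 1 : ℕ) : ℝ) * m))) *
            ‖∑ k, cv (g k) (fam φ0 (η k) (j + 1)) y‖ₑ
          ≤ 2 ^ m * ENNReal.ofReal ((2 : ℝ) ^ (-(((j + 1 : ℕ) : ℝ) * m))) *
            (C * ∑ k, mix M (fun l => pet L0 N (g k) l) (j + 1) y) := by gcongr
        _ = (C * 2 ^ m) * (ENNReal.ofReal ((2 : ℝ) ^ (-(((j + 1 : ℕ) : ℝ) * m))) *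
            ∑ k, mix M (fun l => pet L0 N (g k) l) (j + 1) y) := by ring
        _ ≤ _ := by
            gcongr
            exact le_add_self
  · rw [indicator_of_notMem hy, enorm_zero]
    exact zero_le

theorem enorm_le_tsum_of_hasSum {f : ℕ → ℂ} {c : ℂ} (h : HasSum f c) : ‖c‖ₑ ≤ ∑' j, ‖f j‖ₑ := by
  have h1 : Tendsto (fun J : ℕ => ‖∑ j ∈ Finset.range J, f j‖ₑ) atTop (𝓝 ‖c‖ₑ) :=
    (continuous_enorm.tendsto c).comp h.tendsto_sum_nat
  refine le_of_tendsto' h1 fun J => ?_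
  exact (enorm_sum_le _ _).trans (ENNReal.sum_le_tsum _)

theorem dec_mul_weight (M1 : ℝ) (N j l : ℕ) :
    dec M1 j l * ENNReal.ofReal ((2 : ℝ) ^ (N * |(l : ℝ) - j|)) = dec (M1 - N) j l := by
  rw [dec, dec, ← ENNReal.ofReal_mul (by positivity), ← Real.rpow_add (by norm_num),
    abs_sub_comm (l : ℝ) j]
  congr 2
  ring

/-- The pointwise estimate of the Littlewood-Paley pieces of `F`. -/
theorem star_bound {a : ℝ} {L0 : 𝓢(E n, ℂ)} (h : IsLP a L0) (N m : ℕ) (M M1 : ℝ) (L : ℕ)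
    (hM : 0 ≤ M) (hL : M + m + N ≤ L) (hM1 : M + 1 + N ≤ M1) (ψ0 ψ1 : 𝓢(E n, ℂ))
    (hψ : Mom0 L ψ1) (χ : E n → ℂ) (hχ : SmB χ) :
    ∃ C : ℝ≥0, ∀ (H : ℕ → E n → ℂ) (T : ℕ → E n → ℝ≥0∞),
      (∀ l x y, T l y ≤ ENNReal.ofReal ((1 + 2 ^ l * ‖x - y‖) ^ N) * T l x) → ∀ C1 : ℝ≥0∞,
      (∀ j y, ‖H j y‖ₑ ≤ C1 * (ENNReal.ofReal ((2 : ℝ) ^ (-((j : ℝ) * m))) * mix M1 T j y)) →
      ∀ F : 𝓢'(E n, ℂ), (∀ w : 𝓢(E n, ℂ),
        HasSum (fun j : ℕ => ∫ y, H j y * ∫ z, fam ψ0 ψ1 j (z - y) * (χ z * w z)) (F w)) →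
      ∀ k x, ‖cv F (lam L0 k) x‖ₑ ≤
        C * C1 * (ENNReal.ofReal ((2 : ℝ) ^ (-((k : ℝ) * m))) * mix M T k x) := by
  obtain ⟨_, L1, _, _, hmom, hfam, _⟩ := lp_facts h
  obtain ⟨C4, hC4⟩ := kern_int L N ψ0 ψ1 (reflS L0) (reflS L1) hψ
    (mom0_reflS (hmom L).1) χ hχ
  refine ⟨4 * C4, fun H T hT C1 hH F hF k x => ?_⟩
  set w : 𝓢(E n, ℂ) := shiftS x (lam L0 k) with hw
  have hwz : ∀ z, w z = fam (reflS L0) (reflS L1) k (z - x) := by
    intro z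
    rw [hw, shiftS_apply, hfam k, ← reflS_fam, reflS_apply, neg_sub]
  set K : ℕ → E n → ℂ := fun j y => ∫ z, fam ψ0 ψ1 j (z - y) * (χ z * w z) with hK
  have hKeq : ∀ j y, K j y =
      ∫ z, fam ψ0 ψ1 j (z - y) * (χ z * fam (reflS L0) (reflS L1) k (z - x)) := by
    intro j y
    simp only [hK, hwz]
  have hKc : ∀ j, Continuous (K j) := fun j => kern_continuous (fam ψ0 ψ1 j) w χ hχ
  have hmeas : ∀ (j l : ℕ), Measurable fun y : E n =>
      ENNReal.ofReal ((1 + 2 ^ l * ‖x - y‖) ^ N) * ‖K j y‖ₑ := by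
    intro j l
    refine Measurable.mul ?_ (hKc j).enorm.measurable
    exact ENNReal.measurable_ofReal.comp (by fun_prop)
  have hKint : ∀ j l : ℕ, ∫⁻ y, ENNReal.ofReal ((1 + 2 ^ l * ‖x - y‖) ^ N) * ‖K j y‖ₑ ≤
      C4 * dec ((L : ℝ) - N) j k * ENNReal.ofReal ((2 : ℝ) ^ (N * |(l : ℝ) - j|)) := by
    intro j l
    refine le_trans (le_of_eq ?_) (hC4 j k l x)
    refine lintegral_congr fun y => ?_
    rw [hKeq, mul_comm]
  -- bound of a single term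
  have hterm : ∀ j : ℕ, ‖∫ y, H j y * K j y‖ₑ ≤
      ∑' l : ℕ, (C1 * C4 * T l x) * (ENNReal.ofReal ((2 : ℝ) ^ (-((j : ℝ) * m))) *
        (dec (M1 - N) j l * dec ((L : ℝ) - N) j k)) := by
    intro j
    calc ‖∫ y, H j y * K j y‖ₑ ≤ ∫⁻ y, ‖H j y * K j y‖ₑ := enorm_integral_le_lintegral_enorm _
      _ ≤ ∫⁻ y, ∑' l : ℕ, (C1 * ENNReal.ofReal ((2 : ℝ) ^ (-((j : ℝ) * m))) * dec M1 j l *
            T l x) * (ENNReal.ofReal ((1 + 2 ^ l * ‖x - y‖) ^ N) * ‖K j y‖ₑ) := by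
          refine lintegral_mono fun y => ?_
          rw [enorm_mul]
          calc ‖H j y‖ₑ * ‖K j y‖ₑ
              ≤ (C1 * (ENNReal.ofReal ((2 : ℝ) ^ (-((j : ℝ) * m))) * mix M1 T j y)) * ‖K j y‖ₑ := by
                gcongr; exact hH j y
            _ ≤ (C1 * (ENNReal.ofReal ((2 : ℝ) ^ (-((j : ℝ) * m))) *
                  mix M1 (fun l y => ENNReal.ofReal ((1 + 2 ^ l * ‖x - y‖) ^ N) * T l x) j y)) *
                  ‖K j y‖ₑ := by
                gcongr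
                exact mix_mono j y fun l => hT l x y
            _ = _ := by
                rw [mix, ← ENNReal.tsum_mul_left, ← ENNReal.tsum_mul_left,
                  ← ENNReal.tsum_mul_right]
                refine tsum_congr fun l => ?_
                ring
      _ = ∑' l : ℕ, (C1 * ENNReal.ofReal ((2 : ℝ) ^ (-((j : ℝ) * m))) * dec M1 j l *
            T l x) * ∫⁻ y, ENNReal.ofReal ((1 + 2 ^ l * ‖x - y‖) ^ N) * ‖K j y‖ₑ := by
          rw [lintegral_tsum fun l => ((hmeas j l).const_mul _).aemeasurable]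
          refine tsum_congr fun l => ?_
          rw [lintegral_const_mul _ (hmeas j l)]
      _ ≤ ∑' l : ℕ, (C1 * ENNReal.ofReal ((2 : ℝ) ^ (-((j : ℝ) * m))) * dec M1 j l *
            T l x) * (C4 * dec ((L : ℝ) - N) j k *
              ENNReal.ofReal ((2 : ℝ) ^ (N * |(l : ℝ) - j|))) := by
          refine ENNReal.tsum_le_tsum fun l => ?_
          gcongr
          exact hKint j l
      _ = _ := by
          refine tsum_congr fun l => ?_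
          rw [← dec_mul_weight M1 N j l]
          ring
  calc ‖cv F (lam L0 k) x‖ₑ = ‖F w‖ₑ := rfl
    _ ≤ ∑' j : ℕ, ‖∫ y, H j y * K j y‖ₑ := enorm_le_tsum_of_hasSum (hF w)
    _ ≤ ∑' j : ℕ, ∑' l : ℕ, (C1 * C4 * T l x) * (ENNReal.ofReal ((2 : ℝ) ^ (-((j : ℝ) * m))) *
        (dec (M1 - N) j l * dec ((L : ℝ) - N) j k)) := ENNReal.tsum_le_tsum hterm
    _ = ∑' l : ℕ, (C1 * C4 * T l x) * ∑' j : ℕ, (ENNReal.ofReal ((2 : ℝ) ^ (-((j : ℝ) * m))) *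
        (dec (M1 - N) j l * dec ((L : ℝ) - N) j k)) := by
        rw [ENNReal.tsum_comm]
        refine tsum_congr fun l => ?_
        rw [ENNReal.tsum_mul_left]
    _ ≤ ∑' l : ℕ, (C1 * C4 * T l x) * (4 * ENNReal.ofReal ((2 : ℝ) ^ (-((k : ℝ) * m))) *
        dec M k l) := by
        refine ENNReal.tsum_le_tsum fun l => ?_
        gcongr
        exact dec_conv hM (Nat.cast_nonneg m) (by linarith) (by linarith) k l
    _ = _ := by
        rw [mix, ← ENNReal.tsum_mul_left, ← ENNReal.tsum_mul_left]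
        refine tsum_congr fun l => ?_
        push_cast
        ring

/-- Uniform bound of the localised pieces. -/
theorem mix_petS_bound (A : Scale) {p q : ℝ≥0∞} {s τ : ℝ} {L0 : 𝓢(E n, ℂ)} {N : ℕ} {C2 : ℝ≥0}
    {D M1 : ℝ} (hD : ∀ (u : 𝓢'(E n, ℂ)) (l : ℕ) (x : E n),
      pet L0 N u l x ≤ C2 * ENNReal.ofReal ((2 : ℝ) ^ ((l : ℝ) * D)) * anorm A p q s τ L0 u)
    (hM1 : |D| + 1 ≤ M1) {K : ℕ} (W : Fin K → 𝓢'(E n, ℂ)) (j : ℕ) (y : E n) :
    mix M1 (petS L0 N W) j y ≤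
      (C2 * (∑ i, anorm A p q s τ L0 (W i)) * 4) * ENNReal.ofReal ((2 : ℝ) ^ ((j : ℝ) * D)) := by
  have h1 : ∀ l, petS L0 N W l y ≤ (C2 * ∑ i, anorm A p q s τ L0 (W i)) *
      ENNReal.ofReal ((2 : ℝ) ^ ((l : ℝ) * D)) := by
    intro l
    rw [petS]
    calc ∑ i, pet L0 N (W i) l y ≤ ∑ i, C2 * ENNReal.ofReal ((2 : ℝ) ^ ((l : ℝ) * D)) *
          anorm A p q s τ L0 (W i) := Finset.sum_le_sum fun i _ => hD (W i) l y
      _ = _ := by rw [← Finset.mul_sum]; ring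
  calc mix M1 (petS L0 N W) j y
      ≤ mix M1 (fun l _ => (C2 * ∑ i, anorm A p q s τ L0 (W i)) *
          ENNReal.ofReal ((2 : ℝ) ^ ((l : ℝ) * D))) j y := mix_mono' j y h1
    _ = (C2 * ∑ i, anorm A p q s τ L0 (W i)) *
          ∑' l : ℕ, dec M1 j l * ENNReal.ofReal ((2 : ℝ) ^ ((l : ℝ) * D)) := by
        rw [mix, ← ENNReal.tsum_mul_left]
        refine tsum_congr fun l => ?_
        ring
    _ ≤ (C2 * ∑ i, anorm A p q s τ L0 (W i)) *
          (4 * ENNReal.ofReal ((2 : ℝ) ^ ((j : ℝ) * D))) := by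
        gcongr
        exact tsum_dec_weight hM1 j
    _ = _ := by ring

/-- The main estimate, for arbitrary extensions. -/
theorem core [NeZero n] (A : Scale) {p q : ℝ≥0∞} {s τ : ℝ} (hp : 0 < p) (hq : 0 < q)
    (hτ : 0 ≤ τ) (hAp : A = Scale.F → p ≠ ⊤) {a : ℝ} {L0 : 𝓢(E n, ℂ)} (h : IsLP a L0) (m : ℕ)
    {Ω : Set (E n)} (hΩ : IsOpen Ω) (Ch : Charts Ω) :
    ∃ C : ℝ≥0, 0 < C ∧ ∀ (u v0 : 𝓢'(E n, ℂ)) (g : Fin n → 𝓢'(E n, ℂ)), AgreeOn Ω u v0 →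
      (∀ k, AgreeOn Ω (pd k m u) (g k)) →
      domNorm Ω A p q s τ L0 u ≤
        C * ∑ i, anorm A p q (s - m) τ L0 ((Fin.cons v0 g : Fin (n + 1) → 𝓢'(E n, ℂ)) i) := by
  obtain ⟨N, hS1, hS2⟩ := seq_main A hp hq hτ hAp h
  obtain ⟨M0, hM0⟩ := hS1 (s - m)
  obtain ⟨C2, D, hD⟩ := hS2 (s - m)
  obtain ⟨C3, hC3⟩ := hM0 (max M0 0) (le_max_left _ _)
  set M : ℝ := max M0 0 with hMdef
  have hMnn : 0 ≤ M := le_max_right _ _
  set M1 : ℝ := M + 1 + N + |D| with hM1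
  obtain ⟨L1, hL1⟩ := pointwise_bound h N M1
  obtain ⟨L, hLL⟩ := exists_nat_ge (max (M + m + N) (max (L1 : ℝ) (D + 1)))
  have hLa : M + m + N ≤ L := (le_max_left _ _).trans hLL
  have hLb : L1 ≤ L := by exact_mod_cast ((le_max_left _ _).trans (le_max_right _ _)).trans hLL
  have hLc : D < L := by
    have := ((le_max_right _ _).trans (le_max_right _ _)).trans hLL
    linarith
  have hker := fun i => exists_kernels (Ch.e i) (Ch.r i) (Ch.hr i) (Ch.hre i) m L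
  choose φ0 φ1 ψ0 ψ1 κ η hφ0 hφ1s hψ0 hψ1s hη hφ1 hηm hψm hκ hrep using hker
  have hpb : ∀ i k, ∃ C : ℝ≥0, ∀ (u : 𝓢'(E n, ℂ)) (j : ℕ) (y : E n),
      ‖cv u (fam (φ0 i) (η i k) j) y‖ₑ ≤ C * mix M1 (fun l => pet L0 N u l) j y :=
    fun i k => hL1 (φ0 i) (η i k) (mom0_mono hLb (hηm i k))
  choose Cik hCik using hpb
  have hst := fun i => star_bound h N m M M1 L hMnn hLa (by rw [hM1]; linarith [abs_nonneg D])
    (ψ0 i) (ψ1 i) (hψm i) (Ch.χ i) (Ch.hχ i)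
  choose Cst hCst using hst
  obtain ⟨C5, hC5⟩ := seqNorm_sum_le (n := n) A (τ := τ) hp hq (n + 1)
  set Cp : Fin Ch.m → ℝ≥0 := fun i => ∑ k, Cik i k with hCp
  have hCp' : ∀ i k (u : 𝓢'(E n, ℂ)) (j : ℕ) (y : E n),
      ‖cv u (fam (φ0 i) (η i k) j) y‖ₑ ≤ Cp i * mix M1 (fun l => pet L0 N u l) j y := by
    intro i k u j y
    refine (hCik i k u j y).trans ?_
    gcongr
    rw [hCp]
    exact_mod_cast Finset.single_le_sum (f := fun k => Cik i k) (fun _ _ => zero_le)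
      (Finset.mem_univ k)
  set Ct : ℝ≥0 := ∑ i, Cst i * (Cp i * 2 ^ m) with hCt
  refine ⟨Ct * C5 * C3 + 1, by positivity, fun u v0 g huv hg => ?_⟩
  set W : Fin (n + 1) → 𝓢'(E n, ℂ) := Fin.cons v0 g with hW
  by_cases hfin : ∑ i, anorm A p q (s - m) τ L0 (W i) = ⊤
  · rw [hfin, ENNReal.mul_top (by positivity)]
    exact le_top
  -- the localised pieces
  set H : Fin Ch.m → ℕ → E n → ℂ := fun i j =>
    (Ω ∩ Ch.V i).indicator (cv u (fam (φ0 i) (φ1 i) j)) with hH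
  have hHm : ∀ i j, Measurable (H i j) := fun i j =>
    (cv_continuous u _).measurable.indicator (hΩ.inter (Ch.hV i)).measurableSet
  have hHb : ∀ i j y, ‖H i j y‖ₑ ≤ (Cp i * 2 ^ m) *
      (ENNReal.ofReal ((2 : ℝ) ^ (-((j : ℝ) * m))) * mix M1 (petS L0 N W) j y) := by
    intro i j y
    exact H_bound Ω (Ch.V i) (Ch.e i) (Ch.r i) (Ch.hcone i) m (φ0 i) (φ1 i) (hφ0 i) (η i)
      (hη i) (hφ1 i) L0 N M1 (Cp i) (fun k u j y => hCp' i k u j y) u v0 g huv hg j y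
  have hHB : ∀ i, ∃ B : ℝ, ∀ j y, ‖H i j y‖ ≤ B * (2 : ℝ) ^ ((j : ℝ) * D) := by
    intro i
    set Be : ℝ≥0∞ := (Cp i * 2 ^ m) * (C2 * (∑ i, anorm A p q (s - m) τ L0 (W i)) * 4) with hBe
    have hBe' : Be ≠ ⊤ := by
      rw [hBe]
      exact ENNReal.mul_ne_top (ENNReal.mul_ne_top ENNReal.coe_ne_top (by simp))
        (ENNReal.mul_ne_top (ENNReal.mul_ne_top ENNReal.coe_ne_top hfin) (by simp))
    refine ⟨Be.toReal, fun j y => ?_⟩
    have h1 : ‖H i j y‖ₑ ≤ Be * ENNReal.ofReal ((2 : ℝ) ^ ((j : ℝ) * D)) := by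
      refine (hHb i j y).trans ?_
      have h2 : ENNReal.ofReal ((2 : ℝ) ^ (-((j : ℝ) * m))) ≤ 1 := by
        rw [← ENNReal.ofReal_one]
        refine ENNReal.ofReal_le_ofReal (Real.rpow_le_one_of_one_le_of_nonpos (by norm_num) ?_)
        have : 0 ≤ (j : ℝ) * m := by positivity
        linarith
      calc (Cp i * 2 ^ m : ℝ≥0∞) * (ENNReal.ofReal ((2 : ℝ) ^ (-((j : ℝ) * m))) *
            mix M1 (petS L0 N W) j y)
          ≤ (Cp i * 2 ^ m) * (1 * ((C2 * (∑ i, anorm A p q (s - m) τ L0 (W i)) * 4) *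
            ENNReal.ofReal ((2 : ℝ) ^ ((j : ℝ) * D)))) := by
            gcongr
            exact mix_petS_bound A hD (by rw [hM1]; linarith [Nat.cast_nonneg (α := ℝ) N]) W j y
        _ = _ := by rw [hBe]; ring
    have h3 : ‖H i j y‖ = ‖H i j y‖ₑ.toReal := (toReal_enorm _).symm
    rw [h3]
    refine (ENNReal.toReal_mono (ENNReal.mul_ne_top hBe' ENNReal.ofReal_ne_top) h1).trans ?_
    rw [ENNReal.toReal_mul, ENNReal.toReal_ofReal (by positivity)]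
  choose B hB using hHB
  have hF := fun i => exists_F L D hLc (ψ0 i) (ψ1 i) (hψm i) (Ch.χ i) (Ch.hχ i) (H i) (hHm i)
    (B i) (hB i)
  choose F hF using hF
  set Fs : 𝓢'(E n, ℂ) := ∑ i, F i with hFs
  have hFsapp : ∀ w : 𝓢(E n, ℂ), Fs w = ∑ i, F i w := by
    intro w
    rw [hFs]
    simp
  -- `Fs` is an extension of `u`
  have hagree : AgreeOn Ω u Fs := by
    intro w _ hwΩ
    rw [hFsapp]
    have h1 : ∀ i, F i w = u (smulLeftCLM ℂ (Ch.χ i) w) := fun i =>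
      F_agree Ω (Ch.V i) (Ch.e i) (Ch.r i) (Ch.χ i) (Ch.hχ i) (Ch.hcone i) (Ch.hsupp i)
        (Ch.hsuppc i) (φ0 i) (φ1 i) (ψ0 i) (ψ1 i) (κ i) (hψ0 i).2 (hψ1s i).2 (hκ i) (hrep i)
        u (F i) (hF i) w hwΩ
    simp_rw [h1]
    rw [← map_sum]
    congr 1
    ext x
    rw [sum_apply]
    have h2 : ∀ i, smulLeftCLM ℂ (Ch.χ i) w x = Ch.χ i x * w x := fun i => by
      rw [smulLeftCLM_apply_apply (smB_temperate (Ch.hχ i)), smul_eq_mul]
    simp_rw [h2]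
    rw [← Finset.sum_mul]
    by_cases hx : x ∈ Ω
    · rw [Ch.hsum x hx, one_mul]
    · have : w x = 0 := image_eq_zero_of_notMem_tsupport fun hx' => hx (hwΩ hx')
      rw [this, mul_zero]
  have hstar : ∀ k x, ‖cv Fs (lam L0 k) x‖ₑ ≤
      Ct * (ENNReal.ofReal ((2 : ℝ) ^ (-((k : ℝ) * m))) * mix M (petS L0 N W) k x) := by
    intro k x
    have h1 : cv Fs (lam L0 k) x = ∑ i, cv (F i) (lam L0 k) x := hFsapp _
    rw [h1]
    refine (enorm_sum_le _ _).trans ?_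
    have h2 : ∀ i, ‖cv (F i) (lam L0 k) x‖ₑ ≤ Cst i * (Cp i * 2 ^ m) *
        (ENNReal.ofReal ((2 : ℝ) ^ (-((k : ℝ) * m))) * mix M (petS L0 N W) k x) := fun i =>
      hCst i (H i) (petS L0 N W) (fun l x y => petS_shift L0 N W l x y) _ (hHb i) (F i) (hF i) k x
    refine (Finset.sum_le_sum fun i _ => h2 i).trans (le_of_eq ?_)
    rw [← Finset.sum_mul, hCt]
    push_cast
    rfl
  calc domNorm Ω A p q s τ L0 u ≤ anorm A p q s τ L0 Fs := iInf₂_le Fs hagree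
    _ ≤ seqNorm A p q τ (fun k x => Ct * ∑ i, (ENNReal.ofReal ((2 : ℝ) ^ ((k : ℝ) * (s - m))) *
          mix M (fun l => pet L0 N (W i) l) k x)) := by
        refine seqNorm_mono A fun k x => ?_
        calc ENNReal.ofReal ((2 : ℝ) ^ ((k : ℝ) * s)) * ‖cv Fs (lam L0 k) x‖ₑ
            ≤ ENNReal.ofReal ((2 : ℝ) ^ ((k : ℝ) * s)) *
              (Ct * (ENNReal.ofReal ((2 : ℝ) ^ (-((k : ℝ) * m))) *
                mix M (petS L0 N W) k x)) := by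
              gcongr
              exact hstar k x
          _ = Ct * ((ENNReal.ofReal ((2 : ℝ) ^ ((k : ℝ) * s)) *
              ENNReal.ofReal ((2 : ℝ) ^ (-((k : ℝ) * m)))) * mix M (petS L0 N W) k x) := by ring
          _ = _ := by
              rw [← ENNReal.ofReal_mul (by positivity), ← Real.rpow_add (by norm_num), mix_petS,
                ← Finset.mul_sum]
              congr 4
              ring
    _ ≤ Ct * seqNorm A p q τ (fun k x => ∑ i, (ENNReal.ofReal ((2 : ℝ) ^ ((k : ℝ) * (s - m))) *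
          mix M (fun l => pet L0 N (W i) l) k x)) := seqNorm_const_mul A Ct _
    _ ≤ Ct * (C5 * ∑ i, seqNorm A p q τ (fun k x =>
          ENNReal.ofReal ((2 : ℝ) ^ ((k : ℝ) * (s - m))) *
          mix M (fun l => pet L0 N (W i) l) k x)) := by
        gcongr
        refine hC5 (fun i k x => ENNReal.ofReal ((2 : ℝ) ^ ((k : ℝ) * (s - m))) *
          mix M (fun l => pet L0 N (W i) l) k x) fun i l => ?_
        exact (mix_measurable (fun l => pet_measurable L0 N (W i) l) l).const_mul _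
    _ ≤ Ct * (C5 * ∑ i, (C3 * anorm A p q (s - m) τ L0 (W i))) := by
        gcongr with i _
        exact hC3 (W i)
    _ = (Ct * C5 * C3) * ∑ i, anorm A p q (s - m) τ L0 (W i) := by
        rw [← Finset.mul_sum]
        ring
    _ ≤ _ := by
        gcongr
        push_cast
        exact le_self_add

/-- The main theorem. -/
theorem main' {k : ℕ} (A : Scale) {p q : ℝ≥0∞} {s τ : ℝ} (hp : 0 < p) (hq : 0 < q) (hτ : 0 ≤ τ)
    (hAp : A = Scale.F → p ≠ ⊤) {a : ℝ} {L0 : 𝓢(E (k + 1), ℂ)} (h : IsLP a L0) (m : ℕ)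
    {Ω : Set (E (k + 1))} (hΩ : IsSpecialLipschitz Ω ∨ IsBoundedLipschitz Ω) :
    ∃ C : ℝ≥0, 0 < C ∧ ∀ u : 𝓢'(E (k + 1), ℂ),
      domNorm Ω A p q s τ L0 u ≤
        C * (domNorm Ω A p q (s - m) τ L0 u + ∑ i, domNorm Ω A p q (s - m) τ L0 (pd i m u)) := by
  obtain ⟨hΩo, ⟨Ch⟩⟩ : IsOpen Ω ∧ Nonempty (Charts Ω) := by
    rcases hΩ with hΩ | hΩ
    · exact charts_special hΩ
    · exact ⟨hΩ.2.1, charts_bounded hΩ⟩
  obtain ⟨C, hC, hmain⟩ := core (s := s) A hp hq hτ hAp h m hΩo Ch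
  refine ⟨C, hC, fun u => ?_⟩
  set U : Fin (k + 1 + 1) → 𝓢'(E (k + 1), ℂ) := Fin.cons u (fun i => pd i m u) with hU
  have hX : ∀ W : Fin (k + 1 + 1) → 𝓢'(E (k + 1), ℂ), (∀ i, AgreeOn Ω (U i) (W i)) →
      domNorm Ω A p q s τ L0 u ≤ C * ∑ i, anorm A p q (s - m) τ L0 (W i) := by
    intro W hWa
    have h1 := hmain u (W 0) (fun i => W i.succ) (hWa 0) (fun i => hWa i.succ)
    have h2 : (Fin.cons (W 0) (fun i => W i.succ) : Fin (k + 1 + 1) → 𝓢'(E (k + 1), ℂ)) = W :=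
      Fin.cons_self_tail W
    rw [h2] at h1
    exact h1
  have key : domNorm Ω A p q s τ L0 u ≤
      C * ∑ i, ⨅ (v : 𝓢'(E (k + 1), ℂ)) (_ : AgreeOn Ω (U i) v), anorm A p q (s - m) τ L0 v :=
    le_mul_sum_iInf (N := k + 1 + 1)
      (fun _ (v : 𝓢'(E (k + 1), ℂ)) => anorm A p q (s - m) τ L0 v)
      (fun i v => AgreeOn Ω (U i) v) C hC (domNorm Ω A p q s τ L0 u) hX
  have h3 : ∑ i, (⨅ (v : 𝓢'(E (k + 1), ℂ)) (_ : AgreeOn Ω (U i) v), anorm A p q (s - m) τ L0 v)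
      = ∑ i, domNorm Ω A p q (s - m) τ L0 (U i) := rfl
  rw [h3, Fin.sum_univ_succ] at key
  exact key

end MP6db0a9
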