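import Mathlib

/-!
# MP_6db0a9_an: the definitions used in the final statement

Besov, Triebel-Lizorkin and Morrey type spaces `B, F, N` on `ℝⁿ` and on Lipschitz domains.
-/

open MeasureTheory SchwartzMap Set Filter Topology
open scoped ENNReal NNReal FourierTransform LineDeriv ContDiff

namespace MP6db0a9.Stmt

variable {n k : ℕ}

/-! ### The spaces on `ℝⁿ` -/

/-- The family `λ₀, λ₁, ...`: the Fourier transform of `λ₀` is `1` on `{|ξ| < a}` and `0` outside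
`{|ξ| < 2 a}`, and `λ_j (x) = 2^{jn} λ₀ (2^j x) - 2^{(j-1)n} λ₀ (2^{j-1} x)` for `j ≥ 1`. With the
normalisation `∫ e^{-i x ξ}` of the Fourier transform the problem has `a = 1`; with the
normalisation `∫ e^{-2 π i x ξ}` of Mathlib this is `a = 1 / (2 π)`. -/
def IsLP (a : ℝ) (L : ℕ → 𝓢(EuclideanSpace ℝ (Fin n), ℂ)) : Prop :=
  0 < a ∧ (∀ ξ, ‖ξ‖ < a → 𝓕 (L 0) ξ = 1) ∧ (∀ ξ, 2 * a ≤ ‖ξ‖ → 𝓕 (L 0) ξ = 0) ∧
    ∀ (j : ℕ) (x : EuclideanSpace ℝ (Fin n)), L (j + 1) x =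
      (2 : ℂ) ^ ((j + 1) * n) * L 0 ((2 : ℝ) ^ (j + 1) • x) -
        (2 : ℂ) ^ (j * n) * L 0 ((2 : ℝ) ^ j • x)

/-- The Schwartz function `y ↦ f (x - y)`. -/
noncomputable def shift (x : EuclideanSpace ℝ (Fin n)) (f : 𝓢(EuclideanSpace ℝ (Fin n), ℂ)) :
    𝓢(EuclideanSpace ℝ (Fin n), ℂ) :=
  compSubConstCLM ℂ x (compCLMOfContinuousLinearEquiv ℂ
    (ContinuousLinearEquiv.neg ℝ (M := EuclideanSpace ℝ (Fin n))) f)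

/-- `(f * u) (x) = ⟨u, f (x - ·)⟩` for a tempered distribution `u` and a Schwartz function `f`. -/
noncomputable def conv (f : 𝓢(EuclideanSpace ℝ (Fin n), ℂ))
    (u : 𝓢'(EuclideanSpace ℝ (Fin n), ℂ)) (x : EuclideanSpace ℝ (Fin n)) : ℂ :=
  u (shift x f)

/-- The open dyadic cube `Q_{J, v} = 2^{-J} (v + (0,1)ⁿ)`. -/
def cube (J : ℤ) (v : Fin n → ℤ) : Set (EuclideanSpace ℝ (Fin n)) :=
  {x | ∀ i, (2 : ℝ) ^ (-J) * v i < x i ∧ x i < (2 : ℝ) ^ (-J) * (v i + 1)}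

/-- The weight `2^{n J τ}`. -/
noncomputable def wt (n : ℕ) (τ : ℝ) (J : ℤ) : ℝ≥0∞ :=
  ENNReal.ofReal ((2 : ℝ) ^ ((n : ℝ) * J * τ))

/-- `sup_{J, v} 2^{n J τ} ‖(‖g_j‖_{L^p(Q_{J,v})})_{j ≥ max(0,J)}‖_{ℓ^q}`. -/
noncomputable def normB (p q : ℝ≥0∞) (τ : ℝ) (g : ℕ → EuclideanSpace ℝ (Fin n) → ℝ≥0∞) : ℝ≥0∞ :=
  ⨆ (J : ℤ) (v : Fin n → ℤ), wt n τ J *
    eLpNorm (fun j : ℕ => eLpNorm (g j) p (volume.restrict (cube J v))) q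
      (Measure.count.restrict {j : ℕ | J ≤ (j : ℤ)})

/-- `sup_{J, v} 2^{n J τ} ‖ ‖(g_j (x))_{j ≥ max(0,J)}‖_{ℓ^q} ‖_{L^p(Q_{J,v})}`. -/
noncomputable def normF (p q : ℝ≥0∞) (τ : ℝ) (g : ℕ → EuclideanSpace ℝ (Fin n) → ℝ≥0∞) : ℝ≥0∞ :=
  ⨆ (J : ℤ) (v : Fin n → ℤ), wt n τ J *
    eLpNorm (fun x => eLpNorm (fun j : ℕ => g j x) q
      (Measure.count.restrict {j : ℕ | J ≤ (j : ℤ)})) p (volume.restrict (cube J v))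

/-- `‖ (sup_{J, v} 2^{n J τ} ‖g_j‖_{L^p(Q_{J,v})})_{j ≥ 0} ‖_{ℓ^q}`. -/
noncomputable def normN (p q : ℝ≥0∞) (τ : ℝ) (g : ℕ → EuclideanSpace ℝ (Fin n) → ℝ≥0∞) : ℝ≥0∞ :=
  eLpNorm (fun j : ℕ => ⨆ (J : ℤ) (v : Fin n → ℤ), wt n τ J *
    eLpNorm (g j) p (volume.restrict (cube J v))) q Measure.count

/-- The three scales `𝓑`, `𝓕`, `𝓝`. -/
inductive Scale
  | B
  | F
  | N

/-- The sequence quasi-norms of the three scales. -/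
noncomputable def seqNorm (A : Scale) (p q : ℝ≥0∞) (τ : ℝ)
    (g : ℕ → EuclideanSpace ℝ (Fin n) → ℝ≥0∞) : ℝ≥0∞ :=
  match A with
  | .B => normB p q τ g
  | .F => normF p q τ g
  | .N => normN p q τ g

/-- The quasi-norm of `u` in `𝓐^{s τ}_{p q}(ℝⁿ)`. -/
noncomputable def anorm (A : Scale) (p q : ℝ≥0∞) (s τ : ℝ)
    (L : ℕ → 𝓢(EuclideanSpace ℝ (Fin n), ℂ)) (u : 𝓢'(EuclideanSpace ℝ (Fin n), ℂ)) : ℝ≥0∞ :=
  seqNorm A p q τ fun j x => ENNReal.ofReal ((2 : ℝ) ^ ((j : ℝ) * s)) * ‖conv (L j) u x‖ₑ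

/-! ### The spaces on open sets -/

/-- `u` and `v` have the same restriction to `Ω`. -/
def AgreeOn (Ω : Set (EuclideanSpace ℝ (Fin n))) (u v : 𝓢'(EuclideanSpace ℝ (Fin n), ℂ)) : Prop :=
  ∀ φ : 𝓢(EuclideanSpace ℝ (Fin n), ℂ), HasCompactSupport φ → tsupport φ ⊆ Ω → u φ = v φ

/-- The quasi-norm of the restriction of `u` to `Ω` in `𝓐^{s τ}_{p q}(Ω)`: the infimum of the
quasi-norms of all tempered distributions with the same restriction. -/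
noncomputable def domNorm (Ω : Set (EuclideanSpace ℝ (Fin n))) (A : Scale) (p q : ℝ≥0∞) (s τ : ℝ)
    (L : ℕ → 𝓢(EuclideanSpace ℝ (Fin n), ℂ)) (u : 𝓢'(EuclideanSpace ℝ (Fin n), ℂ)) : ℝ≥0∞ :=
  ⨅ (v : 𝓢'(EuclideanSpace ℝ (Fin n), ℂ)) (_ : AgreeOn Ω u v), anorm A p q s τ L v

/-- The distribution `∂^m u / ∂ x_i^m`. -/
noncomputable def pd (i : Fin n) (m : ℕ) (u : 𝓢'(EuclideanSpace ℝ (Fin n), ℂ)) :
    𝓢'(EuclideanSpace ℝ (Fin n), ℂ) :=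
  (fun w : 𝓢'(EuclideanSpace ℝ (Fin n), ℂ) => ∂_{EuclideanSpace.single i (1 : ℝ)} w)^[m] u

/-! ### Lipschitz domains of `ℝⁿ`, `n = k + 1` -/

/-- The set `{x : x_n > ρ (x_1, ..., x_{n-1})}`. -/
def epi (ρ : EuclideanSpace ℝ (Fin k) → ℝ) : Set (EuclideanSpace ℝ (Fin (k + 1))) :=
  {x | ρ (WithLp.toLp 2 fun i : Fin k => x i.castSucc) < x (Fin.last k)}

/-- Special Lipschitz domains. -/
def IsSpecialLipschitz (Ω : Set (EuclideanSpace ℝ (Fin (k + 1)))) : Prop :=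
  ∃ (K : ℝ≥0) (ρ : EuclideanSpace ℝ (Fin k) → ℝ), LipschitzWith K ρ ∧ Ω = epi ρ

/-- Bounded Lipschitz domains. -/
def IsBoundedLipschitz (Ω : Set (EuclideanSpace ℝ (Fin (k + 1)))) : Prop :=
  Bornology.IsBounded Ω ∧ IsOpen Ω ∧ ∀ z ∈ frontier Ω, ∃ U ∈ 𝓝 z,
    ∃ (T : EuclideanSpace ℝ (Fin (k + 1)) ≃ᵃⁱ[ℝ] EuclideanSpace ℝ (Fin (k + 1))) (K : ℝ≥0)
      (ρ : EuclideanSpace ℝ (Fin k) → ℝ), LipschitzWith K ρ ∧ Ω ∩ U = (T ⁻¹' epi ρ) ∩ U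

end MP6db0a9.Stmt
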