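import Pool.Agent.Lib_MP_6db0a9_an.Main
import Pool.Agent.Lib_MP_6db0a9_an.Stmt

/-!
# MP_6db0a9_an: translation of the main theorem to the definitions of the final statement
-/

open MeasureTheory SchwartzMap Set Filter Topology
open scoped ENNReal NNReal FourierTransform LineDeriv ContDiff

namespace MP6db0a9.Stmt

variable {n k : ℕ}

/-- Comparison of the two copies of the list of scales. -/
def Scale.toScale : Scale → MP6db0a9.Scale
  | .B => .B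
  | .F => .F
  | .N => .N

/-! ### Comparison with the definitions of the proof -/

theorem IsLP.toIsLP {a : ℝ} {L : ℕ → 𝓢(EuclideanSpace ℝ (Fin n), ℂ)} (h : IsLP a L) :
    MP6db0a9.IsLP a (L 0) := ⟨h.1, h.2.1, h.2.2.1⟩

theorem IsLP.eq_lam {a : ℝ} {L : ℕ → 𝓢(EuclideanSpace ℝ (Fin n), ℂ)} (h : IsLP a L) (j : ℕ) :
    L j = lam (L 0) j := by
  cases j with
  | zero => rfl
  | succ j =>
    ext x
    rw [h.2.2.2 j x, lam, SchwartzMap.sub_apply, dilS_apply (by positivity),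
      dilS_apply (by positivity)]
    push_cast
    rw [← pow_mul, ← pow_mul]

theorem seqNorm_eq (A : Scale) (p q : ℝ≥0∞) (τ : ℝ)
    (g : ℕ → EuclideanSpace ℝ (Fin n) → ℝ≥0∞) :
    seqNorm A p q τ g = MP6db0a9.seqNorm A.toScale p q τ g := by
  cases A <;> rfl

theorem anorm_eq {a : ℝ} {L : ℕ → 𝓢(EuclideanSpace ℝ (Fin n), ℂ)} (h : IsLP a L) (A : Scale)
    (p q : ℝ≥0∞) (s τ : ℝ) (u : 𝓢'(EuclideanSpace ℝ (Fin n), ℂ)) :
    anorm A p q s τ L u = MP6db0a9.anorm A.toScale p q s τ (L 0) u := by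
  unfold anorm MP6db0a9.anorm
  rw [seqNorm_eq]
  congr 1
  funext j x
  rw [← h.eq_lam j]
  rfl

theorem domNorm_eq {a : ℝ} {L : ℕ → 𝓢(EuclideanSpace ℝ (Fin n), ℂ)} (h : IsLP a L)
    (Ω : Set (EuclideanSpace ℝ (Fin n))) (A : Scale)
    (p q : ℝ≥0∞) (s τ : ℝ) (u : 𝓢'(EuclideanSpace ℝ (Fin n), ℂ)) :
    domNorm Ω A p q s τ L u = MP6db0a9.domNorm Ω A.toScale p q s τ (L 0) u := by
  unfold domNorm MP6db0a9.domNorm
  simp_rw [anorm_eq h]
  rfl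

theorem main'' (A : Scale) {p q : ℝ≥0∞} {s τ : ℝ} (hp : 0 < p) (hq : 0 < q)
    (hτ : 0 ≤ τ) (hAp : A = Scale.F → p ≠ ⊤) {a : ℝ}
    {L : ℕ → 𝓢(EuclideanSpace ℝ (Fin (k + 1)), ℂ)} (h : IsLP a L)
    (m : ℕ) {Ω : Set (EuclideanSpace ℝ (Fin (k + 1)))}
    (hΩ : IsSpecialLipschitz Ω ∨ IsBoundedLipschitz Ω) :
    ∃ C : ℝ≥0, 0 < C ∧ ∀ u : 𝓢'(EuclideanSpace ℝ (Fin (k + 1)), ℂ),
      domNorm Ω A p q s τ L u ≤
        C * (domNorm Ω A p q (s - m) τ L u + ∑ i, domNorm Ω A p q (s - m) τ L (pd i m u)) := by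
  have hAp' : A.toScale = MP6db0a9.Scale.F → p ≠ ⊤ := by
    intro hA
    refine hAp ?_
    cases A <;> simp_all [Scale.toScale]
  obtain ⟨C, hC, H⟩ := MP6db0a9.main' (s := s) A.toScale hp hq hτ hAp' h.toIsLP m (Ω := Ω) hΩ
  refine ⟨C, hC, fun u => ?_⟩
  have := H u
  simp_rw [domNorm_eq h]
  exact this

end MP6db0a9.Stmt
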