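import Pool.Agent.Lib_MP_6db0a9_an.Defs

/-! Small utilities for the final assembly (helper95). -/

open MeasureTheory SchwartzMap Set Filter Topology
open scoped ENNReal NNReal FourierTransform LineDeriv ContDiff

namespace MP6db0a9

variable {n : ℕ}

/-! ### `dec` -/

theorem dec_comm (M : ℝ) (k l : ℕ) : dec M k l = dec M l k := by
  rw [dec, dec, abs_sub_comm]

theorem dec_add (a b : ℝ) (k l : ℕ) : dec (a + b) k l = dec a k l * dec b k l := by
  rw [dec, dec, dec, ← ENNReal.ofReal_mul (by positivity), ← Real.rpow_add (by norm_num)]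
  congr 2
  ring

theorem dec_le_one {M : ℝ} (hM : 0 ≤ M) (k l : ℕ) : dec M k l ≤ 1 := by
  rw [dec, ← ENNReal.ofReal_one]
  refine ENNReal.ofReal_le_ofReal ?_
  refine Real.rpow_le_one_of_one_le_of_nonpos (by norm_num) ?_
  have := abs_nonneg ((k : ℝ) - l)
  nlinarith [mul_nonneg this hM]

theorem dec_anti {M M' : ℝ} (h : M ≤ M') (k l : ℕ) : dec M' k l ≤ dec M k l := by
  rw [dec, dec]
  refine ENNReal.ofReal_le_ofReal (Real.rpow_le_rpow_of_exponent_le (by norm_num) ?_)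
  have := abs_nonneg ((k : ℝ) - l)
  nlinarith [mul_le_mul_of_nonneg_left h this]

theorem dec_ne_top (M : ℝ) (k l : ℕ) : dec M k l ≠ ⊤ := ENNReal.ofReal_ne_top

/-- The triangle inequality for `dec`. -/
theorem dec_triangle {M : ℝ} (hM : 0 ≤ M) (j k l : ℕ) : dec M j l * dec M j k ≤ dec M k l := by
  rw [dec, dec, dec, ← ENNReal.ofReal_mul (by positivity), ← Real.rpow_add (by norm_num)]
  refine ENNReal.ofReal_le_ofReal (Real.rpow_le_rpow_of_exponent_le (by norm_num) ?_)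
  have h1 : |(k : ℝ) - l| ≤ |(j : ℝ) - l| + |(j : ℝ) - k| := by
    have := abs_sub_le (k : ℝ) j l
    rw [abs_sub_comm (k : ℝ) j] at this
    linarith
  nlinarith [mul_le_mul_of_nonneg_right h1 hM]

theorem tsum_geom : ∑' l : ℕ, ((2 : ℝ≥0∞)⁻¹) ^ l = 2 := by
  rw [ENNReal.tsum_geometric, ENNReal.one_sub_inv_two, inv_inv]

theorem ofReal_two_pow_neg (l : ℕ) : ENNReal.ofReal ((2 : ℝ) ^ (-(l : ℝ))) = ((2 : ℝ≥0∞)⁻¹) ^ l := by
  rw [Real.rpow_neg (by norm_num), Real.rpow_natCast, ← inv_pow,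
      ENNReal.ofReal_pow (by norm_num), ENNReal.ofReal_inv_of_pos (by norm_num)]
  congr 2
  exact ENNReal.ofReal_ofNat 2

theorem tsum_dec_aux1 (j : ℕ) : ∑' l : ℕ, dec 1 j (l + j) ≤ 2 := by
  rw [← tsum_geom]
  refine ENNReal.tsum_le_tsum fun l => ?_
  rw [dec]
  have : |(j : ℝ) - ((l + j : ℕ) : ℝ)| = l := by
    rw [Nat.cast_add, show (j : ℝ) - (l + j) = -l by ring, abs_neg, Nat.abs_cast]
  rw [this, mul_one, ofReal_two_pow_neg]

theorem tsum_dec_aux2 (j : ℕ) : ∑ l ∈ Finset.range j, dec 1 j l ≤ 2 := by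
  rw [← Finset.sum_range_reflect, ← tsum_geom]
  refine le_trans (Finset.sum_le_sum fun l hl => ?_)
    (ENNReal.sum_le_tsum (Finset.range j) (f := fun l => ((2 : ℝ≥0∞)⁻¹) ^ l))
  have hl' := Finset.mem_range.1 hl
  rw [dec]
  have : |(j : ℝ) - ((j - 1 - l : ℕ) : ℝ)| = l + 1 := by
    have h4 : ((j - 1 - l : ℕ) : ℝ) = (j : ℝ) - 1 - l := by
      rw [Nat.cast_sub (by omega), Nat.cast_sub (by omega)]
      norm_num
    rw [h4, show (j : ℝ) - ((j : ℝ) - 1 - l) = l + 1 by ring, abs_of_nonneg (by positivity)]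
  rw [this, ← ofReal_two_pow_neg]
  exact ENNReal.ofReal_le_ofReal (Real.rpow_le_rpow_of_exponent_le (by norm_num) (by linarith))

theorem split_tsum (f : ℕ → ℝ≥0∞) (j : ℕ) (h1 : ∑' l : ℕ, f (l + j) ≤ 2)
    (h2 : ∑ l ∈ Finset.range j, f l ≤ 2) : ∑' l : ℕ, f l ≤ 4 := by
  have hsplit : ∑ l ∈ Finset.range j, f l + ∑' l : ℕ, f (l + j) = ∑' l : ℕ, f l :=
    ENNReal.summable.sum_add_tsum_nat_add'
  rw [← hsplit]
  have h5 : (2 : ℝ≥0∞) + 2 = 4 := by norm_num
  rw [← h5]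
  exact add_le_add h2 h1

theorem tsum_dec_le {M : ℝ} (hM : 1 ≤ M) (j : ℕ) : ∑' l : ℕ, dec M j l ≤ 4 := by
  have h1 : ∀ l : ℕ, dec M j l ≤ dec 1 j l := fun l => dec_anti hM j l
  have h2 : ∑' l : ℕ, dec M j l ≤ ∑' l : ℕ, dec 1 j l := ENNReal.tsum_le_tsum h1
  have h3 : ∑' l : ℕ, dec 1 j l ≤ 4 :=
    split_tsum (fun l => dec 1 j l) j (tsum_dec_aux1 j) (tsum_dec_aux2 j)
  exact le_trans h2 h3

/-- Weighted sums of `dec`. -/
theorem tsum_dec_weight {M D : ℝ} (h : |D| + 1 ≤ M) (j : ℕ) :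
    ∑' l : ℕ, dec M j l * ENNReal.ofReal ((2 : ℝ) ^ ((l : ℝ) * D)) ≤
      4 * ENNReal.ofReal ((2 : ℝ) ^ ((j : ℝ) * D)) := by
  have h1 : ∀ l : ℕ, dec M j l * ENNReal.ofReal ((2 : ℝ) ^ ((l : ℝ) * D)) ≤
      dec (M - |D|) j l * ENNReal.ofReal ((2 : ℝ) ^ ((j : ℝ) * D)) := by
    intro l
    rw [dec, dec, ← ENNReal.ofReal_mul (by positivity), ← ENNReal.ofReal_mul (by positivity),
      ← Real.rpow_add (by norm_num), ← Real.rpow_add (by norm_num)]
    refine ENNReal.ofReal_le_ofReal (Real.rpow_le_rpow_of_exponent_le (by norm_num) ?_)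
    have h2 : ((l : ℝ) - j) * D ≤ |(j : ℝ) - l| * |D| := by
      rw [← abs_mul]
      have := le_abs_self (((l : ℝ) - j) * D)
      have h3 : |((l : ℝ) - j) * D| = |((j : ℝ) - l) * D| := by
        rw [abs_mul, abs_mul, abs_sub_comm]
      linarith
    nlinarith
  calc _ ≤ ∑' l : ℕ, dec (M - |D|) j l * ENNReal.ofReal ((2 : ℝ) ^ ((j : ℝ) * D)) :=
        ENNReal.tsum_le_tsum h1
    _ = (∑' l : ℕ, dec (M - |D|) j l) * ENNReal.ofReal ((2 : ℝ) ^ ((j : ℝ) * D)) :=
        ENNReal.tsum_mul_right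
    _ ≤ _ := by
        gcongr
        exact tsum_dec_le (by linarith) j

/-- The discrete convolution estimate. -/
theorem dec_conv {a b M m : ℝ} (hM : 0 ≤ M) (hm : 0 ≤ m) (ha : M + 1 ≤ a) (hb : M + m ≤ b)
    (k l : ℕ) :
    ∑' j : ℕ, ENNReal.ofReal ((2 : ℝ) ^ (-((j : ℝ) * m))) * (dec a j l * dec b j k) ≤
      4 * ENNReal.ofReal ((2 : ℝ) ^ (-((k : ℝ) * m))) * dec M k l := by
  have h1 : ∀ j : ℕ, ENNReal.ofReal ((2 : ℝ) ^ (-((j : ℝ) * m))) * dec m j k ≤
      ENNReal.ofReal ((2 : ℝ) ^ (-((k : ℝ) * m))) := by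
    intro j
    rw [dec, ← ENNReal.ofReal_mul (by positivity), ← Real.rpow_add (by norm_num)]
    refine ENNReal.ofReal_le_ofReal (Real.rpow_le_rpow_of_exponent_le (by norm_num) ?_)
    have h2 : (k : ℝ) - j ≤ |(j : ℝ) - k| := by
      rw [abs_sub_comm]; exact le_abs_self _
    nlinarith [mul_le_mul_of_nonneg_right h2 hm]
  have h2 : ∀ j : ℕ, ENNReal.ofReal ((2 : ℝ) ^ (-((j : ℝ) * m))) * (dec a j l * dec b j k) ≤
      ENNReal.ofReal ((2 : ℝ) ^ (-((k : ℝ) * m))) * dec M k l * dec (a - M) j l := by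
    intro j
    have e1 : dec a j l = dec M j l * dec (a - M) j l := by rw [← dec_add]; congr 1; ring
    have e2 : dec b j k = dec M j k * dec m j k * dec (b - M - m) j k := by
      rw [← dec_add, ← dec_add]; congr 1; ring
    have e3 : dec (b - M - m) j k ≤ 1 := dec_le_one (by linarith) j k
    rw [e1, e2]
    calc ENNReal.ofReal ((2 : ℝ) ^ (-((j : ℝ) * m))) *
          (dec M j l * dec (a - M) j l * (dec M j k * dec m j k * dec (b - M - m) j k))
        = (ENNReal.ofReal ((2 : ℝ) ^ (-((j : ℝ) * m))) * dec m j k) *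
          (dec M j l * dec M j k) * dec (a - M) j l * dec (b - M - m) j k := by ring
      _ ≤ ENNReal.ofReal ((2 : ℝ) ^ (-((k : ℝ) * m))) * dec M k l * dec (a - M) j l * 1 := by
          gcongr
          · exact h1 j
          · exact dec_triangle hM j k l
      _ = _ := by rw [mul_one]
  calc _ ≤ ∑' j : ℕ, ENNReal.ofReal ((2 : ℝ) ^ (-((k : ℝ) * m))) * dec M k l * dec (a - M) j l :=
        ENNReal.tsum_le_tsum h2
    _ = ENNReal.ofReal ((2 : ℝ) ^ (-((k : ℝ) * m))) * dec M k l * ∑' j : ℕ, dec (a - M) j l :=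
        ENNReal.tsum_mul_left
    _ ≤ ENNReal.ofReal ((2 : ℝ) ^ (-((k : ℝ) * m))) * dec M k l * 4 := by
        gcongr
        simp_rw [dec_comm (a - M) _ l]
        exact tsum_dec_le (by linarith) l
    _ = _ := by ring

/-! ### moments, reflections -/

theorem mom0_mono {L L' : ℕ} (h : L' ≤ L) {b : 𝓢(E n, ℂ)} (hb : Mom0 L b) : Mom0 L' b :=
  fun i hi T => hb i (lt_of_lt_of_le hi h) T

theorem mom0_reflS {L : ℕ} {b : 𝓢(E n, ℂ)} (hb : Mom0 L b) : Mom0 L (reflS b) := by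
  intro i hi T
  have h1 := hb i hi T
  have h2 : ∫ w, reflS b w * T (fun _ => w) = ∫ w, b w * T (fun _ => -w) := by
    rw [← integral_neg_eq_self (fun w => b w * T (fun _ => -w))]
    refine integral_congr_ae (Eventually.of_forall fun w => ?_)
    simp only [reflS_apply, neg_neg]
  rw [h2]
  have h3 : ∀ w : E n, T (fun _ => -w) = (-1 : ℝ) ^ i • T (fun _ => w) := by
    intro w
    have := T.map_smul_univ (fun _ : Fin i => (-1 : ℝ)) (fun _ => w)
    simp only [Finset.prod_const, Finset.card_univ, Fintype.card_fin, neg_smul, one_smul] at this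
    exact this
  simp_rw [h3, mul_smul_comm, integral_smul, h1, smul_zero]

theorem reflS_dilS {t : ℝ} (ht : t ≠ 0) (φ : 𝓢(E n, ℂ)) :
    reflS (dilS t φ) = dilS t (reflS φ) := by
  ext x
  rw [reflS_apply, dilS_apply ht, dilS_apply ht, reflS_apply, smul_neg]

theorem reflS_fam (a0 a1 : 𝓢(E n, ℂ)) (j : ℕ) :
    reflS (fam a0 a1 j) = fam (reflS a0) (reflS a1) j := by
  cases j with
  | zero => rfl
  | succ j => exact reflS_dilS (by positivity) a1

theorem smB_temperate {χ : E n → ℂ} (hχ : SmB χ) : χ.HasTemperateGrowth := by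
  refine ⟨hχ.1, fun k => ?_⟩
  obtain ⟨C, hC⟩ := hχ.2 k
  exact ⟨0, C, fun x => by simpa using hC x⟩

/-! ### infima -/

theorem le_mul_sum_iInf {α : Type*} {N : ℕ} (f : Fin N → α → ℝ≥0∞) (P : Fin N → α → Prop)
    (C : ℝ≥0) (hC : 0 < C) (X : ℝ≥0∞)
    (h : ∀ W : Fin N → α, (∀ i, P i (W i)) → X ≤ C * ∑ i, f i (W i)) :
    X ≤ C * ∑ i, ⨅ (v : α) (_ : P i v), f i v := by
  by_cases hfin : ∀ i, (⨅ (v : α) (_ : P i v), f i v) ≠ ⊤
  · refine ENNReal.le_of_forall_pos_le_add fun ε hε _ => ?_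
    have hN : (0 : ℝ≥0) < C * (N + 1) := by positivity
    set δ : ℝ≥0 := ε / (C * (N + 1)) with hδ
    have hδ0 : 0 < δ := div_pos hε hN
    have hex : ∀ i, ∃ v, P i v ∧ f i v ≤ (⨅ (v : α) (_ : P i v), f i v) + δ := by
      intro i
      have hlt : (⨅ (v : α) (_ : P i v), f i v) < (⨅ (v : α) (_ : P i v), f i v) + δ :=
        ENNReal.lt_add_right (hfin i) (by exact_mod_cast hδ0.ne')
      obtain ⟨v, hv⟩ := iInf_lt_iff.1 hlt
      obtain ⟨hv1, hv2⟩ := iInf_lt_iff.1 hv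
      exact ⟨v, hv1, hv2.le⟩
    choose W hW1 hW2 using hex
    calc X ≤ C * ∑ i, f i (W i) := h W hW1
      _ ≤ C * ∑ i, ((⨅ (v : α) (_ : P i v), f i v) + δ) := by
          gcongr with i _
          exact hW2 i
      _ = C * ∑ i, (⨅ (v : α) (_ : P i v), f i v) + C * (N * δ) := by
          rw [Finset.sum_add_distrib, mul_add]
          simp
      _ ≤ C * ∑ i, (⨅ (v : α) (_ : P i v), f i v) + ε := by
          gcongr
          have : C * (N * δ) ≤ ε := by
            rw [hδ]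
            have h1 : C * (N * (ε / (C * (N + 1)))) = (C * N / (C * (N + 1))) * ε := by
              field_simp
            rw [h1]
            have h2 : C * N / (C * (N + 1)) ≤ 1 := by
              rw [div_le_one hN]
              gcongr
              exact le_self_add
            calc _ ≤ 1 * ε := mul_le_mul_of_nonneg_right h2 ε.2
              _ = ε := one_mul _
          exact_mod_cast this
  · push Not at hfin
    obtain ⟨i, hi⟩ := hfin
    have : ∑ i, ⨅ (v : α) (_ : P i v), f i v = ⊤ := by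
      rw [ENNReal.sum_eq_top]
      exact ⟨i, Finset.mem_univ i, hi⟩
    rw [this, ENNReal.mul_top (by exact_mod_cast hC.ne')]
    exact le_top

end MP6db0a9
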